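import Pool.Agent.W_MP_6d5819_gt.Defs

set_option autoImplicit false

/-! The Riemannian distance in a chart is infinitesimally given by a smooth metric tensor. -/

open scoped Manifold ContDiff Topology ENNReal
open Set Filter MeasureTheory

namespace Pool.Agent.W_MP_6d5819_gt

section form

variable {E : Type} [NormedAddCommGroup E] [NormedSpace ℝ E]

theorem exists_coercive [FiniteDimensional ℝ E] (B : E →L[ℝ] E →L[ℝ] ℝ)
    (hpos : ∀ v : E, v ≠ 0 → 0 < B v v) : ∃ c : ℝ, 0 < c ∧ ∀ v, c * ‖v‖ ^ 2 ≤ B v v := by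
  rcases subsingleton_or_nontrivial E with hE | hE
  · refine ⟨1, one_pos, fun v => ?_⟩
    have : v = 0 := Subsingleton.elim _ _
    simp [this]
  · have hcomp : IsCompact (Metric.sphere (0 : E) 1) := isCompact_sphere 0 1
    have hne : (Metric.sphere (0 : E) 1).Nonempty := NormedSpace.sphere_nonempty.2 zero_le_one
    have hcont : ContinuousOn (fun v : E => B v v) (Metric.sphere 0 1) := by fun_prop
    obtain ⟨v₀, hv₀, hmin⟩ := hcomp.exists_isMinOn hne hcont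
    have hv₀' : v₀ ≠ 0 := by
      intro h
      rw [h] at hv₀
      simp at hv₀
    refine ⟨B v₀ v₀, hpos v₀ hv₀', fun v => ?_⟩
    by_cases hv : v = 0
    · simp [hv]
    · have hnv : ‖v‖ ≠ 0 := norm_ne_zero_iff.2 hv
      have h1 : ‖v‖⁻¹ • v ∈ Metric.sphere (0 : E) 1 := by
        rw [mem_sphere_zero_iff_norm, norm_smul, norm_inv, norm_norm, inv_mul_cancel₀ hnv]
      have h2 := hmin h1
      simp only [mem_ofPred_eq, map_smul, smul_apply, smul_eq_mul] at h2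
      have h3 : 0 < ‖v‖ ^ 2 := by positivity
      calc B v₀ v₀ * ‖v‖ ^ 2 ≤ (‖v‖⁻¹ * (‖v‖⁻¹ * B v v)) * ‖v‖ ^ 2 :=
            mul_le_mul_of_nonneg_right h2 h3.le
        _ = B v v := by field_simp

theorem near_aux {F : Type} [NormedAddCommGroup F] {g : E → F} {Ω : Set E} (hopen : IsOpen Ω)
    {p : E} (hp : p ∈ Ω) (hg : ContinuousAt g p) {η : ℝ} (hη : 0 < η) :
    ∃ r > 0, Metric.ball p r ⊆ Ω ∧ ∀ u ∈ Metric.ball p r, ‖g u - g p‖ ≤ η := by
  have h2 : ∀ᶠ u in 𝓝 p, dist (g u) (g p) < η := Metric.tendsto_nhds.1 hg η hη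
  obtain ⟨r, hr, hrs⟩ := Metric.eventually_nhds_iff_ball.1 (h2.and (hopen.mem_nhds hp))
  refine ⟨r, hr, fun u hu => (hrs u hu).2, fun u hu => ?_⟩
  rw [← dist_eq_norm]
  exact (hrs u hu).1.le

theorem exists_upper (B : E →L[ℝ] E →L[ℝ] ℝ) :
    ∃ K : ℝ, 0 ≤ K ∧ ∀ v, B v v ≤ K * ‖v‖ ^ 2 := by
  refine ⟨‖B‖, norm_nonneg B, fun v => ?_⟩
  calc B v v ≤ ‖B v v‖ := Real.le_norm_self _
    _ ≤ ‖B‖ * ‖v‖ * ‖v‖ := B.le_opNorm₂ v v
    _ = ‖B‖ * ‖v‖ ^ 2 := by ring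

theorem exists_ball_near {G : E → E →L[ℝ] E →L[ℝ] ℝ} {Ω : Set E} (hopen : IsOpen Ω)
    (hGs : ContDiffOn ℝ 2 G Ω) {p : E} (hp : p ∈ Ω) {η : ℝ} (hη : 0 < η) :
    ∃ r > 0, Metric.ball p r ⊆ Ω ∧
      ∀ u ∈ Metric.ball p r, ∀ v, |G u v v - G p v v| ≤ η * ‖v‖ ^ 2 := by
  have h1 : ContinuousAt G p := hGs.continuousOn.continuousAt (hopen.mem_nhds hp)
  obtain ⟨r, hr, hrs, hn⟩ := near_aux (F := E →L[ℝ] E →L[ℝ] ℝ) hopen hp h1 hη
  refine ⟨r, hr, hrs, fun u hu v => ?_⟩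
  have h3 : ‖G u - G p‖ ≤ η := hn u hu
  have h1 : G u v v - G p v v = (G u - G p) v v := by simp
  rw [h1, ← Real.norm_eq_abs]
  calc ‖(G u - G p) v v‖ ≤ ‖G u - G p‖ * ‖v‖ * ‖v‖ := (G u - G p).le_opNorm₂ v v
    _ ≤ η * ‖v‖ * ‖v‖ := by gcongr
    _ = η * ‖v‖ ^ 2 := by ring

end form

section chart

open Bundle

variable {E : Type} [NormedAddCommGroup E] [NormedSpace ℝ E] {M : Type} [MetricSpace M]
    [ChartedSpace E M] [IsManifold 𝓘(ℝ, E) ∞ M]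
    [RiemannianBundle (fun x : M ↦ TangentSpace 𝓘(ℝ, E) x)]
    [IsContMDiffRiemannianBundle 𝓘(ℝ, E) ∞ E (fun x : M ↦ TangentSpace 𝓘(ℝ, E) x)]

variable (M) in
theorem exists_tensor (x₀ : M) : ∃ G : E → E →L[ℝ] E →L[ℝ] ℝ,
    ContDiffOn ℝ 2 G (extChartAt 𝓘(ℝ, E) x₀).target ∧
    ∀ m ∈ (chartAt E x₀).source, ∀ v w : E,
      G (extChartAt 𝓘(ℝ, E) x₀ m) v w =
        inner ℝ ((trivializationAt E (TangentSpace 𝓘(ℝ, E)) x₀).symmL ℝ m v)
          ((trivializationAt E (TangentSpace 𝓘(ℝ, E)) x₀).symmL ℝ m w) := by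
  obtain ⟨g, hg, hgi⟩ := (inferInstance : IsContMDiffRiemannianBundle 𝓘(ℝ, E) ∞
    E (fun x : M ↦ TangentSpace 𝓘(ℝ, E) x)).exists_contMDiff
  set g' : M → E →L[ℝ] E →L[ℝ] ℝ := fun m =>
    ContinuousLinearMap.inCoordinates E (fun x : M ↦ TangentSpace 𝓘(ℝ, E) x)
      (E →L[ℝ] ℝ) (fun x : M ↦ TangentSpace 𝓘(ℝ, E) x →L[ℝ] ℝ) x₀ m x₀ m (g m)
    with hg'
  refine ⟨fun u => g' ((extChartAt 𝓘(ℝ, E) x₀).symm u), ?_, ?_⟩
  · have h1 : ContMDiffOn 𝓘(ℝ, E) 𝓘(ℝ, E →L[ℝ] E →L[ℝ] ℝ) ∞ g' (chartAt E x₀).source := by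
      have h2 := (Bundle.Trivialization.contMDiffOn_section_iff
        (IB := 𝓘(ℝ, E)) (n := ∞) (s := g) (a := (chartAt E x₀).source)
        (trivializationAt (E →L[ℝ] E →L[ℝ] ℝ)
          (fun x : M ↦ TangentSpace 𝓘(ℝ, E) x →L[ℝ] TangentSpace 𝓘(ℝ, E) x →L[ℝ] ℝ) x₀)
        (chartAt E x₀).open_source (by simp)).1 hg.contMDiffOn
      exact h2
    have h3 : ContMDiffOn 𝓘(ℝ, E) 𝓘(ℝ, E) ∞ (extChartAt 𝓘(ℝ, E) x₀).symm
        (extChartAt 𝓘(ℝ, E) x₀).target := contMDiffOn_extChartAt_symm x₀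
    have h4 := h1.comp h3 (fun u hu => by
      have := (extChartAt 𝓘(ℝ, E) x₀).map_target hu
      rwa [extChartAt_source] at this)
    refine (contMDiffOn_iff_contDiffOn.1 h4).of_le ?_
    have : ((2 : ℕ∞) : ℕ∞ω) ≤ ((⊤ : ℕ∞) : ℕ∞ω) := WithTop.coe_le_coe.2 le_top
    exact this
  · intro m hm v w
    have hleft : (extChartAt 𝓘(ℝ, E) x₀).symm (extChartAt 𝓘(ℝ, E) x₀ m) = m :=
      (extChartAt 𝓘(ℝ, E) x₀).left_inv (by rwa [extChartAt_source])
    have hb : m ∈ (trivializationAt E (fun x : M ↦ TangentSpace 𝓘(ℝ, E) x) x₀).baseSet := hm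
    change g' ((extChartAt 𝓘(ℝ, E) x₀).symm (extChartAt 𝓘(ℝ, E) x₀ m)) v w = _
    rw [hleft, hgi, hg']
    rw [inCoordinates_apply_eq₂ hb hb (Set.mem_univ _)]
    rw [Trivialization.symmL_apply _ hb, Trivialization.symmL_apply _ hb]
    simp

/-- The norm of a tangent vector in terms of the metric tensor, via the derivative of the chart. -/
theorem norm_sq_eq {x₀ : M} {G : E → E →L[ℝ] E →L[ℝ] ℝ}
    (hG : ∀ m ∈ (chartAt E x₀).source, ∀ v w : E,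
      G (extChartAt 𝓘(ℝ, E) x₀ m) v w =
        inner ℝ ((trivializationAt E (TangentSpace 𝓘(ℝ, E)) x₀).symmL ℝ m v)
          ((trivializationAt E (TangentSpace 𝓘(ℝ, E)) x₀).symmL ℝ m w))
    {m : M} (hm : m ∈ (chartAt E x₀).source) (V : TangentSpace 𝓘(ℝ, E) m) :
    ‖V‖ ^ 2 = G (extChartAt 𝓘(ℝ, E) x₀ m)
      (mfderiv 𝓘(ℝ, E) 𝓘(ℝ, E) (extChartAt 𝓘(ℝ, E) x₀) m V)
      (mfderiv 𝓘(ℝ, E) 𝓘(ℝ, E) (extChartAt 𝓘(ℝ, E) x₀) m V) := by
  have hb : m ∈ (trivializationAt E (fun x : M ↦ TangentSpace 𝓘(ℝ, E) x) x₀).baseSet := hm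
  rw [← TangentBundle.continuousLinearMapAt_trivializationAt hm]
  erw [hG m hm]
  erw [Trivialization.symmL_continuousLinearMapAt _ hb]
  rw [real_inner_self_eq_norm_sq]

/-- The norm of the image of a vector under the derivative of the inverse chart. -/
theorem norm_sq_symm_eq {x₀ : M} {G : E → E →L[ℝ] E →L[ℝ] ℝ}
    (hG : ∀ m ∈ (chartAt E x₀).source, ∀ v w : E,
      G (extChartAt 𝓘(ℝ, E) x₀ m) v w =
        inner ℝ ((trivializationAt E (TangentSpace 𝓘(ℝ, E)) x₀).symmL ℝ m v)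
          ((trivializationAt E (TangentSpace 𝓘(ℝ, E)) x₀).symmL ℝ m w))
    {u : E} (hu : u ∈ (extChartAt 𝓘(ℝ, E) x₀).target) (v : E) :
    ‖(mfderiv[range 𝓘(ℝ, E)] (extChartAt 𝓘(ℝ, E) x₀).symm u : E →L[ℝ] TangentSpace 𝓘(ℝ, E)
      ((extChartAt 𝓘(ℝ, E) x₀).symm u)) v‖ ^ 2 = G u v v := by
  have hm : (extChartAt 𝓘(ℝ, E) x₀).symm u ∈ (chartAt E x₀).source := by
    have := (extChartAt 𝓘(ℝ, E) x₀).map_target hu
    rwa [extChartAt_source] at this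
  have hr : extChartAt 𝓘(ℝ, E) x₀ ((extChartAt 𝓘(ℝ, E) x₀).symm u) = u :=
    (extChartAt 𝓘(ℝ, E) x₀).right_inv hu
  have h1 := hG _ hm v v
  rw [hr, real_inner_self_eq_norm_sq, TangentBundle.symmL_trivializationAt hm, hr] at h1
  exact h1.symm

open Manifold in
/-- Upper bound for the distance by the segment in the chart. -/
theorem riemannianEDist_le_of_segment {x₀ : M} {G : E → E →L[ℝ] E →L[ℝ] ℝ}
    (hG : ∀ m ∈ (chartAt E x₀).source, ∀ v w : E,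
      G (extChartAt 𝓘(ℝ, E) x₀ m) v w =
        inner ℝ ((trivializationAt E (TangentSpace 𝓘(ℝ, E)) x₀).symmL ℝ m v)
          ((trivializationAt E (TangentSpace 𝓘(ℝ, E)) x₀).symmL ℝ m w))
    {u v : E} {C : ℝ} (hC : 0 ≤ C)
    (hseg : ∀ w ∈ segment ℝ u v, w ∈ (extChartAt 𝓘(ℝ, E) x₀).target ∧ G w (v - u) (v - u) ≤ C ^ 2) :
    riemannianEDist 𝓘(ℝ, E) ((extChartAt 𝓘(ℝ, E) x₀).symm u) ((extChartAt 𝓘(ℝ, E) x₀).symm v)
      ≤ ENNReal.ofReal C := by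
  let η := ContinuousAffineMap.lineMap (R := ℝ) u v
  set γ := (extChartAt 𝓘(ℝ, E) x₀).symm ∘ η with hγ
  have hηseg : ∀ t ∈ Icc (0 : ℝ) 1, η t ∈ segment ℝ u v := by
    intro t ht
    rw [segment_eq_image_lineMap]
    exact ⟨t, ht, rfl⟩
  have hη : Icc (0 : ℝ) 1 ⊆ ⇑η ⁻¹' (extChartAt 𝓘(ℝ, E) x₀).target :=
    fun t ht => (hseg _ (hηseg t ht)).1
  have η_smooth : ContMDiffOn 𝓘(ℝ, ℝ) 𝓘(ℝ, E) 1 η (Icc 0 1) := by
    apply ContMDiff.contMDiffOn
    rw [contMDiff_iff_contDiff]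
    exact ContinuousAffineMap.contDiff _
  have h1 : riemannianEDist 𝓘(ℝ, E) ((extChartAt 𝓘(ℝ, E) x₀).symm u)
      ((extChartAt 𝓘(ℝ, E) x₀).symm v) ≤ pathELength 𝓘(ℝ, E) γ 0 1 := by
    apply riemannianEDist_le_pathELength _ _ _ zero_le_one
    · exact (contMDiffOn_extChartAt_symm x₀).comp η_smooth hη
    · simp [γ, η, ContinuousAffineMap.coe_lineMap_eq]
    · simp [γ, η, ContinuousAffineMap.coe_lineMap_eq]
  refine h1.trans ?_
  rw [pathELength_eq_lintegral_mfderivWithin_Icc]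
  have h2 : ∀ t ∈ Icc (0 : ℝ) 1, ‖mfderiv[Icc 0 1] γ t 1‖ₑ ≤ ENNReal.ofReal C := by
    intro t ht
    have h3 : mfderiv[Icc 0 1] γ t =
      (mfderiv[range 𝓘(ℝ, E)] (extChartAt 𝓘(ℝ, E) x₀).symm (η t)) ∘L (mfderiv[Icc 0 1] η t) := by
      apply mfderivWithin_comp
      · exact mdifferentiableWithinAt_extChartAt_symm (hη ht)
      · exact η_smooth.mdifferentiableOn one_ne_zero t ht
      · exact hη.trans (preimage_mono (extChartAt_target_subset_range x₀))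
      · rw [uniqueMDiffWithinAt_iff_uniqueDiffWithinAt]
        exact uniqueDiffOn_Icc zero_lt_one t ht
    have h4 : mfderiv[Icc 0 1] γ t 1 =
      (mfderiv[range 𝓘(ℝ, E)] (extChartAt 𝓘(ℝ, E) x₀).symm (η t)) (mfderiv[Icc 0 1] η t 1) :=
      congr($h3 1)
    have h50 : v - u = fderiv ℝ (ContinuousAffineMap.lineMap (R := ℝ) u v) t 1 := by simp
    have h5 : (mfderiv[Icc 0 1] η t 1 : E) = v - u := by
      rw [mfderivWithin_eq_fderivWithin, fderivWithin_eq_fderiv (uniqueDiffOn_Icc zero_lt_one _ ht)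
        (ContinuousAffineMap.differentiableAt _)]
      exact h50.symm
    have h6 := norm_sq_symm_eq hG (hη ht) (v - u)
    have h7 := (hseg _ (hηseg t ht)).2
    rw [← h6] at h7
    have h8 := abs_le_of_sq_le_sq' h7 hC
    rw [h4, ← ofReal_norm]
    apply ENNReal.ofReal_le_ofReal
    have h9 := h8.2
    rw [← h5] at h9
    exact h9
  calc ∫⁻ t in Icc (0 : ℝ) 1, ‖mfderiv[Icc 0 1] γ t 1‖ₑ
      ≤ ∫⁻ t in Icc (0 : ℝ) 1, ENNReal.ofReal C := setLIntegral_mono' measurableSet_Icc h2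
    _ = ENNReal.ofReal C := by simp

open Manifold in
/-- Lower bound for the length of a path in the chart. -/
theorem enorm_le_pathELength {x₀ : M} {G : E → E →L[ℝ] E →L[ℝ] ℝ}
    (hG : ∀ m ∈ (chartAt E x₀).source, ∀ v w : E,
      G (extChartAt 𝓘(ℝ, E) x₀ m) v w =
        inner ℝ ((trivializationAt E (TangentSpace 𝓘(ℝ, E)) x₀).symmL ℝ m v)
          ((trivializationAt E (TangentSpace 𝓘(ℝ, E)) x₀).symmL ℝ m w))
    {γ : ℝ → M} (hγ : ContMDiffOn 𝓘(ℝ, ℝ) 𝓘(ℝ, E) 1 γ (Icc 0 1))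
    (hs : ∀ t ∈ Icc (0 : ℝ) 1, γ t ∈ (chartAt E x₀).source) (l : E →L[ℝ] ℝ) {C : ℝ} (hC : 0 ≤ C)
    (hl : ∀ t ∈ Icc (0 : ℝ) 1, ∀ v : E, (l v) ^ 2 ≤ C ^ 2 * G (extChartAt 𝓘(ℝ, E) x₀ (γ t)) v v) :
    ‖l (extChartAt 𝓘(ℝ, E) x₀ (γ 1)) - l (extChartAt 𝓘(ℝ, E) x₀ (γ 0))‖ₑ ≤
      ENNReal.ofReal C * pathELength 𝓘(ℝ, E) γ 0 1 := by
  let γ' := extChartAt 𝓘(ℝ, E) x₀ ∘ γ
  have hγ' : ContMDiffOn 𝓘(ℝ, ℝ) 𝓘(ℝ, E) 1 γ' (Icc 0 1) :=
    contMDiffOn_extChartAt.comp (I' := 𝓘(ℝ, E)) (t := (chartAt E x₀).source) hγ hs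
  have hγ'' : ContDiffOn ℝ 1 γ' (Icc 0 1) := contMDiffOn_iff_contDiffOn.1 hγ'
  have hf : ContDiffOn ℝ 1 (l ∘ γ') (Icc 0 1) := l.contDiff.comp_contDiffOn hγ''
  calc ‖l (extChartAt 𝓘(ℝ, E) x₀ (γ 1)) - l (extChartAt 𝓘(ℝ, E) x₀ (γ 0))‖ₑ
      ≤ ∫⁻ t in Icc (0 : ℝ) 1, ‖derivWithin (l ∘ γ') (Icc 0 1) t‖ₑ :=
        enorm_sub_le_lintegral_derivWithin_Icc_of_contDiffOn_Icc hf zero_le_one
    _ ≤ ∫⁻ t in Icc (0 : ℝ) 1, ENNReal.ofReal C * ‖mfderiv[Icc 0 1] γ t 1‖ₑ := by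
      apply setLIntegral_mono' measurableSet_Icc (fun t ht ↦ ?_)
      have h1 : mfderiv[Icc 0 1] γ' t =
          (mfderiv% (extChartAt 𝓘(ℝ, E) x₀) (γ t)) ∘L (mfderiv[Icc 0 1] γ t) := by
        apply mfderiv_comp_mfderivWithin
        · exact mdifferentiableAt_extChartAt (hs t ht)
        · exact hγ.mdifferentiableOn one_ne_zero t ht
        · rw [uniqueMDiffWithinAt_iff_uniqueDiffWithinAt]
          exact uniqueDiffOn_Icc zero_lt_one _ ht
      have h2 : mfderiv[Icc 0 1] γ' t 1 =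
          (mfderiv% (extChartAt 𝓘(ℝ, E) x₀) (γ t)) (mfderiv[Icc 0 1] γ t 1) :=
        congr($h1 1)
      have h3 : derivWithin (l ∘ γ') (Icc 0 1) t = l (mfderiv[Icc 0 1] γ' t 1) := by
        have h4 : HasDerivWithinAt γ' (derivWithin γ' (Icc 0 1) t) (Icc 0 1) t :=
          (hγ''.differentiableOn one_ne_zero t ht).hasDerivWithinAt
        have h5 := (l.hasFDerivAt (x := γ' t)).comp_hasDerivWithinAt t h4
        rw [h5.derivWithin (uniqueDiffOn_Icc zero_lt_one _ ht)]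
        rw [mfderivWithin_eq_fderivWithin, ← fderivWithin_derivWithin]
        rfl
      have h6 := hl t ht (mfderiv% (extChartAt 𝓘(ℝ, E) x₀) (γ t) (mfderiv[Icc 0 1] γ t 1))
      rw [← norm_sq_eq hG (hs t ht), ← mul_pow] at h6
      have h7 := abs_le_of_sq_le_sq h6 (mul_nonneg hC (norm_nonneg _))
      rw [h3, h2, ← ofReal_norm, ← ofReal_norm, ← ENNReal.ofReal_mul hC]
      apply ENNReal.ofReal_le_ofReal
      exact h7
    _ = ENNReal.ofReal C * pathELength 𝓘(ℝ, E) γ 0 1 := by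
      rw [lintegral_const_mul' _ _ ENNReal.ofReal_ne_top,
          pathELength_eq_lintegral_mfderivWithin_Icc]

variable (M) in
theorem exists_chart_metric_aux [FiniteDimensional ℝ E] [IsRiemannianManifold 𝓘(ℝ, E) M] (x₀ : M) :
    ∃ G : E → E →L[ℝ] E →L[ℝ] ℝ,
      LocalMetric (extChartAt 𝓘(ℝ, E) x₀).target G
        (fun u v => dist ((extChartAt 𝓘(ℝ, E) x₀).symm u) ((extChartAt 𝓘(ℝ, E) x₀).symm v)) := by
  obtain ⟨G, hGs, hG⟩ := exists_tensor (E := E) M x₀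
  have hsrc : ∀ u ∈ (extChartAt 𝓘(ℝ, E) x₀).target,
      (extChartAt 𝓘(ℝ, E) x₀).symm u ∈ (chartAt E x₀).source := by
    intro u hu
    have := (extChartAt 𝓘(ℝ, E) x₀).map_target hu
    rwa [extChartAt_source] at this
  have hG' : ∀ u ∈ (extChartAt 𝓘(ℝ, E) x₀).target, ∀ v w : E, G u v w =
        inner ℝ ((trivializationAt E (TangentSpace 𝓘(ℝ, E)) x₀).symmL ℝ
          ((extChartAt 𝓘(ℝ, E) x₀).symm u) v)
          ((trivializationAt E (TangentSpace 𝓘(ℝ, E)) x₀).symmL ℝ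
          ((extChartAt 𝓘(ℝ, E) x₀).symm u) w) := by
    intro u hu v w
    have := hG _ (hsrc u hu) v w
    rwa [(extChartAt 𝓘(ℝ, E) x₀).right_inv hu] at this
  have hsymm : ∀ u ∈ (extChartAt 𝓘(ℝ, E) x₀).target, ∀ v w : E, G u v w = G u w v := by
    intro u hu v w
    rw [hG' u hu, hG' u hu, real_inner_comm]
  have hpos : ∀ u ∈ (extChartAt 𝓘(ℝ, E) x₀).target, ∀ v : E, v ≠ 0 → 0 < G u v v := by
    intro u hu v hv
    rw [hG' u hu, real_inner_self_eq_norm_sq]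
    have hb : (extChartAt 𝓘(ℝ, E) x₀).symm u ∈
      (trivializationAt E (fun x : M ↦ TangentSpace 𝓘(ℝ, E) x) x₀).baseSet := hsrc u hu
    have : (trivializationAt E (TangentSpace 𝓘(ℝ, E)) x₀).symmL ℝ
          ((extChartAt 𝓘(ℝ, E) x₀).symm u) v ≠ 0 := by
      intro h0
      have h1 := Trivialization.continuousLinearMapAt_symmL (R := ℝ) _ hb v
      rw [h0, map_zero] at h1
      exact hv h1.symm
    positivity
  have hcs : ∀ u ∈ (extChartAt 𝓘(ℝ, E) x₀).target, ∀ v w : E,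
      (G u v w) ^ 2 ≤ G u v v * G u w w := by
    intro u hu v w
    rw [hG' u hu, hG' u hu, hG' u hu, sq]
    exact real_inner_mul_inner_self_le _ _
  refine ⟨G, isOpen_extChartAt_target x₀, hGs, hsymm, hpos, fun u _ v _ => dist_comm _ _,
    fun u _ v _ w _ => dist_triangle _ _ _, ?_⟩
  intro p hp ε hε
  have hopen : IsOpen (extChartAt 𝓘(ℝ, E) x₀).target := isOpen_extChartAt_target x₀
  set N : E → ℝ := fun v => √(G p v v) with hN
  have hGnn : ∀ v, 0 ≤ G p v v := by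
    intro v
    by_cases hv : v = 0
    · simp [hv]
    · exact (hpos p hp v hv).le
  obtain ⟨c, hc, hcG⟩ := exists_coercive (G p) (hpos p hp)
  obtain ⟨K, hK0, hKG⟩ := exists_upper (G p)
  -- the accuracy
  obtain ⟨η, hη, hηc, hηε, hηK⟩ : ∃ η : ℝ, 0 < η ∧ η < c ∧ √η ≤ ε ∧ η / c * √K ≤ ε := by
    refine ⟨min (c / 2) (min (ε ^ 2) (ε * c / (√K + 1))), ?_, ?_, ?_, ?_⟩
    · have : 0 < √K + 1 := by positivity
      positivity
    · exact (min_le_left _ _).trans_lt (by linarith)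
    · rw [Real.sqrt_le_left hε.le]
      exact (min_le_right _ _).trans (min_le_left _ _)
    · have h1 : 0 < √K + 1 := by positivity
      have h2 : min (c / 2) (min (ε ^ 2) (ε * c / (√K + 1))) ≤ ε * c / (√K + 1) :=
        (min_le_right _ _).trans (min_le_right _ _)
      calc min (c / 2) (min (ε ^ 2) (ε * c / (√K + 1))) / c * √K
          ≤ ε * c / (√K + 1) / c * √K := by gcongr
        _ = ε * (√K / (√K + 1)) := by field_simp
        _ ≤ ε * 1 := by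
            gcongr
            rw [div_le_one h1]
            linarith
        _ = ε := mul_one _
  -- a small ball
  obtain ⟨r, hr, hrΩ, hdiff⟩ := exists_ball_near hopen hGs hp hη
  -- the neighbourhood in `M`
  set mp : M := (extChartAt 𝓘(ℝ, E) x₀).symm p with hmp
  have hmps : mp ∈ (extChartAt 𝓘(ℝ, E) x₀).source := (extChartAt 𝓘(ℝ, E) x₀).map_target hp
  have hmpp : extChartAt 𝓘(ℝ, E) x₀ mp = p := (extChartAt 𝓘(ℝ, E) x₀).right_inv hp
  have hU : {m : M | m ∈ (extChartAt 𝓘(ℝ, E) x₀).source ∧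
      extChartAt 𝓘(ℝ, E) x₀ m ∈ Metric.ball p r} ∈ 𝓝 mp := by
    have h1 : (extChartAt 𝓘(ℝ, E) x₀).source ∈ 𝓝 mp :=
      (isOpen_extChartAt_source x₀).mem_nhds hmps
    have h2 : ContinuousAt (extChartAt 𝓘(ℝ, E) x₀) mp := continuousAt_extChartAt' hmps
    have h3 : Metric.ball p r ∈ 𝓝 (extChartAt 𝓘(ℝ, E) x₀ mp) := by
      rw [hmpp]
      exact Metric.ball_mem_nhds p hr
    exact inter_mem h1 (h2.preimage_mem_nhds h3)
  obtain ⟨R, hR, hRU⟩ := Metric.mem_nhds_iff.1 hU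
  have hsymc : ContinuousAt (extChartAt 𝓘(ℝ, E) x₀).symm p := continuousAt_extChartAt_symm'' hp
  have hnear : ∀ᶠ q in 𝓝 p, q ∈ Metric.ball p r ∧
      (extChartAt 𝓘(ℝ, E) x₀).symm q ∈ Metric.ball mp (R / 4) := by
    have e1 : ∀ᶠ q in 𝓝 p, q ∈ Metric.ball p r := Metric.ball_mem_nhds p hr
    have e2 : ∀ᶠ q in 𝓝 p, (extChartAt 𝓘(ℝ, E) x₀).symm q ∈ Metric.ball mp (R / 4) :=
      hsymc.preimage_mem_nhds (Metric.ball_mem_nhds _ (by positivity))
    exact e1.and e2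
  have hnear2 : ∀ᶠ q : E × E in 𝓝 (p, p), (q.1 ∈ Metric.ball p r ∧
      (extChartAt 𝓘(ℝ, E) x₀).symm q.1 ∈ Metric.ball mp (R / 4)) ∧ (q.2 ∈ Metric.ball p r ∧
      (extChartAt 𝓘(ℝ, E) x₀).symm q.2 ∈ Metric.ball mp (R / 4)) := by
    rw [nhds_prod_eq]
    exact hnear.prod_mk hnear
  filter_upwards [hnear2] with q hq
  obtain ⟨⟨hq1, hq1'⟩, hq2, hq2'⟩ := hq
  obtain ⟨u, v⟩ := q
  simp only at hq1 hq1' hq2 hq2' ⊢
  have huΩ := hrΩ hq1
  have hvΩ := hrΩ hq2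
  have hnormeq : ‖u - v‖ = ‖v - u‖ := norm_sub_rev u v
  have hNeq : G p (u - v) (u - v) = G p (v - u) (v - u) := by
    have : u - v = -(v - u) := by abel
    rw [this, map_neg, map_neg, neg_apply, neg_neg]
  rw [hNeq, hnormeq]
  set w := v - u with hw
  set δ := dist ((extChartAt 𝓘(ℝ, E) x₀).symm u) ((extChartAt 𝓘(ℝ, E) x₀).symm v) with hδ
  have hδ' : ENNReal.ofReal δ = Manifold.riemannianEDist 𝓘(ℝ, E)
      ((extChartAt 𝓘(ℝ, E) x₀).symm u) ((extChartAt 𝓘(ℝ, E) x₀).symm v) := by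
    rw [hδ, ← edist_dist, IsRiemannianManifold.out (I := 𝓘(ℝ, E))]
  have hNw : (√(G p w w)) ^ 2 = G p w w := Real.sq_sqrt (hGnn w)
  -- upper bound
  have hup : δ ≤ √(G p w w) + √η * ‖w‖ := by
    have hC : 0 ≤ √(G p w w) + √η * ‖w‖ := by positivity
    rw [← ENNReal.ofReal_le_ofReal_iff hC, hδ']
    apply riemannianEDist_le_of_segment hG hC
    intro z hz
    have hzb : z ∈ Metric.ball p r := (convex_ball p r).segment_subset hq1 hq2 hz
    refine ⟨hrΩ hzb, ?_⟩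
    have h1 := (abs_le.1 (hdiff z hzb w)).2
    have h2 : (√η) ^ 2 = η := Real.sq_sqrt hη.le
    have h3 : 0 ≤ √(G p w w) * (√η * ‖w‖) := by positivity
    calc G z w w ≤ G p w w + η * ‖w‖ ^ 2 := by linarith
      _ = (√(G p w w)) ^ 2 + (√η) ^ 2 * ‖w‖ ^ 2 := by rw [hNw, h2]
      _ ≤ (√(G p w w) + √η * ‖w‖) ^ 2 := by nlinarith
  -- lower bound
  set θ : ℝ := 1 - η / c with hθ
  have hηc1 : η / c < 1 := (div_lt_one hc).2 hηc
  have hηc0 : 0 < η / c := by positivity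
  have hθ0 : 0 < θ := by rw [hθ]; linarith
  have hθ1 : θ ≤ 1 := by rw [hθ]; linarith
  have hcomp : ∀ z ∈ Metric.ball p r, ∀ x : E, θ * G p x x ≤ G z x x := by
    intro z hz x
    have h1 := (abs_le.1 (hdiff z hz x)).1
    have h2 : η * ‖x‖ ^ 2 ≤ η / c * G p x x := by
      calc η * ‖x‖ ^ 2 = η / c * (c * ‖x‖ ^ 2) := by field_simp
        _ ≤ η / c * G p x x := by
          have := hcG x
          gcongr
    rw [hθ]
    linarith
  set C : ℝ := √(G p w w) / √θ with hC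
  have hC0 : 0 ≤ C := by positivity
  have hC2 : C ^ 2 = G p w w / θ := by
    rw [hC, div_pow, hNw, Real.sq_sqrt hθ0.le]
  have hδR : δ < R / 2 := by
    have h1 : δ ≤ dist ((extChartAt 𝓘(ℝ, E) x₀).symm u) mp +
        dist mp ((extChartAt 𝓘(ℝ, E) x₀).symm v) := dist_triangle _ _ _
    rw [Metric.mem_ball] at hq1' hq2'
    rw [dist_comm mp] at h1
    linarith
  have hpath : ∀ r' : ℝ, δ < r' → r' ≤ R / 2 → G p w w ≤ C * r' := by
    intro r' hr' hr'R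
    have hr'0 : 0 < r' := lt_of_le_of_lt dist_nonneg hr'
    have h1 : Manifold.riemannianEDist 𝓘(ℝ, E)
      ((extChartAt 𝓘(ℝ, E) x₀).symm u) ((extChartAt 𝓘(ℝ, E) x₀).symm v) < ENNReal.ofReal r' := by
      rw [← hδ']
      exact (ENNReal.ofReal_lt_ofReal_iff hr'0).2 hr'
    obtain ⟨γ, hγ0, hγ1, hγ, hlen⟩ := Manifold.exists_lt_of_riemannianEDist_lt h1
    have hin : ∀ t ∈ Icc (0 : ℝ) 1, γ t ∈ Metric.ball mp R := by
      intro t ht
      have h2 : Manifold.riemannianEDist 𝓘(ℝ, E) ((extChartAt 𝓘(ℝ, E) x₀).symm u) (γ t) ≤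
          Manifold.pathELength 𝓘(ℝ, E) γ 0 t :=
        Manifold.riemannianEDist_le_pathELength
          (hγ.mono (Icc_subset_Icc le_rfl ht.2)) hγ0 rfl ht.1
      have h3 : Manifold.pathELength 𝓘(ℝ, E) γ 0 t ≤ Manifold.pathELength 𝓘(ℝ, E) γ 0 1 :=
        Manifold.pathELength_mono le_rfl ht.2
      have h4 := (h2.trans h3).trans_lt hlen
      rw [← IsRiemannianManifold.out (I := 𝓘(ℝ, E)), edist_dist,
        ENNReal.ofReal_lt_ofReal_iff hr'0] at h4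
      rw [Metric.mem_ball] at hq1' ⊢
      have h5 := dist_triangle (γ t) ((extChartAt 𝓘(ℝ, E) x₀).symm u) mp
      rw [dist_comm (γ t) ((extChartAt 𝓘(ℝ, E) x₀).symm u)] at h5
      linarith
    have hs : ∀ t ∈ Icc (0 : ℝ) 1, γ t ∈ (chartAt E x₀).source := by
      intro t ht
      have := (hRU (hin t ht)).1
      rwa [extChartAt_source] at this
    have h6 := enorm_le_pathELength hG hγ hs (G p w) hC0 (by
      intro t ht x
      have h7 := hcs p hp w x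
      have h8 := hcomp _ (hRU (hin t ht)).2 x
      rw [hC2]
      calc (G p w x) ^ 2 ≤ G p w w * G p x x := h7
        _ = G p w w / θ * (θ * G p x x) := by field_simp
        _ ≤ G p w w / θ * G (extChartAt 𝓘(ℝ, E) x₀ (γ t)) x x := by
          have := hGnn w
          gcongr)
    rw [hγ0, hγ1, (extChartAt 𝓘(ℝ, E) x₀).right_inv huΩ,
      (extChartAt 𝓘(ℝ, E) x₀).right_inv hvΩ, ← map_sub, ← hw] at h6
    have h9 : ENNReal.ofReal (G p w w) ≤ ENNReal.ofReal (C * r') := by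
      calc ENNReal.ofReal (G p w w) = ‖G p w w‖ₑ := by
            rw [← ofReal_norm, Real.norm_of_nonneg (hGnn w)]
        _ ≤ _ := h6
        _ ≤ ENNReal.ofReal C * ENNReal.ofReal r' := by gcongr
        _ = ENNReal.ofReal (C * r') := (ENNReal.ofReal_mul hC0).symm
    exact (ENNReal.ofReal_le_ofReal_iff (by positivity)).1 h9
  have hlow1 : G p w w ≤ C * δ := by
    have h1 : ∀ᶠ r' in 𝓝[>] δ, G p w w ≤ C * r' := by
      have h2 : Ioo δ (R / 2) ∈ 𝓝[>] δ := Ioo_mem_nhdsGT hδR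
      filter_upwards [h2] with r' hr'
      exact hpath r' hr'.1 hr'.2.le
    have h3 : Tendsto (fun r' => C * r') (𝓝[>] δ) (𝓝 (C * δ)) :=
      ((continuous_const.mul continuous_id).tendsto δ).mono_left nhdsWithin_le_nhds
    exact ge_of_tendsto h3 h1
  have hlow : θ * √(G p w w) ≤ δ := by
    rcases (Real.sqrt_nonneg (G p w w)).eq_or_lt with h0 | h0
    · rw [← h0, mul_zero]
      exact dist_nonneg
    · have hsθ : 0 < √θ := Real.sqrt_pos.2 hθ0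
      have h1 : √(G p w w) * √(G p w w) ≤ √(G p w w) * (δ / √θ) := by
        calc √(G p w w) * √(G p w w) = G p w w := by rw [← sq, hNw]
          _ ≤ C * δ := hlow1
          _ = √(G p w w) * (δ / √θ) := by rw [hC]; ring
      have h2 := le_of_mul_le_mul_left h1 h0
      rw [le_div_iff₀ hsθ] at h2
      have h3 : θ ≤ √θ := by
        apply Real.le_sqrt_of_sq_le
        nlinarith
      calc θ * √(G p w w) ≤ √θ * √(G p w w) := mul_le_mul_of_nonneg_right h3 h0.le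
        _ = √(G p w w) * √θ := mul_comm _ _
        _ ≤ δ := h2
  have hNK : √(G p w w) ≤ √K * ‖w‖ := by
    rw [Real.sqrt_le_left (by positivity), mul_pow, Real.sq_sqrt hK0]
    exact hKG w
  have hwn : 0 ≤ ‖w‖ := norm_nonneg w
  rw [abs_le]
  constructor
  · have h1 : η / c * √(G p w w) ≤ ε * ‖w‖ := by
      calc η / c * √(G p w w) ≤ η / c * (√K * ‖w‖) := by gcongr
        _ = η / c * √K * ‖w‖ := by ring
        _ ≤ ε * ‖w‖ := by gcongr
    rw [hθ] at hlow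
    linarith
  · have h1 : √η * ‖w‖ ≤ ε * ‖w‖ := by gcongr
    linarith

end chart

open Bundle in
/-- The Riemannian distance in a chart is infinitesimally given by a smooth metric tensor. -/
theorem exists_chart_metric (d : ℕ) (M : Type) [MetricSpace M]
    [ChartedSpace (EuclideanSpace ℝ (Fin d)) M] [IsManifold (𝓡 d) ∞ M]
    [RiemannianBundle (fun x : M ↦ TangentSpace (𝓡 d) x)]
    [IsContMDiffRiemannianBundle (𝓡 d) ∞ (EuclideanSpace ℝ (Fin d))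
      (fun x : M ↦ TangentSpace (𝓡 d) x)]
    [IsRiemannianManifold (𝓡 d) M] (x₀ : M) :
    ∃ G : EuclideanSpace ℝ (Fin d) → EuclideanSpace ℝ (Fin d) →L[ℝ]
        EuclideanSpace ℝ (Fin d) →L[ℝ] ℝ,
      LocalMetric (extChartAt (𝓡 d) x₀).target G
        (fun u v => dist ((extChartAt (𝓡 d) x₀).symm u) ((extChartAt (𝓡 d) x₀).symm v)) :=
  exists_chart_metric_aux M x₀

end Pool.Agent.W_MP_6d5819_gt
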