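import Pool.Agent.W_MP_6d5819_gt.Defs

set_option autoImplicit false

/-! Existence of minimizing geodesics in a compact Riemannian manifold. -/

open scoped Manifold ContDiff Topology
open Bundle Filter

namespace Pool.Agent.W_MP_6d5819_gt

/-- Almost minimizing paths. -/
theorem exists_path_chain (d : ℕ) (M : Type) [MetricSpace M]
    [ChartedSpace (EuclideanSpace ℝ (Fin d)) M] [IsManifold (𝓡 d) ∞ M]
    [RiemannianBundle (fun x : M ↦ TangentSpace (𝓡 d) x)]
    [IsContMDiffRiemannianBundle (𝓡 d) ∞ (EuclideanSpace ℝ (Fin d))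
      (fun x : M ↦ TangentSpace (𝓡 d) x)]
    [IsRiemannianManifold (𝓡 d) M] (p q : M) {ε : ℝ} (hε : 0 < ε) :
    ∃ c : ℝ → M, ContinuousOn c (Set.Icc 0 1) ∧ c 0 = p ∧ c 1 = q ∧
      ∀ u ∈ Set.Icc (0 : ℝ) 1, ∀ v ∈ Set.Icc (0 : ℝ) 1, u ≤ v →
        dist p (c u) + dist (c u) (c v) + dist (c v) q ≤ dist p q + ε := by
  have h1 : Manifold.riemannianEDist (𝓡 d) p q < ENNReal.ofReal (dist p q + ε) := by
    rw [← IsRiemannianManifold.out (I := 𝓡 d) p q, edist_dist]
    exact (ENNReal.ofReal_lt_ofReal_iff (by positivity)).2 (by linarith)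
  obtain ⟨c, c0, c1, hc, hlen⟩ := Manifold.exists_lt_of_riemannianEDist_lt h1
  refine ⟨c, hc.continuousOn, c0, c1, fun u hu v hv huv => ?_⟩
  have key : ∀ a b : ℝ, 0 ≤ a → b ≤ 1 → a ≤ b →
      edist (c a) (c b) ≤ Manifold.pathELength (𝓡 d) c a b := by
    intro a b ha hb hab
    rw [IsRiemannianManifold.out (I := 𝓡 d)]
    exact Manifold.riemannianEDist_le_pathELength (hc.mono (Set.Icc_subset_Icc ha hb)) rfl rfl hab
  have hsum : edist p (c u) + edist (c u) (c v) + edist (c v) q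
      ≤ ENNReal.ofReal (dist p q + ε) := by
    calc edist p (c u) + edist (c u) (c v) + edist (c v) q
        ≤ Manifold.pathELength (𝓡 d) c 0 u + Manifold.pathELength (𝓡 d) c u v +
          Manifold.pathELength (𝓡 d) c v 1 := by
          have k1 := key 0 u le_rfl hu.2 hu.1
          have k2 := key u v hu.1 hv.2 huv
          have k3 := key v 1 hv.1 le_rfl hv.2
          rw [c0] at k1
          rw [c1] at k3
          gcongr
      _ = Manifold.pathELength (𝓡 d) c 0 1 := by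
          rw [Manifold.pathELength_add hu.1 huv, Manifold.pathELength_add hv.1 hv.2]
      _ ≤ _ := hlen.le
  rw [edist_dist, edist_dist, edist_dist, ← ENNReal.ofReal_add dist_nonneg dist_nonneg,
    ← ENNReal.ofReal_add (by positivity) dist_nonneg,
    ENNReal.ofReal_le_ofReal_iff (by positivity)] at hsum
  exact hsum

/-- Almost geodesics, not necessarily continuous. -/
theorem exists_almost_geodesic {M : Type} [MetricSpace M] (p q : M) {ε : ℝ} (hε : 0 < ε)
    (h : ∃ c : ℝ → M, ContinuousOn c (Set.Icc 0 1) ∧ c 0 = p ∧ c 1 = q ∧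
      ∀ u ∈ Set.Icc (0 : ℝ) 1, ∀ v ∈ Set.Icc (0 : ℝ) 1, u ≤ v →
        dist p (c u) + dist (c u) (c v) + dist (c v) q ≤ dist p q + ε) :
    ∃ f : ℝ → M, f 0 = p ∧ dist (f 1) q ≤ ε ∧
      ∀ s ∈ Set.Icc (0 : ℝ) 1, ∀ t ∈ Set.Icc (0 : ℝ) 1,
        |dist (f s) (f t) - dist p q * (|s - t|)| ≤ ε := by
  obtain ⟨c, hc, c0, c1, hch⟩ := h
  have hivt : ∀ s ∈ Set.Icc (0 : ℝ) 1, ∃ u ∈ Set.Icc (0 : ℝ) 1, dist p (c u) = s * dist p q := by
    intro s hs
    have hcont : ContinuousOn (fun u => dist p (c u)) (Set.Icc 0 1) :=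
      continuous_dist.comp_continuousOn (continuousOn_const.prodMk hc)
    have hsub := intermediate_value_Icc (zero_le_one' ℝ) hcont
    have hmem : s * dist p q ∈ Set.Icc (dist p (c 0)) (dist p (c 1)) := by
      rw [c0, c1, dist_self]
      exact ⟨mul_nonneg hs.1 dist_nonneg, mul_le_of_le_one_left dist_nonneg hs.2⟩
    exact hsub hmem
  choose! u hu hud using hivt
  have hle : ∀ s ∈ Set.Icc (0 : ℝ) 1, ∀ t ∈ Set.Icc (0 : ℝ) 1, s ≤ t →
      |dist (c (u s)) (c (u t)) - dist p q * (|s - t|)| ≤ ε := by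
    intro s hs t ht hst
    have hus := hud s hs
    have hut := hud t ht
    have e1 : |s - t| = t - s := by rw [abs_sub_comm, abs_of_nonneg (by linarith)]
    rw [e1, abs_le]
    have t1 : dist p (c (u t)) ≤ dist p (c (u s)) + dist (c (u s)) (c (u t)) :=
      dist_triangle _ _ _
    have t2 : dist p q ≤ dist p (c (u t)) + dist (c (u t)) q := dist_triangle _ _ _
    have t3 : dist p q ≤ dist p (c (u s)) + dist (c (u s)) q := dist_triangle _ _ _
    have hnn : 0 ≤ dist p q * (t - s) := mul_nonneg dist_nonneg (by linarith)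
    constructor
    · nlinarith
    · rcases le_total (u s) (u t) with hcase | hcase
      · have := hch (u s) (hu s hs) (u t) (hu t ht) hcase
        nlinarith
      · have := hch (u t) (hu t ht) (u s) (hu s hs) hcase
        rw [dist_comm (c (u t)) (c (u s))] at this
        nlinarith
  refine ⟨fun s => c (u s), ?_, ?_, fun s hs t ht => ?_⟩
  · have := hud 0 ⟨le_rfl, zero_le_one⟩
    rw [zero_mul, dist_eq_zero] at this
    exact this.symm
  · have h1 := hud 1 ⟨zero_le_one, le_rfl⟩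
    have := hch (u 1) (hu 1 ⟨zero_le_one, le_rfl⟩) (u 1) (hu 1 ⟨zero_le_one, le_rfl⟩) le_rfl
    rw [dist_self] at this
    simp only
    linarith
  · rcases le_total s t with h | h
    · exact hle s hs t ht h
    · have := hle t ht s hs h
      rw [dist_comm, abs_sub_comm s t]
      exact this

theorem exists_geodesic (d : ℕ) (M : Type) [MetricSpace M]
    [ChartedSpace (EuclideanSpace ℝ (Fin d)) M] [IsManifold (𝓡 d) ∞ M]
    [RiemannianBundle (fun x : M ↦ TangentSpace (𝓡 d) x)]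
    [IsContMDiffRiemannianBundle (𝓡 d) ∞ (EuclideanSpace ℝ (Fin d))
      (fun x : M ↦ TangentSpace (𝓡 d) x)]
    [IsRiemannianManifold (𝓡 d) M] [CompactSpace M] (p q : M) :
    ∃ γ : ℝ → M, γ 0 = p ∧ γ 1 = q ∧
      ∀ s ∈ Set.Icc (0 : ℝ) 1, ∀ t ∈ Set.Icc (0 : ℝ) 1, dist (γ s) (γ t) = dist p q * |s - t| := by
  have hpos : ∀ n : ℕ, (0 : ℝ) < 1 / ((n : ℝ) + 1) := fun n => Nat.one_div_pos_of_nat
  choose f f0 f1 hf using fun n : ℕ =>
    exists_almost_geodesic p q (hpos n) (exists_path_chain d M p q (hpos n))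
  have hlim : Tendsto (fun n : ℕ => 1 / ((n : ℝ) + 1)) (hyperfilter ℕ : Filter ℕ) (𝓝 0) :=
    tendsto_one_div_add_atTop_nhds_zero_nat.mono_left Nat.hyperfilter_le_atTop
  have hex : ∀ s : ℝ, ∃ x : M, Tendsto (fun n => f n s) (hyperfilter ℕ : Filter ℕ) (𝓝 x) := by
    intro s
    obtain ⟨x, -, hx⟩ := isCompact_univ.ultrafilter_le_nhds
      ((hyperfilter ℕ).map (fun n => f n s)) (by simp)
    exact ⟨x, hx⟩
  choose γ hγ using hex
  refine ⟨γ, ?_, ?_, fun s hs t ht => ?_⟩
  · refine tendsto_nhds_unique (hγ 0) ?_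
    simp only [f0]
    exact tendsto_const_nhds
  · have h1 : Tendsto (fun n => dist (f n 1) q) (hyperfilter ℕ : Filter ℕ) (𝓝 (dist (γ 1) q)) :=
      (hγ 1).dist tendsto_const_nhds
    have h2 : dist (γ 1) q ≤ 0 := le_of_tendsto_of_tendsto' h1 hlim f1
    exact dist_le_zero.1 h2
  · have h1 : Tendsto (fun n => |dist (f n s) (f n t) - dist p q * (|s - t|)|)
        (hyperfilter ℕ : Filter ℕ) (𝓝 (|dist (γ s) (γ t) - dist p q * (|s - t|)|)) :=
      (((hγ s).dist (hγ t)).sub tendsto_const_nhds).abs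
    have h2 : |dist (γ s) (γ t) - dist p q * (|s - t|)| ≤ 0 :=
      le_of_tendsto_of_tendsto' h1 hlim (fun n => hf n s hs t ht)
    have h3 := abs_nonpos_iff.1 h2
    linarith

end Pool.Agent.W_MP_6d5819_gt
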