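import Pool.Agent.W_MP_6d5819_gt.Defs

set_option autoImplicit false
set_option maxSynthPendingDepth 5

open scoped Manifold ContDiff Topology
open Bundle Set

namespace Pool.Agent.W_MP_6d5819_gt

private lemma F_diff {E : Type} [NormedAddCommGroup E] [NormedSpace ℝ E]
    (A A' : E →L[ℝ] E →L[ℝ] E →L[ℝ] ℝ) (v w z : E) (B LL : ℝ) (_hB : 0 ≤ B)
    (hA' : ‖A'‖ ≤ B) (hAA : ‖A - A'‖ ≤ LL) :
    |((1 / 2) * A z v v - A v v z) - ((1 / 2) * A' z w w - A' w w z)| ≤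
      ((3 / 2) * LL * ‖v‖ ^ 2 + (3 / 2) * B * (‖v‖ + ‖w‖) * ‖v - w‖) * ‖z‖ := by
  have key : ((1 / 2) * A z v v - A v v z) - ((1 / 2) * A' z w w - A' w w z) =
      ((1 / 2) * (A - A') z v v - (A - A') v v z) +
      ((1 / 2) * (A' z (v - w) v + A' z w (v - w)) - (A' (v - w) v z + A' w (v - w) z)) := by
    simp only [sub_apply, map_sub]
    ring
  have tri : ∀ (T : E →L[ℝ] E →L[ℝ] E →L[ℝ] ℝ) (K : ℝ), ‖T‖ ≤ K → ∀ a b c : E,
      |T a b c| ≤ K * ‖a‖ * ‖b‖ * ‖c‖ := by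
    intro T K hK a b c
    have h1 : ‖T a b c‖ ≤ ‖T a b‖ * ‖c‖ := (T a b).le_opNorm c
    have h2 : ‖T a b‖ ≤ ‖T a‖ * ‖b‖ := (T a).le_opNorm b
    have h3 : ‖T a‖ ≤ ‖T‖ * ‖a‖ := T.le_opNorm a
    have hn : |T a b c| = ‖T a b c‖ := rfl
    rw [hn]
    calc ‖T a b c‖ ≤ ‖T a b‖ * ‖c‖ := h1
      _ ≤ (‖T a‖ * ‖b‖) * ‖c‖ := by gcongr
      _ ≤ ((‖T‖ * ‖a‖) * ‖b‖) * ‖c‖ := by gcongr
      _ ≤ ((K * ‖a‖) * ‖b‖) * ‖c‖ := by gcongr
  rw [key]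
  have a1 := tri (A - A') LL hAA z v v
  have a2 := tri (A - A') LL hAA v v z
  have b1 := tri A' B hA' z (v - w) v
  have b2 := tri A' B hA' z w (v - w)
  have b3 := tri A' B hA' (v - w) v z
  have b4 := tri A' B hA' w (v - w) z
  rw [abs_le] at *
  constructor <;> nlinarith [a1.1, a1.2, a2.1, a2.2, b1.1, b1.2, b2.1, b2.2, b3.1, b3.2, b4.1, b4.2]

theorem geodesic_pair {E : Type} [NormedAddCommGroup E] [InnerProductSpace ℝ E]
    [FiniteDimensional ℝ E] {Ω : Set E} {G : E → E →L[ℝ] E →L[ℝ] ℝ} {D : E → E → ℝ}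
    (h : LocalMetric Ω G D) {u₀ : E} (hu₀ : u₀ ∈ Ω) :
    ∃ R > 0, ∃ C > 0, Metric.closedBall u₀ R ⊆ Ω ∧
      ∀ (x v acc y w acc' : ℝ → E) (ρ : ℝ), 
      (∀ t ∈ Set.Icc (0 : ℝ) 1, x t ∈ Metric.closedBall u₀ R ∧ y t ∈ Metric.closedBall u₀ R ∧
        HasDerivWithinAt x (v t) (Set.Icc 0 1) t ∧ HasDerivWithinAt v (acc t) (Set.Icc 0 1) t ∧
        HasDerivWithinAt y (w t) (Set.Icc 0 1) t ∧ HasDerivWithinAt w (acc' t) (Set.Icc 0 1) t ∧
        G (x t) (v t) (v t) ≤ ρ ^ 2 ∧ G (y t) (w t) (w t) ≤ ρ ^ 2 ∧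
        (∀ z : E, G (x t) (acc t) z =
          (1 / 2) * (fderiv ℝ G (x t) z) (v t) (v t) - (fderiv ℝ G (x t) (v t)) (v t) z) ∧
        (∀ z : E, G (y t) (acc' t) z =
          (1 / 2) * (fderiv ℝ G (y t) z) (w t) (w t) - (fderiv ℝ G (y t) (w t)) (w t) z)) →
      x 0 = u₀ → y 0 = u₀ → 0 ≤ ρ → C * ρ ≤ 1 →
      ‖(x 1 - y 1) - (v 0 - w 0)‖ ≤ C * ρ * ‖v 0 - w 0‖ := by
  obtain ⟨R, hR, hRΩ⟩ : ∃ R > 0, Metric.closedBall u₀ R ⊆ Ω :=
    Metric.nhds_basis_closedBall.mem_iff.1 (h.isOpen.mem_nhds hu₀)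
  set K := Metric.closedBall u₀ R with hK
  have hKc : IsCompact K := isCompact_closedBall u₀ R
  have hKconv : Convex ℝ K := convex_closedBall u₀ R
  -- smoothness
  have hGd : ∀ u ∈ Ω, DifferentiableAt ℝ G u := fun u hu =>
    ((h.smooth u hu).differentiableWithinAt (by norm_num)).differentiableAt (h.isOpen.mem_nhds hu)
  have hfd : ContDiffOn ℝ 1 (fderiv ℝ G) Ω :=
    h.smooth.fderiv_of_isOpen h.isOpen (by norm_num)
  have hfdd : ∀ u ∈ Ω, DifferentiableAt ℝ (fderiv ℝ G) u := fun u hu =>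
    ((hfd u hu).differentiableWithinAt (by norm_num)).differentiableAt (h.isOpen.mem_nhds hu)
  have hfdc : ContinuousOn (fderiv ℝ G) Ω := hfd.continuousOn
  have hffc : ContinuousOn (fderiv ℝ (fderiv ℝ G)) Ω :=
    (hfd.fderiv_of_isOpen h.isOpen (m := 0) (by norm_num)).continuousOn
  obtain ⟨B, hB⟩ := hKc.exists_bound_of_continuousOn (hfdc.mono hRΩ)
  obtain ⟨L, hL⟩ := hKc.exists_bound_of_continuousOn (hffc.mono hRΩ)
  have hu₀K : u₀ ∈ K := Metric.mem_closedBall_self hR.le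
  have hB0 : 0 ≤ B := le_trans (norm_nonneg _) (hB u₀ hu₀K)
  have hL0 : 0 ≤ L := le_trans (norm_nonneg _) (hL u₀ hu₀K)
  have hGlip : ∀ u ∈ K, ∀ u' ∈ K, ‖G u - G u'‖ ≤ B * ‖u - u'‖ := fun u hu u' hu' =>
    hKconv.norm_image_sub_le_of_norm_fderiv_le (fun z hz => hGd z (hRΩ hz)) hB hu' hu
  have hDlip : ∀ u ∈ K, ∀ u' ∈ K, ‖fderiv ℝ G u - fderiv ℝ G u'‖ ≤ L * ‖u - u'‖ :=
    fun u hu u' hu' =>
    hKconv.norm_image_sub_le_of_norm_fderiv_le (fun z hz => hfdd z (hRΩ hz)) hL hu' hu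
  -- lower bound
  obtain ⟨m, hm, hlow⟩ : ∃ m > 0, ∀ u ∈ K, ∀ v : E, m * ‖v‖ ^ 2 ≤ G u v v := by
    by_cases hE : Subsingleton E
    · refine ⟨1, one_pos, fun u _ v => ?_⟩
      have : v = 0 := Subsingleton.elim _ _
      subst this; simp
    · have hnt : Nontrivial E := not_subsingleton_iff_nontrivial.1 hE
      have hS : IsCompact (K ×ˢ Metric.sphere (0 : E) 1) := hKc.prod (isCompact_sphere 0 1)
      have hSne : (K ×ˢ Metric.sphere (0 : E) 1).Nonempty :=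
        ⟨(u₀, (NormedSpace.sphere_nonempty.2 zero_le_one : (Metric.sphere (0:E) 1).Nonempty).choose),
          hu₀K, (NormedSpace.sphere_nonempty.2 zero_le_one : (Metric.sphere (0:E) 1).Nonempty).choose_spec⟩
      have hGc : ContinuousOn (fun p : E × E => G p.1 p.2 p.2) (K ×ˢ Metric.sphere (0 : E) 1) := by
        have h1 : ContinuousOn (fun p : E × E => G p.1) (K ×ˢ Metric.sphere (0 : E) 1) :=
          (h.smooth.continuousOn.mono hRΩ).comp continuousOn_fst (fun p hp => hp.1)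
        exact (h1.clm_apply continuousOn_snd).clm_apply continuousOn_snd
      obtain ⟨p, hp, hmin⟩ := hS.exists_isMinOn hSne hGc
      have hp2 : p.2 ≠ 0 := by
        intro h0
        have := hp.2
        rw [h0] at this
        simp at this
      refine ⟨G p.1 p.2 p.2, h.pos p.1 (hRΩ hp.1) p.2 hp2, fun u hu v => ?_⟩
      by_cases hv : v = 0
      · subst hv; simp
      · have hvn : ‖v‖ ≠ 0 := norm_ne_zero_iff.2 hv
        have hmem : (u, (‖v‖⁻¹ : ℝ) • v) ∈ K ×ˢ Metric.sphere (0 : E) 1 := by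
          refine ⟨hu, ?_⟩
          simp [norm_smul, hvn]
        have h1 : G p.1 p.2 p.2 ≤ G u ((‖v‖⁻¹ : ℝ) • v) ((‖v‖⁻¹ : ℝ) • v) := hmin hmem
        simp only [map_smul, smul_apply, smul_eq_mul] at h1
        have h2 : ‖v‖ ^ 2 * (‖v‖⁻¹ * (‖v‖⁻¹ * G u v v)) = G u v v := by
          field_simp
        calc G p.1 p.2 p.2 * ‖v‖ ^ 2 ≤ (‖v‖⁻¹ * (‖v‖⁻¹ * G u v v)) * ‖v‖ ^ 2 := by gcongr
          _ = G u v v := by rw [mul_comm, h2]
  -- constants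
  obtain ⟨C₁, hC₁0, hC₁⟩ : ∃ C₁ ≥ 0, ∀ x ∈ K, ∀ y ∈ K, ∀ v w a a' : E, ∀ ρ : ℝ, 0 ≤ ρ → ρ ≤ 1 →
      G x v v ≤ ρ ^ 2 → G y w w ≤ ρ ^ 2 →
      (∀ z : E, G x a z = (1 / 2) * (fderiv ℝ G x z) v v - (fderiv ℝ G x v) v z) →
      (∀ z : E, G y a' z = (1 / 2) * (fderiv ℝ G y z) w w - (fderiv ℝ G y w) w z) →
      ‖a - a'‖ ≤ C₁ * ρ * (‖x - y‖ + ‖v - w‖) := by
    set c := 1 / Real.sqrt m with hc
    have hsm : 0 < Real.sqrt m := Real.sqrt_pos.2 hm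
    have hc0 : 0 < c := by positivity
    set Ca := (3 / 2) * B * c ^ 2 / m with hCa
    have hCa0 : 0 ≤ Ca := by positivity
    refine ⟨((3 / 2) * L * c ^ 2 + 3 * B * c + B * Ca) / m, by positivity, ?_⟩
    intro x hx y hy v w a a' ρ hρ0 hρ1 hv hw ha ha'
    have vel : ∀ u ∈ K, ∀ v : E, G u v v ≤ ρ ^ 2 → ‖v‖ ≤ c * ρ := by
      intro u hu v hv
      have h1 := hlow u hu v
      have h2 : (Real.sqrt m * ‖v‖) ^ 2 ≤ ρ ^ 2 := by
        rw [mul_pow, Real.sq_sqrt hm.le]; exact h1.trans hv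
      have h3 : Real.sqrt m * ‖v‖ ≤ ρ := by
        exact (le_abs_self _).trans (abs_le_of_sq_le_sq h2 hρ0)
      rw [hc, div_mul_eq_mul_div, one_mul, le_div_iff₀ hsm, mul_comm]
      exact h3
    have hvn := vel x hx v hv
    have hwn := vel y hy w hw
    -- |a'| bound
    have ha'n : ‖a'‖ ≤ Ca * ρ ^ 2 := by
      have h1 := hlow y hy a'
      have h2 := ha' a'
      have h3 : |((1 / 2) * (fderiv ℝ G y) a' w w - (fderiv ℝ G y) w w a')| ≤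
          ((3 / 2) * B * ‖w‖ ^ 2) * ‖a'‖ := by
        have := F_diff (fderiv ℝ G y) 0 w 0 a' 0 B le_rfl (by simp) (by simpa using hB y hy)
        simpa using this
      have h4 : m * ‖a'‖ ^ 2 ≤ ((3 / 2) * B * ‖w‖ ^ 2) * ‖a'‖ := by
        calc m * ‖a'‖ ^ 2 ≤ G y a' a' := h1
          _ = _ := h2
          _ ≤ _ := le_abs_self _
          _ ≤ _ := h3
      by_cases hz : ‖a'‖ = 0
      · rw [hz]; positivity
      · have hpos : 0 < ‖a'‖ := lt_of_le_of_ne (norm_nonneg _) (Ne.symm hz)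
        have h5 : m * ‖a'‖ ≤ (3 / 2) * B * ‖w‖ ^ 2 := by
          have : (m * ‖a'‖) * ‖a'‖ ≤ ((3 / 2) * B * ‖w‖ ^ 2) * ‖a'‖ := by nlinarith
          exact le_of_mul_le_mul_right this hpos
        have h6 : (3 / 2) * B * ‖w‖ ^ 2 ≤ (3 / 2) * B * (c * ρ) ^ 2 := by gcongr
        rw [hCa, div_mul_eq_mul_div, le_div_iff₀ hm]
        nlinarith
    -- difference
    have h1 := hlow x hx (a - a')
    have h2 : G x (a - a') (a - a') =
        (((1 / 2) * (fderiv ℝ G x (a - a')) v v - (fderiv ℝ G x v) v (a - a')) -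
        ((1 / 2) * (fderiv ℝ G y (a - a')) w w - (fderiv ℝ G y w) w (a - a'))) -
        (G x - G y) a' (a - a') := by
      rw [← ha, ← ha']
      simp only [sub_apply, map_sub]
      ring
    have h3 := F_diff (fderiv ℝ G x) (fderiv ℝ G y) v w (a - a') B (L * ‖x - y‖) hB0
      (hB y hy) (hDlip x hx y hy)
    have h4 : |(G x - G y) a' (a - a')| ≤ B * ‖x - y‖ * ‖a'‖ * ‖a - a'‖ := by
      have e1 : ‖(G x - G y) a' (a - a')‖ ≤ ‖(G x - G y) a'‖ * ‖a - a'‖ :=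
        ((G x - G y) a').le_opNorm _
      have e2 : ‖(G x - G y) a'‖ ≤ ‖G x - G y‖ * ‖a'‖ := (G x - G y).le_opNorm _
      have e3 := hGlip x hx y hy
      calc |(G x - G y) a' (a - a')| ≤ ‖(G x - G y) a'‖ * ‖a - a'‖ := e1
        _ ≤ (‖G x - G y‖ * ‖a'‖) * ‖a - a'‖ := by gcongr
        _ ≤ ((B * ‖x - y‖) * ‖a'‖) * ‖a - a'‖ := by gcongr
    set S := ‖x - y‖ + ‖v - w‖ with hS
    have hS0 : 0 ≤ S := by positivity
    have hxS : ‖x - y‖ ≤ S := by rw [hS]; linarith [norm_nonneg (v - w)]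
    have hvS : ‖v - w‖ ≤ S := by rw [hS]; linarith [norm_nonneg (x - y)]
    have hρ2 : ρ ^ 2 ≤ ρ := by nlinarith
    have h5 : (3 / 2) * (L * ‖x - y‖) * ‖v‖ ^ 2 + (3 / 2) * B * (‖v‖ + ‖w‖) * ‖v - w‖ +
        B * ‖x - y‖ * ‖a'‖ ≤ ((3 / 2) * L * c ^ 2 + 3 * B * c + B * Ca) * ρ * S := by
      have t1 : (3 / 2) * (L * ‖x - y‖) * ‖v‖ ^ 2 ≤ (3 / 2) * L * c ^ 2 * ρ * S := by
        calc (3 / 2) * (L * ‖x - y‖) * ‖v‖ ^ 2 ≤ (3 / 2) * (L * S) * (c * ρ) ^ 2 := by gcongr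
          _ = (3 / 2) * L * c ^ 2 * S * ρ ^ 2 := by ring
          _ ≤ (3 / 2) * L * c ^ 2 * S * ρ := by gcongr
          _ = _ := by ring
      have t2 : (3 / 2) * B * (‖v‖ + ‖w‖) * ‖v - w‖ ≤ 3 * B * c * ρ * S := by
        calc (3 / 2) * B * (‖v‖ + ‖w‖) * ‖v - w‖ ≤ (3 / 2) * B * (c * ρ + c * ρ) * S := by gcongr
          _ = _ := by ring
      have t3 : B * ‖x - y‖ * ‖a'‖ ≤ B * Ca * ρ * S := by
        calc B * ‖x - y‖ * ‖a'‖ ≤ B * S * (Ca * ρ ^ 2) := by gcongr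
          _ = B * Ca * S * ρ ^ 2 := by ring
          _ ≤ B * Ca * S * ρ := by gcongr
          _ = _ := by ring
      linarith
    have h6 : m * ‖a - a'‖ ^ 2 ≤
        (((3 / 2) * L * c ^ 2 + 3 * B * c + B * Ca) * ρ * S) * ‖a - a'‖ := by
      have e1 := (abs_le.1 h3).2
      have e2 := (abs_le.1 h4).1
      have e3 := mul_le_mul_of_nonneg_right h5 (norm_nonneg (a - a'))
      rw [h2] at h1
      nlinarith
    by_cases hz : ‖a - a'‖ = 0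
    · rw [hz]; positivity
    · have hpos : 0 < ‖a - a'‖ := lt_of_le_of_ne (norm_nonneg _) (Ne.symm hz)
      have h7 : m * ‖a - a'‖ ≤ ((3 / 2) * L * c ^ 2 + 3 * B * c + B * Ca) * ρ * S := by
        have : (m * ‖a - a'‖) * ‖a - a'‖ ≤
            (((3 / 2) * L * c ^ 2 + 3 * B * c + B * Ca) * ρ * S) * ‖a - a'‖ := by nlinarith
        exact le_of_mul_le_mul_right this hpos
      rw [div_mul_eq_mul_div, div_mul_eq_mul_div, le_div_iff₀ hm]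
      linarith
  refine ⟨R, hR, 8 * C₁ + 1, by positivity, hRΩ, ?_⟩
  intro x v acc y w acc' ρ hall hx0 hy0 hρ0 hCρ
  have hρ1 : ρ ≤ 1 := by nlinarith
  have hC₁ρ : C₁ * ρ ≤ 1 / 8 := by nlinarith
  -- sup of |v-w|
  have hvwc : ContinuousOn (fun t => ‖v t - w t‖) (Icc (0 : ℝ) 1) := by
    intro t ht
    obtain ⟨-, -, -, h4, -, h6, -⟩ := hall t ht
    exact (h4.sub h6).continuousWithinAt.norm
  obtain ⟨τ, hτ, hmax⟩ := isCompact_Icc.exists_isMaxOn (nonempty_Icc.2 zero_le_one) hvwc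
  set M1 := ‖v τ - w τ‖ with hM1
  have hM : ∀ t ∈ Icc (0 : ℝ) 1, ‖v t - w t‖ ≤ M1 := fun t ht => hmax ht
  have hM0 : 0 ≤ M1 := norm_nonneg _
  have hxy : ∀ t ∈ Icc (0 : ℝ) 1, ‖x t - y t‖ ≤ M1 := by
    intro t ht
    have := norm_image_sub_le_of_norm_deriv_le_segment' (f := fun t => x t - y t)
      (f' := fun t => v t - w t) (C := M1) (a := 0) (b := 1)
      (fun s hs => (hall s hs).2.2.1.sub (hall s hs).2.2.2.2.1)
      (fun s hs => hM s ⟨hs.1, hs.2.le⟩) t ht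
    simp only [hx0, hy0, sub_self, sub_zero] at this
    calc ‖x t - y t‖ ≤ M1 * t := this
      _ ≤ M1 * 1 := by gcongr; exact ht.2
      _ = M1 := mul_one _
  have hacc : ∀ t ∈ Icc (0 : ℝ) 1, ‖acc t - acc' t‖ ≤ C₁ * ρ * (2 * M1) := by
    intro t ht
    obtain ⟨h1, h2, h3, h4, h5, h6, h7, h8, h9, h10⟩ := hall t ht
    have := hC₁ (x t) h1 (y t) h2 (v t) (w t) (acc t) (acc' t) ρ hρ0 hρ1 h7 h8 h9 h10
    calc ‖acc t - acc' t‖ ≤ C₁ * ρ * (‖x t - y t‖ + ‖v t - w t‖) := this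
      _ ≤ C₁ * ρ * (M1 + M1) := by gcongr; exact hxy t ht; exact hM t ht
      _ = _ := by ring
  have hvel : ∀ t ∈ Icc (0 : ℝ) 1, ‖(v t - w t) - (v 0 - w 0)‖ ≤ C₁ * ρ * (2 * M1) := by
    intro t ht
    have := norm_image_sub_le_of_norm_deriv_le_segment' (f := fun t => v t - w t)
      (f' := fun t => acc t - acc' t) (C := C₁ * ρ * (2 * M1)) (a := 0) (b := 1)
      (fun s hs => (hall s hs).2.2.2.1.sub (hall s hs).2.2.2.2.2.1)
      (fun s hs => hacc s ⟨hs.1, hs.2.le⟩) t ht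
    simp only [sub_zero] at this
    calc ‖(v t - w t) - (v 0 - w 0)‖ ≤ C₁ * ρ * (2 * M1) * t := this
      _ ≤ C₁ * ρ * (2 * M1) * 1 := by gcongr; exact ht.2
      _ = _ := mul_one _
  have hM2 : M1 ≤ 2 * ‖v 0 - w 0‖ := by
    have h1 := hvel τ hτ
    have h2 : M1 ≤ ‖(v τ - w τ) - (v 0 - w 0)‖ + ‖v 0 - w 0‖ := by
      rw [hM1]
      calc ‖v τ - w τ‖ = ‖((v τ - w τ) - (v 0 - w 0)) + (v 0 - w 0)‖ := by congr 1; abel
        _ ≤ _ := norm_add_le _ _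
    nlinarith
  have hvel2 : ∀ t ∈ Icc (0 : ℝ) 1, ‖(v t - w t) - (v 0 - w 0)‖ ≤ 4 * C₁ * ρ * ‖v 0 - w 0‖ := by
    intro t ht
    calc ‖(v t - w t) - (v 0 - w 0)‖ ≤ C₁ * ρ * (2 * M1) := hvel t ht
      _ ≤ C₁ * ρ * (2 * (2 * ‖v 0 - w 0‖)) := by gcongr
      _ = _ := by ring
  have hfin := norm_image_sub_le_of_norm_deriv_le_segment_01'
    (f := fun t => x t - y t - t • (v 0 - w 0))
    (f' := fun t => (v t - w t) - (v 0 - w 0)) (C := 4 * C₁ * ρ * ‖v 0 - w 0‖)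
    (fun s hs => by
      have h1 := ((hall s hs).2.2.1.sub (hall s hs).2.2.2.2.1)
      have h2 : HasDerivWithinAt (fun t : ℝ => t • (v 0 - w 0)) ((1 : ℝ) • (v 0 - w 0))
          (Icc 0 1) s := (hasDerivWithinAt_id s _).smul_const _
      rw [one_smul] at h2
      exact h1.sub h2)
    (fun s hs => hvel2 s ⟨hs.1, hs.2.le⟩)
  simp only [one_smul, zero_smul, hx0, hy0, sub_self, sub_zero] at hfin
  calc ‖(x 1 - y 1) - (v 0 - w 0)‖ ≤ 4 * C₁ * ρ * ‖v 0 - w 0‖ := hfin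
    _ ≤ (8 * C₁ + 1) * ρ * ‖v 0 - w 0‖ := by gcongr; linarith

end Pool.Agent.W_MP_6d5819_gt
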