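import Pool.Agent.W_MP_6d5819_gt.GeodOde
import Pool.Agent.W_MP_6d5819_gt.GeodPair

set_option autoImplicit false
set_option maxSynthPendingDepth 3

open scoped Manifold ContDiff Topology NNReal
open Bundle Set Filter Metric

namespace Pool.Agent.W_MP_6d5819_gt

namespace LogChart

/-- Metric geodesics from `x₀` to `z` parametrized proportionally on `[0,1]`. -/
def IsGeo {M : Type} [MetricSpace M] (x₀ z : M) (γ : ℝ → M) : Prop :=
  γ 0 = x₀ ∧ γ 1 = z ∧
    ∀ s ∈ Icc (0 : ℝ) 1, ∀ t ∈ Icc (0 : ℝ) 1, dist (γ s) (γ t) = dist x₀ z * |s - t|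

/-- An inner product from a positive definite form. -/
theorem exists_iso {E : Type} [NormedAddCommGroup E] [InnerProductSpace ℝ E]
    [FiniteDimensional ℝ E] (B : E →L[ℝ] E →L[ℝ] ℝ) (hs : ∀ v w, B v w = B w v)
    (hp : ∀ v, v ≠ 0 → 0 < B v v) :
    ∃ A : E ≃L[ℝ] E, ∀ v w, inner ℝ (A v) (A w) = B v w := by
  classical
  set BF : LinearMap.BilinForm ℝ E := LinearMap.mk₂ ℝ (fun v w => B v w)
    (by intros; simp) (by intros; simp) (by intros; simp) (by intros; simp) with hBF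
  have hBF' : ∀ v w, BF v w = B v w := fun v w => rfl
  have hsymm : LinearMap.IsSymm BF := ⟨fun v w => by simp [hBF', hs v w]⟩
  obtain ⟨v, hv⟩ := LinearMap.BilinForm.exists_orthogonal_basis hsymm
  have hv' : ∀ i j, i ≠ j → B (v i) (v j) = 0 := fun i j hij => hv hij
  let b := stdOrthonormalBasis ℝ E
  let A₀ : E →ₗ[ℝ] E := v.constr ℝ (fun i => Real.sqrt (B (v i) (v i)) • b i)
  have hA₀ : ∀ i, A₀ (v i) = Real.sqrt (B (v i) (v i)) • b i := fun i => v.constr_basis ℝ _ i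
  have hnn : ∀ i, 0 ≤ B (v i) (v i) := fun i => (hp _ (v.ne_zero i)).le
  have key : ∀ x y, inner ℝ (A₀ x) (A₀ y) = B x y := by
    have h1 : (innerₗ E).compl₁₂ A₀ A₀ = BF := by
      refine v.ext fun i => v.ext fun j => ?_
      simp only [LinearMap.compl₁₂_apply, innerₗ_apply_apply, hA₀, hBF']
      rw [inner_smul_left, inner_smul_right]
      by_cases hij : i = j
      · subst hij
        simp only [orthonormal_iff_ite.1 b.orthonormal, if_true, mul_one]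
        simp [Real.mul_self_sqrt (hnn i)]
      · rw [orthonormal_iff_ite.1 b.orthonormal, if_neg hij, hv' i j hij]; simp
    intro x y
    have := congrArg (fun F : E →ₗ[ℝ] E →ₗ[ℝ] ℝ => F x y) h1
    simpa [hBF'] using this
  have hinj : Function.Injective A₀ := by
    rw [← LinearMap.ker_eq_bot, LinearMap.ker_eq_bot']
    intro x hx
    by_contra hne
    have h1 := hp x hne
    rw [← key, hx] at h1
    simp at h1
  let A₁ : E ≃ₗ[ℝ] E := LinearEquiv.ofInjectiveEndo A₀ hinj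
  refine ⟨A₁.toContinuousLinearEquiv, fun v w => ?_⟩
  exact key v w

/-- Inner-product preserving maps of a ball are linear. -/
theorem exists_linear {E : Type} [NormedAddCommGroup E] [InnerProductSpace ℝ E]
    [FiniteDimensional ℝ E] {r : ℝ} (hr : 0 < r) (h : E → E)
    (hh : ∀ x ∈ ball (0 : E) r, ∀ y ∈ ball (0 : E) r, inner ℝ (h x) (h y) = inner ℝ x y) :
    ∃ L : E →ₗ[ℝ] E, ∀ x ∈ ball (0 : E) r, h x = L x := by
  classical
  let b := stdOrthonormalBasis ℝ E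
  let L : E →ₗ[ℝ] E := b.toBasis.constr ℝ (fun i => (2 / r) • h ((r / 2) • b i))
  have hL : ∀ i, L (b i) = (2 / r) • h ((r / 2) • b i) := fun i => by
    have := b.toBasis.constr_basis ℝ (fun i => (2 / r) • h ((r / 2) • b i)) i
    simpa [L] using this
  have hb : ∀ i, (r / 2) • b i ∈ ball (0 : E) r := fun i => by
    rw [mem_ball_zero_iff, norm_smul, b.orthonormal.1 i, mul_one, Real.norm_eq_abs,
      abs_of_pos (by positivity)]
    linarith
  have h1 : ∀ x ∈ ball (0 : E) r, ∀ y, inner ℝ (h x) (L y) = inner ℝ x y := by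
    intro x hx
    have e : (innerₗ E (h x)) ∘ₗ L = innerₗ E x := by
      refine b.toBasis.ext fun i => ?_
      simp only [OrthonormalBasis.coe_toBasis, LinearMap.comp_apply, innerₗ_apply_apply, hL]
      rw [inner_smul_right, hh x hx _ (hb i), inner_smul_right]
      field_simp
    intro y
    simpa using congrArg (fun F : E →ₗ[ℝ] ℝ => F y) e
  have h2 : ∀ x y, inner ℝ (L x) (L y) = inner ℝ x y := by
    intro x y
    have e : (innerₗ E).compl₁₂ L L = innerₗ E := by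
      refine b.toBasis.ext fun i => b.toBasis.ext fun j => ?_
      simp only [LinearMap.compl₁₂_apply, OrthonormalBasis.coe_toBasis, innerₗ_apply_apply]
      rw [hL i, inner_smul_left, h1 _ (hb i), inner_smul_left]
      simp
      field_simp
    simpa using congrArg (fun F : E →ₗ[ℝ] E →ₗ[ℝ] ℝ => F x y) e
  refine ⟨L, fun x hx => ?_⟩
  have h3 : inner ℝ (h x - L x) (h x - L x) = (0 : ℝ) := by
    rw [inner_sub_left, inner_sub_right, inner_sub_right, hh x hx x hx, h2,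
      real_inner_comm (h x) (L x), h1 x hx]
    ring
  exact sub_eq_zero.1 (inner_self_eq_zero.1 h3)

/-- Initial velocities of short geodesics and their comparison. -/
structure Setup {M E : Type} [MetricSpace M] [NormedAddCommGroup E] [InnerProductSpace ℝ E]
    (φ : OpenPartialHomeomorph M E) (x₀ : M) (G : E → E →L[ℝ] E →L[ℝ] ℝ) (r : ℝ) : Prop where
  r_pos : 0 < r
  sub : ball x₀ r ⊆ φ.source
  init : ∀ z ∈ ball x₀ r, ∀ γ, IsGeo x₀ z γ → ∃ v : E,
    HasDerivWithinAt (fun t => φ (γ t)) v (Icc 0 1) 0 ∧ G (φ x₀) v v = dist x₀ z ^ 2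
  cmp : ∀ z ∈ ball x₀ r, ∀ w ∈ ball x₀ r, ∀ γ γ', IsGeo x₀ z γ → IsGeo x₀ w γ' → ∀ v v' : E,
    HasDerivWithinAt (fun t => φ (γ t)) v (Icc 0 1) 0 →
    HasDerivWithinAt (fun t => φ (γ' t)) v' (Icc 0 1) 0 →
    ‖(φ z - φ w) - (v - v')‖ ≤ (1 / 4) * ‖v - v'‖

theorem exists_setup {M E : Type} [MetricSpace M] [NormedAddCommGroup E] [InnerProductSpace ℝ E]
    [FiniteDimensional ℝ E] (φ : OpenPartialHomeomorph M E) (x₀ : M) (hx₀ : x₀ ∈ φ.source)
    (G : E → E →L[ℝ] E →L[ℝ] ℝ)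
    (hG : LocalMetric φ.target G (fun u v => dist (φ.symm u) (φ.symm v))) :
    ∃ r, Setup φ x₀ G r := by
  obtain ⟨R, hR, C, hC, hRΩ, hcmp⟩ := geodesic_pair hG (φ.map_source hx₀)
  obtain ⟨r₁, hr₁, hr₁s⟩ : ∃ r > 0, ball x₀ r ⊆ φ.source ∩ φ ⁻¹' (closedBall (φ x₀) R) := by
    have : φ.source ∩ φ ⁻¹' (closedBall (φ x₀) R) ∈ 𝓝 x₀ :=
      Filter.inter_mem (φ.open_source.mem_nhds hx₀)
        ((φ.continuousAt hx₀).preimage_mem_nhds (closedBall_mem_nhds _ hR))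
    exact Metric.mem_nhds_iff.1 this
  set r := min r₁ (1 / (4 * C)) with hr
  have hr0 : 0 < r := lt_min hr₁ (by positivity)
  have hrr₁ : r ≤ r₁ := min_le_left _ _
  have hCr : C * r ≤ 1 / 4 := by
    have : r ≤ 1 / (4 * C) := min_le_right _ _
    calc C * r ≤ C * (1 / (4 * C)) := by gcongr
      _ = 1 / 4 := by field_simp
  -- points of a short geodesic
  have hpt : ∀ z ∈ ball x₀ r, ∀ γ, IsGeo x₀ z γ → ∀ t ∈ Icc (0 : ℝ) 1, γ t ∈ ball x₀ r := by
    intro z hz γ hγ t ht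
    have h1 := hγ.2.2 0 (by simp) t ht
    rw [hγ.1, zero_sub, abs_neg, abs_of_nonneg ht.1] at h1
    rw [mem_ball, dist_comm, h1]
    rw [mem_ball, dist_comm] at hz
    calc dist x₀ z * t ≤ dist x₀ z * 1 := by gcongr; exact ht.2
      _ < r := by rw [mul_one]; exact hz
  have hode : ∀ z ∈ ball x₀ r, ∀ γ, IsGeo x₀ z γ → ∃ v acc : ℝ → E, ∀ t ∈ Icc (0 : ℝ) 1,
      HasDerivWithinAt (fun t => φ (γ t)) (v t) (Icc 0 1) t ∧
      HasDerivWithinAt v (acc t) (Icc 0 1) t ∧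
      G (φ (γ t)) (v t) (v t) = dist x₀ z ^ 2 ∧
      ∀ w : E, G (φ (γ t)) (acc t) w =
        (1 / 2) * (fderiv ℝ G (φ (γ t)) w) (v t) (v t) -
          (fderiv ℝ G (φ (γ t)) (v t)) (v t) w := by
    intro z hz γ hγ
    have hsrc : ∀ t ∈ Icc (0 : ℝ) 1, γ t ∈ φ.source := fun t ht =>
      (hr₁s (ball_subset_ball hrr₁ (hpt z hz γ hγ t ht))).1
    have hγc : ContinuousOn γ (Icc 0 1) := by
      have : LipschitzOnWith (Real.toNNReal (dist x₀ z)) γ (Icc 0 1) := by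
        refine LipschitzOnWith.of_dist_le_mul fun s hs t ht => ?_
        rw [hγ.2.2 s hs t ht, Real.coe_toNNReal _ dist_nonneg, Real.dist_eq]
      exact this.continuousOn
    have hxc : ContinuousOn (fun t => φ (γ t)) (Icc 0 1) :=
      φ.continuousOn.comp hγc hsrc
    obtain ⟨v, acc, -, hall⟩ := geodesic_ode hG (x := fun t => φ (γ t)) (a := 1)
      (c := dist x₀ z) one_pos dist_nonneg hxc (fun t ht => φ.map_source (hsrc t ht))
      (fun s hs t ht => by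
        rw [φ.left_inv (hsrc s hs), φ.left_inv (hsrc t ht)]
        exact hγ.2.2 s hs t ht)
    exact ⟨v, acc, hall⟩
  refine ⟨r, hr0, fun z hz => (hr₁s (ball_subset_ball hrr₁ hz)).1, ?_, ?_⟩
  · intro z hz γ hγ
    obtain ⟨v, acc, hall⟩ := hode z hz γ hγ
    obtain ⟨h1, -, h3, -⟩ := hall 0 (by simp)
    refine ⟨v 0, h1, ?_⟩
    simpa [hγ.1] using h3
  · intro z hz w hw γ γ' hγ hγ' v₀ v₀' hv₀ hv₀'
    obtain ⟨v, acc, hall⟩ := hode z hz γ hγ
    obtain ⟨v', acc', hall'⟩ := hode w hw γ' hγ'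
    have hu : UniqueDiffWithinAt ℝ (Icc (0 : ℝ) 1) 0 := uniqueDiffOn_Icc_zero_one 0 (by simp)
    have e1 : v 0 = v₀ := hu.eq_deriv _ (hall 0 (by simp)).1 hv₀
    have e2 : v' 0 = v₀' := hu.eq_deriv _ (hall' 0 (by simp)).1 hv₀'
    set ρ := max (dist x₀ z) (dist x₀ w) with hρ
    have hρ0 : 0 ≤ ρ := le_max_of_le_left dist_nonneg
    have hρr : ρ ≤ r := by
      rw [mem_ball, dist_comm] at hz hw
      exact max_le hz.le hw.le
    have hCρ : C * ρ ≤ 1 / 4 := le_trans (by gcongr) hCr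
    have := hcmp (fun t => φ (γ t)) v acc (fun t => φ (γ' t)) v' acc' ρ ?_
      (by simp [hγ.1]) (by simp [hγ'.1]) hρ0 (by linarith)
    · simp only [hγ.2.1, hγ'.2.1, e1, e2] at this
      refine this.trans ?_
      gcongr
    · intro t ht
      obtain ⟨h1, h2, h3, h4⟩ := hall t ht
      obtain ⟨h1', h2', h3', h4'⟩ := hall' t ht
      refine ⟨(hr₁s (ball_subset_ball hrr₁ (hpt z hz γ hγ t ht))).2,
        (hr₁s (ball_subset_ball hrr₁ (hpt w hw γ' hγ' t ht))).2, h1, h2, h1', h2', ?_, ?_,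
        h4, h4'⟩
      · rw [h3]; exact pow_le_pow_left₀ dist_nonneg (le_max_left _ _) 2
      · rw [h3']; exact pow_le_pow_left₀ dist_nonneg (le_max_right _ _) 2

/-- The distance between short geodesics is asymptotically the norm of the velocity difference. -/
theorem tendsto_dist {M E : Type} [MetricSpace M] [NormedAddCommGroup E] [InnerProductSpace ℝ E]
    (φ : OpenPartialHomeomorph M E) (x₀ : M) (hx₀ : x₀ ∈ φ.source)
    (G : E → E →L[ℝ] E →L[ℝ] ℝ)
    (hG : LocalMetric φ.target G (fun u v => dist (φ.symm u) (φ.symm v)))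
    (γ γ' : ℝ → M) (hγ0 : γ 0 = x₀) (hγ0' : γ' 0 = x₀)
    (hs : ∀ t ∈ Icc (0 : ℝ) 1, γ t ∈ φ.source ∧ γ' t ∈ φ.source) (v v' : E)
    (hv : HasDerivWithinAt (fun t => φ (γ t)) v (Icc 0 1) 0)
    (hv' : HasDerivWithinAt (fun t => φ (γ' t)) v' (Icc 0 1) 0) :
    Tendsto (fun t => dist (γ t) (γ' t) / t) (𝓝[>] 0)
      (𝓝 (√(G (φ x₀) (v - v') (v - v')))) := by
  have hmem : ∀ᶠ t : ℝ in 𝓝[>] 0, t ∈ Ioc (0 : ℝ) 1 := Ioc_mem_nhdsGT one_pos
  set a : ℝ → E := fun t => φ (γ t) - φ (γ' t) with ha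
  have hle : 𝓝[>] (0 : ℝ) ≤ 𝓝[Icc (0 : ℝ) 1] 0 := by
    refine nhdsWithin_le_iff.2 (mem_of_superset hmem fun t ht => ⟨ht.1.le, ht.2⟩)
  have hda : HasDerivWithinAt a (v - v') (Icc 0 1) 0 := hv.sub hv'
  have ha0 : a 0 = 0 := by simp [ha, hγ0, hγ0']
  have hslope : Tendsto (fun t : ℝ => t⁻¹ • a t) (𝓝[>] 0) (𝓝 (v - v')) := by
    have h1 := hasDerivWithinAt_iff_tendsto_slope.1 hda
    have h2 : 𝓝[>] (0 : ℝ) ≤ 𝓝[Icc (0 : ℝ) 1 \ {0}] 0 := by
      refine nhdsWithin_le_iff.2 (mem_of_superset hmem fun t ht => ⟨⟨ht.1.le, ht.2⟩, ?_⟩)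
      simpa using ht.1.ne'
    refine (h1.mono_left h2).congr fun t => ?_
    simp [slope, ha0]
  have hO : a =O[𝓝[>] 0] (fun t : ℝ => t) := by
    have := (hda.hasFDerivWithinAt.isBigO_sub).mono hle
    simpa [ha0] using this
  have hq : Tendsto (fun t => (φ (γ t), φ (γ' t))) (𝓝[>] 0) (𝓝 (φ x₀, φ x₀)) := by
    have h1 := (hv.continuousWithinAt.tendsto.mono_left hle)
    have h2 := (hv'.continuousWithinAt.tendsto.mono_left hle)
    rw [hγ0] at h1
    rw [hγ0'] at h2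
    exact h1.prodMk_nhds h2
  have ho : (fun q : E × E => dist (φ.symm q.1) (φ.symm q.2) -
      √(G (φ x₀) (q.1 - q.2) (q.1 - q.2))) =o[𝓝 (φ x₀, φ x₀)] (fun q => q.1 - q.2) := by
    refine Asymptotics.isLittleO_iff.2 fun ε hε => ?_
    exact hG.asym (φ x₀) (φ.map_source hx₀) ε hε
  have ho2 : (fun t => dist (φ.symm (φ (γ t))) (φ.symm (φ (γ' t))) -
      √(G (φ x₀) (a t) (a t))) =o[𝓝[>] 0] (fun t : ℝ => t) :=
    (ho.comp_tendsto hq).trans_isBigO hO
  have ho3 := ho2.tendsto_div_nhds_zero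
  have hlim : Tendsto (fun t : ℝ => √(G (φ x₀) (t⁻¹ • a t) (t⁻¹ • a t))) (𝓝[>] 0)
      (𝓝 (√(G (φ x₀) (v - v') (v - v')))) := by
    have hc : Continuous fun e : E => √(G (φ x₀) e e) := by fun_prop
    exact (hc.tendsto _).comp hslope
  have hsum := ho3.add hlim
  rw [zero_add] at hsum
  refine hsum.congr' ?_
  filter_upwards [hmem] with t ht
  have ht0 : 0 < t := ht.1
  rw [φ.left_inv (hs t ⟨ht.1.le, ht.2⟩).1, φ.left_inv (hs t ⟨ht.1.le, ht.2⟩).2]
  have e1 : G (φ x₀) (t⁻¹ • a t) (t⁻¹ • a t) = (t⁻¹) ^ 2 * G (φ x₀) (a t) (a t) := by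
    simp only [map_smul, smul_apply, smul_eq_mul]; ring
  rw [e1, Real.sqrt_mul (by positivity), Real.sqrt_sq (by positivity)]
  field_simp
  ring

theorem log_chart_core {M E : Type} [MetricSpace M] [NormedAddCommGroup E]
    [InnerProductSpace ℝ E] [FiniteDimensional ℝ E] (φ : OpenPartialHomeomorph M E) (x₀ : M)
    (hx₀ : x₀ ∈ φ.source) (G : E → E →L[ℝ] E →L[ℝ] ℝ)
    (hG : LocalMetric φ.target G (fun u v => dist (φ.symm u) (φ.symm v)))
    (hgeo : ∀ z, ∃ γ, IsGeo x₀ z γ) :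
    ∃ (e : OpenPartialHomeomorph M E) (r : ℝ), 0 < r ∧
      e.source = Metric.ball x₀ r ∧ e.target = Metric.ball 0 r ∧ e x₀ = 0 ∧
      (∀ g : M → M, Isometry g → g x₀ = x₀ →
        ∃ L : E →ₗ[ℝ] E, ∀ z ∈ e.source, e (g z) = L (e z)) ∧
      (∀ g : M → M, Isometry g → g x₀ = x₀ →
        HasFDerivAt (fun u => φ (g (φ.symm u))) (-ContinuousLinearMap.id ℝ E) (φ x₀) →
          ∀ z ∈ e.source, e (g z) = - e z) := by
  classical
  obtain ⟨r₁, hS⟩ := exists_setup φ x₀ hx₀ G hG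
  have hr₁ := hS.r_pos
  have hx₀b : x₀ ∈ ball x₀ r₁ := mem_ball_self hr₁
  have hu₀ : φ x₀ ∈ φ.target := φ.map_source hx₀
  -- definition of Log
  have hex : ∀ z : M, ∃ v : E, z ∈ ball x₀ r₁ → ∃ γ, IsGeo x₀ z γ ∧
      HasDerivWithinAt (fun t => φ (γ t)) v (Icc 0 1) 0 ∧ G (φ x₀) v v = dist x₀ z ^ 2 := by
    intro z
    by_cases hz : z ∈ ball x₀ r₁
    · obtain ⟨γ, hγ⟩ := hgeo z
      obtain ⟨v, h1, h2⟩ := hS.init z hz γ hγ
      exact ⟨v, fun _ => ⟨γ, hγ, h1, h2⟩⟩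
    · exact ⟨0, fun h => absurd h hz⟩
  choose Log hLog using hex
  have P1 : ∀ z ∈ ball x₀ r₁, ∀ γ, IsGeo x₀ z γ → ∀ v,
      HasDerivWithinAt (fun t => φ (γ t)) v (Icc 0 1) 0 → v = Log z := by
    intro z hz γ hγ v hv
    obtain ⟨γ', hγ', hv', -⟩ := hLog z hz
    have := hS.cmp z hz z hz γ γ' hγ hγ' v (Log z) hv hv'
    rw [sub_self, zero_sub, norm_neg] at this
    have h2 : ‖v - Log z‖ = 0 := by linarith [norm_nonneg (v - Log z)]
    exact sub_eq_zero.1 (norm_eq_zero.1 h2)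
  have P1' : ∀ z ∈ ball x₀ r₁, ∀ γ, IsGeo x₀ z γ →
      HasDerivWithinAt (fun t => φ (γ t)) (Log z) (Icc 0 1) 0 := by
    intro z hz γ hγ
    obtain ⟨v, h1, -⟩ := hS.init z hz γ hγ
    rw [← P1 z hz γ hγ v h1]; exact h1
  have P2 : ∀ z ∈ ball x₀ r₁, G (φ x₀) (Log z) (Log z) = dist x₀ z ^ 2 := by
    intro z hz
    obtain ⟨γ, -, -, h⟩ := hLog z hz
    exact h
  have P3 : ∀ z ∈ ball x₀ r₁, ∀ w ∈ ball x₀ r₁,
      ‖(φ z - φ w) - (Log z - Log w)‖ ≤ (1 / 4) * ‖Log z - Log w‖ := by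
    intro z hz w hw
    obtain ⟨γ, hγ, h1, -⟩ := hLog z hz
    obtain ⟨γ', hγ', h1', -⟩ := hLog w hw
    exact hS.cmp z hz w hw γ γ' hγ hγ' _ _ h1 h1'
  obtain ⟨A, hA⟩ := exists_iso (G (φ x₀)) (hG.symm _ hu₀) (hG.pos _ hu₀)
  have hAn : ∀ v, ‖A v‖ ^ 2 = G (φ x₀) v v := fun v => by
    rw [← real_inner_self_eq_norm_sq, hA]
  have hsqrt : ∀ v, √(G (φ x₀) v v) = ‖A v‖ := fun v => by
    rw [← hAn, Real.sqrt_sq (norm_nonneg _)]
  have P4 : ∀ z ∈ ball x₀ r₁, ‖A (Log z)‖ = dist x₀ z := by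
    intro z hz
    have := hAn (Log z)
    rw [P2 z hz] at this
    exact (pow_left_inj₀ (norm_nonneg _) dist_nonneg two_ne_zero).1 this
  -- points of short geodesics
  have hpt : ∀ z ∈ ball x₀ r₁, ∀ γ, IsGeo x₀ z γ → ∀ t ∈ Icc (0 : ℝ) 1, γ t ∈ φ.source := by
    intro z hz γ hγ t ht
    have h1 := hγ.2.2 0 (by simp) t ht
    rw [hγ.1, zero_sub, abs_neg, abs_of_nonneg ht.1] at h1
    apply hS.sub
    rw [mem_ball, dist_comm, h1]
    rw [mem_ball, dist_comm] at hz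
    calc dist x₀ z * t ≤ dist x₀ z * 1 := by gcongr; exact ht.2
      _ < r₁ := by rw [mul_one]; exact hz
  -- isometries
  have hgb : ∀ g : M → M, Isometry g → g x₀ = x₀ → ∀ r, ∀ z ∈ ball x₀ r, g z ∈ ball x₀ r := by
    intro g hg hgx r z hz
    rw [mem_ball] at hz ⊢
    calc dist (g z) x₀ = dist (g z) (g x₀) := by rw [hgx]
      _ = dist z x₀ := hg.dist_eq _ _
      _ < r := hz
  have hgγ : ∀ g : M → M, Isometry g → g x₀ = x₀ → ∀ z γ, IsGeo x₀ z γ →
      IsGeo x₀ (g z) (fun t => g (γ t)) := by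
    intro g hg hgx z γ hγ
    refine ⟨by simp [hγ.1, hgx], by simp [hγ.2.1], fun s hs t ht => ?_⟩
    rw [hg.dist_eq, hγ.2.2 s hs t ht]
    congr 1
    conv_rhs => rw [← hgx]
    exact (hg.dist_eq _ _).symm
  have P5 : ∀ g : M → M, Isometry g → g x₀ = x₀ → ∀ z ∈ ball x₀ r₁, ∀ w ∈ ball x₀ r₁,
      ‖A (Log (g z)) - A (Log (g w))‖ = ‖A (Log z) - A (Log w)‖ := by
    intro g hg hgx z hz w hw
    obtain ⟨γ, hγ, h1, -⟩ := hLog z hz
    obtain ⟨γ', hγ', h1', -⟩ := hLog w hw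
    have hgz := hgb g hg hgx r₁ z hz
    have hgw := hgb g hg hgx r₁ w hw
    have hgγz := hgγ g hg hgx z γ hγ
    have hgγw := hgγ g hg hgx w γ' hγ'
    have t1 := tendsto_dist φ x₀ hx₀ G hG γ γ' hγ.1 hγ'.1
      (fun t ht => ⟨hpt z hz γ hγ t ht, hpt w hw γ' hγ' t ht⟩) _ _ h1 h1'
    have t2 := tendsto_dist φ x₀ hx₀ G hG (fun t => g (γ t)) (fun t => g (γ' t)) hgγz.1 hgγw.1
      (fun t ht => ⟨hpt _ hgz _ hgγz t ht, hpt _ hgw _ hgγw t ht⟩) _ _
      (P1' _ hgz _ hgγz) (P1' _ hgw _ hgγw)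
    simp only [hg.dist_eq] at t2
    have := tendsto_nhds_unique t2 t1
    rwa [hsqrt, hsqrt, map_sub, map_sub] at this
  -- the homeomorphism
  set U : Set E := φ.target ∩ φ.symm ⁻¹' (ball x₀ r₁) with hU
  have hUo : IsOpen U := φ.isOpen_inter_preimage_symm isOpen_ball
  have hUsymm : ∀ u ∈ U, φ.symm u ∈ ball x₀ r₁ := fun u hu => hu.2
  have happ : ApproximatesLinearOn (fun u => Log (φ.symm u))
      ((ContinuousLinearEquiv.refl ℝ E : E ≃L[ℝ] E) : E →L[ℝ] E) U (1 / 3) := by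
    intro u hu w hw
    have h1 := P3 _ hu.2 _ hw.2
    rw [φ.right_inv hu.1, φ.right_inv hw.1] at h1
    have h2 : ‖(u - w) - (Log (φ.symm u) - Log (φ.symm w))‖ =
      ‖Log (φ.symm u) - Log (φ.symm w) - (u - w)‖ := norm_sub_rev _ _
    have h3 : ‖Log (φ.symm u) - Log (φ.symm w)‖ ≤
        ‖Log (φ.symm u) - Log (φ.symm w) - (u - w)‖ + ‖u - w‖ := by
      calc ‖Log (φ.symm u) - Log (φ.symm w)‖ =
          ‖(Log (φ.symm u) - Log (φ.symm w) - (u - w)) + (u - w)‖ := by congr 1; abel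
        _ ≤ _ := norm_add_le _ _
    change ‖Log (φ.symm u) - Log (φ.symm w) - (u - w)‖ ≤ _
    have h4 : ((1 / 3 : ℝ≥0) : ℝ) = 1 / 3 := by norm_num
    rw [h4]
    linarith
  have hc : Subsingleton E ∨ (1 / 3 : ℝ≥0) <
      ‖((ContinuousLinearEquiv.refl ℝ E : E ≃L[ℝ] E).symm : E →L[ℝ] E)‖₊⁻¹ := by
    by_cases hE : Subsingleton E
    · exact Or.inl hE
    · right
      have hnt : Nontrivial E := not_subsingleton_iff_nontrivial.1 hE
      have : ‖((ContinuousLinearEquiv.refl ℝ E : E ≃L[ℝ] E).symm : E →L[ℝ] E)‖₊ = 1 := by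
        have h : ((ContinuousLinearEquiv.refl ℝ E : E ≃L[ℝ] E).symm : E →L[ℝ] E) =
          ContinuousLinearMap.id ℝ E := rfl
        rw [h]
        exact NNReal.eq (by simpa using ContinuousLinearMap.norm_id)
      rw [this, inv_one]
      rw [div_lt_one (by norm_num)]; norm_num
  let F : OpenPartialHomeomorph E E := happ.toOpenPartialHomeomorph _ _ hc hUo
  have hFs : F.source = U := rfl
  have hFc : ∀ u, F u = Log (φ.symm u) := fun u => rfl
  let e₂ : OpenPartialHomeomorph M E := (φ.trans F).transHomeomorph A.toHomeomorph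
  have he₂c : ∀ z, e₂ z = A (Log (φ.symm (φ z))) := fun z => rfl
  have he₂s : e₂.source = ball x₀ r₁ := by
    have : e₂.source = φ.source ∩ φ ⁻¹' U := rfl
    rw [this]
    ext z
    constructor
    · rintro ⟨h1, h2⟩
      have := h2.2
      simp only [mem_preimage, φ.left_inv h1] at this
      exact this
    · intro hz
      have h1 := hS.sub hz
      refine ⟨h1, φ.map_source h1, ?_⟩
      simp only [mem_preimage, φ.left_inv h1]
      exact hz
  have he₂ : ∀ z ∈ ball x₀ r₁, e₂ z = A (Log z) := fun z hz => by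
    rw [he₂c, φ.left_inv (hS.sub hz)]
  have hn₂ : ∀ z ∈ ball x₀ r₁, ‖e₂ z‖ = dist x₀ z := fun z hz => by rw [he₂ z hz, P4 z hz]
  have he₂0 : e₂ x₀ = 0 := by
    rw [← norm_eq_zero, hn₂ x₀ hx₀b, dist_self]
  obtain ⟨r, hr, hrr₁, hrt⟩ : ∃ r > 0, r ≤ r₁ ∧ ball (0 : E) r ⊆ e₂.target := by
    have h0 : (0 : E) ∈ e₂.target := by
      rw [← he₂0]; exact e₂.map_source (by rw [he₂s]; exact hx₀b)
    obtain ⟨r, hr, h⟩ := Metric.mem_nhds_iff.1 (e₂.open_target.mem_nhds h0)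
    exact ⟨min r r₁, lt_min hr hr₁, min_le_right _ _,
      (ball_subset_ball (min_le_left _ _)).trans h⟩
  have hbb : ball x₀ r ⊆ ball x₀ r₁ := ball_subset_ball hrr₁
  let e : OpenPartialHomeomorph M E := e₂.restrOpen (ball x₀ r) isOpen_ball
  have hes : e.source = ball x₀ r := by
    have : e.source = e₂.source ∩ ball x₀ r := e₂.restrOpen_source _ _
    rw [this, he₂s]
    exact inter_eq_right.2 hbb
  have hec : ∀ z, e z = e₂ z := fun z => rfl
  have het : e.target = ball 0 r := by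
    ext y
    constructor
    · intro hy
      have h1 := e.map_target hy
      have h2 := e.right_inv hy
      rw [hes] at h1
      rw [mem_ball_zero_iff, ← h2, hec, hn₂ _ (hbb h1), dist_comm]
      exact h1
    · intro hy
      have h1 := hrt hy
      have h2 := e₂.map_target h1
      have h3 := e₂.right_inv h1
      rw [he₂s] at h2
      have h4 : e₂.symm y ∈ e.source := by
        rw [hes, mem_ball, dist_comm, ← hn₂ _ h2, h3]
        rwa [mem_ball_zero_iff] at hy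
      have h5 := e.map_source h4
      rw [hec, h3] at h5
      exact h5
  refine ⟨e, r, hr, hes, het, by rw [hec, he₂0], ?_, ?_⟩
  · intro g hg hgx
    have hE : ∀ z ∈ ball x₀ r, e z = A (Log z) := fun z hz => by rw [hec, he₂ z (hbb hz)]
    have hN : ∀ z ∈ ball x₀ r, ‖e z‖ = dist x₀ z := fun z hz => by rw [hec, hn₂ z (hbb hz)]
    have hsm : ∀ y ∈ ball (0 : E) r, e.symm y ∈ ball x₀ r := fun y hy => by
      rw [← hes]; exact e.map_target (by rwa [het])
    have hri : ∀ y ∈ ball (0 : E) r, e (e.symm y) = y := fun y hy => e.right_inv (by rwa [het])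
    obtain ⟨L, hL⟩ := exists_linear hr (fun y => e (g (e.symm y))) (by
      intro x hx y hy
      have hgx' := hgb g hg hgx r _ (hsm x hx)
      have hgy' := hgb g hg hgx r _ (hsm y hy)
      have n1 : ‖e (g (e.symm x))‖ = ‖x‖ := by
        rw [hN _ hgx', ← hri x hx, hN _ (hsm x hx), hri x hx]
        conv_lhs => rw [← hgx]
        exact hg.dist_eq _ _
      have n2 : ‖e (g (e.symm y))‖ = ‖y‖ := by
        rw [hN _ hgy', ← hri y hy, hN _ (hsm y hy), hri y hy]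
        conv_lhs => rw [← hgx]
        exact hg.dist_eq _ _
      have n3 : ‖e (g (e.symm x)) - e (g (e.symm y))‖ = ‖x - y‖ := by
        rw [hE _ hgx', hE _ hgy', P5 g hg hgx _ (hbb (hsm x hx)) _ (hbb (hsm y hy)),
          ← hE _ (hsm x hx), ← hE _ (hsm y hy), hri x hx, hri y hy]
      have i1 := norm_sub_sq_real (e (g (e.symm x))) (e (g (e.symm y)))
      have i2 := norm_sub_sq_real x y
      rw [n1, n2, n3, i2] at i1
      change inner ℝ (e (g (e.symm x))) (e (g (e.symm y))) = inner ℝ x y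
      linarith)
    refine ⟨L, fun z hz => ?_⟩
    have h1 : e z ∈ ball (0 : E) r := by rw [← het]; exact e.map_source hz
    have h2 := hL (e z) h1
    simp only [e.left_inv hz] at h2
    exact h2
  · intro g hg hgx hd z hz
    rw [hes] at hz
    have hz₁ := hbb hz
    have hgz := hgb g hg hgx r z hz
    have hgz₁ := hbb hgz
    obtain ⟨γ, hγ, h1, -⟩ := hLog z hz₁
    have hgγ' := hgγ g hg hgx z γ hγ
    have hd' : HasFDerivAt (fun u => φ (g (φ.symm u))) (-ContinuousLinearMap.id ℝ E)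
        (φ (γ 0)) := by rw [hγ.1]; exact hd
    have h2 : HasDerivWithinAt (fun t => φ (g (φ.symm (φ (γ t)))))
        ((-ContinuousLinearMap.id ℝ E) (Log z)) (Icc 0 1) 0 := by
      have h := HasFDerivAt.comp_hasDerivWithinAt (𝕜 := ℝ) (f := fun t => φ (γ t)) (0 : ℝ) hd' h1
      exact h
    have h3 : HasDerivWithinAt (fun t => φ (g (γ t)))
        ((-ContinuousLinearMap.id ℝ E) (Log z)) (Icc 0 1) 0 := by
      refine h2.congr (fun t ht => ?_) ?_
      · rw [φ.left_inv (hpt z hz₁ γ hγ t ht)]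
      · rw [φ.left_inv (hpt z hz₁ γ hγ 0 (by simp))]
    have h4 := P1 _ hgz₁ _ hgγ' _ h3
    rw [hec, hec, he₂ _ hgz₁, he₂ _ hz₁, ← h4]
    simp

end LogChart

end Pool.Agent.W_MP_6d5819_gt
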