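import Pool.Agent.W_MP_6d5819_gt.ChartMetric
import Pool.Agent.W_MP_6d5819_gt.Geod
import Pool.Agent.W_MP_6d5819_gt.LogChartCore

set_option autoImplicit false

open scoped Manifold ContDiff Topology
open Bundle

namespace Pool.Agent.W_MP_6d5819_gt

theorem exists_log_chart (d : ℕ) (M : Type) [MetricSpace M]
    [ChartedSpace (EuclideanSpace ℝ (Fin d)) M] [IsManifold (𝓡 d) ∞ M]
    [RiemannianBundle (fun x : M ↦ TangentSpace (𝓡 d) x)]
    [IsContMDiffRiemannianBundle (𝓡 d) ∞ (EuclideanSpace ℝ (Fin d))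
      (fun x : M ↦ TangentSpace (𝓡 d) x)]
    [IsRiemannianManifold (𝓡 d) M] [CompactSpace M] (x₀ : M) :
    ∃ (e : OpenPartialHomeomorph M (EuclideanSpace ℝ (Fin d))) (r : ℝ), 0 < r ∧
      e.source = Metric.ball x₀ r ∧ e.target = Metric.ball 0 r ∧ e x₀ = 0 ∧
      (∀ g : M → M, Isometry g → g x₀ = x₀ →
        ∃ L : EuclideanSpace ℝ (Fin d) →ₗ[ℝ] EuclideanSpace ℝ (Fin d),
          ∀ z ∈ e.source, e (g z) = L (e z)) ∧
      (∀ g : M → M, Isometry g → g x₀ = x₀ →
        mfderiv (𝓡 d) (𝓡 d) g x₀ = -ContinuousLinearMap.id ℝ (EuclideanSpace ℝ (Fin d)) →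
          ∀ z ∈ e.source, e (g z) = - e z) := by
  obtain ⟨G, hG⟩ := exists_chart_metric d M x₀
  set φ : OpenPartialHomeomorph M (EuclideanSpace ℝ (Fin d)) :=
    chartAt (EuclideanSpace ℝ (Fin d)) x₀ with hφ
  have ht : (extChartAt (𝓡 d) x₀).target = φ.target := by simp [hφ, extChartAt]
  have hsymm : ∀ u, (extChartAt (𝓡 d) x₀).symm u = φ.symm u := fun u => by simp [hφ, extChartAt]
  have hto : ∀ z, extChartAt (𝓡 d) x₀ z = φ z := fun z => by simp [hφ, extChartAt]
  have hG' : LocalMetric φ.target G (fun u v => dist (φ.symm u) (φ.symm v)) := by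
    have := hG
    rw [ht] at this
    simpa only [hsymm] using this
  have hx₀ : x₀ ∈ φ.source := mem_chart_source _ _
  obtain ⟨e, r, hr, h1, h2, h3, h4, h5⟩ := LogChart.log_chart_core φ x₀ hx₀ G hG' (fun z => by
    obtain ⟨γ, a, b, c⟩ := exists_geodesic d M x₀ z
    exact ⟨γ, a, b, c⟩)
  refine ⟨e, r, hr, h1, h2, h3, h4, fun g hg hgx hd z hz => ?_⟩
  by_cases hE : Subsingleton (EuclideanSpace ℝ (Fin d))
  · exact Subsingleton.elim _ _
  · have hnt : Nontrivial (EuclideanSpace ℝ (Fin d)) := not_subsingleton_iff_nontrivial.1 hE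
    refine h5 g hg hgx ?_ z hz
    have hmd : MDifferentiableAt (𝓡 d) (𝓡 d) g x₀ := by
      by_contra hn
      rw [mfderiv_zero_of_not_mdifferentiableAt hn] at hd
      obtain ⟨v, hv⟩ := exists_ne (0 : EuclideanSpace ℝ (Fin d))
      have := congrArg (fun T : EuclideanSpace ℝ (Fin d) →L[ℝ] EuclideanSpace ℝ (Fin d) => T v) hd
      have h0 : (0 : EuclideanSpace ℝ (Fin d)) = -v := this
      exact hv (neg_eq_zero.1 h0.symm)
    have hh := hmd.hasMFDerivAt
    rw [hd] at hh
    have h6 := hh.2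
    simp only [writtenInExtChartAt, hgx, modelWithCornersSelf_coe, Set.range_id] at h6
    have h7 := hasFDerivWithinAt_univ.1 h6
    rw [hto] at h7
    refine h7.congr_of_eventuallyEq (Filter.Eventually.of_forall fun u => ?_)
    simp only [Function.comp_apply, hsymm, hto]

end Pool.Agent.W_MP_6d5819_gt
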