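import Pool.Agent.W_MP_6d5819_gt.AntipodalAux
import Pool.Agent.W_MP_6d5819_gt.LogChart

set_option autoImplicit false

/-! Symmetries at antipodal points: commuting involutions, diagonal chart. -/

open scoped Manifold ContDiff Topology
open Bundle Filter

namespace Pool.Agent.W_MP_6d5819_gt

theorem antipodal_structure (d : ℕ) (M : Type) [MetricSpace M]
    [ChartedSpace (EuclideanSpace ℝ (Fin d)) M] [IsManifold (𝓡 d) ∞ M]
    [RiemannianBundle (fun x : M ↦ TangentSpace (𝓡 d) x)]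
    [IsContMDiffRiemannianBundle (𝓡 d) ∞ (EuclideanSpace ℝ (Fin d))
      (fun x : M ↦ TangentSpace (𝓡 d) x)]
    [IsRiemannianManifold (𝓡 d) M] [CompactSpace M] [ConnectedSpace M]
    (s : M → M → M)
    (hs : ∀ x : M, Isometry (s x) ∧ s x x = x ∧
      mfderiv (𝓡 d) (𝓡 d) (s x) x = -ContinuousLinearMap.id ℝ (EuclideanSpace ℝ (Fin d)))
    (A : Finset M) (hA : ∀ x ∈ A, ∀ y ∈ A, s x y = y) :
    (∀ x z, s x (s x z) = z) ∧
    (∀ x ∈ A, ∀ y ∈ A, ∀ z, s x (s y z) = s y (s x z)) ∧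
    (∀ x ∈ A, ∃ (e : OpenPartialHomeomorph M (Fin d → ℝ)) (ε : M → Fin d → ℝ),
      x ∈ e.source ∧ e x = 0 ∧ Convex ℝ e.target ∧ (∀ y ∈ A, ∀ j, ε y j = 1 ∨ ε y j = -1) ∧
      (∀ y ∈ A, ∀ z ∈ e.source, s y z ∈ e.source ∧ e (s y z) = fun j => ε y j * e z j) ∧
      ∀ j, ε x j = -1) := by
  refine antipodal_structure_aux d M s (fun x => ⟨(hs x).1, (hs x).2.1⟩) (fun x₀ => ?_) A hA
  obtain ⟨e, r, hr, hsrc, htgt, hex, hlin, hneg⟩ := exists_log_chart d M x₀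
  exact ⟨e, r, hr, hsrc, htgt, hex, hlin,
    hneg (s x₀) (hs x₀).1 (hs x₀).2.1 (hs x₀).2.2⟩

end Pool.Agent.W_MP_6d5819_gt
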