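import Pool.Agent.W_MP_6d5819_gt.Subdiv

set_option autoImplicit false

/-! Comparison of the concrete singular homology with the one of Mathlib. -/

open CategoryTheory Limits AlgebraicTopology Simplicial

namespace Pool.Agent.W_MP_6d5819_gt

namespace Cmp

theorem quot_equiv {R A B C W : Type} [CommRing R] [AddCommGroup A] [Module R A] [AddCommGroup B]
    [Module R B] [AddCommGroup C] [Module R C] [AddCommGroup W] [Module R W]
    (f : A →ₗ[R] B) (g : B →ₗ[R] C) (hf : ∀ a, f a ∈ LinearMap.ker g)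
    (Φ : B →ₗ[R] W) (Bd : Submodule R W) (H : Submodule R (W ⧸ Bd))
    (h1 : ∀ z ∈ LinearMap.ker g, Bd.mkQ (Φ z) ∈ H)
    (h2 : ∀ y ∈ H, ∃ z ∈ LinearMap.ker g, Bd.mkQ (Φ z) = y)
    (h3 : ∀ z ∈ LinearMap.ker g, Φ z ∈ Bd ↔ z ∈ LinearMap.range f) :
    Nonempty ((↥(LinearMap.ker g) ⧸ LinearMap.range (f.codRestrict (LinearMap.ker g) hf)) ≃ₗ[R] H) := by
  let θ : ↥(LinearMap.ker g) →ₗ[R] H :=
    (Bd.mkQ.comp (Φ.comp (LinearMap.ker g).subtype)).codRestrict H (fun z => h1 z.1 z.2)
  have hθs : Function.Surjective θ := by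
    rintro ⟨y, hy⟩
    obtain ⟨z, hz, hzy⟩ := h2 y hy
    exact ⟨⟨z, hz⟩, Subtype.ext hzy⟩
  have hker : LinearMap.range (f.codRestrict (LinearMap.ker g) hf) = LinearMap.ker θ := by
    ext ⟨z, hz⟩
    constructor
    · rintro ⟨a, ha⟩
      have ha' : f a = z := congrArg Subtype.val ha
      have : Φ z ∈ Bd := (h3 z hz).2 ⟨a, ha'⟩
      rw [LinearMap.mem_ker]
      refine Subtype.ext ?_
      exact (Submodule.Quotient.mk_eq_zero Bd).2 this
    · intro h
      rw [LinearMap.mem_ker] at h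
      have h' : Bd.mkQ (Φ z) = 0 := congrArg Subtype.val h
      obtain ⟨a, ha⟩ := (h3 z hz).1 ((Submodule.Quotient.mk_eq_zero Bd).1 h')
      exact ⟨a, Subtype.ext ha⟩
  exact ⟨(Submodule.quotEquivOfEq _ _ hker).trans (θ.quotKerEquivOfSurjective hθs)⟩

theorem aff_vtx_eq_map {k m : ℕ} (f : Fin k → Fin m) (s : Simp k) :
    aff (fun j => vtx (f j)) s = stdSimplex.map f s := by
  ext j
  rw [aff_apply, stdSimplex.map_coe, FunOnFinite.linearMap_apply_apply]
  rw [Finset.sum_filter]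
  refine Finset.sum_congr rfl fun i _ => ?_
  rw [vtx_apply]
  by_cases h : f i = j
  · rw [if_pos h, if_pos h.symm, mul_one]
  · rw [if_neg h, if_neg (Ne.symm h), mul_zero]

variable (R : Type) [CommRing R] (X : Type) [TopologicalSpace X]

/-- The singular chain complex of Mathlib. -/
noncomputable abbrev CC : ChainComplex (ModuleCat.{0} R) ℕ :=
  ((singularChainComplexFunctor (ModuleCat.{0} R)).obj (ModuleCat.of R R)).obj (TopCat.of X)

/-- The singular simplicial set. -/
noncomputable abbrev SX : SSet.{0} := TopCat.toSSet.obj (TopCat.of X)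

/-- Singular simplices. -/
noncomputable def eqv (n : ℕ) : (SX X) _⦋n⦌ ≃ C(Simp (n + 1), X) :=
  TopCat.toSSetObjEquiv (TopCat.of X) (Opposite.op ⦋n⦌)

theorem eqv_delta {n : ℕ} (x : (SX X) _⦋n + 1⦌) (i : Fin (n + 2)) :
    eqv X n ((SX X).δ i x) = face (eqv X (n + 1) x) i := by
  ext s
  simp only [face, ContinuousMap.comp_apply]
  rw [aff_vtx_eq_map]
  rfl

/-- The generators. -/
noncomputable def iotaC (n : ℕ) (x : (SX X) _⦋n⦌) : ModuleCat.of R R ⟶ (CC R X).X n :=
  (SX X).ιChainComplex x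

/-- Comparison map. -/
noncomputable def PhiM (n : ℕ) : (CC R X).X n ⟶ ModuleCat.of R (Ch R X) :=
  Sigma.desc (fun x : (SX X) _⦋n⦌ => ModuleCat.ofHom (Finsupp.lsingle (⟨n, eqv X n x⟩ : Sing X)))

theorem iota_Phi (n : ℕ) (x : (SX X) _⦋n⦌) : iotaC R X n x ≫ PhiM R X n =
    ModuleCat.ofHom (Finsupp.lsingle (⟨n, eqv X n x⟩ : Sing X)) := by
  exact Sigma.ι_desc _ _

theorem hom_ext' {n : ℕ} {T : ModuleCat.{0} R} {f g : (CC R X).X n ⟶ T}
    (h : ∀ x : (SX X) _⦋n⦌, iotaC R X n x ≫ f = iotaC R X n x ≫ g) : f = g :=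
  SSet.chainComplex_hom_ext h

/-- Comparison map as a linear map. -/
noncomputable def Phi (n : ℕ) : ((CC R X).X n : Type) →ₗ[R] Ch R X := (PhiM R X n).hom

theorem Phi_iota (n : ℕ) (x : (SX X) _⦋n⦌) (r : R) :
    Phi R X n ((iotaC R X n x).hom r) = Finsupp.single (⟨n, eqv X n x⟩ : Sing X) r := by
  have h := iota_Phi R X n x
  have h2 := congrArg (fun φ : ModuleCat.of R R ⟶ ModuleCat.of R (Ch R X) => φ.hom r) h
  exact h2

/-- Two linear maps out of the chains agreeing on generators agree. -/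
theorem lin_ext {n : ℕ} {T : Type} [AddCommGroup T] [Module R T]
    {f g : ((CC R X).X n : Type) →ₗ[R] T}
    (h : ∀ (x : (SX X) _⦋n⦌), f ((iotaC R X n x).hom 1) = g ((iotaC R X n x).hom 1)) : f = g := by
  have h1 : ModuleCat.ofHom f = ModuleCat.ofHom g := by
    refine hom_ext' R X ?_
    intro x
    ext
    exact h x
  have h2 := congrArg ModuleCat.Hom.hom h1
  exact h2

open Classical in
/-- The inverse comparison map. -/
noncomputable def Psi (n : ℕ) : Ch R X →ₗ[R] ((CC R X).X n : Type) :=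
  Finsupp.linearCombination R (fun s : Sing X =>
    if h : s.1 = n then (iotaC R X n ((eqv X n).symm (h ▸ s.2))).hom (1 : R) else 0)

theorem Psi_single (n : ℕ) (σ : C(Simp (n + 1), X)) (r : R) :
    Psi R X n (Finsupp.single (⟨n, σ⟩ : Sing X) r) =
      r • (iotaC R X n ((eqv X n).symm σ)).hom (1 : R) := by
  simp [Psi]

theorem Psi_Phi (n : ℕ) : (Psi R X n).comp (Phi R X n) = LinearMap.id := by
  refine lin_ext R X ?_
  intro x
  rw [LinearMap.comp_apply, Phi_iota, Psi_single, Equiv.symm_apply_apply, one_smul]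
  rfl

theorem Psi_Phi_apply (n : ℕ) (z : ((CC R X).X n : Type)) : Psi R X n (Phi R X n z) = z :=
  congrArg (fun f : ((CC R X).X n : Type) →ₗ[R] ((CC R X).X n : Type) => f z) (Psi_Phi R X n)

theorem Phi_mem (n : ℕ) (z : ((CC R X).X n : Type)) :
    Phi R X n z ∈ chIn R n (Set.univ : Set X) := by
  have h : (chIn R n (Set.univ : Set X)).mkQ.comp (Phi R X n) = 0 := by
    refine lin_ext R X ?_
    intro x
    rw [LinearMap.comp_apply, Phi_iota, LinearMap.zero_apply]
    exact (Submodule.Quotient.mk_eq_zero _).2 (single_mem_chIn R _ (Set.subset_univ _) 1)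
  have h2 := congrArg (fun f : ((CC R X).X n : Type) →ₗ[R]
    (Ch R X ⧸ chIn R n (Set.univ : Set X)) => f z) h
  exact (Submodule.Quotient.mk_eq_zero _).1 h2

theorem Phi_Psi (n : ℕ) {c : Ch R X} (hc : c ∈ chIn R n (Set.univ : Set X)) :
    Phi R X n (Psi R X n c) = c := by
  refine chIn_induction R (P := fun c => Phi R X n (Psi R X n c) = c) (by simp)
    (fun a b _ _ ha hb => by rw [map_add, map_add, ha, hb]) ?_ c hc
  intro σ _ r
  rw [Psi_single, map_smul, Phi_iota, Equiv.apply_symm_apply, Finsupp.smul_single, smul_eq_mul,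
    mul_one]

theorem Phi_d (n : ℕ) (z : ((CC R X).X (n + 1) : Type)) :
    Phi R X n (((CC R X).d (n + 1) n).hom z) = bd R (Phi R X (n + 1) z) := by
  have h : (Phi R X n).comp ((CC R X).d (n + 1) n).hom = (bd R).comp (Phi R X (n + 1)) := by
    refine lin_ext R X ?_
    intro x
    rw [LinearMap.comp_apply, LinearMap.comp_apply, Phi_iota, bd_single_succ, one_smul]
    have h1 : iotaC R X (n + 1) x ≫ (CC R X).d (n + 1) n =
        ∑ i : Fin (n + 2), (-1 : ℤ) ^ i.val • iotaC R X n ((SX X).δ i x) :=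
      SSet.ιChainComplex_d (SX X) (ModuleCat.of R R) x
    have h2 : ((CC R X).d (n + 1) n).hom ((iotaC R X (n + 1) x).hom 1) =
        ∑ i : Fin (n + 2), (-1 : ℤ) ^ i.val • (iotaC R X n ((SX X).δ i x)).hom 1 := by
      have h3 : (iotaC R X (n + 1) x ≫ (CC R X).d (n + 1) n).hom 1 =
        (∑ i : Fin (n + 2), (-1 : ℤ) ^ i.val • iotaC R X n ((SX X).δ i x)).hom 1 := by rw [h1]
      refine Eq.trans h3 ?_
      rw [ModuleCat.hom_sum, LinearMap.sum_apply]
      rfl
    rw [h2, map_sum]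
    refine Finset.sum_congr rfl fun i _ => ?_
    rw [map_zsmul, Phi_iota, eqv_delta]
    rw [← Finsupp.smul_single_one _ ((-1 : R) ^ (i : ℕ))]
    rcases neg_one_pow_eq_or ℤ (i : ℕ) with h4 | h4
    · have h5 : ((-1 : R) ^ (i : ℕ)) = 1 := by
        have := congrArg (fun z : ℤ => (z : R)) h4
        push_cast at this
        exact this
      rw [h4, h5, one_smul, one_smul]
    · have h5 : ((-1 : R) ^ (i : ℕ)) = -1 := by
        have := congrArg (fun z : ℤ => (z : R)) h4
        push_cast at this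
        exact this
      rw [h4, h5, neg_smul, neg_smul, one_smul, one_smul]
  exact congrArg (fun f : ((CC R X).X (n + 1) : Type) →ₗ[R] Ch R X => f z) h

theorem Phi_inj (n : ℕ) {z w : ((CC R X).X n : Type)} (h : Phi R X n z = Phi R X n w) : z = w := by
  rw [← Psi_Phi_apply R X n z, h, Psi_Phi_apply]

theorem equiv_aux (n k : ℕ)
    (hk : ∀ z : ((CC R X).X n : Type), z ∈ LinearMap.ker ((CC R X).d n k).hom ↔
      bd R (Phi R X n z) = 0) :
    Nonempty ((((CC R X).sc' (n + 1) n k).moduleCatLeftHomologyData.H : Type) ≃ₗ[R] Hom R X n) := by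
  refine quot_equiv ((CC R X).d (n + 1) n).hom ((CC R X).d n k).hom
    (((CC R X).sc' (n + 1) n k).moduleCat_zero_apply) (Phi R X n) (bds R n Set.univ) (Hom R X n)
    ?_ ?_ ?_
  · intro z hz
    exact ⟨Phi R X n z, Submodule.mem_inf.2 ⟨Phi_mem R X n z, (hk z).1 hz⟩, rfl⟩
  · rintro _ ⟨c, hc, rfl⟩
    obtain ⟨hc1, hc2⟩ := Submodule.mem_inf.1 hc
    refine ⟨Psi R X n c, ?_, ?_⟩
    · rw [hk, Phi_Psi R X n hc1]
      exact hc2
    · rw [Phi_Psi R X n hc1]
  · intro z _
    constructor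
    · rintro ⟨w, hw, hwz⟩
      refine ⟨Psi R X (n + 1) w, ?_⟩
      apply Phi_inj R X n
      have h := Phi_d R X n (Psi R X (n + 1) w)
      rw [Phi_Psi R X (n + 1) hw, hwz] at h
      exact h
    · rintro ⟨y, rfl⟩
      exact ⟨Phi R X (n + 1) y, Phi_mem R X (n + 1) y, (Phi_d R X n y).symm⟩

end Cmp

open Cmp in
/-- The homology of Mathlib is the concrete homology. -/
theorem exists_homology_equiv (R : Type) [CommRing R] (X : Type) [TopologicalSpace X] (n : ℕ) :
    Nonempty (((((AlgebraicTopology.singularHomologyFunctor (ModuleCat.{0} R) n).obj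
            (ModuleCat.of R R)).obj (TopCat.of X) : ModuleCat.{0} R) : Type) ≃ₗ[R] Hom R X n) := by
  have key : ∀ k : ℕ, (ComplexShape.down ℕ).next n = k →
      (∀ z : ((CC R X).X n : Type), z ∈ LinearMap.ker ((CC R X).d n k).hom ↔
        bd R (Phi R X n z) = 0) →
      Nonempty (((CC R X).homology n : Type) ≃ₗ[R] Hom R X n) := by
    intro k hk hz
    obtain ⟨φ⟩ := equiv_aux R X n k hz
    have i1 : (CC R X).homology n ≅ ((CC R X).sc' (n + 1) n k).homology :=
      (CC R X).homologyIsoSc' (n + 1) n k (by simp) hk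
    have i2 := ((CC R X).sc' (n + 1) n k).moduleCatHomologyIso
    exact ⟨(i1 ≪≫ i2).toLinearEquiv.trans φ⟩
  cases n with
  | zero =>
    refine key 0 (by simp) ?_
    intro z
    have h1 : bd R (Phi R X 0 z) = 0 := bd_chIn_zero R (Phi_mem R X 0 z)
    have h2 : (CC R X).d 0 0 = 0 := (CC R X).shape 0 0 (by simp)
    rw [h2]
    simp [h1]
  | succ m =>
    refine key m (by simp) ?_
    intro z
    rw [LinearMap.mem_ker, ← Phi_d]
    constructor
    · intro h
      rw [h, map_zero]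
    · intro h
      exact Phi_inj R X m (by rw [h, map_zero])

end Pool.Agent.W_MP_6d5819_gt
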