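import Pool.Agent.W_MP_6d5819_gt.Subdiv

set_option autoImplicit false

/-! Finite dimensionality of the homology of compact locally contractible spaces. -/

open scoped Topology

namespace Pool.Agent.W_MP_6d5819_gt

theorem fg_lift {F V W : Type} [Field F] [AddCommGroup V] [Module F V] [AddCommGroup W] [Module F W]
    (Y : Submodule F V) (θ : V →ₗ[F] W) (Q B : Submodule F W) (hQ : Q.FG)
    (h : ∀ y ∈ Y, θ y ∈ Q ⊔ B) :
    ∃ Y₀ : Submodule F V, Y₀.FG ∧ Y₀ ≤ Y ∧ ∀ y ∈ Y, ∃ y₀ ∈ Y₀, θ (y - y₀) ∈ B := by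
  classical
  let ψ : V →ₗ[F] (W ⧸ B) := B.mkQ.comp θ
  have h1 : Y.map ψ ≤ Q.map B.mkQ := by
    rintro _ ⟨y, hy, rfl⟩
    obtain ⟨q, hq, b, hb, hqb⟩ := Submodule.mem_sup.1 (h y hy)
    refine ⟨q, hq, ?_⟩
    change B.mkQ q = B.mkQ (θ y)
    rw [← hqb, map_add, (Submodule.Quotient.mk_eq_zero B).2 hb |> fun h => (show B.mkQ b = 0 from h),
      add_zero]
  have h2 : (Q.map B.mkQ).FG := hQ.map _
  have h3 : (Y.map ψ).FG := Submodule.FG.of_le h2 h1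
  obtain ⟨s, hs⟩ := h3
  have h4 : ∀ x ∈ s, ∃ y ∈ Y, ψ y = x := by
    intro x hx
    have : x ∈ Y.map ψ := by rw [← hs]; exact Submodule.subset_span hx
    exact this
  choose! f hf hf' using h4
  refine ⟨Submodule.span F ((s.image f : Finset V) : Set V), ⟨s.image f, rfl⟩, ?_, ?_⟩
  · rw [Submodule.span_le]
    intro v hv
    obtain ⟨x, hx, rfl⟩ := Finset.mem_image.1 hv
    exact hf x hx
  · intro y hy
    have h5 : ψ y ∈ Submodule.map ψ (Submodule.span F ((s.image f : Finset V) : Set V)) := by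
      rw [Submodule.map_span]
      have h6 : ψ y ∈ Submodule.span F (s : Set (W ⧸ B)) := by
        rw [hs]; exact ⟨y, hy, rfl⟩
      refine Submodule.span_mono ?_ h6
      intro x hx
      exact ⟨f x, Finset.mem_image_of_mem f hx, hf' x hx⟩
    obtain ⟨y₀, hy₀, h7⟩ := h5
    refine ⟨y₀, hy₀, ?_⟩
    rw [← Submodule.Quotient.mk_eq_zero B]
    change ψ (y - y₀) = 0
    rw [map_sub, h7, sub_self]

variable (F : Type) [Field F] {X : Type} [TopologicalSpace X]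

theorem bds_mono {n : ℕ} {U V : Set X} (h : U ⊆ V) : bds F n U ≤ bds F n V :=
  Submodule.map_mono (chIn_mono F h)

/-- Finiteness of the image of the homology of a neighbourhood of `C` in that of `U`. -/
def FinIm (i : ℕ) (C U : Set X) : Prop :=
  ∃ V : Set X, IsOpen V ∧ C ⊆ V ∧ V ⊆ U ∧ ∃ Q : Submodule F (Ch F X), Q.FG ∧
    cyc F i V ≤ Q ⊔ bds F i U

theorem finIm_union_aux {i : ℕ} {U V₁ V₂ V₁' V₂' : Set X} (hV₁'o : IsOpen V₁') (hV₂'o : IsOpen V₂')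
    (h₁ : V₁ ⊆ U) (h₂ : V₂ ⊆ U) (h₁' : V₁' ⊆ V₁) (h₂' : V₂' ⊆ V₂)
    {Q₁ Q₂ Q' : Submodule F (Ch F X)} (hQ₁ : Q₁.FG) (hQ₂ : Q₂.FG) (hQ' : Q'.FG)
    (hc₁ : cyc F i V₁ ≤ Q₁ ⊔ bds F i U) (hc₂ : cyc F i V₂ ≤ Q₂ ⊔ bds F i U)
    (hp : ∀ a ∈ chIn F i V₁', ∀ b ∈ chIn F i V₂', bd F a + bd F b = 0 →
      bd F a ∈ Q' ⊔ (chIn F i (V₁ ∩ V₂)).map (bd F)) :
    ∃ Q : Submodule F (Ch F X), Q.FG ∧ cyc F i (V₁' ∪ V₂') ≤ Q ⊔ bds F i U := by
  let Y : Submodule F (Ch F X × Ch F X) :=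
    (Submodule.prod (chIn F i V₁') (chIn F i V₂')) ⊓
      LinearMap.ker ((bd F).comp (LinearMap.fst F _ _) + (bd F).comp (LinearMap.snd F _ _))
  have hY : ∀ a b, (a, b) ∈ Y ↔ a ∈ chIn F i V₁' ∧ b ∈ chIn F i V₂' ∧ bd F a + bd F b = 0 := by
    intro a b
    simp [Y, and_assoc]
  obtain ⟨Y₀, hY₀, hY₀Y, hlift⟩ := fg_lift Y ((bd F).comp (LinearMap.fst F (Ch F X) (Ch F X))) Q'
    ((chIn F i (V₁ ∩ V₂)).map (bd F)) hQ' (by
      rintro ⟨a, b⟩ hab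
      obtain ⟨ha, hb, h0⟩ := (hY a b).1 hab
      exact hp a ha b hb h0)
  refine ⟨(Y₀.map (LinearMap.fst F _ _ + LinearMap.snd F _ _)) ⊔ Q₁ ⊔ Q₂,
    ((hY₀.map _).sup hQ₁).sup hQ₂, ?_⟩
  intro z hz
  obtain ⟨hz1, hz2⟩ := Submodule.mem_inf.1 hz
  rw [LinearMap.mem_ker] at hz2
  obtain ⟨P, hP⟩ := exists_sd F hV₁'o hV₂'o hz1
  obtain ⟨a, ha, b, hb, hab⟩ := Submodule.mem_sup.1 hP
  have h0 : bd F a + bd F b = 0 := by
    rw [← map_add, hab, P.bd_S, hz2, map_zero]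
  obtain ⟨⟨a₀, b₀⟩, hy₀, g, hg, hg'⟩ := hlift (a, b) ((hY a b).2 ⟨ha, hb, h0⟩)
  have hg2 : bd F g = bd F a - bd F a₀ := by
    rw [hg']
    simp
  obtain ⟨ha₀, hb₀, h00⟩ := (hY a₀ b₀).1 (hY₀Y hy₀)
  have hA : (a - a₀) - g ∈ cyc F i V₁ := by
    refine Submodule.mem_inf.2 ⟨?_, ?_⟩
    · exact Submodule.sub_mem _ (chIn_mono F h₁' (Submodule.sub_mem _ ha ha₀))
        (chIn_mono F Set.inter_subset_left hg)
    · rw [LinearMap.mem_ker, map_sub, map_sub, hg2, sub_self]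
  have hB : (b - b₀) + g ∈ cyc F i V₂ := by
    refine Submodule.mem_inf.2 ⟨?_, ?_⟩
    · exact Submodule.add_mem _ (chIn_mono F h₂' (Submodule.sub_mem _ hb hb₀))
        (chIn_mono F Set.inter_subset_right hg)
    · rw [LinearMap.mem_ker, map_add, map_sub, hg2]
      rw [show bd F b - bd F b₀ + (bd F a - bd F a₀) = (bd F a + bd F b) - (bd F a₀ + bd F b₀) by
        abel, h0, h00, sub_zero]
  have hT : bd F (P.T z) ∈ bds F i U := by
    refine ⟨P.T z, ?_, rfl⟩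
    refine chIn_mono F (Set.union_subset (h₁'.trans h₁) (h₂'.trans h₂)) (P.T_mem _ _ _ hz1)
  have hz3 : z = (a₀ + b₀) + ((a - a₀) - g) + ((b - b₀) + g) + bd F (P.T z) := by
    have h := P.homotopy z
    rw [hz2, map_zero, add_zero] at h
    rw [h, ← hab]
    abel
  rw [hz3]
  set Q := (Y₀.map (LinearMap.fst F (Ch F X) (Ch F X) + LinearMap.snd F _ _)) ⊔ Q₁ ⊔ Q₂ with hQdef
  have e1 : a₀ + b₀ ∈ Q ⊔ bds F i U := by
    refine Submodule.mem_sup_left (Submodule.mem_sup_left (Submodule.mem_sup_left ?_))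
    exact ⟨(a₀, b₀), hy₀, rfl⟩
  have e2 : Q₁ ⊔ bds F i U ≤ Q ⊔ bds F i U :=
    sup_le_sup_right (le_sup_right.trans le_sup_left) _
  have e3 : Q₂ ⊔ bds F i U ≤ Q ⊔ bds F i U := sup_le_sup_right le_sup_right _
  exact Submodule.add_mem _ (Submodule.add_mem _ (Submodule.add_mem _ e1 (e2 (hc₁ hA)))
    (e3 (hc₂ hB))) (Submodule.mem_sup_right hT)

theorem finIm_union [T2Space X] {i : ℕ} {U C₁ C₂ : Set X}
    (hprev : ∀ j, i = j + 1 → ∀ C U : Set X, IsCompact C → IsOpen U → C ⊆ U → FinIm F j C U)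
    (hC₁ : IsCompact C₁) (hC₂ : IsCompact C₂) (h₁ : FinIm F i C₁ U) (h₂ : FinIm F i C₂ U) :
    FinIm F i (C₁ ∪ C₂) U := by
  obtain ⟨V₁, hV₁o, hCV₁, hVU₁, Q₁, hQ₁, hc₁⟩ := h₁
  obtain ⟨V₂, hV₂o, hCV₂, hVU₂, Q₂, hQ₂, hc₂⟩ := h₂
  have hW : ∃ W : Set X, IsOpen W ∧ C₁ ∩ C₂ ⊆ W ∧ ∃ Q' : Submodule F (Ch F X), Q'.FG ∧
      ∀ V₁' V₂' : Set X, V₁' ∩ V₂' ⊆ W → ∀ a ∈ chIn F i V₁', ∀ b ∈ chIn F i V₂',
        bd F a + bd F b = 0 → bd F a ∈ Q' ⊔ (chIn F i (V₁ ∩ V₂)).map (bd F) := by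
    cases i with
    | zero =>
      refine ⟨V₁ ∩ V₂, hV₁o.inter hV₂o, Set.inter_subset_inter hCV₁ hCV₂, ⊥, Submodule.fg_bot, ?_⟩
      intro V₁' V₂' _ a ha b _ _
      rw [bd_chIn_zero F ha]
      exact Submodule.zero_mem _
    | succ j =>
      obtain ⟨W, hWo, hCW, hWV, Q', hQ', hc'⟩ := hprev j rfl (C₁ ∩ C₂) (V₁ ∩ V₂)
        (hC₁.inter hC₂) (hV₁o.inter hV₂o) (Set.inter_subset_inter hCV₁ hCV₂)
      refine ⟨W, hWo, hCW, Q', hQ', ?_⟩
      intro V₁' V₂' hV a ha b hb hab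
      refine hc' (Submodule.mem_inf.2 ⟨?_, ?_⟩)
      · refine chIn_mono F hV ?_
        rw [chIn_inter]
        refine Submodule.mem_inf.2 ⟨bd_mem_chIn F ha, ?_⟩
        rw [eq_neg_of_add_eq_zero_left hab]
        exact Submodule.neg_mem _ (bd_mem_chIn F hb)
      · rw [LinearMap.mem_ker, bd_bd]
  obtain ⟨W, hWo, hCW, Q', hQ', hc'⟩ := hW
  have hd : Disjoint (C₁ \ W) (C₂ \ W) := by
    rw [Set.disjoint_left]
    rintro x ⟨hx1, hx2⟩ ⟨hx3, -⟩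
    exact hx2 (hCW ⟨hx1, hx3⟩)
  obtain ⟨O₁, O₂, hO₁, hO₂, hCO₁, hCO₂, hO⟩ :=
    SeparatedNhds.of_isCompact_isCompact (hC₁.diff hWo) (hC₂.diff hWo) hd
  have hVV : (V₁ ∩ (O₁ ∪ W)) ∩ (V₂ ∩ (O₂ ∪ W)) ⊆ W := by
    rintro x ⟨⟨-, hx1 | hx1⟩, ⟨-, hx2 | hx2⟩⟩
    · exact absurd hx2 (Set.disjoint_left.1 hO hx1)
    · exact hx2
    · exact hx1
    · exact hx1
  obtain ⟨Q, hQ, hc⟩ := finIm_union_aux F (hV₁o.inter (hO₁.union hWo)) (hV₂o.inter (hO₂.union hWo))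
    hVU₁ hVU₂ Set.inter_subset_left Set.inter_subset_left hQ₁ hQ₂ hQ' hc₁ hc₂
    (hc' _ _ hVV)
  refine ⟨_, (hV₁o.inter (hO₁.union hWo)).union (hV₂o.inter (hO₂.union hWo)), ?_, ?_, Q, hQ, hc⟩
  · rintro x (hx | hx)
    · refine Or.inl ⟨hCV₁ hx, ?_⟩
      by_cases hxW : x ∈ W
      · exact Or.inr hxW
      · exact Or.inl (hCO₁ ⟨hx, hxW⟩)
    · refine Or.inr ⟨hCV₂ hx, ?_⟩
      by_cases hxW : x ∈ W
      · exact Or.inr hxW
      · exact Or.inl (hCO₂ ⟨hx, hxW⟩)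
  · exact Set.union_subset (Set.inter_subset_left.trans hVU₁) (Set.inter_subset_left.trans hVU₂)

theorem finIm_mono {i : ℕ} {C C' U : Set X} (h : C ⊆ C') (hC : FinIm F i C' U) : FinIm F i C U := by
  obtain ⟨V, hV, hCV, hVU, Q, hQ, hc⟩ := hC
  exact ⟨V, hV, h.trans hCV, hVU, Q, hQ, hc⟩

theorem finIm_all [CompactSpace X] [T2Space X]
    (hloc : ∀ U : Set X, IsOpen U → ∀ x ∈ U, ∃ W : Set X, IsOpen W ∧ x ∈ W ∧ W ⊆ U ∧
      (∀ n, cyc F (n + 1) W ≤ bds F (n + 1) W) ∧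
      ∃ Q : Submodule F (Ch F X), Q.FG ∧ chIn F 0 W ≤ Q ⊔ bds F 0 W) (i : ℕ) :
    ∀ C U : Set X, IsCompact C → IsOpen U → C ⊆ U → FinIm F i C U := by
  induction i using Nat.strong_induction_on with
  | _ i ih =>
    intro C U hC hU hCU
    have key : ∃ C' : Set X, IsCompact C' ∧ C ⊆ C' ∧ FinIm F i C' U := by
      refine hC.induction_on (p := fun s => ∃ C' : Set X, IsCompact C' ∧ s ⊆ C' ∧ FinIm F i C' U)
        ?_ ?_ ?_ ?_
      · refine ⟨∅, isCompact_empty, Set.Subset.rfl, ∅, isOpen_empty, Set.Subset.rfl,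
          Set.empty_subset _, ⊥, Submodule.fg_bot, ?_⟩
        intro z hz
        have hz1 := (mem_chIn F).1 (Submodule.mem_inf.1 hz).1
        have : z = 0 := by
          rw [← Finsupp.support_eq_empty, Finset.eq_empty_iff_forall_notMem]
          intro s hs
          exact (hz1 s hs).2 ⟨vtx 0, rfl⟩
        rw [this]
        exact Submodule.zero_mem _
      · rintro s t hst ⟨C', hC', htC', h⟩
        exact ⟨C', hC', hst.trans htC', h⟩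
      · rintro s t ⟨C₁, hC₁, hs, h₁⟩ ⟨C₂, hC₂, ht, h₂⟩
        refine ⟨C₁ ∪ C₂, hC₁.union hC₂, Set.union_subset_union hs ht, ?_⟩
        refine finIm_union F ?_ hC₁ hC₂ h₁ h₂
        intro j hj
        exact ih j (by omega)
      · intro x hx
        obtain ⟨W, hWo, hxW, hWU, hcyc, Q, hQ, hQ0⟩ := hloc U hU x (hCU hx)
        obtain ⟨K, hK, hxK, hKW⟩ := exists_compact_subset hWo hxW
        refine ⟨K, mem_nhdsWithin_of_mem_nhds (mem_interior_iff_mem_nhds.1 hxK), K, hK,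
          Set.Subset.rfl, ?_⟩
        cases i with
        | zero =>
          refine ⟨W, hWo, hKW, hWU, Q, hQ, ?_⟩
          refine inf_le_left.trans (hQ0.trans ?_)
          exact sup_le_sup_left (bds_mono F hWU) _
        | succ j =>
          refine ⟨W, hWo, hKW, hWU, ⊥, Submodule.fg_bot, ?_⟩
          rw [bot_sup_eq]
          exact (hcyc j).trans (bds_mono F hWU)
    obtain ⟨C', -, hCC', h⟩ := key
    exact finIm_mono F hCC' h

/-- The homology of a compact Hausdorff locally homologically trivial space is finite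
dimensional. -/
theorem hom_finite [CompactSpace X] [T2Space X]
    (hloc : ∀ U : Set X, IsOpen U → ∀ x ∈ U, ∃ W : Set X, IsOpen W ∧ x ∈ W ∧ W ⊆ U ∧
      (∀ n, cyc F (n + 1) W ≤ bds F (n + 1) W) ∧
      ∃ Q : Submodule F (Ch F X), Q.FG ∧ chIn F 0 W ≤ Q ⊔ bds F 0 W) (n : ℕ) :
    Module.Finite F (Hom F X n) := by
  obtain ⟨V, -, hV, -, Q, hQ, hc⟩ := finIm_all F hloc n Set.univ Set.univ isCompact_univ
    isOpen_univ Set.Subset.rfl
  have hV' : V = Set.univ := Set.univ_subset_iff.1 hV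
  subst hV'
  rw [Module.Finite.iff_fg]
  have h1 : Hom F X n ≤ Q.map (bds F n (Set.univ : Set X)).mkQ := by
    rw [Hom]
    refine (Submodule.map_mono hc).trans ?_
    rw [Submodule.map_sup, Submodule.mkQ_map_self, sup_bot_eq]
  exact Submodule.FG.of_le (hQ.map _) h1

end Pool.Agent.W_MP_6d5819_gt
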