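import Pool.Agent.W_MP_6d5819_gt.Chains

set_option autoImplicit false

/-! The square of the boundary operator vanishes. -/

namespace Pool.Agent.W_MP_6d5819_gt

lemma succAbove_swap {n : ℕ} (j : Fin (n + 2)) (i : Fin (n + 3)) (h : (i : ℕ) ≤ (j : ℕ))
    (k : Fin (n + 1)) :
    i.succAbove (j.succAbove k) =
      (j.succ).succAbove ((Fin.castLT i (lt_of_le_of_lt h j.is_lt)).succAbove k) := by
  ext
  simp only [Fin.succAbove, Fin.lt_def, Fin.val_castSucc, Fin.val_succ, Fin.val_castLT]
  split_ifs <;> simp_all <;> omega

variable (R : Type) [CommRing R] {X : Type} [TopologicalSpace X]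

lemma face_face {n : ℕ} (σ : C(Simp (n + 3), X)) (j : Fin (n + 2)) (i : Fin (n + 3))
    (h : (i : ℕ) ≤ (j : ℕ)) :
    face (face σ i) j = face (face σ j.succ) (Fin.castLT i (lt_of_le_of_lt h j.is_lt)) := by
  unfold face
  rw [ContinuousMap.comp_assoc, ContinuousMap.comp_assoc, aff_comp, aff_comp]
  congr 2
  funext k
  rw [aff_vtx, aff_vtx, succAbove_swap j i h]

theorem bd_bd (c : Ch R X) : bd R (bd R c) = 0 := by
  induction c using Finsupp.induction_linear with
  | zero => simp
  | add a b ha hb => simp only [map_add, ha, hb, add_zero]
  | single s r =>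
    obtain ⟨n, σ⟩ := s
    cases n with
    | zero => rw [bd_single_zero, map_zero]
    | succ n =>
      rw [bd_single_succ, map_smul, map_sum]
      cases n with
      | zero =>
        simp only [bd_single_zero, Finset.sum_const_zero, smul_zero]
      | succ n =>
        simp only [bd_single_succ]
        have key : ∑ i : Fin (n + 3), ((-1 : R) ^ (i : ℕ)) • ∑ j : Fin (n + 2),
            Finsupp.single (⟨n, face (face σ i) j⟩ : Sing X) ((-1 : R) ^ (j : ℕ)) = 0 := by
          simp only [Finset.smul_sum, Finsupp.smul_single, smul_eq_mul]
          rw [Finset.sum_comm, ← Finset.sum_product']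
          let P := Fin (n + 2) × Fin (n + 3)
          let S : Finset P := Finset.univ.filter (fun ij : P => (ij.2 : ℕ) ≤ (ij.1 : ℕ))
          rw [Finset.univ_product_univ, ← Finset.sum_add_sum_compl S,
            ← eq_neg_iff_add_eq_zero, ← Finset.sum_neg_distrib]
          refine Finset.sum_bij (fun (ij : P) hij =>
            ((Fin.castLT ij.2 (lt_of_le_of_lt (Finset.mem_filter.mp hij).right (Fin.is_lt ij.1)),
              ij.1.succ) : P)) ?_ ?_ ?_ ?_
          · rintro ⟨i, j⟩ hij
            simp only [S, Finset.mem_filter, Finset.mem_univ, true_and, Finset.mem_compl] at hij ⊢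
            simp only [Fin.val_succ, Fin.val_castLT]
            omega
          · rintro ⟨i, j⟩ hij ⟨i', j'⟩ hij' h
            have h1 := congrArg (fun p : P => (p.1 : ℕ)) h
            have h2 := congrArg (fun p : P => (p.2 : ℕ)) h
            simp only [Fin.val_castLT, Fin.val_succ] at h1 h2
            ext
            · simp only; omega
            · simp only; omega
          · rintro ⟨i', j'⟩ hij'
            simp only [S, Finset.mem_filter, Finset.mem_univ, true_and, Finset.mem_compl,
              not_le] at hij'
            have hj' : (j' : ℕ) ≠ 0 := by omega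
            refine ⟨(j'.pred (by rw [Ne, Fin.ext_iff]; exact hj'), Fin.castSucc i'), ?_, ?_⟩
            · simp only [S, Finset.mem_filter, Finset.mem_univ, true_and, Fin.val_castSucc,
                Fin.val_pred]
              omega
            · simp only [Fin.castLT_castSucc, Fin.succ_pred]
          · rintro ⟨i, j⟩ hij
            have hij' : (j : ℕ) ≤ (i : ℕ) := (Finset.mem_filter.mp hij).2
            simp only
            rw [face_face σ i j hij', ← Finsupp.single_neg]
            congr 1
            rw [Fin.val_castLT, Fin.val_succ, pow_succ]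
            ring
        rw [key, smul_zero]

end Pool.Agent.W_MP_6d5819_gt
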