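import Pool.Agent.W_MP_6d5819_gt.Ker
import Pool.Agent.W_MP_6d5819_gt.BdBd

set_option autoImplicit false

/-! A Smith type inequality for the complex of the operator `t`. -/

namespace Pool.Agent.W_MP_6d5819_gt

namespace IneqAux

section LinAlg

variable {K Y P Q : Type} [Field K] [AddCommGroup Y] [Module K Y] [AddCommGroup P] [Module K P]
  [AddCommGroup Q] [Module K Q]

lemma rank_range_le_of_ker (f : Y →ₗ[K] P) (g : Y →ₗ[K] Q)
    (h : LinearMap.ker g ≤ LinearMap.ker f) :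
    Module.rank K (LinearMap.range f) ≤ Module.rank K (LinearMap.range g) := by
  have h1 : LinearMap.range ((LinearMap.ker g).liftQ f h) = LinearMap.range f :=
    (LinearMap.ker g).range_liftQ f h
  rw [← h1, ← g.quotKerEquivRange.rank_eq]
  exact LinearMap.rank_le_domain _

lemma rank_range_le_add (φ : Y →ₗ[K] P) (ψ : Y →ₗ[K] Q) :
    Module.rank K (LinearMap.range φ) ≤ Module.rank K (LinearMap.range ψ) +
      Module.rank K ((LinearMap.ker ψ).map φ) := by
  set S := (LinearMap.ker ψ).map φ with hS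
  have h1 : Module.rank K (LinearMap.range (S.mkQ.comp φ)) ≤ Module.rank K (LinearMap.range ψ) := by
    apply rank_range_le_of_ker
    intro x hx
    rw [LinearMap.mem_ker, LinearMap.comp_apply, Submodule.mkQ_apply,
      Submodule.Quotient.mk_eq_zero]
    exact ⟨x, hx, rfl⟩
  let θ := S.mkQ.comp (LinearMap.range φ).subtype
  have h2 : LinearMap.range θ = LinearMap.range (S.mkQ.comp φ) := by
    rw [LinearMap.range_comp, LinearMap.range_comp, Submodule.range_subtype]
  have h3 := LinearMap.rank_range_add_rank_ker θ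
  have h4 : Module.rank K (LinearMap.ker θ) ≤ Module.rank K S := by
    have h5 : ∀ x : LinearMap.ker θ, ((x : LinearMap.range φ) : P) ∈ S := by
      rintro ⟨x, hx⟩
      rw [LinearMap.mem_ker, LinearMap.comp_apply, Submodule.mkQ_apply,
        Submodule.Quotient.mk_eq_zero] at hx
      exact hx
    let j : LinearMap.ker θ →ₗ[K] S :=
      LinearMap.codRestrict S ((LinearMap.range φ).subtype.comp (LinearMap.ker θ).subtype) h5
    apply LinearMap.rank_le_of_injective j
    intro x y hxy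
    have h6 : ((x : LinearMap.range φ) : P) = ((y : LinearMap.range φ) : P) :=
      congrArg (fun z : S => (z : P)) hxy
    exact Subtype.ext (Subtype.ext h6)
  rw [← h3, h2]
  exact add_le_add h1 h4

variable {V : Type} [AddCommGroup V] [Module K V]

lemma abs_step (Z N Z' N' B C : Submodule K V) (bd t : V →ₗ[K] V)
    (hY : ∀ u ∈ Z, u ∈ B → ∃ c ∈ C, bd c = u)
    (h3 : ∀ c ∈ C, t c ∈ Z') (h4 : ∀ c ∈ C, t c ∈ N' → bd c ∈ N) :
    Module.rank K (Z.map N.mkQ) ≤ Module.rank K (Z.map B.mkQ) + Module.rank K (Z'.map N'.mkQ) := by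
  have h1 := rank_range_le_add (N.mkQ.comp Z.subtype) (B.mkQ.comp Z.subtype)
  rw [LinearMap.range_comp, Submodule.range_subtype, LinearMap.range_comp,
    Submodule.range_subtype] at h1
  refine h1.trans (add_le_add (le_refl _) ?_)
  have h2 : (LinearMap.ker (B.mkQ.comp Z.subtype)).map (N.mkQ.comp Z.subtype) ≤
      LinearMap.range ((N.mkQ.comp bd).comp C.subtype) := by
    rintro _ ⟨y, hy, rfl⟩
    have hy1 : (y : V) ∈ B := by
      have hy2 : (B.mkQ.comp Z.subtype) y = 0 := hy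
      rw [LinearMap.comp_apply, Submodule.mkQ_apply, Submodule.Quotient.mk_eq_zero] at hy2
      exact hy2
    obtain ⟨c, hcc, hcy⟩ := hY _ y.2 hy1
    refine ⟨⟨c, hcc⟩, ?_⟩
    change N.mkQ (bd c) = N.mkQ y
    rw [hcy]
  refine (Submodule.rank_mono h2).trans ((rank_range_le_of_ker _
    ((N'.mkQ.comp t).comp C.subtype) ?_).trans (Submodule.rank_mono ?_))
  · intro c hc
    have h5 : t c ∈ N' := by
      rw [LinearMap.mem_ker, LinearMap.comp_apply, LinearMap.comp_apply, Submodule.mkQ_apply,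
        Submodule.Quotient.mk_eq_zero] at hc
      exact hc
    rw [LinearMap.mem_ker, LinearMap.comp_apply, LinearMap.comp_apply, Submodule.mkQ_apply,
        Submodule.Quotient.mk_eq_zero]
    exact h4 c c.2 h5
  · rintro _ ⟨c, rfl⟩
    exact ⟨t c, h3 c c.2, rfl⟩

lemma abs_base {W : Type} [AddCommGroup W] [Module K W] (φ : W →ₗ[K] V)
    (hφ : Function.Injective φ) (Z' N' B C : Submodule K V) (bd t : V →ₗ[K] V)
    (hY : ∀ x, φ x ∈ B → ∃ c ∈ C, bd c = φ x)
    (h3 : ∀ c ∈ C, t c ∈ Z') (h4 : ∀ c ∈ C, t c ∈ N' → bd c = 0) :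
    Module.rank K W ≤ Module.rank K ((LinearMap.range φ).map B.mkQ) +
      Module.rank K (Z'.map N'.mkQ) := by
  have h1 := rank_range_le_add φ (B.mkQ.comp φ)
  rw [rank_range_of_injective φ hφ, LinearMap.range_comp] at h1
  refine h1.trans (add_le_add (le_refl _) ?_)
  have h2 : (LinearMap.ker (B.mkQ.comp φ)).map φ ≤ LinearMap.range (bd.comp C.subtype) := by
    rintro _ ⟨y, hy, rfl⟩
    have hy1 : φ y ∈ B := by
      have hy2 : (B.mkQ.comp φ) y = 0 := hy
      rw [LinearMap.comp_apply, Submodule.mkQ_apply, Submodule.Quotient.mk_eq_zero] at hy2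
      exact hy2
    obtain ⟨c, hcc, hcy⟩ := hY _ hy1
    exact ⟨⟨c, hcc⟩, hcy⟩
  refine (Submodule.rank_mono h2).trans ((rank_range_le_of_ker _
    ((N'.mkQ.comp t).comp C.subtype) ?_).trans (Submodule.rank_mono ?_))
  · intro c hc
    have h5 : t c ∈ N' := by
      rw [LinearMap.mem_ker, LinearMap.comp_apply, LinearMap.comp_apply, Submodule.mkQ_apply,
        Submodule.Quotient.mk_eq_zero] at hc
      exact hc
    exact h4 c c.2 h5
  · rintro _ ⟨c, rfl⟩
    exact ⟨t c, h3 c c.2, rfl⟩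

lemma abs_top (Z N : Submodule K V) (h : Z ≤ N) : Module.rank K (Z.map N.mkQ) = 0 := by
  have h1 : Z.map N.mkQ = ⊥ := by
    rw [eq_bot_iff]
    rintro _ ⟨x, hx, rfl⟩
    rw [Submodule.mem_bot, Submodule.mkQ_apply, Submodule.Quotient.mk_eq_zero]
    exact h hx
  rw [h1, rank_bot]

end LinAlg

section Chains

variable {X : Type} [TopologicalSpace X] {K : Type} [Field K] {ι : Type} [Fintype ι]

/-- simplices of degree `n` in `U` -/
def SS (n : ℕ) (U : Set X) : Set (Sing X) := {s | s.1 = n ∧ Set.range s.2 ⊆ U}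

lemma tw_eq_tOp (g : ι → C(X, X)) (α : ι → K) : tw K g α = tOp (fun i => pushSimp (g i)) α := rfl

omit [Fintype ι] in
lemma pushSimp_inv (g : ι → C(X, X)) (hg : ∀ i x, g i (g i x) = x) (i : ι) (s : Sing X) :
    pushSimp (g i) (pushSimp (g i) s) = s := by
  obtain ⟨n, σ⟩ := s
  have : (g i).comp ((g i).comp σ) = σ := by
    ext x
    exact hg i _
  exact congrArg (Sigma.mk n) this

omit [Fintype ι] in
lemma pushSimp_comm (g : ι → C(X, X)) (hc : ∀ i j x, g i (g j x) = g j (g i x)) (i j : ι)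
    (s : Sing X) : pushSimp (g i) (pushSimp (g j) s) = pushSimp (g j) (pushSimp (g i) s) := by
  obtain ⟨n, σ⟩ := s
  have : (g i).comp ((g j).comp σ) = (g j).comp ((g i).comp σ) := by
    ext x
    exact hc i j _
  exact congrArg (Sigma.mk n) this

omit [Fintype ι] in
lemma SS_inv (g : ι → C(X, X)) (n : ℕ) (U : Set X) (hU : ∀ i, ∀ z ∈ U, g i z ∈ U) :
    ∀ i, ∀ s ∈ SS n U, pushSimp (g i) s ∈ SS n U := by
  rintro i s ⟨h1, h2⟩
  refine ⟨h1, ?_⟩
  rintro _ ⟨x, rfl⟩
  exact hU i _ (h2 ⟨x, rfl⟩)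

lemma tw_mem (g : ι → C(X, X)) (α : ι → K) {n : ℕ} {U : Set X} (hU : ∀ i, ∀ z ∈ U, g i z ∈ U)
    {c : Ch K X} (hcc : c ∈ chIn K n U) : tw K g α c ∈ chIn K n U := by
  rw [tw_eq_tOp]
  exact KerAux.tOp_mem _ α (SS n U) (SS_inv g n U hU) hcc

lemma tw_bd (g : ι → C(X, X)) (α : ι → K) (c : Ch K X) :
    bd K (tw K g α c) = tw K g α (bd K c) := by
  simp only [tw, LinearMap.sum_apply, LinearMap.smul_apply, LinearMap.add_apply,
    LinearMap.id_apply, map_sum, map_smul, map_add, bd_push]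

lemma tw_tw [CharP K 2] (g : ι → C(X, X)) (α : ι → K)
    (hg : ∀ i x, g i (g i x) = x) (hc : ∀ i j x, g i (g j x) = g j (g i x)) (c : Ch K X) :
    tw K g α (tw K g α c) = 0 := by
  have h1 : ∀ v : Ch K X, tw K g α v =
      KerAux.UU (fun i => pushSimp (g i)) α v + (∑ i, α i) • v := by
    intro v
    rw [tw_eq_tOp, KerAux.tOp_apply, KerAux.UU_apply, Finset.sum_smul, ← Finset.sum_add_distrib]
    apply Finset.sum_congr rfl
    intro i _
    rw [smul_add]
  rw [h1, h1, map_add, map_smul, KerAux.UU_UU _ _ (pushSimp_inv g hg) (pushSimp_comm g hc),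
    smul_add, smul_smul, ← sq]
  have h2 := KerAux.add_self_zero ((∑ i, α i) ^ 2 • c)
  have h3 := KerAux.add_self_zero ((∑ i, α i) • KerAux.UU (fun i => pushSimp (g i)) α c)
  calc (∑ i, α i) ^ 2 • c + (∑ i, α i) • KerAux.UU (fun i => pushSimp (g i)) α c +
        ((∑ i, α i) • KerAux.UU (fun i => pushSimp (g i)) α c + (∑ i, α i) ^ 2 • c)
      = ((∑ i, α i) ^ 2 • c + (∑ i, α i) ^ 2 • c) +
        ((∑ i, α i) • KerAux.UU (fun i => pushSimp (g i)) α c +
        (∑ i, α i) • KerAux.UU (fun i => pushSimp (g i)) α c) := by abel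
    _ = 0 := by rw [h2, h3, add_zero]

lemma tw_apply_fixed [CharP K 2] (g : ι → C(X, X)) (α : ι → K)
    (hg : ∀ i x, g i (g i x) = x) (s : Sing X) (hs : ∀ i, pushSimp (g i) s = s) (c : Ch K X) :
    (tw K g α c) s = 0 := by
  rw [tw_eq_tOp, KerAux.tOp_apply, Finsupp.finsetSum_apply]
  apply Finset.sum_eq_zero
  intro i _
  have h1 : (KerAux.GG K (pushSimp (g i)) c) s = c s := by
    have h2 : Function.Injective (pushSimp (g i) : Sing X → Sing X) :=
      (Function.Involutive.injective (pushSimp_inv g hg i))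
    have h3 := Finsupp.mapDomain_apply h2 c s
    rw [hs i] at h3
    exact h3
  rw [Finsupp.smul_apply, Finsupp.add_apply, h1, CharTwo.add_self_eq_zero, smul_zero]

/-- constant simplices -/
def cst (n : ℕ) (a : X) : Sing X := ⟨n, ContinuousMap.const _ a⟩

omit [Fintype ι] in
lemma cst_fixed (g : ι → C(X, X)) (n : ℕ) (a : X) (ha : ∀ i, g i a = a) (i : ι) :
    pushSimp (g i) (cst n a) = cst n a := by
  have : (g i).comp (ContinuousMap.const (Simp (n + 1)) a) = ContinuousMap.const _ a := by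
    ext x
    exact ha i
  exact congrArg (Sigma.mk n) this

omit [Fintype ι] in
lemma fixed_simplex [T1Space X] (g : ι → C(X, X)) (a : X) {O : Set X} (hO : IsOpen O)
    (haO : a ∈ O) (hOf : ∀ z ∈ O, (∀ i, g i z = z) → z = a) (s : Sing X)
    (hs : ∀ i, pushSimp (g i) s = s) (ha : a ∈ Set.range s.2) : s = cst s.1 a := by
  obtain ⟨n, σ⟩ := s
  obtain ⟨x₀, hx₀⟩ := ha
  have hfix : ∀ i x, g i (σ x) = σ x := by
    intro i x
    have h1 := hs i
    simp only [pushSimp, Sigma.mk.injEq, heq_eq_eq, true_and] at h1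
    exact congrArg (fun f : C(Simp (n + 1), X) => f x) h1
  have h1 : σ ⁻¹' O = σ ⁻¹' {a} := by
    ext x
    constructor
    · intro hx
      exact hOf _ hx (fun i => hfix i x)
    · intro hx
      have : σ x = a := hx
      change σ x ∈ O
      rw [this]
      exact haO
  have h2 : IsClopen (σ ⁻¹' {a}) :=
    ⟨isClosed_singleton.preimage σ.continuous, h1 ▸ hO.preimage σ.continuous⟩
  have h3 : σ ⁻¹' {a} = Set.univ := IsClopen.eq_univ h2 ⟨x₀, hx₀⟩
  have h4 : σ = ContinuousMap.const _ a := by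
    ext x
    have : x ∈ σ ⁻¹' {a} := by rw [h3]; trivial
    exact this
  simp only [cst, h4]

lemma cst_notMem {n m : ℕ} {a : X} {c : Ch K X} (hcc : c ∈ chIn K n ({a}ᶜ : Set X)) :
    c (cst m a) = 0 := by
  by_contra h
  have h1 := (mem_chIn K).mp hcc _ (Finsupp.mem_support_iff.mpr h)
  have h2 : a ∈ Set.range (cst m a).2 := ⟨vtx 0, rfl⟩
  exact h1.2 h2 rfl

lemma bd_cst (n : ℕ) (a : X) (r : K) :
    bd K (Finsupp.single (cst (n + 1) a) r) =
      Finsupp.single (cst n a) (r * ∑ i : Fin (n + 2), (-1 : K) ^ (i : ℕ)) := by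
  unfold cst
  rw [bd_single_succ]
  have h1 : ∀ i : Fin (n + 2), face (ContinuousMap.const (Simp (n + 2)) a) i =
      ContinuousMap.const _ a := fun i => rfl
  simp only [h1]
  rw [← Finsupp.single_finsetSum, Finsupp.smul_single, smul_eq_mul]

lemma tw_restrict (g : ι → C(X, X)) (α : ι → K) (hg : ∀ i x, g i (g i x) = x)
    (a : X) (ha : ∀ i, g i a = a) {n : ℕ} {x : Ch K X}
    (htx : tw K g α x ∈ chIn K n ({a}ᶜ : Set X)) :
    ∃ f ∈ chIn K n ({a}ᶜ : Set X), tw K g α x = tw K g α f := by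
  classical
  set P : Set (Sing X) := SS n ({a}ᶜ : Set X) with hP
  have hU : ∀ i, ∀ z ∈ ({a}ᶜ : Set X), g i z ∈ ({a}ᶜ : Set X) := by
    intro i z hz h
    apply hz
    have h1 : g i z = a := h
    have h2 : z = a := by rw [← hg i z, h1, ha i]
    exact h2
  have hPinv := SS_inv g n ({a}ᶜ : Set X) hU
  have hPc : ∀ i, ∀ s ∈ Pᶜ, pushSimp (g i) s ∈ Pᶜ := by
    intro i s hs h
    apply hs
    have := hPinv i _ h
    rwa [pushSimp_inv g hg] at this
  set x1 := x.filter (fun s => s ∈ P) with hx1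
  set x2 := x.filter (fun s => ¬ s ∈ P) with hx2
  have hsum : x1 + x2 = x := Finsupp.filter_add_filter_not x _
  have hx1P : x1 ∈ Finsupp.supported K K P := by
    rw [Finsupp.mem_supported, hx1, Finsupp.support_filter]
    intro z hz
    rw [Finset.coe_filter] at hz
    exact hz.2
  have hx2P : x2 ∈ Finsupp.supported K K Pᶜ := by
    rw [Finsupp.mem_supported, hx2, Finsupp.support_filter]
    intro z hz
    rw [Finset.coe_filter] at hz
    exact hz.2
  have h1 : tw K g α x1 ∈ Finsupp.supported K K P := by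
    rw [tw_eq_tOp]
    exact KerAux.tOp_mem _ α P hPinv hx1P
  have h2 : tw K g α x2 ∈ Finsupp.supported K K Pᶜ := by
    rw [tw_eq_tOp]
    exact KerAux.tOp_mem _ α Pᶜ hPc hx2P
  have h3 : tw K g α x2 ∈ Finsupp.supported K K P := by
    have h4 : tw K g α x2 = tw K g α x - tw K g α x1 := by
      rw [← hsum, map_add]; abel
    rw [h4]
    exact Submodule.sub_mem _ htx h1
  have h5 : tw K g α x2 = 0 := Submodule.disjoint_def.mp
    (Finsupp.disjoint_supported_supported disjoint_compl_right) _ h3 h2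
  refine ⟨x1, hx1P, ?_⟩
  rw [← hsum, map_add, h5, add_zero]

lemma core [T1Space X] [CharP K 2] (g : ι → C(X, X)) (α : ι → K)
    (hα : ∀ s : Finset ι, s.Nonempty → ∑ i ∈ s, α i ≠ 0)
    (hg : ∀ i x, g i (g i x) = x) (hc : ∀ i j x, g i (g j x) = g j (g i x))
    (a : X) {O : Set X} (hO : IsOpen O) (haO : a ∈ O)
    (hOf : ∀ z ∈ O, (∀ i, g i z = z) → z = a) {n : ℕ} {c e f : Ch K X}
    (hcc : c ∈ chIn K (n + 1) Set.univ) (he : e ∈ chIn K (n + 2) Set.univ)
    (hf : f ∈ chIn K (n + 1) ({a}ᶜ : Set X)) (h : tw K g α c = bd K (tw K g α e) + tw K g α f) :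
    ∃ w ∈ chIn K (n + 1) Set.univ, ∃ f' ∈ chIn K n ({a}ᶜ : Set X), ∃ r : K,
      bd K c = tw K g α (bd K w) + f' + bd K (Finsupp.single (cst (n + 1) a) r) := by
  classical
  have hu : c - bd K e - f ∈ chIn K (n + 1) Set.univ :=
    Submodule.sub_mem _ (Submodule.sub_mem _ hcc (bd_mem_chIn K he))
      (chIn_mono K (Set.subset_univ _) hf)
  have htu : tOp (fun i => pushSimp (g i)) α (c - bd K e - f) = 0 := by
    rw [← tw_eq_tOp, map_sub, map_sub, h, tw_bd]
    abel
  obtain ⟨w, hw, q, hq, hwq⟩ := tOp_ker (fun i => pushSimp (g i)) α hα (pushSimp_inv g hg)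
    (pushSimp_comm g hc) (SS (n + 1) Set.univ)
    (SS_inv g (n + 1) Set.univ (fun _ _ _ => Set.mem_univ _)) (c - bd K e - f) hu htu
  rw [← tw_eq_tOp] at hwq
  have hq' : q.erase (cst (n + 1) a) ∈ chIn K (n + 1) ({a}ᶜ : Set X) := by
    rw [mem_chIn]
    intro s hs
    rw [Finsupp.support_erase, Finset.mem_erase] at hs
    rw [Finsupp.mem_supported] at hq
    have h1 := hq hs.2
    refine ⟨h1.1.1, ?_⟩
    intro z hz hza
    have hza' : z = a := hza
    rw [hza'] at hz
    have h2 := fixed_simplex g a hO haO hOf s h1.2 hz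
    rw [h1.1.1] at h2
    exact hs.1 h2
  refine ⟨w, hw, bd K f + bd K (q.erase (cst (n + 1) a)),
    Submodule.add_mem _ (bd_mem_chIn K hf) (bd_mem_chIn K hq'), q (cst (n + 1) a), ?_⟩
  have h3 : c = bd K e + f + tw K g α w +
      (Finsupp.single (cst (n + 1) a) (q (cst (n + 1) a)) + q.erase (cst (n + 1) a)) := by
    rw [Finsupp.single_add_erase]
    rw [eq_comm, ← sub_eq_zero] at hwq
    have h4 : c = (c - bd K e - f) + (bd K e + f) := by abel
    rw [h4, ← sub_eq_zero]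
    calc c - bd K e - f + (bd K e + f) - (bd K e + f + tw K g α w + q)
        = -(tw K g α w + q - (c - bd K e - f)) := by abel
      _ = 0 := by rw [hwq, neg_zero]
  rw [h3]
  simp only [map_add, bd_bd, zero_add, tw_bd]
  abel

/-- image of `t` in degree `n` -/
noncomputable def Dn (g : ι → C(X, X)) (α : ι → K) (n : ℕ) : Submodule K (Ch K X) :=
  (chIn K n Set.univ).map (tw K g α)

/-- cycles in the image of `t` -/
noncomputable def Zn (g : ι → C(X, X)) (α : ι → K) (n : ℕ) : Submodule K (Ch K X) :=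
  Dn g α n ⊓ LinearMap.ker (bd K)

/-- the cycles that can be pushed away from each point of `A` -/
noncomputable def Nn (g : ι → C(X, X)) (α : ι → K) (A : Finset X) (n : ℕ) :
    Submodule K (Ch K X) :=
  Zn g α n ⊓ ⨅ a ∈ A, ((chIn K (n + 1) Set.univ).map ((bd K).comp (tw K g α)) ⊔
    (chIn K n ({a}ᶜ : Set X)).map (tw K g α))

lemma mem_Nn {g : ι → C(X, X)} {α : ι → K} {A : Finset X} {n : ℕ} {u : Ch K X} :
    u ∈ Nn g α A n ↔ u ∈ Zn g α n ∧ ∀ a ∈ A, ∃ e ∈ chIn K (n + 1) Set.univ,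
      ∃ f ∈ chIn K n ({a}ᶜ : Set X), u = bd K (tw K g α e) + tw K g α f := by
  unfold Nn
  rw [Submodule.mem_inf]
  constructor
  · rintro ⟨h1, h2⟩
    refine ⟨h1, fun a ha => ?_⟩
    have h3 := (Submodule.mem_iInf _).mp h2 a
    have h4 := (Submodule.mem_iInf _).mp h3 ha
    obtain ⟨x, hx, y, hy, hxy⟩ := Submodule.mem_sup.mp h4
    obtain ⟨e, he, rfl⟩ := hx
    obtain ⟨f, hf, rfl⟩ := hy
    exact ⟨e, he, f, hf, hxy.symm⟩
  · rintro ⟨h1, h2⟩
    refine ⟨h1, ?_⟩
    refine (Submodule.mem_iInf _).mpr fun a => (Submodule.mem_iInf _).mpr fun ha => ?_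
    obtain ⟨e, he, f, hf, h3⟩ := h2 a ha
    exact Submodule.mem_sup.mpr ⟨_, ⟨e, he, rfl⟩, _, ⟨f, hf, rfl⟩, h3.symm⟩

/-- rank of the quotient of `Zn` by `Nn` -/
noncomputable def rr (g : ι → C(X, X)) (α : ι → K) (A : Finset X) (n : ℕ) : Cardinal :=
  Module.rank K ((Zn g α n).map (Nn g α A n).mkQ)

/-- the common hypotheses -/
structure Setup [CharP K 2] (g : ι → C(X, X)) (α : ι → K) (A : Finset X) : Prop where
  hα : ∀ s : Finset ι, s.Nonempty → ∑ i ∈ s, α i ≠ 0
  hg : ∀ i x, g i (g i x) = x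
  hc : ∀ i j x, g i (g j x) = g j (g i x)
  hA : ∀ a ∈ A, ∀ i, g i a = a
  hiso : ∀ a ∈ A, ∃ O : Set X, IsOpen O ∧ a ∈ O ∧ ∀ z ∈ O, (∀ i, g i z = z) → z = a

lemma tw_mem_Dn {g : ι → C(X, X)} {α : ι → K} {n : ℕ} {c : Ch K X}
    (hcc : c ∈ chIn K n Set.univ) : tw K g α c ∈ Dn g α n := ⟨c, hcc, rfl⟩

lemma tw_mem_Zn [CharP K 2] {g : ι → C(X, X)} {α : ι → K} {A : Finset X}
    (h : Setup g α A) {n : ℕ} {c : Ch K X} (hcc : c ∈ chIn K n Set.univ) {x : Ch K X}
    (hx : bd K c = tw K g α x) : tw K g α c ∈ Zn g α n := by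
  refine ⟨tw_mem_Dn hcc, ?_⟩
  change bd K (tw K g α c) = 0
  rw [tw_bd, hx, tw_tw g α h.hg h.hc]

lemma step [T1Space X] [CharP K 2] {g : ι → C(X, X)} {α : ι → K} {A : Finset X}
    (h : Setup g α A) (n : ℕ) :
    rr g α A n ≤ Module.rank K (Hom K X n) + rr g α A (n + 1) := by
  have hψ : (Zn g α n).map (bds K n (Set.univ : Set X)).mkQ ≤ Hom K X n := by
    unfold Hom
    apply Submodule.map_mono
    rintro u ⟨⟨c, hcc, rfl⟩, hu2⟩
    exact ⟨tw_mem g α (fun _ _ _ => Set.mem_univ _) hcc, hu2⟩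
  refine (abs_step (Zn g α n) (Nn g α A n) (Zn g α (n + 1)) (Nn g α A (n + 1))
    (bds K n (Set.univ : Set X)) (chIn K (n + 1) Set.univ ⊓ (Zn g α n).comap (bd K)) (bd K)
    (tw K g α) ?_ ?_ ?_).trans (add_le_add (Submodule.rank_mono hψ) (le_refl _))
  · rintro u hu ⟨c, hcc, rfl⟩
    exact ⟨c, ⟨hcc, hu⟩, rfl⟩
  · intro c hcc
    obtain ⟨⟨x, _, hx⟩, _⟩ := hcc.2
    exact tw_mem_Zn h hcc.1 hx.symm
  · intro c hcc h5
    rw [mem_Nn] at h5 ⊢
    refine ⟨hcc.2, fun a ha => ?_⟩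
    obtain ⟨e, he, f, hf, hef⟩ := h5.2 a ha
    obtain ⟨O, hO, haO, hOf⟩ := h.hiso a ha
    obtain ⟨w, hw, f', hf', r, hr⟩ := core g α h.hα h.hg h.hc a hO haO hOf hcc.1 he hf hef
    obtain ⟨⟨x, hx, hxc⟩, _⟩ := hcc.2
    have h7 : (bd K (Finsupp.single (cst (n + 1) a) r) : Ch K X) = 0 := by
      rw [bd_cst]
      have h8 : (bd K (Finsupp.single (cst (n + 1) a) r) : Ch K X) (cst n a) = 0 := by
        have h9 : (bd K (Finsupp.single (cst (n + 1) a) r) : Ch K X) =
            tw K g α x - tw K g α (bd K w) - f' := by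
          rw [hxc, hr]; abel
        rw [h9, Finsupp.sub_apply, Finsupp.sub_apply,
          tw_apply_fixed g α h.hg _ (cst_fixed g n a (h.hA a ha)),
          tw_apply_fixed g α h.hg _ (cst_fixed g n a (h.hA a ha)), cst_notMem hf']
        simp
      rw [bd_cst, Finsupp.single_eq_same] at h8
      rw [h8, Finsupp.single_zero]
    rw [h7, add_zero] at hr
    have h10 : tw K g α (x - bd K w) ∈ chIn K n ({a}ᶜ : Set X) := by
      have : tw K g α (x - bd K w) = f' := by
        rw [map_sub, hxc, hr]; abel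
      rw [this]
      exact hf'
    obtain ⟨f'', hf'', h11⟩ := tw_restrict g α h.hg a (h.hA a ha) h10
    refine ⟨w, hw, f'', hf'', ?_⟩
    rw [← h11, map_sub, hxc, tw_bd]
    abel

lemma base [T1Space X] [CharP K 2] {g : ι → C(X, X)} {α : ι → K} {A : Finset X}
    (h : Setup g α A) : (A.card : Cardinal) ≤ Module.rank K (Hom K X 0) + rr g α A 1 := by
  classical
  let φ : (A → K) →ₗ[K] Ch K X :=
    ∑ a : A, (Finsupp.lsingle (cst 0 (a : X)) : K →ₗ[K] Ch K X).comp (LinearMap.proj a)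
  have hφ : ∀ x : A → K, φ x = ∑ a : A, Finsupp.single (cst 0 (a : X)) (x a) := by
    intro x
    simp [φ, LinearMap.sum_apply]
  have hcst : ∀ a b : X, cst 0 a = cst 0 b → a = b := by
    intro a b hab
    have h1 : (ContinuousMap.const (Simp (0 + 1)) a) = ContinuousMap.const (Simp (0 + 1)) b := by
      simpa [cst] using hab
    exact congrArg (fun f : C(Simp (0 + 1), X) => f (vtx 0)) h1
  have hφa : ∀ (x : A → K) (a : A), φ x (cst 0 (a : X)) = x a := by
    intro x a
    rw [hφ, Finsupp.finsetSum_apply, Finset.sum_eq_single a]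
    · rw [Finsupp.single_eq_same]
    · intro b _ hb
      rw [Finsupp.single_eq_of_ne]
      intro h1
      exact hb (Subtype.ext (hcst _ _ h1).symm)
    · intro h1
      exact absurd (Finset.mem_univ a) h1
  have hφinj : Function.Injective φ := by
    intro x y hxy
    funext a
    rw [← hφa x a, ← hφa y a, hxy]
  have hφcyc : ∀ x, φ x ∈ cyc K 0 (Set.univ : Set X) := by
    intro x
    have h1 : φ x ∈ chIn K 0 (Set.univ : Set X) := by
      rw [hφ]
      exact Submodule.sum_mem _ fun a _ => single_mem_chIn K _ (Set.subset_univ _) _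
    exact ⟨h1, bd_chIn_zero K h1⟩
  have hψ : (LinearMap.range φ).map (bds K 0 (Set.univ : Set X)).mkQ ≤ Hom K X 0 := by
    unfold Hom
    apply Submodule.map_mono
    rintro _ ⟨x, rfl⟩
    exact hφcyc x
  have htφ : ∀ x, tw K g α (φ x) = 0 := by
    intro x
    rw [hφ, map_sum]
    apply Finset.sum_eq_zero
    intro a _
    unfold tw
    simp only [LinearMap.sum_apply, LinearMap.smul_apply, LinearMap.add_apply,
      LinearMap.id_apply, push_single, cst_fixed g 0 (a : X) (h.hA a a.2)]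
    apply Finset.sum_eq_zero
    intro i _
    rw [KerAux.add_self_zero, smul_zero]
  have h0 : (A.card : Cardinal) = Module.rank K (A → K) := by
    rw [rank_fun', Fintype.card_coe]
  rw [h0]
  refine (abs_base φ hφinj (Zn g α 1) (Nn g α A 1) (bds K 0 (Set.univ : Set X))
    (chIn K 1 Set.univ ⊓ (LinearMap.range φ).comap (bd K)) (bd K) (tw K g α) ?_ ?_ ?_).trans
    (add_le_add (Submodule.rank_mono hψ) (le_refl _))
  · rintro y ⟨c, hcc, hcy⟩
    exact ⟨c, ⟨hcc, ⟨y, hcy.symm⟩⟩, hcy⟩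
  · intro c hcc
    obtain ⟨x, hx⟩ := hcc.2
    refine ⟨tw_mem_Dn hcc.1, ?_⟩
    change bd K (tw K g α c) = 0
    rw [tw_bd, ← hx, htφ]
  · intro c hcc h5
    obtain ⟨x, hx⟩ := hcc.2
    rw [← hx]
    have hx0 : x = 0 := by
      funext a
      rw [mem_Nn] at h5
      obtain ⟨e, he, f, hf, hef⟩ := h5.2 a a.2
      obtain ⟨O, hO, haO, hOf⟩ := h.hiso a a.2
      obtain ⟨w, hw, f', hf', r, hr⟩ := core g α h.hα h.hg h.hc (a : X) hO haO hOf
        (n := 0) hcc.1 he hf hef
      rw [← hφa x a, hx, hr, Finsupp.add_apply, Finsupp.add_apply, bd_cst,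
        tw_apply_fixed g α h.hg _ (cst_fixed g 0 (a : X) (h.hA a a.2)), cst_notMem hf',
        Finsupp.single_eq_same]
      simp [Fin.sum_univ_succ]
    rw [hx0, map_zero]

lemma chain [T1Space X] [CharP K 2] {g : ι → C(X, X)} {α : ι → K} {A : Finset X}
    (h : Setup g α A) (N : ℕ) :
    (A.card : Cardinal) ≤ ∑ n ∈ Finset.range (N + 1), Module.rank K (Hom K X n) +
      rr g α A (N + 1) := by
  induction N with
  | zero => simpa using base h
  | succ N ih =>
    rw [Finset.sum_range_succ, add_assoc]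
    exact ih.trans (add_le_add (le_refl _) (step h (N + 1)))

end Chains

end IneqAux

open IneqAux in
/-- The number of isolated common fixed points is at most the total Betti number. -/
theorem card_le_sum_rank {X : Type} [TopologicalSpace X] [T1Space X] (K : Type) [Field K] [CharP K 2]
    {ι : Type} [Fintype ι] (g : ι → C(X, X)) (α : ι → K)
    (hα : ∀ s : Finset ι, s.Nonempty → ∑ i ∈ s, α i ≠ 0)
    (hg : ∀ i x, g i (g i x) = x) (hc : ∀ i j x, g i (g j x) = g j (g i x))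
    (A : Finset X) (hA : ∀ a ∈ A, ∀ i, g i a = a)
    (hiso : ∀ a ∈ A, ∃ O : Set X, IsOpen O ∧ a ∈ O ∧ ∀ z ∈ O, (∀ i, g i z = z) → z = a)
    (N : ℕ)
    (hN : ∀ a ∈ A, ∀ c ∈ chIn K (N + 1) (Set.univ : Set X), bd K (tw K g α c) = 0 →
      ∃ e ∈ chIn K (N + 2) (Set.univ : Set X), ∃ f ∈ chIn K (N + 1) ({a}ᶜ : Set X),
        tw K g α c = bd K (tw K g α e) + tw K g α f) :
    (A.card : Cardinal) ≤ ∑ n ∈ Finset.range (N + 1), Module.rank K (Hom K X n) := by
  have h := chain (K := K) ⟨hα, hg, hc, hA, hiso⟩ N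
  have h0 : rr g α A (N + 1) = 0 := by
    apply abs_top
    intro u hu
    rw [mem_Nn]
    refine ⟨hu, fun a ha => ?_⟩
    obtain ⟨⟨c, hcc, rfl⟩, hu2⟩ := hu
    exact hN a ha c hcc hu2
  rwa [h0, add_zero] at h

end Pool.Agent.W_MP_6d5819_gt
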