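import Pool.Agent.W_MP_6d5819_gt.Small
import Pool.Agent.W_MP_6d5819_gt.BdBd

set_option autoImplicit false

/-! Barycentric subdivision of singular chains and small simplices. -/

namespace Pool.Agent.W_MP_6d5819_gt

variable (R : Type) [CommRing R] {m m' : ℕ} {X Y : Type} [TopologicalSpace X] [TopologicalSpace Y]

/-- Realization of one tuple of points of a simplex through a map of the simplex to `X`. -/
noncomputable def realS (σ : C(Simp m, X)) : Tup m → Ch R X
  | ⟨0, _⟩ => 0
  | ⟨k + 1, v⟩ => Finsupp.single ⟨k, σ.comp (aff v)⟩ 1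

/-- Realization of tuple chains as singular chains. -/
noncomputable def real (σ : C(Simp m, X)) : TC R m →ₗ[R] Ch R X :=
  Finsupp.linearCombination R (realS R σ)

theorem real_single_zero (σ : C(Simp m, X)) (v : Fin 0 → Simp m) (r : R) :
    real R σ (Finsupp.single (⟨0, v⟩ : Tup m) r) = 0 := by
  simp [real, realS]

theorem real_single_succ (σ : C(Simp m, X)) {k : ℕ} (v : Fin (k + 1) → Simp m) (r : R) :
    real R σ (Finsupp.single (⟨k + 1, v⟩ : Tup m) r) =
      Finsupp.single (⟨k, σ.comp (aff v)⟩ : Sing X) r := by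
  simp [real, realS]

theorem bd_real (σ : C(Simp m, X)) (c : TC R m) : bd R (real R σ c) = real R σ (dT R c) := by
  induction c using Finsupp.induction_linear with
  | zero => simp
  | add a b ha hb => simp only [map_add, ha, hb]
  | single s r =>
    obtain ⟨k, v⟩ := s
    match k with
    | 0 => rw [real_single_zero, dT_single_zero, map_zero, map_zero]
    | 1 =>
      rw [real_single_succ, bd_single_zero, dT_single_succ, map_smul, map_sum]
      simp_rw [real_single_zero]
      simp
    | k + 2 =>
      rw [real_single_succ, bd_single_succ, dT_single_succ, map_smul, map_sum]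
      simp_rw [real_single_succ]
      congr 1
      refine Finset.sum_congr rfl fun i _ => ?_
      have h : face (σ.comp (aff v)) i = σ.comp (aff fun j => v (i.succAbove j)) := by
        rw [face, ContinuousMap.comp_assoc, aff_comp]
        simp
      rw [h]

theorem real_comp_aff (σ : C(Simp m', X)) (w : Fin m → Simp m') (c : TC R m) :
    real R (σ.comp (aff w)) c = real R σ (pushT R (aff w) c) := by
  induction c using Finsupp.induction_linear with
  | zero => simp
  | add a b ha hb => simp only [map_add, ha, hb]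
  | single s r =>
    obtain ⟨k, v⟩ := s
    rw [pushT_single]
    cases k with
    | zero => rw [real_single_zero, real_single_zero]
    | succ k =>
      rw [real_single_succ, real_single_succ, ContinuousMap.comp_assoc, aff_comp]

theorem push_real (f : C(X, Y)) (σ : C(Simp m, X)) (c : TC R m) :
    push R f (real R σ c) = real R (f.comp σ) c := by
  induction c using Finsupp.induction_linear with
  | zero => simp
  | add a b ha hb => simp only [map_add, ha, hb]
  | single s r =>
    obtain ⟨k, v⟩ := s
    cases k with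
    | zero => rw [real_single_zero, real_single_zero, map_zero]
    | succ k =>
      rw [real_single_succ, real_single_succ, push_single]
      rfl

theorem real_mem {k : ℕ} {P : Set (Fin (k + 1) → Simp m)} {U : Set X} (σ : C(Simp m, X))
    (h : ∀ v ∈ P, σ '' (hull v) ⊆ U) {c : TC R m} (hc : c ∈ tin R (k + 1) P) :
    real R σ c ∈ chIn R k U := by
  refine map_tin_le R _ _ ?_ hc
  intro v hv
  rw [real_single_succ]
  refine single_mem_chIn R _ ?_ 1
  rintro _ ⟨s, rfl⟩
  exact h v hv ⟨_, ⟨s, rfl⟩, rfl⟩

/-- The universal tuple. -/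
noncomputable def iota (m : ℕ) : TC R m := Finsupp.single ⟨m, vtx⟩ 1

theorem real_iota {n : ℕ} (σ : C(Simp (n + 1), X)) :
    real R σ (iota R (n + 1)) = Finsupp.single (⟨n, σ⟩ : Sing X) 1 := by
  rw [iota, real_single_succ, aff_id, ContinuousMap.comp_id]

/-- Extension of a natural operator on tuple chains to singular chains. -/
noncomputable def lft (F : ∀ m : ℕ, TC R m →ₗ[R] TC R m) : Ch R X →ₗ[R] Ch R X :=
  Finsupp.linearCombination R (fun s : Sing X => real R s.2 (F (s.1 + 1) (iota R (s.1 + 1))))

theorem lft_single (F : ∀ m : ℕ, TC R m →ₗ[R] TC R m) {n : ℕ} (σ : C(Simp (n + 1), X)) (r : R) :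
    lft R F (Finsupp.single (⟨n, σ⟩ : Sing X) r) = r • real R σ (F (n + 1) (iota R (n + 1))) := by
  simp [lft]

theorem lft_real (F : ∀ m : ℕ, TC R m →ₗ[R] TC R m)
    (hF : ∀ (m m' : ℕ) (w : Fin m → Simp m') (c : TC R m),
      pushT R (aff w) (F m c) = F m' (pushT R (aff w) c))
    (hF0 : ∀ (m : ℕ) (σ : C(Simp m, X)) (v : Fin 0 → Simp m),
      real R σ (F m (Finsupp.single (⟨0, v⟩ : Tup m) 1)) = 0)
    (σ : C(Simp m, X)) (c : TC R m) : lft R F (real R σ c) = real R σ (F m c) := by
  induction c using Finsupp.induction_linear with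
  | zero => simp
  | add a b ha hb => simp only [map_add, ha, hb]
  | single s r =>
    obtain ⟨k, v⟩ := s
    cases k with
    | zero =>
      rw [real_single_zero, map_zero, single_eq_smul, map_smul, map_smul, hF0, smul_zero]
    | succ k =>
      rw [real_single_succ, lft_single, real_comp_aff, hF, iota, pushT_single, single_eq_smul R _ r,
        map_smul, map_smul]
      simp only [aff_vtx]

theorem lft_push (F : ∀ m : ℕ, TC R m →ₗ[R] TC R m) (f : C(X, Y)) (c : Ch R X) :
    lft R F (push R f c) = push R f (lft R F c) := by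
  induction c using Finsupp.induction_linear with
  | zero => simp
  | add a b ha hb => simp only [map_add, ha, hb]
  | single s r =>
    obtain ⟨n, σ⟩ := s
    rw [push_single, pushSimp, lft_single, lft_single, map_smul, push_real]

theorem sd_iota_mem (n : ℕ) : sd R (iota R (n + 1)) ∈ tin R (n + 1) Set.univ := by
  rw [iota, sd_single, one_smul]
  refine tin_mono R (Set.subset_univ _) (sdS_mem R n _ 1 zero_le_one ?_)
  intro i j
  have h1 := Metric.dist_le_diam_of_mem (bounded_stdSimplex (Fin (n + 1)))
    (vtx i : Simp (n + 1)).2 (vtx j : Simp (n + 1)).2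
  exact h1.trans diam_stdSimplex_le

theorem tm_iota_mem (n : ℕ) : tm R (iota R (n + 1)) ∈ tin R (n + 2) Set.univ := by
  rw [iota, tm_single, one_smul]
  exact tmS_mem R _ _

theorem bd_lft_sd (c : Ch R X) :
    bd R (lft R (fun _ => sd R) c) = lft R (fun _ => sd R) (bd R c) := by
  induction c using Finsupp.induction_linear with
  | zero => simp
  | add a b ha hb => simp only [map_add, ha, hb]
  | single s r =>
    obtain ⟨n, σ⟩ := s
    have h1 : (Finsupp.single (⟨n, σ⟩ : Sing X) r) = r • real R σ (iota R (n + 1)) := by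
      rw [real_iota, Finsupp.smul_single, smul_eq_mul, mul_one]
    have h2 : ∀ c : TC R (n + 1), lft R (fun _ => sd R) (real R σ c) = real R σ (sd R c) := by
      intro c
      refine lft_real R _ (fun m m' w c => pushT_sd R w c) ?_ σ c
      intro m σ v
      rw [sd_single, one_smul, sdS, real_single_zero]
    rw [h1, map_smul, map_smul, map_smul, map_smul, h2, bd_real, dT_sd, bd_real, h2]

theorem lft_homotopy (c : Ch R X) :
    bd R (lft R (fun _ => tm R) c) + lft R (fun _ => tm R) (bd R c) =
      c - lft R (fun _ => sd R) c := by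
  induction c using Finsupp.induction_linear with
  | zero => simp
  | add a b ha hb =>
    simp only [map_add]
    rw [show ∀ p q r s : Ch R X, p + q + (r + s) = (p + r) + (q + s) by intros; abel, ha, hb]
    abel
  | single s r =>
    obtain ⟨n, σ⟩ := s
    have h1 : (Finsupp.single (⟨n, σ⟩ : Sing X) r) = r • real R σ (iota R (n + 1)) := by
      rw [real_iota, Finsupp.smul_single, smul_eq_mul, mul_one]
    have h2 : ∀ c : TC R (n + 1), lft R (fun _ => sd R) (real R σ c) = real R σ (sd R c) := by
      intro c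
      refine lft_real R _ (fun m m' w c => pushT_sd R w c) ?_ σ c
      intro m σ v
      rw [sd_single, one_smul, sdS, real_single_zero]
    have h3 : ∀ c : TC R (n + 1), lft R (fun _ => tm R) (real R σ c) = real R σ (tm R c) := by
      intro c
      refine lft_real R _ (fun m m' w c => pushT_tm R w c) ?_ σ c
      intro m σ v
      rw [tm_single, one_smul, tmS, map_zero]
    rw [h1]
    simp only [map_smul]
    rw [h2, h3, bd_real, bd_real, h3, ← smul_add, ← map_add, dT_tm, map_sub, smul_sub]

theorem lft_mem {F : ∀ m : ℕ, TC R m →ₗ[R] TC R m} {k n : ℕ}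
    (hF : F (n + 1) (iota R (n + 1)) ∈ tin R (k + 1) Set.univ) {U : Set X} {c : Ch R X}
    (hc : c ∈ chIn R n U) : lft R F c ∈ chIn R k U := by
  refine chIn_induction R (P := fun c => lft R F c ∈ chIn R k U) (by simp)
    (fun a b _ _ ha hb => by rw [map_add]; exact Submodule.add_mem _ ha hb) ?_ c hc
  intro σ hσ r
  rw [lft_single]
  refine Submodule.smul_mem _ _ (real_mem R σ ?_ hF)
  rintro v - _ ⟨x, -, rfl⟩
  exact hσ ⟨x, rfl⟩

/-- One barycentric subdivision. -/
noncomputable def sdOne (X : Type) [TopologicalSpace X] : Sd R X where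
  S := lft R (fun _ => sd R)
  T := lft R (fun _ => tm R)
  S_push f c := lft_push R _ f c
  T_push f c := lft_push R _ f c
  S_mem n _ _ hc := lft_mem R (sd_iota_mem R n) hc
  T_mem n _ _ hc := lft_mem R (tm_iota_mem R n) hc
  bd_S c := bd_lft_sd R c
  homotopy c := lft_homotopy R c

/-- Composition of subdivisions. -/
noncomputable def Sd.comp (P Q : Sd R X) : Sd R X where
  S := Q.S.comp P.S
  T := P.T + Q.T.comp P.S
  S_push f c := by simp [P.S_push, Q.S_push]
  T_push f c := by simp [P.T_push, P.S_push, Q.T_push]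
  S_mem n U c hc := Q.S_mem n U _ (P.S_mem n U c hc)
  T_mem n U c hc := Submodule.add_mem _ (P.T_mem n U c hc) (Q.T_mem n U _ (P.S_mem n U c hc))
  bd_S c := by simp [P.bd_S, Q.bd_S]
  homotopy c := by
    have h1 := P.homotopy c
    have h2 := Q.homotopy (P.S c)
    rw [P.bd_S] at h2
    simp only [LinearMap.add_apply, LinearMap.comp_apply, map_add]
    rw [show ∀ p q r s : Ch R X, p + q + (r + s) = (p + r) + (q + s) by intros; abel, h1, h2]
    abel

/-- The trivial subdivision. -/
noncomputable def Sd.one (X : Type) [TopologicalSpace X] : Sd R X where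
  S := LinearMap.id
  T := 0
  S_push f c := rfl
  T_push f c := by simp
  S_mem n U c hc := hc
  T_mem n U c hc := Submodule.zero_mem _
  bd_S c := rfl
  homotopy c := by simp

/-- Iterated barycentric subdivision. -/
noncomputable def sdN (X : Type) [TopologicalSpace X] : ℕ → Sd R X
  | 0 => Sd.one R X
  | N + 1 => Sd.comp R (sdN X N) (sdOne R X)

theorem sdN_S (N : ℕ) (c : Ch R X) :
    (sdN R X N).S c = ((lft R (fun _ => sd R) : Ch R X →ₗ[R] Ch R X)^[N]) c := by
  induction N with
  | zero => rfl
  | succ N ih =>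
    rw [Function.iterate_succ_apply', ← ih]
    rfl

theorem sdN_real (N : ℕ) (σ : C(Simp m, X)) (c : TC R m) :
    (sdN R X N).S (real R σ c) = real R σ (((sd R : TC R m →ₗ[R] TC R m)^[N]) c) := by
  rw [sdN_S]
  induction N with
  | zero => rfl
  | succ N ih =>
    rw [Function.iterate_succ_apply', ih, Function.iterate_succ_apply']
    refine lft_real R _ (fun m m' w c => pushT_sd R w c) ?_ σ _
    intro m σ v
    rw [sd_single, one_smul, sdS, real_single_zero]

theorem tin_le_sup {k : ℕ} {P Q S : Set (Fin k → Simp m)} (h : P ⊆ Q ∪ S) :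
    tin R k P ≤ tin R k Q ⊔ tin R k S := by
  rw [tin, Submodule.span_le]
  rintro _ ⟨v, hv, rfl⟩
  rcases h hv with h1 | h1
  · exact Submodule.mem_sup_left (single_mem_tin R h1 1)
  · exact Submodule.mem_sup_right (single_mem_tin R h1 1)

/-- Sufficiently fine iterated subdivisions of a chain in `U ∪ V` are sums of chains in `U` and
`V`. -/
theorem eventually_sdN {U V : Set X} (hU : IsOpen U) (hV : IsOpen V) {n : ℕ} {c : Ch R X}
    (hc : c ∈ chIn R n (U ∪ V)) :
    ∃ N₀ : ℕ, ∀ N ≥ N₀, (sdN R X N).S c ∈ chIn R n U ⊔ chIn R n V := by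
  refine chIn_induction R (P := fun c => ∃ N₀ : ℕ, ∀ N ≥ N₀,
    (sdN R X N).S c ∈ chIn R n U ⊔ chIn R n V) ?_ ?_ ?_ c hc
  · exact ⟨0, fun N _ => by rw [map_zero]; exact Submodule.zero_mem _⟩
  · rintro a b - - ⟨N₁, h1⟩ ⟨N₂, h2⟩
    refine ⟨max N₁ N₂, fun N hN => ?_⟩
    rw [map_add]
    exact Submodule.add_mem _ (h1 N (le_trans (le_max_left _ _) hN))
      (h2 N (le_trans (le_max_right _ _) hN))
  · intro σ hσ r
    obtain ⟨δ, hδ, hleb⟩ : ∃ δ > 0, ∀ x : Simp (n + 1),
        Metric.ball x δ ⊆ σ ⁻¹' U ∨ Metric.ball x δ ⊆ σ ⁻¹' V := by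
      have h1 := lebesgue_number_lemma_of_metric (s := (Set.univ : Set (Simp (n + 1))))
        (c := fun b : Bool => if b then σ ⁻¹' U else σ ⁻¹' V) isCompact_univ
        (by
          intro b
          cases b
          · exact hV.preimage σ.continuous
          · exact hU.preimage σ.continuous)
        (by
          intro x _
          rcases hσ ⟨x, rfl⟩ with h | h
          · exact Set.mem_iUnion.2 ⟨true, h⟩
          · exact Set.mem_iUnion.2 ⟨false, h⟩)
      obtain ⟨δ, hδ, h⟩ := h1
      refine ⟨δ, hδ, fun x => ?_⟩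
      obtain ⟨b, hb⟩ := h x (Set.mem_univ _)
      cases b
      · exact Or.inr hb
      · exact Or.inl hb
    have hq0 : (0 : ℝ) ≤ (n : ℝ) / (n + 1) := by positivity
    have hq1 : (n : ℝ) / (n + 1) < 1 := by
      rw [div_lt_one (by positivity)]
      linarith
    obtain ⟨N₀, hN₀⟩ := exists_pow_lt_of_lt_one hδ hq1
    refine ⟨N₀, fun N hN => ?_⟩
    have h1 : (Finsupp.single (⟨n, σ⟩ : Sing X) r) = r • real R σ (iota R (n + 1)) := by
      rw [real_iota, Finsupp.smul_single, smul_eq_mul, mul_one]
    rw [h1, map_smul, sdN_real]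
    refine Submodule.smul_mem _ _ ?_
    have hι : iota R (n + 1) ∈ tin R (n + 1) (small (n + 1) (n + 1) 1) := by
      refine single_mem_tin R ?_ 1
      intro i j
      have h1 := Metric.dist_le_diam_of_mem (bounded_stdSimplex (Fin (n + 1)))
        (vtx i : Simp (n + 1)).2 (vtx j : Simp (n + 1)).2
      exact h1.trans diam_stdSimplex_le
    have h2 := sd_iter_small R zero_le_one hι N
    rw [mul_one] at h2
    have hlt : ((n : ℝ) / (n + 1)) ^ N < δ :=
      lt_of_le_of_lt (pow_le_pow_of_le_one hq0 hq1.le hN) hN₀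
    have h3 : small (n + 1) (n + 1) (((n : ℝ) / (n + 1)) ^ N) ⊆
        {v | σ '' (hull v) ⊆ U} ∪ {v | σ '' (hull v) ⊆ V} := by
      intro v hv
      have hb : hull v ⊆ Metric.ball (v 0) δ := by
        rintro _ ⟨s, rfl⟩
        rw [Metric.mem_ball, dist_comm]
        exact lt_of_le_of_lt (dist_aff_le v s (v 0) _ (fun i => hv 0 i)) hlt
      rcases hleb (v 0) with h | h
      · exact Or.inl (Set.image_subset_iff.2 (hb.trans h))
      · exact Or.inr (Set.image_subset_iff.2 (hb.trans h))
    have h4 := tin_le_sup R h3 h2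
    obtain ⟨a, ha, b, hb, hab⟩ := Submodule.mem_sup.1 h4
    rw [← hab, map_add]
    exact Submodule.add_mem _ (Submodule.mem_sup_left (real_mem R σ (fun v hv => hv) ha))
      (Submodule.mem_sup_right (real_mem R σ (fun v hv => hv) hb))

/-- Small simplices theorem. -/
theorem exists_sd {U V : Set X} (hU : IsOpen U) (hV : IsOpen V) {n : ℕ} {c : Ch R X}
    (hc : c ∈ chIn R n (U ∪ V)) :
    ∃ P : Sd R X, P.S c ∈ chIn R n U ⊔ chIn R n V := by
  obtain ⟨N, hN⟩ := eventually_sdN R hU hV hc
  exact ⟨sdN R X N, hN N le_rfl⟩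

end Pool.Agent.W_MP_6d5819_gt
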