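import Pool.Agent.W_MP_6d5819_gt.Defs
import Pool.Agent.W_MP_6d5819_gt.Subdiv

set_option autoImplicit false

/-! A universal coefficient type inequality: if integral homology has no 2-torsion, then the
dimension of homology over a field of characteristic 2 is at most the dimension over `ℝ`. -/

namespace Pool.Agent.W_MP_6d5819_gt

open Module

section cc

variable {X : Type} [TopologicalSpace X] {R S S' : Type} [CommRing R] [CommRing S] [CommRing S']

/-- Change of coefficients along an additive map. -/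
noncomputable def cc (φ : R →+ S) : Ch R X →+ Ch S X := Finsupp.mapRange.addMonoidHom φ

theorem cc_apply (φ : R →+ S) (c : Ch R X) (s : Sing X) : cc φ c s = φ (c s) := rfl

theorem cc_single (φ : R →+ S) (s : Sing X) (r : R) :
    cc φ (Finsupp.single s r) = Finsupp.single s (φ r) := by
  simp [cc]

theorem cc_cc (φ : R →+ S) (ψ : S →+ S') (c : Ch R X) :
    cc ψ (cc φ c) = cc (ψ.comp φ) c := by
  ext s
  rfl

theorem addHom_neg_one_pow (φ : R →+ S) (r : R) (i : ℕ) :
    φ (r * (-1) ^ i) = φ r * (-1) ^ i := by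
  rcases Nat.even_or_odd i with h | h
  · rw [h.neg_one_pow, h.neg_one_pow, mul_one, mul_one]
  · rw [h.neg_one_pow, h.neg_one_pow, mul_neg, mul_neg, mul_one, mul_one, map_neg]

theorem bd_cc (φ : R →+ S) (c : Ch R X) : bd S (cc φ c) = cc φ (bd R c) := by
  induction c using Finsupp.induction_linear with
  | zero => simp
  | add a b ha hb => simp only [map_add, ha, hb]
  | single s r =>
    obtain ⟨n, σ⟩ := s
    rw [cc_single]
    cases n with
    | zero => rw [bd_single_zero, bd_single_zero, map_zero]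
    | succ n =>
      rw [bd_single_succ, bd_single_succ, Finset.smul_sum, Finset.smul_sum, map_sum]
      apply Finset.sum_congr rfl
      intro i _
      rw [Finsupp.smul_single, Finsupp.smul_single, cc_single, smul_eq_mul, smul_eq_mul,
        addHom_neg_one_pow]

theorem cc_mem_chIn (φ : R →+ S) {n : ℕ} {U : Set X} {c : Ch R X} (hc : c ∈ chIn R n U) :
    cc φ c ∈ chIn S n U := by
  rw [mem_chIn] at hc ⊢
  intro s hs
  apply hc s
  rw [Finsupp.mem_support_iff] at hs ⊢
  intro h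
  apply hs
  rw [cc_apply, h, map_zero]

theorem cc_mem_cyc (φ : R →+ S) {n : ℕ} {U : Set X} {c : Ch R X} (hc : c ∈ cyc R n U) :
    cc φ c ∈ cyc S n U := by
  refine ⟨cc_mem_chIn φ hc.1, ?_⟩
  change bd S (cc φ c) = 0
  rw [bd_cc, show bd R c = 0 from hc.2, map_zero]

theorem cc_mem_bds (φ : R →+ S) {n : ℕ} {U : Set X} {c : Ch R X} (hc : c ∈ bds R n U) :
    cc φ c ∈ bds S n U := by
  obtain ⟨e, he, rfl⟩ := hc
  exact ⟨cc φ e, cc_mem_chIn φ he, bd_cc φ e⟩

theorem cc_smul_int (φ : R →+ S) (r : R) (z : Ch ℤ X) :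
    cc φ (r • cc (Int.castAddHom R) z) = φ r • cc (Int.castAddHom S) z := by
  ext s
  rw [cc_apply, Finsupp.smul_apply, Finsupp.smul_apply, cc_apply, cc_apply, smul_eq_mul,
    smul_eq_mul, Int.coe_castAddHom, Int.coe_castAddHom, ← zsmul_eq_mul', ← zsmul_eq_mul',
    map_zsmul]

end cc

section lift

variable {X : Type} [TopologicalSpace X]

/-- A set theoretic lift of chains with coefficients in `ZMod 2`. -/
noncomputable def lft2 (c : Ch (ZMod 2) X) : Ch ℤ X :=
  Finsupp.mapRange (fun a : ZMod 2 => (a.val : ℤ)) (by simp) c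

theorem cc_lft2 (c : Ch (ZMod 2) X) : cc (Int.castAddHom (ZMod 2)) (lft2 c) = c := by
  ext s
  rw [cc_apply, lft2, Finsupp.mapRange_apply]
  simp

theorem lft2_mem {n : ℕ} {U : Set X} {c : Ch (ZMod 2) X} (hc : c ∈ chIn (ZMod 2) n U) :
    lft2 c ∈ chIn ℤ n U := by
  rw [mem_chIn] at hc ⊢
  intro s hs
  apply hc s
  rw [Finsupp.mem_support_iff] at hs ⊢
  intro h
  apply hs
  rw [lft2, Finsupp.mapRange_apply, h]
  simp

theorem exists_half {n : ℕ} {U : Set X} {c : Ch ℤ X} (hc : c ∈ chIn ℤ n U)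
    (h : cc (Int.castAddHom (ZMod 2)) c = 0) : ∃ w ∈ chIn ℤ n U, c = (2 : ℤ) • w := by
  refine ⟨Finsupp.mapRange (fun a : ℤ => a / 2) (by simp) c, ?_, ?_⟩
  · rw [mem_chIn] at hc ⊢
    intro s hs
    apply hc s
    rw [Finsupp.mem_support_iff] at hs ⊢
    intro h
    apply hs
    rw [Finsupp.mapRange_apply, h]
    simp
  · ext s
    rw [Finsupp.smul_apply, Finsupp.mapRange_apply, smul_eq_mul]
    have h1 : cc (Int.castAddHom (ZMod 2)) c s = 0 := by rw [h]; rfl
    rw [cc_apply, Int.coe_castAddHom, ZMod.intCast_zmod_eq_zero_iff_dvd] at h1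
    obtain ⟨k, hk⟩ := h1
    rw [hk]
    norm_num

theorem exists_cyc_lift
    (h2 : ∀ n : ℕ, ∀ c ∈ cyc ℤ n (Set.univ : Set X), (2 : ℤ) • c ∈ bds ℤ n (Set.univ : Set X) →
      c ∈ bds ℤ n (Set.univ : Set X)) (n : ℕ) {c : Ch (ZMod 2) X}
    (hc : c ∈ cyc (ZMod 2) n (Set.univ : Set X)) :
    ∃ z ∈ cyc ℤ n (Set.univ : Set X), cc (Int.castAddHom (ZMod 2)) z = c := by
  cases n with
  | zero => exact ⟨lft2 c, ⟨lft2_mem hc.1, bd_chIn_zero ℤ (lft2_mem hc.1)⟩, cc_lft2 c⟩
  | succ n =>
    have h1 : bd ℤ (lft2 c) ∈ chIn ℤ n Set.univ := bd_mem_chIn ℤ (lft2_mem hc.1)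
    have h3 : cc (Int.castAddHom (ZMod 2)) (bd ℤ (lft2 c)) = 0 := by
      rw [← bd_cc, cc_lft2]
      exact hc.2
    obtain ⟨w, hw, hw2⟩ := exists_half h1 h3
    have h4 : (2 : ℤ) • bd ℤ w = 0 := by
      rw [← map_smul, ← hw2, bd_bd]
    have h5 : bd ℤ w = 0 := by
      rcases smul_eq_zero.1 h4 with h | h
      · norm_num at h
      · exact h
    have h6 : w ∈ bds ℤ n (Set.univ : Set X) := by
      apply h2 n w ⟨hw, h5⟩
      rw [← hw2]
      exact ⟨lft2 c, lft2_mem hc.1, rfl⟩
    obtain ⟨u, hu, hu2⟩ := h6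
    refine ⟨lft2 c - (2 : ℤ) • u, ⟨Submodule.sub_mem _ (lft2_mem hc.1)
      (Submodule.smul_mem _ _ hu), ?_⟩, ?_⟩
    · change bd ℤ (lft2 c - (2 : ℤ) • u) = 0
      rw [map_sub, map_smul, hu2, hw2, sub_self]
    · rw [map_sub, cc_lft2, map_zsmul]
      ext s
      rw [Finsupp.sub_apply, Finsupp.smul_apply]
      have : (2 : ℤ) • (cc (Int.castAddHom (ZMod 2)) u) s = 0 := by
        rw [zsmul_eq_mul]
        have : (((2 : ℤ) : ZMod 2)) = 0 := by decide
        rw [this, zero_mul]
      rw [this, sub_zero]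

end lift

section char2

variable {X : Type} [TopologicalSpace X] (K : Type) [Field K] [CharP K 2]

/-- Every cycle over `K` is a combination of images of integral cycles. -/
theorem cyc_le_span
    (h2 : ∀ n : ℕ, ∀ c ∈ cyc ℤ n (Set.univ : Set X), (2 : ℤ) • c ∈ bds ℤ n (Set.univ : Set X) →
      c ∈ bds ℤ n (Set.univ : Set X)) (n : ℕ) :
    cyc K n (Set.univ : Set X) ≤
      Submodule.span K (cc (Int.castAddHom K) '' (cyc ℤ n (Set.univ : Set X) : Set (Ch ℤ X))) := by
  classical
  let _ : Algebra (ZMod 2) K := ZMod.algebra K 2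
  intro c hc
  set B := Basis.ofVectorSpace (ZMod 2) K with hB
  set T := c.support.biUnion fun s => (B.repr (c s)).support with hT
  -- coordinate functionals
  set lam : _ → K →+ ZMod 2 := fun b => (B.coord b).toAddMonoidHom with hlam
  have hcast : ∀ z : Ch ℤ X, ∀ e : K, ∀ s : Sing X,
      (e • cc (Int.castAddHom K) z) s = (cc (Int.castAddHom (ZMod 2)) z s) • e := by
    intro z e s
    rw [Finsupp.smul_apply, cc_apply, cc_apply, smul_eq_mul, Algebra.smul_def, mul_comm]
    simp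
  have key : ∀ b, ∃ z ∈ cyc ℤ n (Set.univ : Set X),
      cc (Int.castAddHom (ZMod 2)) z = cc (lam b) c :=
    fun b => exists_cyc_lift h2 n (cc_mem_cyc (lam b) hc)
  choose z hz hz2 using key
  have hsum : c = ∑ b ∈ T, B b • cc (Int.castAddHom K) (z b) := by
    ext s
    rw [Finsupp.finsetSum_apply]
    simp only [hcast, hz2, cc_apply]
    by_cases hs : s ∈ c.support
    · have h1 := B.linearCombination_repr (c s)
      rw [Finsupp.linearCombination_apply, Finsupp.sum] at h1
      conv_lhs => rw [← h1]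
      refine Finset.sum_subset ?_ ?_
      · intro b hb
        rw [hT, Finset.mem_biUnion]
        exact ⟨s, hs, hb⟩
      · intro b _ hb
        rw [Finsupp.notMem_support_iff] at hb
        rw [hb, zero_smul]
    · rw [Finsupp.notMem_support_iff] at hs
      rw [hs]
      symm
      apply Finset.sum_eq_zero
      intro b _
      rw [map_zero, zero_smul]
  rw [hsum]
  refine Submodule.sum_mem _ fun b _ => Submodule.smul_mem _ _ (Submodule.subset_span ?_)
  exact ⟨z b, hz b, rfl⟩

end char2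

section indep

variable {X : Type} [TopologicalSpace X]

/-- Descent: integral cycles whose classes are independent over `K` are independent over `ℤ`
modulo boundaries. -/
theorem int_indep
    (h2 : ∀ n : ℕ, ∀ c ∈ cyc ℤ n (Set.univ : Set X), (2 : ℤ) • c ∈ bds ℤ n (Set.univ : Set X) →
      c ∈ bds ℤ n (Set.univ : Set X)) (K : Type) [Field K] [CharP K 2] (n : ℕ)
    {ι : Type} (z : ι → Ch ℤ X) (hz : ∀ i, z i ∈ cyc ℤ n (Set.univ : Set X))
    (hli : LinearIndependent K fun i =>
      (bds K n (Set.univ : Set X)).mkQ (cc (Int.castAddHom K) (z i)))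
    (s : Finset ι) (k : ℕ) : ∀ (m : ι → ℤ), ∑ i ∈ s, m i • z i ∈ bds ℤ n (Set.univ : Set X) →
      ∀ i ∈ s, (2 : ℤ) ^ k ∣ m i := by
  induction k with
  | zero => intro m _ i _; simp
  | succ k ih =>
    intro m hm
    have h1 := cc_mem_bds (Int.castAddHom K) hm
    rw [map_sum] at h1
    have h3 : ∑ i ∈ s, (m i : K) • (bds K n (Set.univ : Set X)).mkQ
        (cc (Int.castAddHom K) (z i)) = 0 := by
      have h4 : (bds K n (Set.univ : Set X)).mkQ
          (∑ i ∈ s, cc (Int.castAddHom K) (m i • z i)) = 0 := by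
        rw [Submodule.mkQ_apply, Submodule.Quotient.mk_eq_zero]
        exact h1
      rw [map_sum] at h4
      rw [← h4]
      apply Finset.sum_congr rfl
      intro i _
      rw [map_zsmul, map_zsmul, Int.cast_smul_eq_zsmul]
    have h5 : ∀ i ∈ s, (2 : ℤ) ∣ m i := by
      intro i hi
      have h6 := (linearIndependent_iff'.1 hli) s (fun i => (m i : K)) h3 i hi
      exact (CharP.intCast_eq_zero_iff K 2 (m i)).1 h6
    have h7 : ∑ i ∈ s, (m i / 2) • z i ∈ bds ℤ n (Set.univ : Set X) := by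
      apply h2
      · exact Submodule.sum_mem _ fun i _ => Submodule.smul_mem _ _ (hz i)
      · rw [Finset.smul_sum]
        convert hm using 1
        apply Finset.sum_congr rfl
        intro i hi
        rw [smul_smul, Int.mul_ediv_cancel' (h5 i hi)]
    intro i hi
    obtain ⟨q, hq⟩ := ih (fun i => m i / 2) h7 i hi
    refine ⟨q, ?_⟩
    have h8 := Int.mul_ediv_cancel' (h5 i hi)
    rw [← h8, hq]
    ring

theorem int_indep'
    (h2 : ∀ n : ℕ, ∀ c ∈ cyc ℤ n (Set.univ : Set X), (2 : ℤ) • c ∈ bds ℤ n (Set.univ : Set X) →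
      c ∈ bds ℤ n (Set.univ : Set X)) (K : Type) [Field K] [CharP K 2] (n : ℕ)
    {ι : Type} (z : ι → Ch ℤ X) (hz : ∀ i, z i ∈ cyc ℤ n (Set.univ : Set X))
    (hli : LinearIndependent K fun i =>
      (bds K n (Set.univ : Set X)).mkQ (cc (Int.castAddHom K) (z i)))
    (s : Finset ι) (m : ι → ℤ) (hm : ∑ i ∈ s, m i • z i ∈ bds ℤ n (Set.univ : Set X)) :
      ∀ i ∈ s, m i = 0 := by
  intro i hi
  have h := int_indep h2 K n z hz hli s (m i).natAbs m hm i hi
  by_contra hne
  have h1 := Int.le_of_dvd (abs_pos.2 hne) ((dvd_abs _ _).2 h)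
  have h3 : (m i).natAbs < 2 ^ (m i).natAbs := Nat.lt_two_pow_self
  have h4 : |m i| < (2 : ℤ) ^ (m i).natAbs := by
    rw [Int.abs_eq_natAbs]
    exact_mod_cast h3
  omega

theorem real_indep
    (h2 : ∀ n : ℕ, ∀ c ∈ cyc ℤ n (Set.univ : Set X), (2 : ℤ) • c ∈ bds ℤ n (Set.univ : Set X) →
      c ∈ bds ℤ n (Set.univ : Set X)) (K : Type) [Field K] [CharP K 2] (n : ℕ)
    {ι : Type} (z : ι → Ch ℤ X) (hz : ∀ i, z i ∈ cyc ℤ n (Set.univ : Set X))
    (hli : LinearIndependent K fun i =>
      (bds K n (Set.univ : Set X)).mkQ (cc (Int.castAddHom K) (z i))) :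
    LinearIndependent ℝ fun i =>
      (bds ℝ n (Set.univ : Set X)).mkQ (cc (Int.castAddHom ℝ) (z i)) := by
  classical
  rw [linearIndependent_iff']
  intro s g hg i0 hi0
  by_contra hne
  -- a rational functional not vanishing at `g i0`
  have hlam : ∃ lam : ℝ →ₗ[ℚ] ℚ, lam (g i0) ≠ 0 := by
    by_contra hcon
    push Not at hcon
    exact hne ((Module.forall_dual_apply_eq_zero_iff ℚ (g i0)).1 hcon)
  obtain ⟨lam, hlam0⟩ := hlam
  -- the relation
  have h1 : ∑ i ∈ s, g i • cc (Int.castAddHom ℝ) (z i) ∈ bds ℝ n (Set.univ : Set X) := by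
    rw [← Submodule.Quotient.mk_eq_zero, ← Submodule.mkQ_apply, map_sum]
    rw [← hg]
    apply Finset.sum_congr rfl
    intro i _
    rw [map_smul]
  obtain ⟨c, hc, hcb⟩ := h1
  replace hc : c ∈ chIn ℝ (n + 1) (Set.univ : Set X) := hc
  -- clear denominators
  set F : Finset ℚ := s.image (fun i => lam (g i)) ∪ c.support.image (fun t => lam (c t)) with hF
  obtain ⟨N, hN⟩ := IsLocalization.exist_integer_multiples_of_finset (nonZeroDivisors ℤ) F
  have hN0 : (N : ℤ) ≠ 0 := nonZeroDivisors.coe_ne_zero N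
  set mu : ℝ →+ ℚ := (((N : ℤ) : ℚ) • lam).toAddMonoidHom with hmu
  have hmu_apply : ∀ r, mu r = ((N : ℤ) : ℚ) * lam r := fun r => rfl
  have hint : ∀ a ∈ F, ∃ k : ℤ, (k : ℚ) = ((N : ℤ) : ℚ) * a := by
    intro a ha
    obtain ⟨k, hk⟩ := hN a ha
    refine ⟨k, ?_⟩
    rw [← zsmul_eq_mul]
    exact hk
  have hmi : ∀ i ∈ s, ((⌊mu (g i)⌋ : ℤ) : ℚ) = mu (g i) := by
    intro i hi
    obtain ⟨k, hk⟩ := hint (lam (g i)) (Finset.mem_union_left _ (Finset.mem_image_of_mem _ hi))
    rw [hmu_apply, ← hk, Int.floor_intCast]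
  set e : Ch ℤ X := Finsupp.mapRange (fun q : ℚ => ⌊q⌋) (by simp) (cc mu c) with he
  have hee : cc (Int.castAddHom ℚ) e = cc mu c := by
    ext t
    rw [cc_apply, he, Finsupp.mapRange_apply, Int.coe_castAddHom]
    by_cases ht : t ∈ c.support
    · obtain ⟨k, hk⟩ := hint (lam (c t)) (Finset.mem_union_right _ (Finset.mem_image_of_mem _ ht))
      rw [cc_apply, hmu_apply, ← hk, Int.floor_intCast]
    · rw [Finsupp.notMem_support_iff] at ht
      rw [cc_apply, ht, map_zero]
      simp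
  have he_mem : e ∈ chIn ℤ (n + 1) (Set.univ : Set X) := by
    rw [mem_chIn] at hc ⊢
    intro t ht
    apply hc t
    rw [Finsupp.mem_support_iff] at ht ⊢
    intro h
    apply ht
    rw [he, Finsupp.mapRange_apply, cc_apply, h, map_zero]
    simp
  have hrel : ∑ i ∈ s, ⌊mu (g i)⌋ • z i = bd ℤ e := by
    have hinj : Function.Injective (cc (X := X) (Int.castAddHom ℚ)) := by
      intro a b hab
      ext t
      have := DFunLike.congr_fun hab t
      rw [cc_apply, cc_apply, Int.coe_castAddHom] at this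
      exact Int.cast_injective this
    apply hinj
    rw [← bd_cc, hee, bd_cc, hcb, map_sum, map_sum]
    apply Finset.sum_congr rfl
    intro i hi
    rw [cc_smul_int, map_zsmul, ← hmi i hi, Int.cast_smul_eq_zsmul, Int.floor_intCast]
  have hfin := int_indep' h2 K n z hz hli s (fun i => ⌊mu (g i)⌋) (by
    rw [hrel]
    exact ⟨e, he_mem, rfl⟩) i0 hi0
  have h3 := hmi i0 hi0
  rw [hfin, hmu_apply] at h3
  have h4 : ((N : ℤ) : ℚ) ≠ 0 := by exact_mod_cast hN0
  have h5 : ((N : ℤ) : ℚ) * lam (g i0) ≠ 0 := mul_ne_zero h4 hlam0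
  apply h5
  rw [← h3]
  simp

end indep

/-- If the integral homology of `X` has no 2-torsion, then for fields `K` of characteristic 2
the dimension of `H_n(X; K)` is at most the dimension of `H_n(X; ℝ)`. -/
theorem rank_le_of_no_two_torsion {X : Type} [TopologicalSpace X]
    (h2 : ∀ n : ℕ, ∀ c ∈ cyc ℤ n (Set.univ : Set X), (2 : ℤ) • c ∈ bds ℤ n (Set.univ : Set X) →
      c ∈ bds ℤ n (Set.univ : Set X))
    (K : Type) [Field K] [CharP K 2] (n : ℕ) :
    Module.rank K (Hom K X n) ≤ Module.rank ℝ (Hom ℝ X n) := by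
  classical
  set V := Ch K X ⧸ bds K n (Set.univ : Set X) with hV
  set P : Set V := (fun z : Ch ℤ X => (bds K n (Set.univ : Set X)).mkQ
    (cc (Int.castAddHom K) z)) '' (cyc ℤ n (Set.univ : Set X) : Set (Ch ℤ X)) with hP
  have hspan : Hom K X n ≤ Submodule.span K P := by
    rw [Hom]
    refine (Submodule.map_mono (cyc_le_span K h2 n)).trans ?_
    rw [Submodule.map_span, hP, Set.image_image]
  obtain ⟨b, hbP, hbs, hli⟩ := exists_linearIndependent K P
  have hb : ∀ v : b, ∃ z ∈ cyc ℤ n (Set.univ : Set X),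
      (bds K n (Set.univ : Set X)).mkQ (cc (Int.castAddHom K) z) = v := by
    intro v
    obtain ⟨z, hz, hzv⟩ := hbP v.2
    exact ⟨z, hz, hzv⟩
  choose z hz hzv using hb
  have hli' : LinearIndependent K fun v : b =>
      (bds K n (Set.univ : Set X)).mkQ (cc (Int.castAddHom K) (z v)) := by
    have : (fun v : b => (bds K n (Set.univ : Set X)).mkQ (cc (Int.castAddHom K) (z v))) =
        fun v : b => (v : V) := funext hzv
    rw [this]
    exact hli
  have hR := real_indep h2 K n z hz hli'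
  have hR' : LinearIndependent ℝ fun v : b =>
      (⟨(bds ℝ n (Set.univ : Set X)).mkQ (cc (Int.castAddHom ℝ) (z v)),
        Submodule.mem_map_of_mem (cc_mem_cyc _ (hz v))⟩ : Hom ℝ X n) := by
    apply LinearIndependent.of_comp (Hom ℝ X n).subtype
    exact hR
  calc Module.rank K (Hom K X n) ≤ Module.rank K (Submodule.span K P) :=
        Submodule.rank_mono hspan
    _ = Module.rank K (Submodule.span K b) := by rw [hbs]
    _ = Cardinal.mk b := rank_span_set hli
    _ ≤ Module.rank ℝ (Hom ℝ X n) := hR'.cardinal_le_rank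

end Pool.Agent.W_MP_6d5819_gt
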