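import Pool.Agent.W_MP_6d5819_gt.Local
import Pool.Agent.W_MP_6d5819_gt.Finite
import Pool.Agent.W_MP_6d5819_gt.Compare
import Pool.Agent.W_MP_6d5819_gt.Ineq
import Pool.Agent.W_MP_6d5819_gt.Uct

set_option autoImplicit false

/-! Assembly: from the structure of the symmetries at antipodal points to the theorem. -/

open scoped Manifold ContDiff Topology
open Bundle

namespace Pool.Agent.W_MP_6d5819_gt

/-- Distances in a connected extended metric space are finite. -/
theorem edist_ne_top_of_connected (M : Type) [EMetricSpace M] [PreconnectedSpace M] (x y : M) :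
    edist x y ≠ ⊤ := by
  have h1 : IsClopen {z : M | edist x z < ⊤} := by
    constructor
    · rw [← isOpen_compl_iff, EMetric.isOpen_iff]
      intro z hz
      refine ⟨1, zero_lt_one, ?_⟩
      intro w hw hxw
      apply hz
      have h2 : edist w z < ⊤ := lt_trans hw ENNReal.one_lt_top
      exact lt_of_le_of_lt (edist_triangle x w z) (ENNReal.add_lt_top.2 ⟨hxw, h2⟩)
    · rw [EMetric.isOpen_iff]
      intro z hz
      refine ⟨1, zero_lt_one, ?_⟩
      intro w hw
      have h2 : edist z w < ⊤ := by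
        rw [edist_comm]
        exact lt_trans hw ENNReal.one_lt_top
      exact lt_of_le_of_lt (edist_triangle x z w) (ENNReal.add_lt_top.2 ⟨hz, h2⟩)
  have h2 : {z : M | edist x z < ⊤} = Set.univ := h1.eq_univ ⟨x, by simp⟩
  have h3 : y ∈ {z : M | edist x z < ⊤} := by rw [h2]; trivial
  exact h3.ne

/-- The cone over the centre of a convex chart domain. -/
noncomputable def ballCone {M E : Type} [TopologicalSpace M] [NormedAddCommGroup E]
    [NormedSpace ℝ E] (e : OpenPartialHomeomorph M E) (p : E) (r : ℝ) (hp : p ∈ Metric.ball p r)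
    (hball : Metric.ball p r ⊆ e.target) : ConeData (e.source ∩ e ⁻¹' Metric.ball p r) where
  H q := e.symm ((1 - q.2) • e q.1 + q.2 • p)
  cont := by
    have hmem : ∀ q ∈ (e.source ∩ e ⁻¹' Metric.ball p r) ×ˢ Set.Icc (0 : ℝ) 1,
        (1 - q.2) • e q.1 + q.2 • p ∈ e.target := by
      rintro ⟨z, τ⟩ ⟨hz, hτ⟩
      exact hball (convex_ball p r hz.2 hp (sub_nonneg.2 hτ.2) hτ.1 (by ring))
    refine e.continuousOn_symm.comp ?_ hmem
    have he : ContinuousOn (fun q : M × ℝ => e q.1)
        ((e.source ∩ e ⁻¹' Metric.ball p r) ×ˢ Set.Icc (0 : ℝ) 1) :=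
      e.continuousOn.comp continuousOn_fst fun q hq => hq.1.1
    exact ((continuousOn_const.sub continuousOn_snd).smul he).add
      (continuousOn_snd.smul continuousOn_const)
  maps := by
    intro z hz τ hτ
    have h1 : (1 - τ) • e z + τ • p ∈ Metric.ball p r :=
      convex_ball p r hz.2 hp (sub_nonneg.2 hτ.2) hτ.1 (by ring)
    refine ⟨e.map_target (hball h1), ?_⟩
    change e (e.symm ((1 - τ) • e z + τ • p)) ∈ Metric.ball p r
    rw [e.right_inv (hball h1)]
    exact h1
  zero := by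
    intro z hz
    simp only [sub_zero, one_smul, zero_smul, add_zero]
    exact e.left_inv hz.1
  one := by
    intro z hz
    refine Filter.Eventually.of_forall fun w => ?_
    simp

/-- Manifolds are locally homologically trivial. -/
theorem exists_good_nhd (F : Type) [Field F] {M E : Type} [TopologicalSpace M]
    [NormedAddCommGroup E] [NormedSpace ℝ E] [ChartedSpace E M] (U : Set M) (hU : IsOpen U)
    (x : M) (hx : x ∈ U) : ∃ W : Set M, IsOpen W ∧ x ∈ W ∧ W ⊆ U ∧
      (∀ n, cyc F (n + 1) W ≤ bds F (n + 1) W) ∧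
      ∃ Q : Submodule F (Ch F M), Q.FG ∧ chIn F 0 W ≤ Q ⊔ bds F 0 W := by
  let e : OpenPartialHomeomorph M E := chartAt E x
  have hxs : x ∈ e.source := mem_chart_source E x
  have h1 : e.target ∩ e.symm ⁻¹' U ∈ 𝓝 (e x) := by
    refine (e.isOpen_inter_preimage_symm hU).mem_nhds ⟨e.map_source hxs, ?_⟩
    change e.symm (e x) ∈ U
    rw [e.left_inv hxs]
    exact hx
  obtain ⟨r, hr, hball⟩ := Metric.mem_nhds_iff.1 h1
  have hball' : Metric.ball (e x) r ⊆ e.target := hball.trans Set.inter_subset_left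
  let D := ballCone e (e x) r (Metric.mem_ball_self hr) hball'
  refine ⟨e.source ∩ e ⁻¹' Metric.ball (e x) r, e.isOpen_inter_preimage Metric.isOpen_ball,
    ⟨hxs, Metric.mem_ball_self hr⟩, ?_, ?_, ?_⟩
  · rintro z ⟨hz1, hz2⟩
    have := (hball hz2).2
    change e.symm (e z) ∈ U at this
    rwa [e.left_inv hz1] at this
  · intro n c hc
    obtain ⟨hc1, hc2⟩ := Submodule.mem_inf.1 hc
    rw [LinearMap.mem_ker] at hc2
    have h := D.bd_op F hc1
    rw [hc2, map_zero, add_zero] at h
    exact ⟨D.op F c, D.op_mem F hc1, h⟩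
  · refine ⟨Submodule.span F {Finsupp.single (⟨0, ContinuousMap.const _ x⟩ : Sing M) (1 : F)},
      Submodule.fg_span (Set.finite_singleton _), ?_⟩
    intro c hc
    refine chIn_induction F (P := fun c => c ∈ Submodule.span F
      {Finsupp.single (⟨0, ContinuousMap.const _ x⟩ : Sing M) (1 : F)} ⊔
        bds F 0 (e.source ∩ e ⁻¹' Metric.ball (e x) r)) (Submodule.zero_mem _)
      (fun a b _ _ ha hb => Submodule.add_mem _ ha hb) ?_ c hc
    intro σ hσ r'
    have h := D.bd_op_zero F hσ r'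
    have hend : D.H (σ (vtx 0), 1) = x := by
      change e.symm ((1 - (1 : ℝ)) • e (σ (vtx 0)) + (1 : ℝ) • e x) = x
      rw [sub_self, zero_smul, one_smul, zero_add, e.left_inv hxs]
    rw [hend] at h
    have h2 : Finsupp.single (⟨0, σ⟩ : Sing M) r' =
        Finsupp.single (⟨0, ContinuousMap.const _ x⟩ : Sing M) r' +
          bd F (D.op F (Finsupp.single ⟨0, σ⟩ r')) := by
      rw [h]; abel
    rw [h2]
    refine Submodule.add_mem _ (Submodule.mem_sup_left ?_) (Submodule.mem_sup_right ?_)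
    · rw [show Finsupp.single (⟨0, ContinuousMap.const _ x⟩ : Sing M) r' =
        r' • Finsupp.single (⟨0, ContinuousMap.const _ x⟩ : Sing M) (1 : F) by
          rw [Finsupp.smul_single, smul_eq_mul, mul_one]]
      exact Submodule.smul_mem _ _ (Submodule.mem_span_singleton_self _)
    · exact ⟨_, D.op_mem F (single_mem_chIn F σ hσ r'), rfl⟩

/-- Independent elements of a field of characteristic two. -/
theorem exists_indep (ι : Type) [Fintype ι] : ∃ (K : Type) (_ : Field K) (_ : CharP K 2)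
    (α : ι → K), ∀ s : Finset ι, s.Nonempty → ∑ i ∈ s, α i ≠ 0 := by
  classical
  let P := Polynomial (ZMod 2)
  let K := FractionRing P
  have : CharP P 2 := inferInstanceAs (CharP (Polynomial (ZMod 2)) 2)
  have : CharP K 2 := charP_of_injective_algebraMap (IsFractionRing.injective P K) 2
  let m := Fintype.equivFin ι
  refine ⟨K, inferInstance, inferInstance,
    fun i => algebraMap P K (Polynomial.X ^ ((m i : Fin _) : ℕ)), ?_⟩
  intro s hs h
  obtain ⟨i₀, hi₀⟩ := hs
  rw [← map_sum] at h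
  have h1 : ∑ i ∈ s, (Polynomial.X : P) ^ ((m i : Fin _) : ℕ) = 0 := by
    refine IsFractionRing.injective P K ?_
    rw [h, map_zero]
  have h2 := congrArg (fun q : P => Polynomial.coeff q ((m i₀ : Fin _) : ℕ)) h1
  simp only [Polynomial.coeff_zero] at h2
  rw [Polynomial.finsetSum_coeff] at h2
  simp only [Polynomial.coeff_X_pow] at h2
  rw [Finset.sum_eq_single i₀] at h2
  · simp at h2
  · intro j _ hj
    rw [if_neg]
    intro h3
    exact hj (m.injective (Fin.ext h3)).symm
  · intro h3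
    exact absurd hi₀ h3

/-- No two torsion in the homology of Mathlib gives no two torsion for concrete cycles. -/
theorem no_two_torsion {X : Type} [TopologicalSpace X]
    (hno : ∀ i : ℕ, ∀ g : ((((AlgebraicTopology.singularHomologyFunctor (ModuleCat.{0} ℤ) i).obj
            (ModuleCat.of ℤ ℤ)).obj (TopCat.of X) : ModuleCat.{0} ℤ) : Type), addOrderOf g ≠ 2)
    (n : ℕ) (c : Ch ℤ X) (hc : c ∈ cyc ℤ n (Set.univ : Set X))
    (h2 : (2 : ℤ) • c ∈ bds ℤ n (Set.univ : Set X)) : c ∈ bds ℤ n (Set.univ : Set X) := by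
  obtain ⟨φ⟩ := exists_homology_equiv ℤ X n
  by_contra hcb
  let y : Hom ℤ X n := ⟨(bds ℤ n (Set.univ : Set X)).mkQ c, ⟨c, hc, rfl⟩⟩
  have hy0 : y ≠ 0 := by
    intro h
    apply hcb
    exact (Submodule.Quotient.mk_eq_zero _).1 (congrArg Subtype.val h)
  have hy2 : y + y = 0 := by
    refine Subtype.ext ?_
    change (bds ℤ n (Set.univ : Set X)).mkQ c + (bds ℤ n (Set.univ : Set X)).mkQ c = 0
    rw [← map_add, ← two_smul ℤ c]
    exact (Submodule.Quotient.mk_eq_zero _).2 h2
  have : Fact (Nat.Prime 2) := ⟨Nat.prime_two⟩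
  refine hno n (φ.symm y) (addOrderOf_eq_prime ?_ ?_)
  · rw [two_nsmul, ← map_add, hy2, map_zero]
  · intro h3
    apply hy0
    rw [← φ.apply_symm_apply y, h3, map_zero]

/-- The theorem, given the structure of the symmetries at antipodal points. -/
theorem main_of_structure (d : ℕ) (M : Type) [MetricSpace M]
    [ChartedSpace (EuclideanSpace ℝ (Fin d)) M] [CompactSpace M]
    (s : M → M → M) (hiso : ∀ x, Isometry (s x)) (A : Finset M)
    (hA : ∀ x ∈ A, ∀ y ∈ A, s x y = y)
    (hinv : ∀ x z, s x (s x z) = z)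
    (hcomm : ∀ x ∈ A, ∀ y ∈ A, ∀ z, s x (s y z) = s y (s x z))
    (hchart : ∀ x ∈ A, ∃ (e : OpenPartialHomeomorph M (Fin d → ℝ)) (ε : M → Fin d → ℝ),
      x ∈ e.source ∧ e x = 0 ∧ Convex ℝ e.target ∧ (∀ y ∈ A, ∀ j, ε y j = 1 ∨ ε y j = -1) ∧
      (∀ y ∈ A, ∀ z ∈ e.source, s y z ∈ e.source ∧ e (s y z) = fun j => ε y j * e z j) ∧
      ∀ j, ε x j = -1)
    (hlt : (∑ i ∈ Finset.range (d + 1),
        Module.finrank ℝ
          ((((AlgebraicTopology.singularHomologyFunctor (ModuleCat.{0} ℝ) i).obj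
            (ModuleCat.of ℝ ℝ)).obj (TopCat.of M) : ModuleCat.{0} ℝ) : Type)) < A.card) :
    ∃ i : ℕ, ∃ g : ((((AlgebraicTopology.singularHomologyFunctor (ModuleCat.{0} ℤ) i).obj
            (ModuleCat.of ℤ ℤ)).obj (TopCat.of M) : ModuleCat.{0} ℤ) : Type),
      addOrderOf g = 2 := by
  by_contra hcon
  push Not at hcon
  have hno := no_two_torsion hcon
  let ι : Type := {x // x ∈ A}
  let g : ι → C(M, M) := fun x => ⟨s x.1, (hiso x.1).continuous⟩
  obtain ⟨K, instK, instC, α, hα⟩ := exists_indep ι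
  have hg : ∀ i x, g i (g i x) = x := fun i x => hinv i.1 x
  have hc : ∀ i j x, g i (g j x) = g j (g i x) := fun i j x => hcomm i.1 i.2 j.1 j.2 x
  have hA' : ∀ a ∈ A, ∀ i, g i a = a := fun a ha i => hA i.1 i.2 a ha
  have hisol : ∀ a ∈ A, ∃ O : Set M, IsOpen O ∧ a ∈ O ∧ ∀ z ∈ O, (∀ i, g i z = z) → z = a := by
    intro a ha
    obtain ⟨e, ε, hae, hea, -, -, hact, hneg⟩ := hchart a ha
    refine ⟨e.source, e.open_source, hae, ?_⟩
    intro z hz hfix
    refine e.injOn hz hae ?_
    rw [hea]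
    have h1 := (hact a ha z hz).2
    have h2 : s a z = z := hfix ⟨a, ha⟩
    rw [h2] at h1
    funext j
    have h3 := congrFun h1 j
    rw [hneg j] at h3
    simp only [Pi.zero_apply]
    linarith
  have hN : ∀ a ∈ A, ∀ c ∈ chIn K (d + 1) (Set.univ : Set M), bd K (tw K g α c) = 0 →
      ∃ e ∈ chIn K (d + 2) (Set.univ : Set M), ∃ f ∈ chIn K (d + 1) ({a}ᶜ : Set M),
        tw K g α c = bd K (tw K g α e) + tw K g α f := by
    intro a ha c hc hbd
    obtain ⟨e, ε, hae, hea, hconv, hε, hact, -⟩ := hchart a ha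
    exact local_vanishing K g α hg a e hae hea hconv (fun i => ε i.1) (fun i j => hε i.1 i.2 j)
      (fun i z hz => hact i.1 i.2 z hz) c hc hbd
  have h1 := card_le_sum_rank K g α hα hg hc A hA' hisol d hN
  have hfin : ∀ n, Module.Finite ℝ (Hom ℝ M n) := fun n =>
    hom_finite ℝ (fun U hU x hx => exists_good_nhd (E := EuclideanSpace ℝ (Fin d)) ℝ U hU x hx) n
  have h2 : ∀ n, Module.rank K (Hom K M n) ≤ ((Module.finrank ℝ
      ((((AlgebraicTopology.singularHomologyFunctor (ModuleCat.{0} ℝ) n).obj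
            (ModuleCat.of ℝ ℝ)).obj (TopCat.of M) : ModuleCat.{0} ℝ) : Type) : ℕ) : Cardinal) := by
    intro n
    have := hfin n
    obtain ⟨φ⟩ := exists_homology_equiv ℝ M n
    rw [φ.finrank_eq, Module.finrank_eq_rank]
    exact rank_le_of_no_two_torsion hno K n
  have h3 : (A.card : Cardinal) ≤ ((∑ i ∈ Finset.range (d + 1),
        Module.finrank ℝ
          ((((AlgebraicTopology.singularHomologyFunctor (ModuleCat.{0} ℝ) i).obj
            (ModuleCat.of ℝ ℝ)).obj (TopCat.of M) : ModuleCat.{0} ℝ) : Type) : ℕ) : Cardinal) := by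
    refine h1.trans ?_
    rw [Nat.cast_sum]
    exact Finset.sum_le_sum fun n _ => h2 n
  have h4 := Nat.cast_le.1 h3
  exact absurd hlt (not_lt.2 h4)

end Pool.Agent.W_MP_6d5819_gt
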