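import Pool.Agent.W_MP_6d5819_gt.Defs

set_option autoImplicit false

/-! Cone operators on singular chains of contractible open sets. -/

open scoped Topology
open Topology

namespace Pool.Agent.W_MP_6d5819_gt

variable (R : Type) [CommRing R] {X Y : Type} [TopologicalSpace X] [TopologicalSpace Y]

/-- A contraction of `U` onto locally constant points. -/
structure ConeData (U : Set X) where
  /-- the homotopy -/
  H : X × ℝ → X
  cont : ContinuousOn H (U ×ˢ Set.Icc (0 : ℝ) 1)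
  maps : ∀ z ∈ U, ∀ τ ∈ Set.Icc (0 : ℝ) 1, H (z, τ) ∈ U
  zero : ∀ z ∈ U, H (z, 0) = z
  one : ∀ z ∈ U, ∀ᶠ w in 𝓝[U] z, H (w, 1) = H (z, 1)

/-- The join map. -/
noncomputable def joinMap (n : ℕ) : C(Simp (n + 1) × Set.Icc (0 : ℝ) 1, Simp (n + 2)) where
  toFun p := ⟨Fin.cons (p.2 : ℝ) (fun i => (1 - (p.2 : ℝ)) * p.1 i), by
    refine ⟨?_, ?_⟩
    · intro i
      refine Fin.cases ?_ (fun i => ?_) i
      · exact p.2.2.1
      · exact mul_nonneg (sub_nonneg.2 p.2.2.2) (p.1.2.1 i)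
    · rw [Fin.sum_univ_succ]
      simp only [Fin.cons_zero, Fin.cons_succ]
      rw [← Finset.mul_sum]
      have h : ∑ i, p.1 i = 1 := p.1.2.2
      rw [h]
      ring⟩
  continuous_toFun := by
    refine Continuous.subtype_mk ?_ _
    refine continuous_pi fun j => ?_
    refine Fin.cases ?_ (fun j => ?_) j
    · simp only [Fin.cons_zero]
      exact continuous_subtype_val.comp continuous_snd
    · simp only [Fin.cons_succ]
      refine Continuous.mul ?_ ?_
      · exact continuous_const.sub (continuous_subtype_val.comp continuous_snd)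
      · exact (continuous_apply j).comp (continuous_subtype_val.comp continuous_fst)

theorem joinMap_zero {n : ℕ} (u : Simp (n + 1)) (τ : Set.Icc (0 : ℝ) 1) :
    joinMap n (u, τ) 0 = τ := rfl

theorem joinMap_succ {n : ℕ} (u : Simp (n + 1)) (τ : Set.Icc (0 : ℝ) 1) (i : Fin (n + 1)) :
    joinMap n (u, τ) i.succ = (1 - (τ : ℝ)) * u i := rfl

theorem joinMap_surjective (n : ℕ) : Function.Surjective (joinMap n) := by
  intro s
  have hs0 : 0 ≤ s 0 := s.2.1 0
  have hsum : s 0 + ∑ i : Fin (n + 1), s i.succ = 1 := by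
    rw [← Fin.sum_univ_succ]
    exact s.2.2
  have hnn : ∀ i : Fin (n + 1), 0 ≤ s i.succ := fun i => s.2.1 _
  have hs1 : s 0 ≤ 1 := by
    have := Finset.sum_nonneg (s := (Finset.univ : Finset (Fin (n + 1)))) fun i _ => hnn i
    linarith
  by_cases h : s 0 = 1
  · refine ⟨(vtx 0, ⟨s 0, hs0, hs1⟩), ?_⟩
    ext j
    refine Fin.cases ?_ (fun j => ?_) j
    · rw [joinMap_zero]
    · rw [joinMap_succ]
      simp only [h, sub_self, zero_mul]
      have h2 : ∑ i : Fin (n + 1), s i.succ = 0 := by linarith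
      exact ((Finset.sum_eq_zero_iff_of_nonneg fun i _ => hnn i).1 h2 j (Finset.mem_univ _)).symm
  · have hlt : 0 < 1 - s 0 := by
      rcases lt_or_eq_of_le hs1 with h' | h'
      · linarith
      · exact absurd h' h
    refine ⟨(⟨fun i => (1 - s 0)⁻¹ * s i.succ, ?_, ?_⟩, ⟨s 0, hs0, hs1⟩), ?_⟩
    · intro i
      exact mul_nonneg (inv_nonneg.2 hlt.le) (hnn i)
    · rw [← Finset.mul_sum]
      have h3 : ∑ i : Fin (n + 1), s i.succ = 1 - s 0 := by linarith
      rw [h3, inv_mul_cancel₀ hlt.ne']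
    · ext j
      refine Fin.cases ?_ (fun j => ?_) j
      · rw [joinMap_zero]
      · rw [joinMap_succ]
        change (1 - s 0) * ((1 - s 0)⁻¹ * s j.succ) = _
        rw [mul_inv_cancel_left₀ hlt.ne']

theorem joinMap_isQuotientMap (n : ℕ) : IsQuotientMap (joinMap n) :=
  ((joinMap n).continuous.isClosedMap).isQuotientMap (joinMap n).continuous (joinMap_surjective n)

namespace ConeData

variable {U : Set X} (D : ConeData U)

/-- The map from which the cone descends. -/
noncomputable def pre {n : ℕ} (σ : C(Simp (n + 1), X)) (hσ : Set.range σ ⊆ U) :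
    C(Simp (n + 1) × Set.Icc (0 : ℝ) 1, X) where
  toFun p := D.H (σ p.1, (p.2 : ℝ))
  continuous_toFun := by
    refine D.cont.comp_continuous ?_ ?_
    · exact (σ.continuous.comp continuous_fst).prodMk (continuous_subtype_val.comp continuous_snd)
    · intro p
      exact ⟨hσ ⟨_, rfl⟩, p.2.2⟩

theorem end_const {n : ℕ} (σ : C(Simp (n + 1), X)) (hσ : Set.range σ ⊆ U) (u v : Simp (n + 1)) :
    D.H (σ u, 1) = D.H (σ v, 1) := by
  have h : IsLocallyConstant (fun u : Simp (n + 1) => D.H (σ u, 1)) := by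
    rw [IsLocallyConstant.iff_eventually_eq]
    intro x
    have h1 := D.one (σ x) (hσ ⟨x, rfl⟩)
    have h2 : Filter.Tendsto σ (𝓝 x) (𝓝[U] (σ x)) := by
      rw [tendsto_nhdsWithin_iff]
      exact ⟨σ.continuous.continuousAt, Filter.Eventually.of_forall fun y => hσ ⟨y, rfl⟩⟩
    exact h2.eventually h1
  exact h.apply_eq_of_preconnectedSpace u v

theorem pre_factors {n : ℕ} (σ : C(Simp (n + 1), X)) (hσ : Set.range σ ⊆ U) :
    Function.FactorsThrough (D.pre σ hσ) (joinMap n) := by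
  rintro ⟨u, τ⟩ ⟨v, τ'⟩ h
  have h0 : τ = τ' := by
    have := congrArg (fun s : Simp (n + 2) => s 0) h
    exact Subtype.ext this
  subst h0
  change D.H (σ u, (τ : ℝ)) = D.H (σ v, (τ : ℝ))
  by_cases h1 : (τ : ℝ) = 1
  · rw [h1]
    exact D.end_const σ hσ u v
  · have h2 : u = v := by
      ext i
      have := congrArg (fun s : Simp (n + 2) => s i.succ) h
      simp only [joinMap_succ] at this
      exact mul_left_cancel₀ (sub_ne_zero.2 (Ne.symm h1)) this
    rw [h2]

/-- The cone over a singular simplex in `U`. -/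
noncomputable def cone {n : ℕ} (σ : C(Simp (n + 1), X)) (hσ : Set.range σ ⊆ U) :
    C(Simp (n + 2), X) :=
  (joinMap_isQuotientMap n).lift (D.pre σ hσ) (D.pre_factors σ hσ)

theorem cone_join {n : ℕ} (σ : C(Simp (n + 1), X)) (hσ : Set.range σ ⊆ U)
    (u : Simp (n + 1)) (τ : Set.Icc (0 : ℝ) 1) :
    D.cone σ hσ (joinMap n (u, τ)) = D.H (σ u, (τ : ℝ)) := by
  have := (joinMap_isQuotientMap n).lift_comp (D.pre σ hσ) (D.pre_factors σ hσ)
  exact congrArg (fun f : C(Simp (n + 1) × Set.Icc (0 : ℝ) 1, X) => f (u, τ)) this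

theorem range_cone {n : ℕ} (σ : C(Simp (n + 1), X)) (hσ : Set.range σ ⊆ U) :
    Set.range (D.cone σ hσ) ⊆ U := by
  rintro _ ⟨s, rfl⟩
  obtain ⟨⟨u, τ⟩, rfl⟩ := joinMap_surjective n s
  rw [cone_join]
  exact D.maps _ (hσ ⟨u, rfl⟩) _ τ.2

theorem face_cone_zero {n : ℕ} (σ : C(Simp (n + 1), X)) (hσ : Set.range σ ⊆ U) :
    face (D.cone σ hσ) 0 = σ := by
  ext s
  have h : aff (fun j : Fin (n + 1) => (vtx ((0 : Fin (n + 2)).succAbove j) : Simp (n + 2))) s =
      joinMap n (s, ⟨0, le_rfl, zero_le_one⟩) := by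
    ext j
    refine Fin.cases ?_ (fun j => ?_) j
    · rw [joinMap_zero, aff_apply]
      simp
    · rw [joinMap_succ, aff_apply]
      simp [Pi.single_apply]
  change D.cone σ hσ (aff _ s) = σ s
  rw [h, cone_join]
  exact D.zero _ (hσ ⟨s, rfl⟩)

theorem face_cone_succ {n : ℕ} (σ : C(Simp (n + 2), X)) (hσ : Set.range σ ⊆ U) (i : Fin (n + 2)) :
    face (D.cone σ hσ) i.succ = D.cone (face σ i) ((range_face_subset σ i).trans hσ) := by
  ext s
  obtain ⟨⟨u, τ⟩, rfl⟩ := joinMap_surjective n s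
  rw [cone_join]
  have h : aff (fun j : Fin (n + 2) => (vtx (i.succ.succAbove j) : Simp (n + 3)))
      (joinMap n (u, τ)) = joinMap (n + 1) (aff (fun j => vtx (i.succAbove j)) u, τ) := by
    ext j
    refine Fin.cases ?_ (fun j => ?_) j
    · rw [joinMap_zero, aff_apply, Fin.sum_univ_succ]
      simp [joinMap_zero]
    · rw [joinMap_succ, aff_apply, Fin.sum_univ_succ]
      simp only [Fin.succ_succAbove_zero, Fin.succ_succAbove_succ, vtx_apply, joinMap_succ,
        joinMap_zero, Fin.succ_ne_zero, if_false, mul_zero, zero_add, Fin.succ_inj, aff_apply,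
        Finset.mul_sum]
      refine Finset.sum_congr rfl fun a _ => ?_
      ring
  change D.cone σ hσ (aff _ (joinMap n (u, τ))) = _
  rw [h, cone_join]
  rfl

theorem face_cone_one {σ : C(Simp 1, X)} (hσ : Set.range σ ⊆ U) :
    face (D.cone σ hσ) 1 = ContinuousMap.const _ (D.H (σ (vtx 0), 1)) := by
  ext s
  have h : aff (fun j : Fin 1 => (vtx ((1 : Fin 2).succAbove j) : Simp 2)) s =
      joinMap 0 (vtx 0, ⟨1, zero_le_one, le_rfl⟩) := by
    have hs : s = vtx 0 := Subsingleton.elim _ _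
    rw [hs, aff_vtx]
    ext j
    refine Fin.cases ?_ (fun j => ?_) j
    · rw [joinMap_zero]
      simp
    · rw [joinMap_succ]
      simp
  change D.cone σ hσ (aff _ s) = _
  rw [h, cone_join]
  rfl

open Classical in
/-- The cone operator on chains. -/
noncomputable def op : Ch R X →ₗ[R] Ch R X :=
  Finsupp.linearCombination R (fun s : Sing X =>
    if hs : Set.range s.2 ⊆ U then Finsupp.single (⟨s.1 + 1, D.cone s.2 hs⟩ : Sing X) (1 : R)
    else 0)

theorem op_single {n : ℕ} (σ : C(Simp (n + 1), X)) (hσ : Set.range σ ⊆ U) (r : R) :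
    D.op R (Finsupp.single (⟨n, σ⟩ : Sing X) r) =
      Finsupp.single (⟨n + 1, D.cone σ hσ⟩ : Sing X) r := by
  simp [op, hσ]

theorem op_single_not {n : ℕ} (σ : C(Simp (n + 1), X)) (hσ : ¬ Set.range σ ⊆ U) (r : R) :
    D.op R (Finsupp.single (⟨n, σ⟩ : Sing X) r) = 0 := by
  simp [op, hσ]

theorem op_mem {n : ℕ} {c : Ch R X} (hc : c ∈ chIn R n U) : D.op R c ∈ chIn R (n + 1) U := by
  refine chIn_induction R (P := fun c => D.op R c ∈ chIn R (n + 1) U) (by simp)
    (fun a b _ _ ha hb => by rw [map_add]; exact Submodule.add_mem _ ha hb) ?_ c hc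
  intro σ hσ r
  rw [D.op_single R σ hσ]
  exact single_mem_chIn R _ (D.range_cone σ hσ) r

theorem bd_op {n : ℕ} {c : Ch R X} (hc : c ∈ chIn R (n + 1) U) :
    bd R (D.op R c) + D.op R (bd R c) = c := by
  refine chIn_induction R (P := fun c => bd R (D.op R c) + D.op R (bd R c) = c) (by simp)
    (fun a b _ _ ha hb => ?_) ?_ c hc
  · simp only [map_add]
    rw [show ∀ p q r s : Ch R X, p + q + (r + s) = (p + r) + (q + s) by intros; abel, ha, hb]
  · intro σ hσ r
    rw [D.op_single R σ hσ, bd_single_succ, bd_single_succ, map_smul, map_sum, ← smul_add,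
      Fin.sum_univ_succ]
    simp_rw [D.op_single R _ ((range_face_subset σ _).trans hσ), D.face_cone_succ]
    rw [D.face_cone_zero, add_assoc, ← Finset.sum_add_distrib]
    have h : ∀ i : Fin (n + 2), (Finsupp.single (⟨n + 1, D.cone (face σ i)
          ((range_face_subset σ i).trans hσ)⟩ : Sing X) ((-1 : R) ^ (i.succ : ℕ)) +
        Finsupp.single (⟨n + 1, D.cone (face σ i) ((range_face_subset σ i).trans hσ)⟩ : Sing X)
          ((-1 : R) ^ (i : ℕ))) = 0 := by
      intro i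
      rw [← Finsupp.single_add]
      simp [pow_succ]
    rw [Finset.sum_eq_zero fun i _ => h i]
    simp

theorem bd_op_zero {σ : C(Simp 1, X)} (hσ : Set.range σ ⊆ U) (r : R) :
    bd R (D.op R (Finsupp.single ⟨0, σ⟩ r)) = Finsupp.single (⟨0, σ⟩ : Sing X) r -
      Finsupp.single (⟨0, ContinuousMap.const _ (D.H (σ (vtx 0), 1))⟩ : Sing X) r := by
  rw [D.op_single R σ hσ, bd_single_succ, Fin.sum_univ_two, D.face_cone_zero, D.face_cone_one]
  simp [sub_eq_add_neg]

theorem op_push (g : C(X, X)) (hg : ∀ z, z ∈ U ↔ g z ∈ U)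
    (hH : ∀ z ∈ U, ∀ τ ∈ Set.Icc (0 : ℝ) 1, D.H (g z, τ) = g (D.H (z, τ))) (c : Ch R X) :
    D.op R (push R g c) = push R g (D.op R c) := by
  induction c using Finsupp.induction_linear with
  | zero => simp
  | add a b ha hb => simp only [map_add, ha, hb]
  | single s r =>
    obtain ⟨n, σ⟩ := s
    rw [push_single, pushSimp]
    by_cases hσ : Set.range σ ⊆ U
    · have hgσ : Set.range (g.comp σ) ⊆ U := by
        rintro _ ⟨s, rfl⟩
        exact (hg _).1 (hσ ⟨s, rfl⟩)
      rw [D.op_single R _ hgσ, D.op_single R _ hσ, push_single, pushSimp]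
      congr 2
      ext s
      obtain ⟨⟨u, τ⟩, rfl⟩ := joinMap_surjective n s
      rw [ContinuousMap.comp_apply, cone_join, cone_join]
      exact hH _ (hσ ⟨u, rfl⟩) _ τ.2
    · have hgσ : ¬ Set.range (g.comp σ) ⊆ U := by
        intro h
        apply hσ
        rintro _ ⟨s, rfl⟩
        exact (hg _).2 (h ⟨s, rfl⟩)
      rw [D.op_single_not R _ hgσ, D.op_single_not R _ hσ, map_zero]

end ConeData

/-- Existence of cone operators. -/
theorem exists_cone {U : Set X} (H : X × ℝ → X)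
    (hH : ContinuousOn H (U ×ˢ Set.Icc (0 : ℝ) 1))
    (hU : ∀ z ∈ U, ∀ τ ∈ Set.Icc (0 : ℝ) 1, H (z, τ) ∈ U)
    (h0 : ∀ z ∈ U, H (z, 0) = z)
    (h1 : ∀ z ∈ U, ∀ᶠ w in 𝓝[U] z, H (w, 1) = H (z, 1)) :
    ∃ h : Ch R X →ₗ[R] Ch R X,
      (∀ n c, c ∈ chIn R n U → h c ∈ chIn R (n + 1) U) ∧
      (∀ n c, c ∈ chIn R (n + 1) U → bd R (h c) + h (bd R c) = c) ∧
      (∀ σ : C(Simp 1, X), Set.range σ ⊆ U → ∀ r : R,
        bd R (h (Finsupp.single ⟨0, σ⟩ r)) = Finsupp.single (⟨0, σ⟩ : Sing X) r -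
          Finsupp.single (⟨0, ContinuousMap.const _ (H (σ (vtx 0), 1))⟩ : Sing X) r) ∧
      (∀ g : C(X, X), (∀ z, z ∈ U ↔ g z ∈ U) →
        (∀ z ∈ U, ∀ τ ∈ Set.Icc (0 : ℝ) 1, H (g z, τ) = g (H (z, τ))) →
        ∀ c, h (push R g c) = push R g (h c)) := by
  let D : ConeData U := ⟨H, hH, hU, h0, h1⟩
  exact ⟨D.op R, fun n c hc => D.op_mem R hc, fun n c hc => D.bd_op R hc,
    fun σ hσ r => D.bd_op_zero R hσ r, fun g hg hgH c => D.op_push R g hg hgH c⟩

end Pool.Agent.W_MP_6d5819_gt
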