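import Pool.Agent.W_MP_6d5819_gt.Defs

set_option autoImplicit false

/-! Symmetries at antipodal points: commuting involutions and a diagonal chart, assuming the
existence of charts in which isometries fixing the centre are linear. -/

open scoped Manifold ContDiff Topology
open Bundle Filter

namespace Pool.Agent.W_MP_6d5819_gt

/-- A linear map which is the identity near a point is the identity. -/
theorem linearMap_eq_of_eventually {E : Type} [NormedAddCommGroup E] [NormedSpace ℝ E]
    (L : E →ₗ[ℝ] E) (v₀ : E) (h : ∀ᶠ v in 𝓝 v₀, L v = v) (u : E) : L u = u := by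
  have h1 : Tendsto (fun t : ℝ => v₀ + t • u) (𝓝 0) (𝓝 v₀) := by
    have : Continuous (fun t : ℝ => v₀ + t • u) := by fun_prop
    simpa using this.tendsto 0
  have h2 : ∀ᶠ t in 𝓝 (0 : ℝ), L (v₀ + t • u) = v₀ + t • u := h1.eventually h
  have h3 : ∀ᶠ t in 𝓝[≠] (0 : ℝ), L (v₀ + t • u) = v₀ + t • u :=
    h2.filter_mono nhdsWithin_le_nhds
  obtain ⟨t, ht, ht0⟩ := (h3.and self_mem_nhdsWithin).exists
  have h0 : L v₀ = v₀ := h.self_of_nhds
  rw [map_add, map_smul, h0] at ht
  exact smul_right_injective E ht0 (add_left_cancel ht)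

/-- Common eigenvectors of commuting linear involutions span. -/
theorem span_common_eigenvectors {E : Type} [AddCommGroup E] [Module ℝ E] {ι : Type}
    [DecidableEq ι] (A : Finset ι) (L : ι → E →ₗ[ℝ] E)
    (h1 : ∀ i ∈ A, ∀ v, L i (L i v) = v)
    (h2 : ∀ i ∈ A, ∀ j ∈ A, ∀ v, L i (L j v) = L j (L i v)) (B : Finset ι) (hB : B ⊆ A) :
    Submodule.span ℝ {v : E | ∀ i ∈ B, L i v = v ∨ L i v = -v} = ⊤ := by
  induction B using Finset.induction_on with
  | empty => simp
  | insert i B hi ih =>
    have ih' := ih ((Finset.subset_insert i B).trans hB)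
    have hiA : i ∈ A := hB (Finset.mem_insert_self i B)
    rw [eq_top_iff, ← ih', Submodule.span_le]
    intro v hv
    have hp : v + L i v ∈ Submodule.span ℝ {v : E | ∀ j ∈ insert i B, L j v = v ∨ L j v = -v} := by
      apply Submodule.subset_span
      intro j hj
      rcases Finset.mem_insert.1 hj with rfl | hj
      · left
        rw [map_add, h1 j hiA, add_comm]
      · have hjA : j ∈ A := hB (Finset.mem_insert_of_mem hj)
        rcases hv j hj with h | h
        · left
          rw [map_add, h2 j hjA i hiA, h]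
        · right
          rw [map_add, h2 j hjA i hiA, h, map_neg, neg_add]
    have hm : v - L i v ∈ Submodule.span ℝ {v : E | ∀ j ∈ insert i B, L j v = v ∨ L j v = -v} := by
      apply Submodule.subset_span
      intro j hj
      rcases Finset.mem_insert.1 hj with rfl | hj
      · right
        rw [map_sub, h1 j hiA, neg_sub]
      · have hjA : j ∈ A := hB (Finset.mem_insert_of_mem hj)
        rcases hv j hj with h | h
        · left
          rw [map_sub, h2 j hjA i hiA, h]
        · right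
          rw [map_sub, h2 j hjA i hiA, h, map_neg]
          abel
    have : v = (1 / 2 : ℝ) • (v + L i v) + (1 / 2 : ℝ) • (v - L i v) := by
      rw [← smul_add, add_add_sub_cancel, ← two_smul ℝ v, smul_smul]
      norm_num
    rw [this]
    exact Submodule.add_mem _ (Submodule.smul_mem _ _ hp) (Submodule.smul_mem _ _ hm)

/-- Commuting linear involutions are simultaneously diagonalizable. -/
theorem exists_common_basis {d : ℕ} {ι : Type} (A : Finset ι)
    (L : ι → EuclideanSpace ℝ (Fin d) →ₗ[ℝ] EuclideanSpace ℝ (Fin d))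
    (h1 : ∀ i ∈ A, ∀ v, L i (L i v) = v)
    (h2 : ∀ i ∈ A, ∀ j ∈ A, ∀ v, L i (L j v) = L j (L i v)) :
    ∃ b : Module.Basis (Fin d) ℝ (EuclideanSpace ℝ (Fin d)),
      ∀ i ∈ A, ∀ k, L i (b k) = b k ∨ L i (b k) = - b k := by
  classical
  have hspan := span_common_eigenvectors A L h1 h2 A subset_rfl
  let b₀ := Module.Basis.ofSpan hspan.ge
  have hb₀ : ∀ k, b₀ k ∈ {v | ∀ i ∈ A, L i v = v ∨ L i v = -v} := fun k =>
    Module.Basis.ofSpan_subset hspan.ge (Set.mem_range_self k)
  have : Fintype ((linearIndepOn_empty ℝ (id : EuclideanSpace ℝ (Fin d) → _)).extend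
      (Set.empty_subset {v | ∀ i ∈ A, L i v = v ∨ L i v = -v})) :=
    FiniteDimensional.fintypeBasisIndex b₀
  have hcard : Fintype.card ((linearIndepOn_empty ℝ (id : EuclideanSpace ℝ (Fin d) → _)).extend
      (Set.empty_subset {v | ∀ i ∈ A, L i v = v ∨ L i v = -v})) = d := by
    rw [← Module.finrank_eq_card_basis b₀]
    simp
  let σ := Fintype.equivFinOfCardEq hcard
  refine ⟨b₀.reindex σ, fun i hi k => ?_⟩
  rw [Module.Basis.reindex_apply]
  exact hb₀ _ i hi

/-- An isometry of a connected metric space with linearizing charts which is the identity near a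
point is the identity. -/
theorem isometry_eq_id {d : ℕ} {M : Type} [MetricSpace M] [ConnectedSpace M]
    (hlog : ∀ x₀ : M, ∃ (e : OpenPartialHomeomorph M (EuclideanSpace ℝ (Fin d))) (r : ℝ), 0 < r ∧
      e.source = Metric.ball x₀ r ∧ ∀ g : M → M, Isometry g → g x₀ = x₀ →
        ∃ L : EuclideanSpace ℝ (Fin d) →ₗ[ℝ] EuclideanSpace ℝ (Fin d),
          ∀ z ∈ e.source, e (g z) = L (e z))
    (g : M → M) (hg : Isometry g) (x : M) (hx : ∀ᶠ z in 𝓝 x, g z = z) (z : M) : g z = z := by
  have hclosed : IsClosed {z : M | ∀ᶠ w in 𝓝 z, g w = w} := by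
    rw [← closure_subset_iff_isClosed]
    intro z hz
    have hfix : g z = z := by
      have hc : IsClosed {w : M | g w = w} := isClosed_eq hg.continuous continuous_id
      exact (closure_minimal (fun w hw => hw.self_of_nhds) hc) hz
    obtain ⟨e, r, hr, hsrc, hlin⟩ := hlog z
    obtain ⟨L, hL⟩ := hlin g hg hfix
    have hzsrc : e.source ∈ 𝓝 z := by
      rw [hsrc]
      exact Metric.ball_mem_nhds z hr
    obtain ⟨w, hwsrc, hwS⟩ := mem_closure_iff_nhds.1 hz e.source hzsrc
    have hev : ∀ᶠ v in 𝓝 (e w), L v = v := by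
      have h1 : Tendsto e.symm (𝓝 (e w)) (𝓝 w) := e.tendsto_symm hwsrc
      have h2 : ∀ᶠ v in 𝓝 (e w), g (e.symm v) = e.symm v := h1.eventually hwS
      have h3 : ∀ᶠ v in 𝓝 (e w), v ∈ e.target :=
        e.open_target.mem_nhds (e.map_source hwsrc)
      filter_upwards [h2, h3] with v hv2 hv3
      have h4 := hL (e.symm v) (e.map_target hv3)
      rw [hv2, e.right_inv hv3] at h4
      exact h4.symm
    have hid : ∀ u, L u = u := linearMap_eq_of_eventually L (e w) hev
    filter_upwards [hzsrc] with w' hw'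
    have hw'2 : g w' ∈ e.source := by
      rw [hsrc, Metric.mem_ball] at hw' ⊢
      calc dist (g w') z = dist (g w') (g z) := by rw [hfix]
        _ = dist w' z := hg.dist_eq _ _
        _ < r := hw'
    have := hL w' hw'
    rw [hid] at this
    exact e.injOn hw'2 hw' this
  have hopen : IsOpen {z : M | ∀ᶠ w in 𝓝 z, g w = w} := isOpen_setOfPred_eventually_nhds
  have huniv : {z : M | ∀ᶠ w in 𝓝 z, g w = w} = Set.univ :=
    IsClopen.eq_univ ⟨hclosed, hopen⟩ ⟨x, hx⟩
  have hz : z ∈ {z : M | ∀ᶠ w in 𝓝 z, g w = w} := by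
    rw [huniv]
    trivial
  exact hz.self_of_nhds

/-- Two linear maps with the same values on a ball are equal. -/
theorem linearMap_apply_eq_of_ball {E : Type} [NormedAddCommGroup E] [NormedSpace ℝ E]
    (L : E →ₗ[ℝ] E) {r : ℝ} (hr : 0 < r) (h : ∀ v ∈ Metric.ball (0 : E) r, L v = v) (u : E) :
    L u = u :=
  linearMap_eq_of_eventually L 0 (Filter.eventually_of_mem (Metric.ball_mem_nhds 0 hr) h) u

theorem antipodal_structure_aux (d : ℕ) (M : Type) [MetricSpace M] [ConnectedSpace M]
    (s : M → M → M) (hs : ∀ x : M, Isometry (s x) ∧ s x x = x)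
    (hlog : ∀ x₀ : M, ∃ (e : OpenPartialHomeomorph M (EuclideanSpace ℝ (Fin d))) (r : ℝ), 0 < r ∧
      e.source = Metric.ball x₀ r ∧ e.target = Metric.ball 0 r ∧ e x₀ = 0 ∧
      (∀ g : M → M, Isometry g → g x₀ = x₀ →
        ∃ L : EuclideanSpace ℝ (Fin d) →ₗ[ℝ] EuclideanSpace ℝ (Fin d),
          ∀ z ∈ e.source, e (g z) = L (e z)) ∧
      ∀ z ∈ e.source, e (s x₀ z) = - e z)
    (A : Finset M) (hA : ∀ x ∈ A, ∀ y ∈ A, s x y = y) :
    (∀ x z, s x (s x z) = z) ∧
    (∀ x ∈ A, ∀ y ∈ A, ∀ z, s x (s y z) = s y (s x z)) ∧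
    (∀ x ∈ A, ∃ (e : OpenPartialHomeomorph M (Fin d → ℝ)) (ε : M → Fin d → ℝ),
      x ∈ e.source ∧ e x = 0 ∧ Convex ℝ e.target ∧ (∀ y ∈ A, ∀ j, ε y j = 1 ∨ ε y j = -1) ∧
      (∀ y ∈ A, ∀ z ∈ e.source, s y z ∈ e.source ∧ e (s y z) = fun j => ε y j * e z j) ∧
      ∀ j, ε x j = -1) := by
  have hlog' : ∀ x₀ : M, ∃ (e : OpenPartialHomeomorph M (EuclideanSpace ℝ (Fin d))) (r : ℝ),
      0 < r ∧ e.source = Metric.ball x₀ r ∧ ∀ g : M → M, Isometry g → g x₀ = x₀ →
        ∃ L : EuclideanSpace ℝ (Fin d) →ₗ[ℝ] EuclideanSpace ℝ (Fin d),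
          ∀ z ∈ e.source, e (g z) = L (e z) := by
    intro x₀
    obtain ⟨e, r, hr, hsrc, -, -, hlin, -⟩ := hlog x₀
    exact ⟨e, r, hr, hsrc, hlin⟩
  have hball : ∀ (x₀ : M) (r : ℝ) (g : M → M), Isometry g → g x₀ = x₀ →
      ∀ z ∈ Metric.ball x₀ r, g z ∈ Metric.ball x₀ r := by
    intro x₀ r g hg hgx z hz
    rw [Metric.mem_ball] at hz ⊢
    calc dist (g z) x₀ = dist (g z) (g x₀) := by rw [hgx]
      _ = dist z x₀ := hg.dist_eq _ _
      _ < r := hz
  have hinv : ∀ x z, s x (s x z) = z := by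
    intro x
    obtain ⟨e, r, hr, hsrc, htgt, hex, hlin, hneg⟩ := hlog x
    refine isometry_eq_id hlog' (fun z => s x (s x z)) ((hs x).1.comp (hs x).1) x ?_
    have hxsrc : e.source ∈ 𝓝 x := by
      rw [hsrc]
      exact Metric.ball_mem_nhds x hr
    filter_upwards [hxsrc] with z hz
    have h1 : s x z ∈ e.source := by
      rw [hsrc] at hz ⊢
      exact hball x r (s x) (hs x).1 (hs x).2 z hz
    have h2 : s x (s x z) ∈ e.source := by
      rw [hsrc] at h1 ⊢
      exact hball x r (s x) (hs x).1 (hs x).2 _ h1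
    apply e.injOn h2 hz
    rw [hneg _ h1, hneg _ hz, neg_neg]
  have hcomm : ∀ x ∈ A, ∀ y ∈ A, ∀ z, s x (s y z) = s y (s x z) := by
    intro x hx y hy
    have hyx : s y x = x := hA y hy x hx
    obtain ⟨e, r, hr, hsrc, htgt, hex, hlin, hneg⟩ := hlog x
    obtain ⟨L, hL⟩ := hlin (s y) (hs y).1 hyx
    have hxsrc : e.source ∈ 𝓝 x := by
      rw [hsrc]
      exact Metric.ball_mem_nhds x hr
    have hsx : ∀ z ∈ e.source, s x z ∈ e.source := by
      intro z hz
      rw [hsrc] at hz ⊢
      exact hball x r (s x) (hs x).1 (hs x).2 z hz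
    have hsy : ∀ z ∈ e.source, s y z ∈ e.source := by
      intro z hz
      rw [hsrc] at hz ⊢
      exact hball x r (s y) (hs y).1 hyx z hz
    have key : ∀ z, s x (s y (s x (s y z))) = z := by
      refine isometry_eq_id hlog' (fun z => s x (s y (s x (s y z))))
        ((hs x).1.comp ((hs y).1.comp ((hs x).1.comp (hs y).1))) x ?_
      filter_upwards [hxsrc] with z hz
      have h1 := hsy z hz
      have h2 := hsx _ h1
      have h3 := hsy _ h2
      have h4 := hsx _ h3
      apply e.injOn h4 hz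
      rw [hneg _ h3, hL _ h2, hneg _ h1, hL _ hz, map_neg, neg_neg, ← hL _ hz, ← hL _ h1, hinv]
    intro z
    have h1 := congrArg (s x) (key z)
    rw [hinv] at h1
    have h2 := congrArg (s y) h1
    rw [hinv] at h2
    exact h2
  refine ⟨hinv, hcomm, fun x hx => ?_⟩
  classical
  obtain ⟨e, r, hr, hsrc, htgt, hex, hlin, hneg⟩ := hlog x
  have hxsrc : x ∈ e.source := by
    rw [hsrc]
    exact Metric.mem_ball_self hr
  have hsy : ∀ y ∈ A, ∀ z ∈ e.source, s y z ∈ e.source := by
    intro y hy z hz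
    rw [hsrc] at hz ⊢
    exact hball x r (s y) (hs y).1 (hA y hy x hx) z hz
  have hLex : ∀ y : M, ∃ L : EuclideanSpace ℝ (Fin d) →ₗ[ℝ] EuclideanSpace ℝ (Fin d),
      y ∈ A → ∀ z ∈ e.source, e (s y z) = L (e z) := by
    intro y
    by_cases hy : y ∈ A
    · obtain ⟨L, hL⟩ := hlin (s y) (hs y).1 (hA y hy x hx)
      exact ⟨L, fun _ => hL⟩
    · exact ⟨0, fun h => absurd h hy⟩
  choose L hL using hLex
  have hL1 : ∀ y ∈ A, ∀ v, L y (L y v) = v := by
    intro y hy v
    refine linearMap_apply_eq_of_ball ((L y).comp (L y)) hr (fun u hu => ?_) v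
    have hut : u ∈ e.target := by rw [htgt]; exact hu
    have hz := e.map_target hut
    have h1 := hL y hy (e.symm u) hz
    have h2 := hL y hy _ (hsy y hy _ hz)
    rw [hinv, h1, e.right_inv hut] at h2
    exact h2.symm
  have hL2 : ∀ y ∈ A, ∀ y' ∈ A, ∀ v, L y (L y' v) = L y' (L y v) := by
    intro y hy y' hy' v
    have h0 : ∀ u, (L y).comp ((L y').comp ((L y).comp (L y'))) u = u := by
      refine linearMap_apply_eq_of_ball _ hr (fun u hu => ?_)
      have hut : u ∈ e.target := by rw [htgt]; exact hu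
      have hz := e.map_target hut
      have e1 := hL y' hy' (e.symm u) hz
      have e2 := hL y hy _ (hsy y' hy' _ hz)
      have e3 := hL y' hy' _ (hsy y hy _ (hsy y' hy' _ hz))
      have e4 := hL y hy _ (hsy y' hy' _ (hsy y hy _ (hsy y' hy' _ hz)))
      have e5 : s y (s y' (s y (s y' (e.symm u)))) = e.symm u := by
        rw [hcomm y hy y' hy' (e.symm u), hinv, hinv]
      rw [e3, e2, e1, e.right_inv hut, e5, e.right_inv hut] at e4
      exact e4.symm
    have h1 := h0 v
    simp only [LinearMap.comp_apply] at h1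
    have h2 := congrArg (L y) h1
    rw [hL1 y hy] at h2
    have h3 := congrArg (L y') h2
    rw [hL1 y' hy'] at h3
    exact h3
  obtain ⟨b, hb⟩ := exists_common_basis A L hL1 hL2
  let φ : EuclideanSpace ℝ (Fin d) ≃L[ℝ] (Fin d → ℝ) := b.equivFun.toContinuousLinearEquiv
  have hφ : ∀ v, φ v = b.equivFun v := fun v => rfl
  refine ⟨e.transHomeomorph φ.toHomeomorph, fun y j => if L y (b j) = b j then 1 else -1,
    ?_, ?_, ?_, ?_, ?_, ?_⟩
  · exact hxsrc
  · change φ (e x) = 0
    rw [hex, map_zero]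
  · have : (e.transHomeomorph φ.toHomeomorph).target = φ.symm ⁻¹' (Metric.ball 0 r) := by
      rw [← htgt]
      rfl
    rw [this]
    exact (convex_ball (0 : EuclideanSpace ℝ (Fin d)) r).linear_preimage
      (φ.symm : (Fin d → ℝ) →ₗ[ℝ] EuclideanSpace ℝ (Fin d))
  · intro y hy j
    simp only
    split_ifs
    · left; rfl
    · right; rfl
  · intro y hy z hz
    refine ⟨hsy y hy z hz, ?_⟩
    change φ (e (s y z)) = fun j => (if L y (b j) = b j then 1 else -1) * φ (e z) j
    have hz' : z ∈ e.source := hz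
    rw [hL y hy z hz', hφ, hφ]
    have hrep : e z = ∑ j, b.equivFun (e z) j • b j := (b.sum_equivFun (e z)).symm
    have hLrep : L y (e z) =
        ∑ j, ((if L y (b j) = b j then 1 else -1) * b.equivFun (e z) j) • b j := by
      conv_lhs => rw [hrep]
      rw [map_sum]
      refine Finset.sum_congr rfl (fun j _ => ?_)
      rw [map_smul]
      split_ifs with hcase
      · rw [hcase, one_mul]
      · rw [(hb y hy j).resolve_left hcase]
        simp
    rw [hLrep]
    exact b.equivFun_symm_apply _ ▸ (b.equivFun.apply_symm_apply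
      (fun j => (if L y (b j) = b j then 1 else -1) * b.equivFun (e z) j))
  · intro j
    have hLx : ∀ v, L x v = -v := by
      intro v
      have h0 : ∀ u, (-(L x)) u = u := by
        refine linearMap_apply_eq_of_ball _ hr (fun u hu => ?_)
        have hut : u ∈ e.target := by rw [htgt]; exact hu
        have hz := e.map_target hut
        have h1 := hL x hx _ hz
        rw [hneg _ hz, e.right_inv hut] at h1
        rw [LinearMap.neg_apply, ← h1, neg_neg]
      have := h0 v
      rw [LinearMap.neg_apply] at this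
      rw [← neg_neg (L x v), this]
    have hne : L x (b j) ≠ b j := by
      rw [hLx]
      intro h
      have h1 : b j = 0 := by
        have h2 : (2 : ℝ) • b j = 0 := by
          rw [two_smul]
          nth_rewrite 1 [← h]
          exact neg_add_cancel _
        exact (smul_eq_zero.1 h2).resolve_left two_ne_zero
      exact b.ne_zero j h1
    simp only
    rw [if_neg hne]

end Pool.Agent.W_MP_6d5819_gt
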