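import Mathlib

set_option autoImplicit false

/-! Concrete singular chains: one total module `Ch R X` of finitely supported functions on all
singular simplices, with boundary `bd`, push forward `push` and the submodules `chIn R n U` of
chains of degree `n` supported in the set `U`. -/

namespace Pool.Agent.W_MP_6d5819_gt

/-- The topological simplex with `k` vertices. -/
abbrev Simp (k : ℕ) : Type := stdSimplex ℝ (Fin k)

/-- The affine map between topological simplices with prescribed images of the vertices. -/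
noncomputable def aff {k m : ℕ} (v : Fin k → Simp m) : C(Simp k, Simp m) where
  toFun s := ⟨fun j => ∑ i, s i * v i j, by
    refine ⟨fun j => Finset.sum_nonneg fun i _ => mul_nonneg (s.2.1 i) ((v i).2.1 j), ?_⟩
    rw [Finset.sum_comm]
    simp_rw [← Finset.mul_sum]
    have h : ∀ i, ∑ j, v i j = 1 := fun i => (v i).2.2
    simp [h]⟩
  continuous_toFun := by
    refine Continuous.subtype_mk ?_ _
    refine continuous_pi fun j => ?_
    refine continuous_finsetSum _ fun i _ => ?_
    exact ((continuous_apply i).comp continuous_subtype_val).mul continuous_const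

theorem aff_apply {k m : ℕ} (v : Fin k → Simp m) (s : Simp k) (j : Fin m) :
    aff v s j = ∑ i, s i * v i j := rfl

/-- The vertices of the simplex. -/
noncomputable abbrev vtx {k : ℕ} (i : Fin k) : Simp k := stdSimplex.vertex i

theorem vtx_apply {k : ℕ} (i j : Fin k) : (vtx i : Simp k) j = if j = i then 1 else 0 := by
  simp [vtx, Pi.single_apply]

@[simp] theorem aff_vtx {k m : ℕ} (v : Fin k → Simp m) (i : Fin k) : aff v (vtx i) = v i := by
  ext j
  rw [aff_apply]
  simp [vtx_apply]

@[simp] theorem aff_id {k : ℕ} : aff (vtx : Fin k → Simp k) = ContinuousMap.id _ := by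
  ext s j
  rw [aff_apply]
  simp [vtx_apply]

theorem aff_aff {k l m : ℕ} (v : Fin k → Simp m) (w : Fin l → Simp k) (s : Simp l) :
    aff v (aff w s) = aff (fun i => aff v (w i)) s := by
  ext j
  simp only [aff_apply, Finset.sum_mul, Finset.mul_sum]
  rw [Finset.sum_comm]
  refine Finset.sum_congr rfl fun i _ => Finset.sum_congr rfl fun i' _ => by ring

theorem aff_comp {k l m : ℕ} (v : Fin k → Simp m) (w : Fin l → Simp k) :
    (aff v).comp (aff w) = aff (fun i => aff v (w i)) := by
  ext1 s
  exact aff_aff v w s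

/-- All singular simplices of `X`; the first component is the dimension. -/
abbrev Sing (X : Type) [TopologicalSpace X] : Type := Σ n : ℕ, C(Simp (n + 1), X)

/-- The `i`-th face of a singular simplex. -/
noncomputable def face {X : Type} [TopologicalSpace X] {n : ℕ} (σ : C(Simp (n + 2), X))
    (i : Fin (n + 2)) : C(Simp (n + 1), X) :=
  σ.comp (aff fun j => vtx (i.succAbove j))

/-- All singular chains of `X` with coefficients in `R`, in all degrees. -/
abbrev Ch (R X : Type) [CommRing R] [TopologicalSpace X] : Type := Sing X →₀ R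

variable (R : Type) [CommRing R] {X Y Z : Type} [TopologicalSpace X] [TopologicalSpace Y]
  [TopologicalSpace Z]

/-- Boundary of one singular simplex. -/
noncomputable def bdSimp : Sing X → Ch R X
  | ⟨0, _⟩ => 0
  | ⟨n + 1, σ⟩ => ∑ i : Fin (n + 2), Finsupp.single ⟨n, face σ i⟩ ((-1 : R) ^ (i : ℕ))

/-- The boundary operator. -/
noncomputable def bd : Ch R X →ₗ[R] Ch R X := Finsupp.linearCombination R (bdSimp R)

/-- Push forward of a singular simplex. -/
def pushSimp (f : C(X, Y)) (s : Sing X) : Sing Y := ⟨s.1, f.comp s.2⟩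

/-- Push forward of chains. -/
noncomputable def push (f : C(X, Y)) : Ch R X →ₗ[R] Ch R Y := Finsupp.lmapDomain R R (pushSimp f)

/-- Chains of degree `n` supported in the set `U`. -/
noncomputable def chIn (n : ℕ) (U : Set X) : Submodule R (Ch R X) :=
  Finsupp.supported R R {s : Sing X | s.1 = n ∧ Set.range s.2 ⊆ U}

/-- Cycles of degree `n` supported in the set `U`. -/
noncomputable def cyc (n : ℕ) (U : Set X) : Submodule R (Ch R X) :=
  chIn R n U ⊓ LinearMap.ker (bd R)

/-- Boundaries of chains of degree `n + 1` supported in the set `U`. -/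
noncomputable def bds (n : ℕ) (U : Set X) : Submodule R (Ch R X) :=
  (chIn R (n + 1) U).map (bd R)

variable (X) in
/-- Singular homology of `X` with coefficients in `R`, concretely: classes of cycles in the
quotient of all chains by the boundaries. -/
noncomputable def Hom (n : ℕ) : Submodule R (Ch R X ⧸ bds R n (Set.univ : Set X)) :=
  (cyc R n (Set.univ : Set X)).map (bds R n (Set.univ : Set X)).mkQ

@[simp] theorem bd_single_zero (σ : C(Simp 1, X)) (r : R) :
    bd R (Finsupp.single (⟨0, σ⟩ : Sing X) r) = 0 := by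
  simp [bd, bdSimp]

theorem bd_single_succ {n : ℕ} (σ : C(Simp (n + 2), X)) (r : R) :
    bd R (Finsupp.single (⟨n + 1, σ⟩ : Sing X) r) =
      r • ∑ i : Fin (n + 2), Finsupp.single (⟨n, face σ i⟩ : Sing X) ((-1 : R) ^ (i : ℕ)) := by
  simp [bd, bdSimp]

theorem push_single (f : C(X, Y)) (s : Sing X) (r : R) :
    push R f (Finsupp.single s r) = Finsupp.single (pushSimp f s) r := by
  simp [push]

theorem face_comp (f : C(X, Y)) {n : ℕ} (σ : C(Simp (n + 2), X)) (i : Fin (n + 2)) :
    face (f.comp σ) i = f.comp (face σ i) := rfl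

theorem push_id (c : Ch R X) : push R (ContinuousMap.id X) c = c := by
  have : pushSimp (ContinuousMap.id X) = (id : Sing X → Sing X) := by
    funext s; rfl
  simp [push, this]

theorem push_push (g : C(Y, Z)) (f : C(X, Y)) (c : Ch R X) :
    push R g (push R f c) = push R (g.comp f) c := by
  simp only [push, Finsupp.lmapDomain_apply]
  rw [← Finsupp.mapDomain_comp]
  rfl

theorem bd_push (f : C(X, Y)) (c : Ch R X) : bd R (push R f c) = push R f (bd R c) := by
  induction c using Finsupp.induction_linear with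
  | zero => simp
  | add a b ha hb => simp [ha, hb]
  | single s r =>
    obtain ⟨n, σ⟩ := s
    rw [push_single]
    cases n with
    | zero => rw [pushSimp, bd_single_zero, bd_single_zero, map_zero]
    | succ n =>
      rw [pushSimp, bd_single_succ, bd_single_succ, map_smul, map_sum]
      simp_rw [push_single]
      rfl

theorem mem_chIn {n : ℕ} {U : Set X} {c : Ch R X} :
    c ∈ chIn R n U ↔ ∀ s ∈ c.support, s.1 = n ∧ Set.range s.2 ⊆ U := by
  rw [chIn, Finsupp.mem_supported]
  rfl

theorem single_mem_chIn {n : ℕ} {U : Set X} (σ : C(Simp (n + 1), X)) (h : Set.range σ ⊆ U)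
    (r : R) : Finsupp.single (⟨n, σ⟩ : Sing X) r ∈ chIn R n U :=
  Finsupp.single_mem_supported R r ⟨rfl, h⟩

theorem chIn_mono {n : ℕ} {U V : Set X} (h : U ⊆ V) : chIn R n U ≤ chIn R n V :=
  Finsupp.supported_mono fun _ hs => ⟨hs.1, hs.2.trans h⟩

theorem chIn_inter {n : ℕ} {U V : Set X} : chIn R n (U ∩ V) = chIn R n U ⊓ chIn R n V := by
  ext c
  rw [Submodule.mem_inf, mem_chIn, mem_chIn, mem_chIn]
  constructor
  · intro h
    exact ⟨fun s hs => ⟨(h s hs).1, (h s hs).2.trans Set.inter_subset_left⟩,
      fun s hs => ⟨(h s hs).1, (h s hs).2.trans Set.inter_subset_right⟩⟩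
  · intro h s hs
    exact ⟨(h.1 s hs).1, Set.subset_inter (h.1 s hs).2 (h.2 s hs).2⟩

/-- Induction principle for chains of degree `n` in `U`. -/
theorem chIn_induction {n : ℕ} {U : Set X} {P : Ch R X → Prop}
    (h0 : P 0) (hadd : ∀ a b, a ∈ chIn R n U → b ∈ chIn R n U → P a → P b → P (a + b))
    (hs : ∀ (σ : C(Simp (n + 1), X)), Set.range σ ⊆ U → ∀ r, P (Finsupp.single ⟨n, σ⟩ r))
    (c : Ch R X) (hc : c ∈ chIn R n U) : P c := by
  classical
  rw [mem_chIn] at hc
  induction c using Finsupp.induction with
  | zero => exact h0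
  | single_add s r f hsf hr ih =>
    have hsupp : ∀ t ∈ f.support, t ∈ (Finsupp.single s r + f).support := by
      intro t ht
      rw [Finsupp.support_single_add hsf hr]
      exact Finset.mem_cons_of_mem ht
    have hss : s ∈ (Finsupp.single s r + f).support := by
      rw [Finsupp.support_single_add hsf hr]
      exact Finset.mem_cons_self _ _
    have hf : ∀ t ∈ f.support, t.1 = n ∧ Set.range t.2 ⊆ U := fun t ht => hc t (hsupp t ht)
    obtain ⟨k, σ⟩ := s
    obtain ⟨h1, h2⟩ := hc _ hss
    simp only at h1 h2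
    subst h1
    exact hadd _ _ (single_mem_chIn R σ h2 r) ((mem_chIn R).2 hf) (hs σ h2 r) (ih hf)

theorem range_face_subset {n : ℕ} (σ : C(Simp (n + 2), X)) (i : Fin (n + 2)) :
    Set.range (face σ i) ⊆ Set.range σ := by
  rintro _ ⟨s, rfl⟩
  exact ⟨_, rfl⟩

theorem bd_mem_chIn {n : ℕ} {U : Set X} {c : Ch R X} (hc : c ∈ chIn R (n + 1) U) :
    bd R c ∈ chIn R n U := by
  refine chIn_induction R (P := fun c => bd R c ∈ chIn R n U) (by simp)
    (fun a b _ _ ha hb => by rw [map_add]; exact Submodule.add_mem _ ha hb) ?_ c hc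
  intro σ hσ r
  rw [bd_single_succ]
  refine Submodule.smul_mem _ _ (Submodule.sum_mem _ fun i _ => ?_)
  exact single_mem_chIn R _ ((range_face_subset σ i).trans hσ) _

theorem bd_chIn_zero {U : Set X} {c : Ch R X} (hc : c ∈ chIn R 0 U) : bd R c = 0 := by
  refine chIn_induction R (P := fun c => bd R c = 0) (by simp)
    (fun a b _ _ ha hb => by rw [map_add, ha, hb, add_zero]) ?_ c hc
  intro σ hσ r
  rw [bd_single_zero]

theorem push_mem_chIn {n : ℕ} {U : Set X} {V : Set Y} (f : C(X, Y)) (hf : Set.MapsTo f U V)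
    {c : Ch R X} (hc : c ∈ chIn R n U) : push R f c ∈ chIn R n V := by
  refine chIn_induction R (P := fun c => push R f c ∈ chIn R n V) (by simp)
    (fun a b _ _ ha hb => by rw [map_add]; exact Submodule.add_mem _ ha hb) ?_ c hc
  intro σ hσ r
  rw [push_single]
  refine single_mem_chIn R _ ?_ r
  rintro _ ⟨s, rfl⟩
  exact hf (hσ ⟨s, rfl⟩)

end Pool.Agent.W_MP_6d5819_gt
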