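import Pool.Agent.W_MP_6d5819_gt.Chains

set_option autoImplicit false

/-! Definitions shared by the parts of the proof: subdivision data, the operator `t`, local
metrics. -/

namespace Pool.Agent.W_MP_6d5819_gt

/-- A natural subdivision operator `S` on singular chains with a natural chain homotopy `T`
to the identity. -/
structure Sd (R X : Type) [CommRing R] [TopologicalSpace X] where
  /-- subdivision -/
  S : Ch R X →ₗ[R] Ch R X
  /-- homotopy -/
  T : Ch R X →ₗ[R] Ch R X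
  S_push : ∀ (f : C(X, X)) (c : Ch R X), S (push R f c) = push R f (S c)
  T_push : ∀ (f : C(X, X)) (c : Ch R X), T (push R f c) = push R f (T c)
  S_mem : ∀ (n : ℕ) (U : Set X) (c : Ch R X), c ∈ chIn R n U → S c ∈ chIn R n U
  T_mem : ∀ (n : ℕ) (U : Set X) (c : Ch R X), c ∈ chIn R n U → T c ∈ chIn R (n + 1) U
  bd_S : ∀ c : Ch R X, bd R (S c) = S (bd R c)
  homotopy : ∀ c : Ch R X, bd R (T c) + T (bd R c) = c - S c

/-- The operator `∑ α i (g i + 1)` on finitely supported functions. -/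
noncomputable def tOp {ι Y K : Type} [Fintype ι] [Field K] (g : ι → Y → Y) (α : ι → K) :
    (Y →₀ K) →ₗ[K] (Y →₀ K) :=
  ∑ i, α i • (Finsupp.lmapDomain K K (g i) + LinearMap.id)

/-- The operator `t = ∑ α i (g i + 1)` on singular chains. -/
noncomputable def tw {ι X : Type} [Fintype ι] [TopologicalSpace X] (K : Type) [Field K]
    (g : ι → C(X, X)) (α : ι → K) : Ch K X →ₗ[K] Ch K X :=
  ∑ i, α i • (push K (g i) + LinearMap.id)

/-- A distance function `D` on an open set `Ω` of a normed space that is infinitesimally given by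
the smooth metric tensor `G`. -/
structure LocalMetric {E : Type} [NormedAddCommGroup E] [NormedSpace ℝ E] (Ω : Set E)
    (G : E → E →L[ℝ] E →L[ℝ] ℝ) (D : E → E → ℝ) : Prop where
  isOpen : IsOpen Ω
  smooth : ContDiffOn ℝ 2 G Ω
  symm : ∀ u ∈ Ω, ∀ v w : E, G u v w = G u w v
  pos : ∀ u ∈ Ω, ∀ v : E, v ≠ 0 → 0 < G u v v
  comm : ∀ u ∈ Ω, ∀ v ∈ Ω, D u v = D v u
  tri : ∀ u ∈ Ω, ∀ v ∈ Ω, ∀ w ∈ Ω, D u w ≤ D u v + D v w
  asym : ∀ p ∈ Ω, ∀ ε : ℝ, 0 < ε → ∀ᶠ q : E × E in nhds (p, p),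
    |D q.1 q.2 - √(G p (q.1 - q.2) (q.1 - q.2))| ≤ ε * ‖q.1 - q.2‖

end Pool.Agent.W_MP_6d5819_gt
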