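import Pool.Agent.W_MP_6d5819_gt.Defs

set_option autoImplicit false
set_option maxSynthPendingDepth 3

/-! Metric geodesics satisfy the geodesic equation (task G3). -/

open Filter Topology MeasureTheory Set

namespace Pool.Agent.W_MP_6d5819_gt

section GeodOde

variable {E : Type} [NormedAddCommGroup E] [InnerProductSpace ℝ E]
    [FiniteDimensional ℝ E] {Ω : Set E} {G : E → E →L[ℝ] E →L[ℝ] ℝ} {D : E → E → ℝ}



omit [FiniteDimensional ℝ E] in
theorem LocalMetric.self_eq_zero (h : LocalMetric Ω G D) {p : E} (hp : p ∈ Ω) : D p p = 0 := by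
  have h1 := (h.asym p hp 1 one_pos).self_of_nhds
  simpa using h1

omit [FiniteDimensional ℝ E] in
theorem LocalMetric.nonneg (h : LocalMetric Ω G D) {p q : E} (hp : p ∈ Ω) (hq : q ∈ Ω) :
    0 ≤ D p q := by
  have h1 := h.tri p hp q hq p hp
  rw [h.self_eq_zero hp, h.comm q hq p hp] at h1
  linarith

/-- Coercivity of a positive definite form. -/
theorem exists_coercive_ode (B : E →L[ℝ] E →L[ℝ] ℝ) (hB : ∀ v : E, v ≠ 0 → 0 < B v v) :
    ∃ m : ℝ, 0 < m ∧ ∀ v : E, m * ‖v‖ ^ 2 ≤ B v v := by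
  have hcont : Continuous fun v : E => B v v := by fun_prop
  obtain hE | hE := (Metric.sphere (0 : E) 1).eq_empty_or_nonempty
  · refine ⟨1, one_pos, fun v => ?_⟩
    by_cases hv : v = 0
    · simp [hv]
    · exfalso
      have : (‖v‖⁻¹ • v) ∈ Metric.sphere (0 : E) 1 := by
        simp [norm_smul, hv]
      rw [hE] at this
      exact this
  · obtain ⟨u, hu, hmin⟩ := (isCompact_sphere (0 : E) 1).exists_isMinOn hE hcont.continuousOn
    have hu0 : u ≠ 0 := by
      rintro rfl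
      simp at hu
    refine ⟨B u u, hB u hu0, fun v => ?_⟩
    by_cases hv : v = 0
    · simp [hv]
    · have hmem : (‖v‖⁻¹ • v) ∈ Metric.sphere (0 : E) 1 := by
        simp [norm_smul, hv]
      have h1 := hmin hmem
      simp only [mem_ofPred_eq, map_smul, smul_apply, smul_eq_mul] at h1
      have hvn : 0 < ‖v‖ := norm_pos_iff.2 hv
      have h2 : B u u * ‖v‖ ^ 2 ≤ (‖v‖⁻¹ * (‖v‖⁻¹ * B v v)) * ‖v‖ ^ 2 :=
        mul_le_mul_of_nonneg_right h1 (by positivity)
      have h3 : (‖v‖⁻¹ * (‖v‖⁻¹ * B v v)) * ‖v‖ ^ 2 = B v v := by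
        field_simp
      linarith

theorem LocalMetric.two_sided (h : LocalMetric Ω G D) {p : E} (hp : p ∈ Ω) :
    ∃ m M : ℝ, 0 < m ∧ 0 < M ∧ ∀ᶠ q : E × E in 𝓝 (p, p),
      m * ‖q.1 - q.2‖ ≤ D q.1 q.2 ∧ D q.1 q.2 ≤ M * ‖q.1 - q.2‖ := by
  obtain ⟨m, hm, hmB⟩ := exists_coercive_ode (G p) (h.pos p hp)
  refine ⟨√m / 2, √‖G p‖ + √m / 2, by positivity, by positivity, ?_⟩
  filter_upwards [h.asym p hp (√m / 2) (by positivity)] with q hq
  have h1 := abs_le.1 hq
  have h2 : √m * ‖q.1 - q.2‖ ≤ √(G p (q.1 - q.2) (q.1 - q.2)) := by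
    rw [← Real.sqrt_sq (norm_nonneg (q.1 - q.2)), ← Real.sqrt_mul hm.le]
    exact Real.sqrt_le_sqrt (hmB _)
  have h3 : √(G p (q.1 - q.2) (q.1 - q.2)) ≤ √‖G p‖ * ‖q.1 - q.2‖ := by
    rw [← Real.sqrt_sq (norm_nonneg (q.1 - q.2)), ← Real.sqrt_mul (norm_nonneg (G p))]
    refine Real.sqrt_le_sqrt ?_
    calc G p (q.1 - q.2) (q.1 - q.2) ≤ ‖G p (q.1 - q.2) (q.1 - q.2)‖ := le_abs_self _
      _ ≤ ‖G p‖ * ‖q.1 - q.2‖ * ‖q.1 - q.2‖ := (G p).le_opNorm₂ _ _
      _ = ‖G p‖ * ‖q.1 - q.2‖ ^ 2 := by ring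
  constructor
  · nlinarith [h1.1, h2]
  · nlinarith [h1.2, h3]

omit [FiniteDimensional ℝ E] in
/-- The speed of a curve. -/
theorem LocalMetric.tendsto_speed (h : LocalMetric Ω G D) {y : ℝ → E} {v : E} {S : Set ℝ} {t : ℝ}
    (hyt : y t ∈ Ω) (hd : HasDerivWithinAt y v S t) :
    Tendsto (fun s => D (y s) (y t) / |s - t|) (𝓝[S \ {t}] t) (𝓝 (√(G (y t) v v))) := by
  have hslope : Tendsto (slope y t) (𝓝[S \ {t}] t) (𝓝 v) := hasDerivWithinAt_iff_tendsto_slope.1 hd
  have hcont : Continuous fun u : E => √(G (y t) u u) := by fun_prop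
  have h1 : Tendsto (fun s => √(G (y t) (slope y t s) (slope y t s))) (𝓝[S \ {t}] t)
      (𝓝 (√(G (y t) v v))) := (hcont.tendsto v).comp hslope
  have h2 : Tendsto (fun s => D (y s) (y t) / |s - t| -
      √(G (y t) (slope y t s) (slope y t s))) (𝓝[S \ {t}] t) (𝓝 0) := by
    have hyc : Tendsto (fun s => (y s, y t)) (𝓝[S \ {t}] t) (𝓝 (y t, y t)) :=
      (hd.continuousWithinAt.tendsto.mono_left (nhdsWithin_mono _ sdiff_subset)).prodMk_nhds
        tendsto_const_nhds
    have hbd : ∀ᶠ s in 𝓝[S \ {t}] t, ‖slope y t s‖ ≤ ‖v‖ + 1 :=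
      (hslope.norm).eventually_le_const (by linarith)
    rw [Metric.tendsto_nhds]
    intro ε hε
    have hne : ∀ᶠ s in 𝓝[S \ {t}] t, s ∈ S \ {t} := self_mem_nhdsWithin
    filter_upwards [hbd, hyc.eventually (h.asym (y t) hyt (ε / (2 * (‖v‖ + 1))) (by positivity)),
      hne] with s hs1 hs2 hs3
    have hst : s - t ≠ 0 := sub_ne_zero.2 hs3.2
    have hst' : 0 < |s - t| := abs_pos.2 hst
    have he : y s - y t = (s - t) • slope y t s := by
      rw [slope_def_module, smul_smul, mul_inv_cancel₀ hst, one_smul]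
    have e1 : √(G (y t) (y s - y t) (y s - y t)) =
        |s - t| * √(G (y t) (slope y t s) (slope y t s)) := by
      have e0 : G (y t) (y s - y t) (y s - y t) =
          (s - t) ^ 2 * G (y t) (slope y t s) (slope y t s) := by
        rw [he]
        simp only [map_smul, smul_apply, smul_eq_mul]
        ring
      rw [e0, Real.sqrt_mul (sq_nonneg _), Real.sqrt_sq_eq_abs]
    have e2 : ‖y s - y t‖ = |s - t| * ‖slope y t s‖ := by
      rw [he, norm_smul, Real.norm_eq_abs]
    rw [e1, e2] at hs2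
    have e3 : D (y s) (y t) / |s - t| - √(G (y t) (slope y t s) (slope y t s)) =
        (D (y s) (y t) - |s - t| * √(G (y t) (slope y t s) (slope y t s))) / |s - t| := by
      field_simp
    rw [Real.dist_eq, sub_zero, e3, abs_div, abs_abs, div_lt_iff₀ hst']
    refine hs2.trans_lt ?_
    have h4 : ε / (2 * (‖v‖ + 1)) * ‖slope y t s‖ ≤ ε / 2 := by
      calc ε / (2 * (‖v‖ + 1)) * ‖slope y t s‖ ≤ ε / (2 * (‖v‖ + 1)) * (‖v‖ + 1) := by gcongr
        _ = ε / 2 := by field_simp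
    calc ε / (2 * (‖v‖ + 1)) * (|s - t| * ‖slope y t s‖)
        = (ε / (2 * (‖v‖ + 1)) * ‖slope y t s‖) * |s - t| := by ring
      _ ≤ ε / 2 * |s - t| := by gcongr
      _ < ε * |s - t| := by nlinarith
  have h3 := h2.add h1
  simpa using h3



theorem intervalIntegrable_of_bdd {f : ℝ → ℝ} (hf : StronglyMeasurable f) {a b C : ℝ}
    (hC : ∀ t ∈ Set.uIcc a b, |f t| ≤ C) : IntervalIntegrable f volume a b := by
  rw [intervalIntegrable_iff]
  refine Measure.integrableOn_of_bounded (M := C) ?_ hf.aestronglyMeasurable ?_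
  · simp [Set.uIoc]
  · filter_upwards [ae_restrict_mem measurableSet_uIoc] with t ht
    exact hC t (Set.uIoc_subset_uIcc ht)

omit [FiniteDimensional ℝ E] in
theorem stronglyMeasurable_form {F : ℝ → E →L[ℝ] E →L[ℝ] ℝ} (hF : StronglyMeasurable F)
    {u w : ℝ → E} (hu : StronglyMeasurable u) (hw : StronglyMeasurable w) :
    StronglyMeasurable fun t => F t (u t) (w t) := by
  have hc : Continuous fun q : (E →L[ℝ] E →L[ℝ] ℝ) × E × E => q.1 q.2.1 q.2.2 := by fun_prop
  exact hc.comp_stronglyMeasurable (hF.prodMk (hu.prodMk hw))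

theorem stronglyMeasurable_deriv' (y : ℝ → E) : StronglyMeasurable (deriv y) :=
  stronglyMeasurable_deriv y

theorem LocalMetric.energy_ge (h : LocalMetric Ω G D) {y : ℝ → E} {K : NNReal}
    (hy : LipschitzWith K y) (hyΩ : ∀ t, y t ∈ Ω) {a c : ℝ} (ha : 0 ≤ a) (hc : 0 ≤ c) :
    c * D (y 0) (y a) ≤ ∫ t in (0:ℝ)..a, (G (y t) (deriv y t) (deriv y t) + c ^ 2) / 2 := by
  set f : ℝ → ℝ := fun t => D (y 0) (y t) with hf
  have hfd : ∀ s t, f s - f t ≤ D (y s) (y t) := by
    intro s t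
    have h1 := h.tri _ (hyΩ 0) _ (hyΩ t) _ (hyΩ s)
    have h2 := h.comm _ (hyΩ s) _ (hyΩ t)
    simp only [hf]
    linarith
  have hGc : Continuous fun t => G (y t) :=
    h.smooth.continuousOn.comp_continuous hy.continuous hyΩ
  -- Lipschitz
  have hloc : LocallyLipschitzOn (Icc 0 a) f := by
    intro t₀ _
    obtain ⟨m, M, hm, hM, hev⟩ := h.two_sided (hyΩ t₀)
    have ht : Tendsto (fun q : ℝ × ℝ => (y q.1, y q.2)) (𝓝 (t₀, t₀)) (𝓝 (y t₀, y t₀)) := by
      have : Continuous fun q : ℝ × ℝ => (y q.1, y q.2) :=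
        (hy.continuous.comp continuous_fst).prodMk (hy.continuous.comp continuous_snd)
      exact this.tendsto (t₀, t₀)
    have hev2 := ht.eventually hev
    rw [nhds_prod_eq, eventually_prod_self_iff'] at hev2
    obtain ⟨U, hU, hU2⟩ := hev2
    refine ⟨Real.toNNReal (M * K), U, mem_nhdsWithin_of_mem_nhds hU, ?_⟩
    refine LipschitzOnWith.of_dist_le_mul fun s hs t ht => ?_
    rw [Real.coe_toNNReal _ (by positivity), Real.dist_eq]
    have h1 : ‖y s - y t‖ ≤ K * |s - t| := by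
      simpa [dist_eq_norm] using hy.dist_le_mul s t
    have h3 := (hU2 s hs t ht).2
    have h4 := (hU2 t ht s hs).2
    simp only at h3 h4
    rw [norm_sub_rev] at h4
    rw [Real.dist_eq]
    have h5 : M * ‖y s - y t‖ ≤ M * (K * |s - t|) := by gcongr
    rw [abs_le]
    constructor
    · have := hfd t s
      linarith
    · have := hfd s t
      linarith
  obtain ⟨K', hK'⟩ := hloc.exists_lipschitzOnWith_of_compact isCompact_Icc
  have hac : AbsolutelyContinuousOnInterval f 0 a := by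
    apply LipschitzOnWith.absolutelyContinuousOnInterval (K := K')
    rwa [uIcc_of_le ha]
  have hftc := hac.integral_deriv_eq_sub
  have hf0 : f 0 = 0 := h.self_eq_zero (hyΩ 0)
  rw [hf0, sub_zero] at hftc
  change c * f a ≤ _
  rw [← hftc, ← intervalIntegral.integral_const_mul]
  have hbd : ∃ B, ∀ t ∈ Icc 0 a, ‖G (y t)‖ ≤ B := by
    have hGn : Continuous fun t => ‖G (y t)‖ := (continuous_norm (E := E →L[ℝ] E →L[ℝ] ℝ)).comp hGc
    obtain ⟨B, hB⟩ := (isCompact_Icc (a := (0 : ℝ)) (b := a)).bddAbove_image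
      hGn.continuousOn
    exact ⟨B, fun t ht => hB ⟨t, ht, rfl⟩⟩
  obtain ⟨B, hB⟩ := hbd
  have hA : IntervalIntegrable (fun t => G (y t) (deriv y t) (deriv y t)) volume 0 a := by
    refine intervalIntegrable_of_bdd (C := B * K * K) (stronglyMeasurable_form
      hGc.stronglyMeasurable (stronglyMeasurable_deriv' y) (stronglyMeasurable_deriv' y)) ?_
    intro t ht
    rw [uIcc_of_le ha] at ht
    have hd : ‖deriv y t‖ ≤ K := norm_deriv_le_of_lipschitz hy
    have hB0 : 0 ≤ B := (norm_nonneg (G (y t))).trans (hB t ht)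
    calc |G (y t) (deriv y t) (deriv y t)| = ‖G (y t) (deriv y t) (deriv y t)‖ := rfl
      _ ≤ ‖G (y t)‖ * ‖deriv y t‖ * ‖deriv y t‖ := (G (y t)).le_opNorm₂ _ _
      _ ≤ B * K * K := by
        have := hB t ht
        gcongr
  refine intervalIntegral.integral_mono_ae_restrict ha (hac.intervalIntegrable_deriv.const_mul c)
    ((hA.add intervalIntegrable_const).div_const 2) ?_
  rw [EventuallyLE, ← restrict_Ioo_eq_restrict_Icc, ae_restrict_iff' measurableSet_Ioo]
  filter_upwards [hac.ae_differentiableAt, hy.ae_differentiableAt_real] with t ht1 ht2 ht3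
  have hft : HasDerivAt f (deriv f t) t := by
    refine (ht1 ?_).hasDerivAt
    rw [uIcc_of_le ha]
    exact Ioo_subset_Icc_self ht3
  have hyt : HasDerivAt y (deriv y t) t := ht2.hasDerivAt
  have hle : deriv f t ≤ √(G (y t) (deriv y t) (deriv y t)) := by
    have hs1 : Tendsto (slope f t) (𝓝[>] t) (𝓝 (deriv f t)) := by
      have := (hft.hasDerivWithinAt (s := Ioi t))
      rw [hasDerivWithinAt_iff_tendsto_slope] at this
      simpa using this
    have hs2 : Tendsto (fun s => D (y s) (y t) / |s - t|) (𝓝[>] t)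
        (𝓝 (√(G (y t) (deriv y t) (deriv y t)))) := by
      have := h.tendsto_speed (hyΩ t) (hyt.hasDerivWithinAt (s := Ioi t))
      simpa using this
    refine le_of_tendsto_of_tendsto hs1 hs2 ?_
    filter_upwards [self_mem_nhdsWithin] with s hs
    have hst : 0 < s - t := sub_pos.2 hs
    rw [slope_def_field, abs_of_pos hst]
    gcongr
    exact hfd s t
  have hG0 : 0 ≤ G (y t) (deriv y t) (deriv y t) := by
    by_cases h0 : deriv y t = 0
    · simp [h0]
    · exact (h.pos _ (hyΩ t) _ h0).le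
  have h1 := Real.sq_sqrt hG0
  have h2 : c * deriv f t ≤ c * √(G (y t) (deriv y t) (deriv y t)) := by gcongr
  nlinarith [sq_nonneg (√(G (y t) (deriv y t) (deriv y t)) - c)]



omit [FiniteDimensional ℝ E] in
theorem LocalMetric.hasFDerivAt (h : LocalMetric Ω G D) {p : E} (hp : p ∈ Ω) :
    HasFDerivAt G (fderiv ℝ G p) p :=
  ((h.smooth.contDiffAt (h.isOpen.mem_nhds hp)).differentiableAt two_ne_zero).hasFDerivAt

omit [FiniteDimensional ℝ E] in
theorem LocalMetric.continuousOn_fderiv (h : LocalMetric Ω G D) :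
    ContinuousOn (fderiv ℝ G) Ω :=
  h.smooth.continuousOn_fderiv_of_isOpen h.isOpen (by norm_num)

omit [FiniteDimensional ℝ E] in
theorem LocalMetric.hasDerivAt_density (h : LocalMetric Ω G D) {p q u w : E} {ε : ℝ}
    (hp : p + ε • q ∈ Ω) :
    HasDerivAt (fun e : ℝ => G (p + e • q) (u + e • w) (u + e • w))
      ((fderiv ℝ G (p + ε • q) q) (u + ε • w) (u + ε • w) +
        G (p + ε • q) w (u + ε • w) + G (p + ε • q) (u + ε • w) w) ε := by
  have h1 : HasDerivAt (fun e : ℝ => p + e • q) q ε := by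
    simpa using ((hasDerivAt_id ε).smul_const q).const_add p
  have h2 : HasDerivAt (fun e : ℝ => u + e • w) w ε := by
    simpa using ((hasDerivAt_id ε).smul_const w).const_add u
  have h3 : HasDerivAt (fun e : ℝ => G (p + e • q)) (fderiv ℝ G (p + ε • q) q) ε :=
    (h.hasFDerivAt hp).comp_hasDerivAt ε h1
  have h4 := (h3.clm_apply h2).clm_apply h2
  simpa using h4

theorem LocalMetric.first_variation (h : LocalMetric Ω G D) {x : ℝ → E} {K : NNReal}
    (hx : LipschitzWith K x) {S : Set E} (hS : IsCompact S) (hSΩ : S ⊆ Ω) (hxS : ∀ t, x t ∈ S)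
    {a c : ℝ} (ha : 0 < a) (hc : 0 ≤ c) (hD : D (x 0) (x a) = c * a)
    (hspeed : ∀ᵐ t, t ∈ Ioc 0 a → G (x t) (deriv x t) (deriv x t) = c ^ 2)
    {η : ℝ → E} {L : NNReal} (hη : LipschitzWith L η) (hη0 : η 0 = 0) (hηa : η a = 0) {B : ℝ}
    (hB : ∀ t, ‖η t‖ ≤ B) :
    ∫ t in (0:ℝ)..a, ((fderiv ℝ G (x t) (η t)) (deriv x t) (deriv x t) +
      G (x t) (deriv η t) (deriv x t) + G (x t) (deriv x t) (deriv η t)) = 0 := by
  obtain ⟨δ, hδ, hδΩ⟩ := hS.exists_cthickening_subset_open h.isOpen hSΩ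
  have hCc : IsCompact (Metric.cthickening δ S) := hS.cthickening
  have hB0 : 0 ≤ B := (norm_nonneg _).trans (hB 0)
  -- bounds
  have hM : ∃ M, 0 ≤ M ∧ ∀ z ∈ Metric.cthickening δ S, ‖G z‖ ≤ M := by
    have hGn : ContinuousOn (fun z => ‖G z‖) (Metric.cthickening δ S) :=
      (continuous_norm (E := E →L[ℝ] E →L[ℝ] ℝ)).comp_continuousOn
        (h.smooth.continuousOn.mono hδΩ)
    obtain ⟨M, hM⟩ := hCc.bddAbove_image hGn
    exact ⟨max M 0, le_max_right _ _, fun z hz => (hM ⟨z, hz, rfl⟩).trans (le_max_left _ _)⟩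
  have hM' : ∃ M, 0 ≤ M ∧ ∀ z ∈ Metric.cthickening δ S, ‖fderiv ℝ G z‖ ≤ M := by
    have hGn : ContinuousOn (fun z => ‖fderiv ℝ G z‖) (Metric.cthickening δ S) :=
      (continuous_norm (E := E →L[ℝ] E →L[ℝ] E →L[ℝ] ℝ)).comp_continuousOn
        (h.continuousOn_fderiv.mono hδΩ)
    obtain ⟨M, hM⟩ := hCc.bddAbove_image hGn
    exact ⟨max M 0, le_max_right _ _, fun z hz => (hM ⟨z, hz, rfl⟩).trans (le_max_left _ _)⟩
  obtain ⟨M, hM0, hM⟩ := hM
  obtain ⟨M', hM'0, hM'⟩ := hM'
  set ε₀ : ℝ := δ / (B + 1) with hε₀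
  have hε₀pos : 0 < ε₀ := by positivity
  have hmem : ∀ ε ∈ Metric.ball (0 : ℝ) ε₀, ∀ t, x t + ε • η t ∈ Metric.cthickening δ S := by
    intro ε hε t
    refine Metric.mem_cthickening_of_dist_le _ (x t) δ S (hxS t) ?_
    rw [dist_eq_norm, add_sub_cancel_left, norm_smul]
    rw [mem_ball_zero_iff] at hε
    calc ‖ε‖ * ‖η t‖ ≤ ε₀ * (B + 1) := by
          have := hB t
          gcongr
          linarith
      _ = δ := by rw [hε₀]; field_simp
  have hxd : ∀ t, ‖deriv x t‖ ≤ K := fun t => norm_deriv_le_of_lipschitz hx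
  have hηd : ∀ t, ‖deriv η t‖ ≤ L := fun t => norm_deriv_le_of_lipschitz hη
  set U : ℝ := K + ε₀ * L with hU
  have hU0 : 0 ≤ U := by positivity
  have hud : ∀ ε ∈ Metric.ball (0 : ℝ) ε₀, ∀ t, ‖deriv x t + ε • deriv η t‖ ≤ U := by
    intro ε hε t
    rw [mem_ball_zero_iff] at hε
    calc ‖deriv x t + ε • deriv η t‖ ≤ ‖deriv x t‖ + ‖ε‖ * ‖deriv η t‖ := by
          rw [← norm_smul]; exact norm_add_le _ _
      _ ≤ K + ε₀ * L := by
          have h1 := hxd t
          have h2 := hηd t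
          gcongr
  have hcy : ∀ ε : ℝ, Continuous fun t => x t + ε • η t := fun ε =>
    hx.continuous.add (hη.continuous.const_smul ε)
  have hmx : StronglyMeasurable (deriv x) := stronglyMeasurable_deriv' x
  have hmη : StronglyMeasurable (deriv η) := stronglyMeasurable_deriv' η
  have hmu : ∀ ε : ℝ, StronglyMeasurable fun t => deriv x t + ε • deriv η t := fun ε =>
    hmx.add (hmη.const_smul ε)
  have hmG : ∀ ε ∈ Metric.ball (0 : ℝ) ε₀, StronglyMeasurable fun t => G (x t + ε • η t) := by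
    intro ε hε
    exact (h.smooth.continuousOn.comp_continuous (hcy ε) fun t =>
      hδΩ (hmem ε hε t)).stronglyMeasurable
  set F : ℝ → ℝ → ℝ := fun ε t => G (x t + ε • η t) (deriv x t + ε • deriv η t)
    (deriv x t + ε • deriv η t) with hF
  set F' : ℝ → ℝ → ℝ := fun ε t =>
    (fderiv ℝ G (x t + ε • η t) (η t)) (deriv x t + ε • deriv η t) (deriv x t + ε • deriv η t) +
        G (x t + ε • η t) (deriv η t) (deriv x t + ε • deriv η t) +
        G (x t + ε • η t) (deriv x t + ε • deriv η t) (deriv η t) with hF'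
  have hmF : ∀ ε ∈ Metric.ball (0 : ℝ) ε₀, StronglyMeasurable (F ε) := fun ε hε =>
    stronglyMeasurable_form (hmG ε hε) (hmu ε) (hmu ε)
  have hFint : ∀ ε ∈ Metric.ball (0 : ℝ) ε₀, IntervalIntegrable (F ε) volume 0 a := by
    intro ε hε
    refine intervalIntegrable_of_bdd (hmF ε hε) (C := M * U * U) fun t _ => ?_
    calc |F ε t| = ‖F ε t‖ := rfl
      _ ≤ ‖G (x t + ε • η t)‖ * ‖deriv x t + ε • deriv η t‖ * ‖deriv x t + ε • deriv η t‖ :=
        (G (x t + ε • η t)).le_opNorm₂ _ _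
      _ ≤ M * U * U := by
        have h1 := hM _ (hmem ε hε t)
        have h2 := hud ε hε t
        gcongr
  have h0mem : (0 : ℝ) ∈ Metric.ball (0 : ℝ) ε₀ := Metric.mem_ball_self hε₀pos
  -- derivative of the energy
  have hmF' : StronglyMeasurable (F' 0) := by
    have h1 : StronglyMeasurable fun t => fderiv ℝ G (x t + (0 : ℝ) • η t) (η t) := by
      have : Continuous fun t => fderiv ℝ G (x t + (0 : ℝ) • η t) :=
        h.continuousOn_fderiv.comp_continuous (hcy 0) fun t => hδΩ (hmem 0 h0mem t)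
      exact (this.clm_apply hη.continuous).stronglyMeasurable
    exact ((stronglyMeasurable_form h1 (hmu 0) (hmu 0)).add
      (stronglyMeasurable_form (hmG 0 h0mem) hmη (hmu 0))).add
      (stronglyMeasurable_form (hmG 0 h0mem) (hmu 0) hmη)
  have hderiv := (intervalIntegral.hasDerivAt_integral_of_dominated_loc_of_deriv_le
    (μ := volume) (a := 0) (b := a) (F := F) (F' := F') (x₀ := (0 : ℝ))
    (bound := fun _ => M' * B * U * U + M * L * U + M * U * L)
    (Metric.ball_mem_nhds (0 : ℝ) hε₀pos)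
    (by
      filter_upwards [Metric.ball_mem_nhds (0 : ℝ) hε₀pos] with ε hε
      exact (hmF ε hε).aestronglyMeasurable)
    (hFint 0 h0mem) hmF'.aestronglyMeasurable
    (by
      refine Eventually.of_forall fun t _ ε hε => ?_
      have h1 := hM _ (hmem ε hε t)
      have h1' := hM' _ (hmem ε hε t)
      have h2 := hud ε hε t
      have h3 := hηd t
      have h4 := hB t
      have e1 : ‖(fderiv ℝ G (x t + ε • η t) (η t)) (deriv x t + ε • deriv η t)
          (deriv x t + ε • deriv η t)‖ ≤ M' * B * U * U := by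
        calc _ ≤ ‖fderiv ℝ G (x t + ε • η t) (η t)‖ * ‖deriv x t + ε • deriv η t‖ *
              ‖deriv x t + ε • deriv η t‖ :=
              (fderiv ℝ G (x t + ε • η t) (η t)).le_opNorm₂ _ _
          _ ≤ (‖fderiv ℝ G (x t + ε • η t)‖ * ‖η t‖) * ‖deriv x t + ε • deriv η t‖ *
              ‖deriv x t + ε • deriv η t‖ := by
              gcongr
              exact (fderiv ℝ G (x t + ε • η t)).le_opNorm _
          _ ≤ M' * B * U * U := by gcongr
      have e2 : ‖G (x t + ε • η t) (deriv η t) (deriv x t + ε • deriv η t)‖ ≤ M * L * U := by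
        calc _ ≤ ‖G (x t + ε • η t)‖ * ‖deriv η t‖ * ‖deriv x t + ε • deriv η t‖ :=
              (G (x t + ε • η t)).le_opNorm₂ _ _
          _ ≤ M * L * U := by gcongr
      have e3 : ‖G (x t + ε • η t) (deriv x t + ε • deriv η t) (deriv η t)‖ ≤ M * U * L := by
        calc _ ≤ ‖G (x t + ε • η t)‖ * ‖deriv x t + ε • deriv η t‖ * ‖deriv η t‖ :=
              (G (x t + ε • η t)).le_opNorm₂ _ _
          _ ≤ M * U * L := by gcongr
      exact (norm_add₃_le).trans (by gcongr))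
    intervalIntegrable_const
    (Eventually.of_forall fun t _ ε hε => h.hasDerivAt_density (hδΩ (hmem ε hε t)))).2
  -- local minimum
  have hF0 : ∫ t in (0:ℝ)..a, F 0 t = c ^ 2 * a := by
    have : ∫ t in (0:ℝ)..a, F 0 t = ∫ t in (0:ℝ)..a, c ^ 2 := by
      refine intervalIntegral.integral_congr_ae ?_
      filter_upwards [hspeed] with t ht htI
      rw [uIoc_of_le ha.le] at htI
      simpa [hF] using ht htI
    rw [this]
    simp
    ring
  have hmin : IsLocalMin (fun ε => ∫ t in (0:ℝ)..a, F ε t) 0 := by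
    filter_upwards [Metric.ball_mem_nhds (0 : ℝ) hε₀pos] with ε hε
    have hy : LipschitzWith (K + ‖ε‖₊ * L) fun t => x t + ε • η t := by
      refine hx.add ?_
      have := (lipschitzWith_smul ε).comp hη
      exact this
    have h1 := h.energy_ge hy (fun t => hδΩ (hmem ε hε t)) ha.le hc
    rw [hη0, hηa, smul_zero, add_zero, add_zero, hD] at h1
    have h2 : ∫ t in (0:ℝ)..a, (G (x t + ε • η t) (deriv (fun t => x t + ε • η t) t)
        (deriv (fun t => x t + ε • η t) t) + c ^ 2) / 2 =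
        ∫ t in (0:ℝ)..a, (F ε t + c ^ 2) / 2 := by
      refine intervalIntegral.integral_congr_ae ?_
      filter_upwards [hx.ae_differentiableAt_real, hη.ae_differentiableAt_real] with t ht1 ht2 _
      have : deriv (fun t => x t + ε • η t) t = deriv x t + ε • deriv η t :=
        (ht1.hasDerivAt.add (ht2.hasDerivAt.const_smul ε)).deriv
      rw [this]
    rw [h2, intervalIntegral.integral_div, intervalIntegral.integral_add (hFint ε hε)
      intervalIntegrable_const, intervalIntegral.integral_const] at h1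
    simp only [sub_zero, smul_eq_mul] at h1
    rw [hF0]
    linarith
  have h0 := hmin.hasDerivAt_eq_zero hderiv
  simpa [hF'] using h0


theorem intervalIntegrable_of_bdd' {f : ℝ → ℝ} (hf : StronglyMeasurable f) {C : ℝ}
    (hC : ∀ t, |f t| ≤ C) (a b : ℝ) : IntervalIntegrable f volume a b :=
  intervalIntegrable_of_bdd hf (C := C) fun t _ => hC t

theorem abs_integral_le {f : ℝ → ℝ} {C : ℝ} (hC : ∀ t, |f t| ≤ C) (a b : ℝ) :
    |∫ s in a..b, f s| ≤ C * |b - a| := by
  have := intervalIntegral.norm_integral_le_of_norm_le_const (a := a) (b := b) (f := f) (C := C)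
    fun x _ => by rw [Real.norm_eq_abs]; exact hC x
  rwa [Real.norm_eq_abs] at this

theorem lipschitzWith_integral {f : ℝ → ℝ} (hf : StronglyMeasurable f) {C : ℝ}
    (hC : ∀ t, |f t| ≤ C) : LipschitzWith (Real.toNNReal C) fun t => ∫ s in (0:ℝ)..t, f s := by
  have hC0 : 0 ≤ C := (abs_nonneg _).trans (hC 0)
  refine LipschitzWith.of_dist_le_mul fun s t => ?_
  rw [Real.coe_toNNReal _ hC0, Real.dist_eq, Real.dist_eq,
    intervalIntegral.integral_interval_sub_left (intervalIntegrable_of_bdd' hf hC _ _)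
      (intervalIntegrable_of_bdd' hf hC _ _)]
  exact abs_integral_le hC _ _

theorem locallyIntegrable_of_bdd {f : ℝ → ℝ} (hf : StronglyMeasurable f) {C : ℝ}
    (hC : ∀ t, |f t| ≤ C) : LocallyIntegrable f volume := by
  intro x
  refine ⟨Icc (x - 1) (x + 1), Icc_mem_nhds (by linarith) (by linarith), ?_⟩
  refine Measure.integrableOn_of_bounded (M := C) ?_ hf.aestronglyMeasurable ?_
  · simp
  · exact Eventually.of_forall fun t => hC t

/-- The lemma of du Bois-Reymond. -/
theorem du_bois_reymond {p q : ℝ → ℝ} (hp : StronglyMeasurable p) (hq : StronglyMeasurable q)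
    {C a : ℝ} (ha : 0 < a) (hpC : ∀ t, |p t| ≤ C) (hqC : ∀ t, |q t| ≤ C)
    (H : ∀ φ : ℝ → ℝ, ∀ L : NNReal, LipschitzWith L φ → φ 0 = 0 → φ a = 0 →
      (∃ B, ∀ t, |φ t| ≤ B) → ∫ t in (0:ℝ)..a, (q t * φ t + p t * deriv φ t) = 0) :
    ∃ k, ∀ᵐ t, t ∈ Ioc 0 a → p t = k + ∫ s in (0:ℝ)..t, q s := by
  have hC0 : 0 ≤ C := (abs_nonneg _).trans (hpC 0)
  set r : ℝ → ℝ := fun t => ∫ s in (0:ℝ)..t, q s with hr
  have hrL : LipschitzWith (Real.toNNReal C) r := lipschitzWith_integral hq hqC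
  set u : ℝ → ℝ := fun t => p t - r t with hu
  have hum : StronglyMeasurable u := hp.sub hrL.continuous.stronglyMeasurable
  have hrb : ∀ t ∈ Ioc 0 a, |r t| ≤ C * a := by
    intro t ht
    have h1 : |r t| ≤ C * |t - 0| := abs_integral_le hqC _ _
    rw [sub_zero, abs_of_pos ht.1] at h1
    exact h1.trans (by gcongr; exact ht.2)
  have hub : ∀ t ∈ Ioc 0 a, |u t| ≤ C + C * a := fun t ht =>
    (abs_sub _ _).trans (add_le_add (hpC t) (hrb t ht))
  set k : ℝ := (∫ t in (0:ℝ)..a, u t) / a with hk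
  set w : ℝ → ℝ := indicator (Ioc 0 a) (fun t => u t - k) with hw
  have hwm : StronglyMeasurable w := (hum.sub stronglyMeasurable_const).indicator measurableSet_Ioc
  have hwb : ∀ t, |w t| ≤ C + C * a + |k| := by
    intro t
    by_cases ht : t ∈ Ioc 0 a
    · rw [hw, indicator_of_mem ht]
      exact (abs_sub _ _).trans (by gcongr; exact hub t ht)
    · rw [hw, indicator_of_notMem ht, abs_zero]
      positivity
  have huint : IntervalIntegrable u volume 0 a := by
    rw [intervalIntegrable_iff_integrableOn_Ioc_of_le ha.le]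
    refine Measure.integrableOn_of_bounded (M := C + C * a) ?_ hum.aestronglyMeasurable ?_
    · simp
    · filter_upwards [ae_restrict_mem measurableSet_Ioc] with t ht
      exact hub t ht
  have hwu : ∀ t ∈ Ioc 0 a, w t = u t - k := fun t ht => by rw [hw, indicator_of_mem ht]
  set φ : ℝ → ℝ := fun t => ∫ s in (0:ℝ)..t, w s with hφ
  have hφL := lipschitzWith_integral hwm hwb
  have hφ0 : φ 0 = 0 := by simp [hφ]
  have hφa : φ a = 0 := by
    have : ∫ s in (0:ℝ)..a, w s = ∫ s in (0:ℝ)..a, (u s - k) := by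
      refine intervalIntegral.integral_congr_ae (Eventually.of_forall fun t ht => ?_)
      rw [uIoc_of_le ha.le] at ht
      exact hwu t ht
    simp only [hφ]
    rw [this, intervalIntegral.integral_sub huint intervalIntegrable_const,
      intervalIntegral.integral_const, sub_zero, smul_eq_mul, hk]
    field_simp
    ring
  have hφb : ∃ B, ∀ t, |φ t| ≤ B := by
    refine ⟨(C + C * a + |k|) * a, fun t => ?_⟩
    have hB0 : 0 ≤ C + C * a + |k| := by positivity
    by_cases ht0 : t ≤ 0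
    · have : φ t = 0 := by
        simp only [hφ]
        rw [intervalIntegral.integral_symm, intervalIntegral.integral_of_le ht0,
          setIntegral_congr_fun (g := fun _ => (0 : ℝ)) measurableSet_Ioc]
        · simp
        · intro s hs
          rw [hw]
          exact indicator_of_notMem (fun h => absurd h.1 (not_lt.2 hs.2)) _
      rw [this, abs_zero]
      positivity
    · push Not at ht0
      by_cases hta : t ≤ a
      · have h1 : |φ t| ≤ (C + C * a + |k|) * |t - 0| :=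
          abs_integral_le hwb _ _
        rw [sub_zero, abs_of_pos ht0] at h1
        exact h1.trans (by gcongr)
      · push Not at hta
        have : φ t = φ a + ∫ s in a..t, w s := by
          simp only [hφ]
          rw [intervalIntegral.integral_add_adjacent_intervals
            (intervalIntegrable_of_bdd' hwm hwb _ _) (intervalIntegrable_of_bdd' hwm hwb _ _)]
        rw [this, hφa, zero_add, intervalIntegral.integral_of_le hta.le,
          setIntegral_congr_fun (g := fun _ => (0 : ℝ)) measurableSet_Ioc]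
        · simp only [integral_zero, abs_zero]
          positivity
        · intro s hs
          rw [hw]
          exact indicator_of_notMem (fun h => absurd h.2 (not_le.2 hs.1)) _
  have h0 := H φ _ hφL hφ0 hφa hφb
  -- derivative of φ
  have hφd : ∀ᵐ t, deriv φ t = w t := by
    filter_upwards [LocallyIntegrable.ae_hasDerivAt_integral (locallyIntegrable_of_bdd hwm hwb)] with t ht
    exact (ht 0).deriv
  have hrd : ∀ᵐ t, deriv r t = q t := by
    filter_upwards [LocallyIntegrable.ae_hasDerivAt_integral (locallyIntegrable_of_bdd hq hqC)] with t ht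
    exact (ht 0).deriv
  have hibp := AbsolutelyContinuousOnInterval.integral_mul_deriv_eq_deriv_mul (f := r) (g := φ)
    (a := 0) (b := a) (hrL.lipschitzOnWith.absolutelyContinuousOnInterval)
    (hφL.lipschitzOnWith.absolutelyContinuousOnInterval)
  rw [hφ0, hφa, mul_zero, mul_zero, sub_zero, zero_sub] at hibp
  have i1 : ∫ t in (0:ℝ)..a, r t * deriv φ t = ∫ t in (0:ℝ)..a, r t * w t := by
    refine intervalIntegral.integral_congr_ae ?_
    filter_upwards [hφd] with t ht _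
    rw [ht]
  have i2 : ∫ t in (0:ℝ)..a, deriv r t * φ t = ∫ t in (0:ℝ)..a, q t * φ t := by
    refine intervalIntegral.integral_congr_ae ?_
    filter_upwards [hrd] with t ht _
    rw [ht]
  have i3 : ∫ t in (0:ℝ)..a, (q t * φ t + p t * deriv φ t) =
      ∫ t in (0:ℝ)..a, (q t * φ t + p t * w t) := by
    refine intervalIntegral.integral_congr_ae ?_
    filter_upwards [hφd] with t ht _
    rw [ht]
  have hwint : ∀ s t : ℝ, IntervalIntegrable w volume s t := fun s t =>
    intervalIntegrable_of_bdd' hwm hwb s t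
  have hqint : ∀ s t : ℝ, IntervalIntegrable q volume s t := fun s t =>
    intervalIntegrable_of_bdd' hq hqC s t
  have j1 : IntervalIntegrable (fun t => q t * φ t) volume 0 a :=
    (hqint 0 a).mul_continuousOn hφL.continuous.continuousOn
  have j2 : IntervalIntegrable (fun t => p t * w t) volume 0 a := by
    refine intervalIntegrable_of_bdd' (C := C * (C + C * a + |k|)) (hp.mul hwm) (fun t => ?_) _ _
    rw [Pi.mul_apply, abs_mul]
    exact mul_le_mul (hpC t) (hwb t) (abs_nonneg _) hC0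
  have j3 : IntervalIntegrable (fun t => r t * w t) volume 0 a :=
    (hwint 0 a).continuousOn_mul hrL.continuous.continuousOn
  rw [i3, intervalIntegral.integral_add j1 j2] at h0
  rw [i1, i2] at hibp
  have h1 : ∫ t in (0:ℝ)..a, (p t * w t - r t * w t) = 0 := by
    rw [intervalIntegral.integral_sub j2 j3]
    linarith
  have h2 : ∫ t in (0:ℝ)..a, (p t * w t - r t * w t) = ∫ t in (0:ℝ)..a, ((u t - k) ^ 2 + k * w t) := by
    refine intervalIntegral.integral_congr_ae (Eventually.of_forall fun t ht => ?_)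
    rw [uIoc_of_le ha.le] at ht
    rw [hwu t ht, hu]
    ring
  have j4 : IntervalIntegrable (fun t => (u t - k) ^ 2) volume 0 a := by
    rw [intervalIntegrable_iff_integrableOn_Ioc_of_le ha.le]
    refine Measure.integrableOn_of_bounded (M := (C + C * a + |k|) ^ 2) ?_
      ((hum.sub stronglyMeasurable_const).pow 2).aestronglyMeasurable ?_
    · simp
    · filter_upwards [ae_restrict_mem measurableSet_Ioc] with t ht
      rw [norm_pow, Real.norm_eq_abs, ← hwu t ht]
      have := hwb t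
      gcongr
  rw [h2, intervalIntegral.integral_add j4 ((hwint 0 a).const_mul k),
    intervalIntegral.integral_const_mul] at h1
  have h3 : ∫ t in (0:ℝ)..a, w t = 0 := hφa
  rw [h3, mul_zero, add_zero, intervalIntegral.integral_eq_zero_iff_of_le_of_nonneg_ae ha.le
    (Eventually.of_forall fun t => by positivity) j4] at h1
  refine ⟨k, ?_⟩
  rw [EventuallyEq, ae_restrict_iff' measurableSet_Ioc] at h1
  filter_upwards [h1] with t ht htI
  have h4 := ht htI
  simp only [Pi.zero_apply] at h4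
  have h5 : u t - k = 0 := by
    exact pow_eq_zero_iff two_ne_zero |>.1 h4
  have h6 : p t - r t = u t := rfl
  have h7 : r t = ∫ s in (0:ℝ)..t, q s := rfl
  linarith



theorem LocalMetric.exists_equiv (h : LocalMetric Ω G D) {p : E} (hp : p ∈ Ω) :
    ∃ e : E ≃L[ℝ] (E →L[ℝ] ℝ), (e : E →L[ℝ] E →L[ℝ] ℝ) = G p := by
  have hinj : Function.Injective (G p : E →ₗ[ℝ] (E →L[ℝ] ℝ)) := by
    rw [injective_iff_map_eq_zero]
    intro v hv
    by_contra hv0
    have h1 := h.pos p hp v hv0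
    have h2 : G p v = 0 := hv
    rw [h2] at h1
    simp at h1
  have hfr : Module.finrank ℝ E = Module.finrank ℝ (E →L[ℝ] ℝ) := by
    rw [← (LinearMap.toContinuousLinearMap (𝕜 := ℝ) (E := E) (F' := ℝ)).finrank_eq]
    exact (Subspace.dual_finrank_eq (K := ℝ) (V := E)).symm
  let e' : E ≃ₗ[ℝ] (E →L[ℝ] ℝ) := LinearEquiv.ofInjectiveOfFinrankEq
    (G p : E →ₗ[ℝ] (E →L[ℝ] ℝ)) hinj hfr
  refine ⟨e'.toContinuousLinearEquiv, ?_⟩
  ext v w
  rfl

/-- The inverse of the metric tensor. -/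
noncomputable def invG (G : E → E →L[ℝ] E →L[ℝ] ℝ) (p : E) : (E →L[ℝ] ℝ) →L[ℝ] E :=
  ContinuousLinearMap.inverse (G p)

theorem LocalMetric.invG_apply (h : LocalMetric Ω G D) {p : E} (hp : p ∈ Ω) (v : E) :
    invG G p (G p v) = v := by
  obtain ⟨e, he⟩ := h.exists_equiv hp
  rw [invG, ← he, ContinuousLinearMap.inverse_equiv]
  simp

theorem LocalMetric.apply_invG (h : LocalMetric Ω G D) {p : E} (hp : p ∈ Ω) (f : E →L[ℝ] ℝ) :
    G p (invG G p f) = f := by
  obtain ⟨e, he⟩ := h.exists_equiv hp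
  rw [invG, ← he, ContinuousLinearMap.inverse_equiv]
  simp

theorem LocalMetric.differentiableAt_invG (h : LocalMetric Ω G D) {p : E} (hp : p ∈ Ω) :
    DifferentiableAt ℝ (invG G) p := by
  obtain ⟨e, he⟩ := h.exists_equiv hp
  have h1 : DifferentiableAt ℝ (ContinuousLinearMap.inverse : (E →L[ℝ] E →L[ℝ] ℝ) → _) (G p) := by
    rw [← he]
    exact (contDiffAt_map_inverse (n := 1) e).differentiableAt one_ne_zero
  exact h1.comp p (h.hasFDerivAt hp).differentiableAt

theorem LocalMetric.continuousOn_invG (h : LocalMetric Ω G D) : ContinuousOn (invG G) Ω :=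
  fun _ hp => (h.differentiableAt_invG hp).continuousAt.continuousWithinAt

theorem LocalMetric.lipschitz_geodesic (h : LocalMetric Ω G D) {x : ℝ → E} {a c : ℝ}
    (hc : 0 ≤ c) (hxc : ContinuousOn x (Set.Icc 0 a)) (hx : ∀ t ∈ Set.Icc 0 a, x t ∈ Ω)
    (hgeo : ∀ s ∈ Set.Icc 0 a, ∀ t ∈ Set.Icc 0 a, D (x s) (x t) = c * |s - t|) :
    ∃ K, LipschitzOnWith K x (Icc 0 a) := by
  refine LocallyLipschitzOn.exists_lipschitzOnWith_of_compact isCompact_Icc ?_
  intro t₀ ht₀
  obtain ⟨m, M, hm, hM, hev⟩ := h.two_sided (hx t₀ ht₀)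
  have ht : Tendsto (fun q : ℝ × ℝ => (x q.1, x q.2)) (𝓝[Icc 0 a] t₀ ×ˢ 𝓝[Icc 0 a] t₀)
      (𝓝 (x t₀, x t₀)) := by
    rw [nhds_prod_eq]
    exact (hxc t₀ ht₀).tendsto.prodMap (hxc t₀ ht₀).tendsto
  have hev2 := ht.eventually hev
  rw [eventually_prod_self_iff'] at hev2
  obtain ⟨U, hU, hU2⟩ := hev2
  refine ⟨Real.toNNReal (c / m), U ∩ Icc 0 a, inter_mem hU self_mem_nhdsWithin, ?_⟩
  refine LipschitzOnWith.of_dist_le_mul fun s hs t ht => ?_
  rw [Real.coe_toNNReal _ (by positivity), Real.dist_eq, dist_eq_norm]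
  have h1 : m * ‖x s - x t‖ ≤ D (x s) (x t) := (hU2 s hs.1 t ht.1).1
  rw [hgeo s hs.2 t ht.2] at h1
  rw [div_mul_eq_mul_div, le_div_iff₀ hm]
  linarith

omit [FiniteDimensional ℝ E] in
theorem LocalMetric.speed_eq (h : LocalMetric Ω G D) {x : ℝ → E} {a c : ℝ}
    (ha : 0 < a) (hx : ∀ t ∈ Set.Icc 0 a, x t ∈ Ω)
    (hgeo : ∀ s ∈ Set.Icc 0 a, ∀ t ∈ Set.Icc 0 a, D (x s) (x t) = c * |s - t|) {t : ℝ}
    (ht : t ∈ Icc 0 a) {v : E} (hv : HasDerivWithinAt x v (Icc 0 a) t) :
    G (x t) v v = c ^ 2 := by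
  have h1 := h.tendsto_speed (hx t ht) hv
  have hne : (𝓝[Icc 0 a \ {t}] t).NeBot := by
    have := (uniqueDiffOn_Icc ha t ht).accPt
    rw [accPt_iff_frequently] at this
    rw [nhdsWithin_neBot]
    intro U hU
    obtain ⟨y, hy⟩ := (this.and_eventually hU).exists
    exact ⟨y, hy.2, hy.1.2, hy.1.1⟩
  have h2 : Tendsto (fun s => D (x s) (x t) / |s - t|) (𝓝[Icc 0 a \ {t}] t) (𝓝 c) := by
    refine tendsto_const_nhds.congr' ?_
    filter_upwards [self_mem_nhdsWithin] with s hs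
    have hst : 0 < |s - t| := abs_pos.2 (sub_ne_zero.2 hs.2)
    rw [hgeo s hs.1 t ht]
    field_simp
  have h3 := tendsto_nhds_unique h1 h2
  have hG0 : 0 ≤ G (x t) v v := by
    by_cases h0 : v = 0
    · simp [h0]
    · exact (h.pos _ (hx t ht) _ h0).le
  rw [← h3, Real.sq_sqrt hG0]



/-- The functional `w ↦ A w v v`. -/
noncomputable def quadF (A : E →L[ℝ] E →L[ℝ] E →L[ℝ] ℝ) (v : E) : E →L[ℝ] ℝ :=
  (A.flip v).flip v

omit [FiniteDimensional ℝ E] in
theorem quadF_apply (A : E →L[ℝ] E →L[ℝ] E →L[ℝ] ℝ) (v w : E) : quadF A v w = A w v v := by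
  simp [quadF]

theorem stronglyMeasurable_clm {F : ℝ → E →L[ℝ] ℝ} (hF : ∀ e, StronglyMeasurable fun t => F t e) :
    StronglyMeasurable F := by
  set b := Module.finBasis ℝ E
  have h1 : F = fun t => ∑ i, F t (b i) • LinearMap.toContinuousLinearMap (b.coord i) := by
    funext t
    apply ContinuousLinearMap.coe_injective
    refine b.ext fun j => ?_
    simp [Finsupp.single_apply]
  rw [h1]
  have h2 : ∀ i ∈ (Finset.univ : Finset (Fin (Module.finrank ℝ E))), StronglyMeasurable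
      fun t => F t (b i) • LinearMap.toContinuousLinearMap (b.coord i) := fun i _ =>
    (hF (b i)).smul_const _
  have h3 := Finset.stronglyMeasurable_sum Finset.univ h2
  convert h3 using 1
  funext t
  simp

omit [FiniteDimensional ℝ E] in
theorem norm_quadF_le (A : E →L[ℝ] E →L[ℝ] E →L[ℝ] ℝ) (v : E) {M K : ℝ} (hM : ‖A‖ ≤ M)
    (hK : ‖v‖ ≤ K) : ‖quadF A v‖ ≤ M * K * K := by
  have hM0 : 0 ≤ M := (norm_nonneg _).trans hM
  have hK0 : 0 ≤ K := (norm_nonneg _).trans hK
  refine ContinuousLinearMap.opNorm_le_bound _ (by positivity) fun w => ?_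
  rw [quadF_apply]
  calc ‖A w v v‖ ≤ ‖A w‖ * ‖v‖ * ‖v‖ := (A w).le_opNorm₂ _ _
    _ ≤ (‖A‖ * ‖w‖) * ‖v‖ * ‖v‖ := by
        gcongr
        exact A.le_opNorm _
    _ ≤ (M * ‖w‖) * K * K := by gcongr
    _ = M * K * K * ‖w‖ := by ring

omit [FiniteDimensional ℝ E] in
theorem intervalIntegrable_of_bdd_clm {Q : ℝ → E →L[ℝ] ℝ} (hQm : StronglyMeasurable Q) {C : ℝ}
    (hQb : ∀ t, ‖Q t‖ ≤ C) (s t : ℝ) : IntervalIntegrable Q volume s t := by
  rw [intervalIntegrable_iff]
  refine Measure.integrableOn_of_bounded (M := C) ?_ hQm.aestronglyMeasurable ?_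
  · simp [uIoc]
  · exact Eventually.of_forall fun t => hQb t

omit [FiniteDimensional ℝ E] in
theorem exists_bound_G (h : LocalMetric Ω G D) {S : Set E} (hS : IsCompact S) (hSΩ : S ⊆ Ω) :
    ∃ M, 0 ≤ M ∧ ∀ z ∈ S, ‖G z‖ ≤ M := by
  have hGn : ContinuousOn (fun z => ‖G z‖) S := (h.smooth.continuousOn.mono hSΩ).norm
  obtain ⟨M, hM⟩ := hS.bddAbove_image hGn
  exact ⟨max M 0, le_max_right _ _, fun z hz => (hM ⟨z, hz, rfl⟩).trans (le_max_left _ _)⟩

omit [FiniteDimensional ℝ E] in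
theorem exists_bound_fderiv (h : LocalMetric Ω G D) {S : Set E} (hS : IsCompact S) (hSΩ : S ⊆ Ω) :
    ∃ M, 0 ≤ M ∧ ∀ z ∈ S, ‖fderiv ℝ G z‖ ≤ M := by
  have hGn : ContinuousOn (fun z => ‖fderiv ℝ G z‖) S := (h.continuousOn_fderiv.mono hSΩ).norm
  obtain ⟨M, hM⟩ := hS.bddAbove_image hGn
  exact ⟨max M 0, le_max_right _ _, fun z hz => (hM ⟨z, hz, rfl⟩).trans (le_max_left _ _)⟩

/-- Scalar form of the Euler-Lagrange equation. -/
theorem key_scalar (h : LocalMetric Ω G D) {x : ℝ → E} {a c : ℝ} (ha : 0 < a) (hc : 0 ≤ c)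
    {K : NNReal} (hxL : LipschitzWith K x) {S : Set E} (hS : IsCompact S) (hSΩ : S ⊆ Ω)
    (hxS : ∀ t, x t ∈ S) (hD : D (x 0) (x a) = c * a)
    (hspeed : ∀ᵐ t, t ∈ Ioc 0 a → G (x t) (deriv x t) (deriv x t) = c ^ 2) (e : E) :
    ∃ k : ℝ, ∀ᵐ t, t ∈ Ioc 0 a → 2 * G (x t) (deriv x t) e =
      k + ∫ s in (0:ℝ)..t, quadF (fderiv ℝ G (x s)) (deriv x s) e := by
  have hxΩ : ∀ t, x t ∈ Ω := fun t => hSΩ (hxS t)
  have hxd : ∀ t, ‖deriv x t‖ ≤ K := fun t => norm_deriv_le_of_lipschitz hxL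
  obtain ⟨M, hM0, hM⟩ := exists_bound_G h hS hSΩ
  obtain ⟨M', hM'0, hM'⟩ := exists_bound_fderiv h hS hSΩ
  have hGc : Continuous fun t => G (x t) :=
    h.smooth.continuousOn.comp_continuous hxL.continuous hxΩ
  have hDGc : Continuous fun t => fderiv ℝ G (x t) :=
    h.continuousOn_fderiv.comp_continuous hxL.continuous hxΩ
  have hxm : StronglyMeasurable (deriv x) := stronglyMeasurable_deriv' x
  have hQe : ∀ e, StronglyMeasurable fun t => quadF (fderiv ℝ G (x t)) (deriv x t) e := by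
    intro e
    simp_rw [quadF_apply]
    have h1 : Continuous fun t => fderiv ℝ G (x t) e := hDGc.clm_apply continuous_const
    exact stronglyMeasurable_form h1.stronglyMeasurable hxm hxm
  have hQb : ∀ t, ‖quadF (fderiv ℝ G (x t)) (deriv x t)‖ ≤ M' * K * K := fun t =>
    norm_quadF_le _ _ (hM' _ (hxS t)) (hxd t)
  refine du_bois_reymond (p := fun t => 2 * G (x t) (deriv x t) e)
    (q := fun t => quadF (fderiv ℝ G (x t)) (deriv x t) e)
    (C := max (2 * (M * K * ‖e‖)) (M' * K * K * ‖e‖)) ?_ ?_ ha ?_ ?_ ?_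
  · exact (stronglyMeasurable_form hGc.stronglyMeasurable hxm
      stronglyMeasurable_const).const_mul 2
  · exact hQe e
  · intro t
    refine le_trans ?_ (le_max_left _ _)
    rw [abs_mul, abs_two]
    have h1 : |G (x t) (deriv x t) e| ≤ M * K * ‖e‖ := by
      calc ‖G (x t) (deriv x t) e‖ ≤ ‖G (x t)‖ * ‖deriv x t‖ * ‖e‖ := (G (x t)).le_opNorm₂ _ _
        _ ≤ M * K * ‖e‖ := by
          have := hM _ (hxS t)
          have := hxd t
          gcongr
    linarith
  · intro t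
    refine le_trans ?_ (le_max_right _ _)
    exact ((quadF (fderiv ℝ G (x t)) (deriv x t)).le_opNorm e).trans (by gcongr; exact hQb t)
  · intro φ L hφ hφ0 hφa hφb
    obtain ⟨B, hB⟩ := hφb
    have hη : LipschitzWith (L * ‖e‖₊) fun t => φ t • e := by
      refine LipschitzWith.of_dist_le_mul fun s t => ?_
      rw [dist_eq_norm, ← sub_smul, norm_smul]
      have h1 := hφ.dist_le_mul s t
      rw [Real.dist_eq] at h1
      calc ‖φ s - φ t‖ * ‖e‖ ≤ (L * dist s t) * ‖e‖ := by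
            gcongr
            exact h1
        _ = ((L * ‖e‖₊ : NNReal) : ℝ) * dist s t := by
            push_cast
            ring
    have h1 := h.first_variation hxL hS hSΩ hxS ha hc hD hspeed hη (by simp [hφ0])
      (by simp [hφa]) (B := B * ‖e‖) (by
        intro t
        rw [norm_smul]
        gcongr
        exact hB t)
    refine Eq.trans ?_ h1
    refine intervalIntegral.integral_congr_ae ?_
    filter_upwards [hφ.ae_differentiableAt_real] with t ht _
    rw [deriv_smul_const ht, quadF_apply]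
    simp only [map_smul, smul_apply, smul_eq_mul]
    rw [h.symm (x t) (hxΩ t) e (deriv x t)]
    ring



/-- Vector form of the Euler-Lagrange equation. -/
theorem key_vector (h : LocalMetric Ω G D) {x : ℝ → E} {a c : ℝ} (ha : 0 < a) (hc : 0 ≤ c)
    {K : NNReal} (hxL : LipschitzWith K x) {S : Set E} (hS : IsCompact S) (hSΩ : S ⊆ Ω)
    (hxS : ∀ t, x t ∈ S) (hD : D (x 0) (x a) = c * a)
    (hspeed : ∀ᵐ t, t ∈ Ioc 0 a → G (x t) (deriv x t) (deriv x t) = c ^ 2) :
    ∃ k : E →L[ℝ] ℝ, (∀ s t, IntervalIntegrable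
        (fun s => quadF (fderiv ℝ G (x s)) (deriv x s)) volume s t) ∧
      ∀ᵐ t, t ∈ Ioc 0 a → (2 : ℝ) • G (x t) (deriv x t) =
      k + ∫ s in (0:ℝ)..t, quadF (fderiv ℝ G (x s)) (deriv x s) := by
  have hxΩ : ∀ t, x t ∈ Ω := fun t => hSΩ (hxS t)
  have hxd : ∀ t, ‖deriv x t‖ ≤ K := fun t => norm_deriv_le_of_lipschitz hxL
  obtain ⟨M', hM'0, hM'⟩ := exists_bound_fderiv h hS hSΩ
  have hDGc : Continuous fun t => fderiv ℝ G (x t) :=
    h.continuousOn_fderiv.comp_continuous hxL.continuous hxΩ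
  have hxm : StronglyMeasurable (deriv x) := stronglyMeasurable_deriv' x
  have hQm : StronglyMeasurable fun t => quadF (fderiv ℝ G (x t)) (deriv x t) := by
    refine stronglyMeasurable_clm fun e => ?_
    simp_rw [quadF_apply]
    have h1 : Continuous fun t => fderiv ℝ G (x t) e := hDGc.clm_apply continuous_const
    exact stronglyMeasurable_form h1.stronglyMeasurable hxm hxm
  have hQb : ∀ t, ‖quadF (fderiv ℝ G (x t)) (deriv x t)‖ ≤ M' * K * K := fun t =>
    norm_quadF_le _ _ (hM' _ (hxS t)) (hxd t)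
  have hQi := intervalIntegrable_of_bdd_clm hQm hQb
  set b := Module.finBasis ℝ E with hb
  choose k hk using fun i => key_scalar h ha hc hxL hS hSΩ hxS hD hspeed (b i)
  refine ⟨LinearMap.toContinuousLinearMap (b.constr ℝ k), hQi, ?_⟩
  have := eventually_countable_forall.2 hk
  filter_upwards [this] with t ht htI
  apply ContinuousLinearMap.coe_injective
  refine b.ext fun i => ?_
  have h1 := ht i htI
  simp only [ContinuousLinearMap.coe_coe, smul_apply, add_apply, smul_eq_mul,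
    LinearMap.coe_toContinuousLinearMap']
  rw [h1, ContinuousLinearMap.intervalIntegral_apply (hQi 0 t), Module.Basis.constr_basis]

theorem continuous_quadF_comp {A : ℝ → E →L[ℝ] E →L[ℝ] E →L[ℝ] ℝ} {v : ℝ → E}
    (hA : Continuous A) (hv : Continuous v) : Continuous fun t => quadF (A t) (v t) := by
  rw [continuous_clm_apply]
  intro e
  simp_rw [quadF_apply]
  have h1 : Continuous fun t => A t e := hA.clm_apply continuous_const
  exact (h1.clm_apply hv).clm_apply hv

theorem exists_velocity (h : LocalMetric Ω G D) {x : ℝ → E} {a c : ℝ} (ha : 0 < a) (hc : 0 ≤ c)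
    {K : NNReal} (hxL : LipschitzWith K x) {S : Set E} (hS : IsCompact S) (hSΩ : S ⊆ Ω)
    (hxS : ∀ t, x t ∈ S) (hD : D (x 0) (x a) = c * a)
    (hspeed : ∀ᵐ t, t ∈ Ioc 0 a → G (x t) (deriv x t) (deriv x t) = c ^ 2) :
    ∃ (v : ℝ → E) (k : E →L[ℝ] ℝ), Continuous v ∧
      (∀ t ∈ Icc 0 a, HasDerivWithinAt x (v t) (Icc 0 a) t) ∧
      ∀ t ∈ Icc 0 a, (2 : ℝ) • G (x t) (v t) =
        k + ∫ s in (0:ℝ)..t, quadF (fderiv ℝ G (x s)) (v s) := by
  have hxΩ : ∀ t, x t ∈ Ω := fun t => hSΩ (hxS t)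
  obtain ⟨k, hQi, hae⟩ := key_vector h ha hc hxL hS hSΩ hxS hD hspeed
  set R : ℝ → E →L[ℝ] ℝ := fun t => ∫ s in (0:ℝ)..t, quadF (fderiv ℝ G (x s)) (deriv x s) with hR
  have hRc : Continuous R := intervalIntegral.continuous_primitive hQi 0
  have hIc : Continuous fun t => invG G (x t) :=
    h.continuousOn_invG.comp_continuous hxL.continuous hxΩ
  set v : ℝ → E := fun t => invG G (x t) ((1 / 2 : ℝ) • (k + R t)) with hv
  have hkR : Continuous fun t => (1 / 2 : ℝ) • (k + R t) := by fun_prop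
  have hvc : Continuous v := hIc.clm_apply hkR
  have hvG : ∀ t, (2 : ℝ) • G (x t) (v t) = k + R t := fun t => by
    simp only [hv]
    rw [h.apply_invG (hxΩ t), smul_smul]
    norm_num
  have hvae : ∀ᵐ t, t ∈ Ioc 0 a → deriv x t = v t := by
    filter_upwards [hae] with t ht htI
    simp only [hv]
    rw [← ht htI, smul_smul]
    norm_num
    rw [h.invG_apply (hxΩ t)]
  have hVd : ∀ t, HasDerivAt (fun t => ∫ s in (0:ℝ)..t, v s) (v t) t := fun t =>
    intervalIntegral.integral_hasDerivAt_right (hvc.intervalIntegrable _ _)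
      hvc.aestronglyMeasurable.stronglyMeasurableAtFilter hvc.continuousAt
  have hxV : ∃ C, ∀ t ∈ Icc 0 a, x t - ∫ s in (0:ℝ)..t, v s = C := by
    have h1 : AbsolutelyContinuousOnInterval (fun t => x t - ∫ s in (0:ℝ)..t, v s) 0 a := by
      refine hxL.lipschitzOnWith.absolutelyContinuousOnInterval.sub ?_
      have : ContDiff ℝ 1 fun t => ∫ s in (0:ℝ)..t, v s := by
        rw [contDiff_one_iff_deriv]
        refine ⟨fun t => (hVd t).differentiableAt, ?_⟩
        have : deriv (fun t => ∫ s in (0:ℝ)..t, v s) = v := funext fun t => (hVd t).deriv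
        rw [this]
        exact hvc
      exact this.contDiffOn.absolutelyContinuousOnInterval
    have h2 : ∀ᵐ t, t ∈ uIcc 0 a → HasDerivAt (fun t => x t - ∫ s in (0:ℝ)..t, v s) 0 t := by
      have hne : ∀ᵐ t : ℝ, t ≠ 0 := by simp [ae_iff, measure_singleton]
      filter_upwards [hxL.ae_differentiableAt_real, hvae, hne] with t ht1 ht2 ht3 ht4
      rw [uIcc_of_le ha.le] at ht4
      have h5 := ht1.hasDerivAt.sub (hVd t)
      rw [ht2 ⟨lt_of_le_of_ne ht4.1 (Ne.symm ht3), ht4.2⟩, sub_self] at h5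
      exact h5
    obtain ⟨C, hC⟩ := h1.const_of_ae_hasDerivAt_zero h2
    exact ⟨C, fun t ht => hC t (by rwa [uIcc_of_le ha.le])⟩
  obtain ⟨C, hC⟩ := hxV
  refine ⟨v, k, hvc, fun t ht => ?_, fun t ht => ?_⟩
  · have h1 : HasDerivWithinAt (fun t => C + ∫ s in (0:ℝ)..t, v s) (v t) (Icc 0 a) t := by
      simpa using ((hVd t).const_add C).hasDerivWithinAt
    refine h1.congr (fun s hs => ?_) ?_
    · rw [← hC s hs]; abel
    · rw [← hC t ht]; abel
  · rw [hvG]
    congr 1
    simp only [hR]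
    refine intervalIntegral.integral_congr_ae ?_
    filter_upwards [hvae] with s hs hsI
    rw [uIoc_of_le ht.1] at hsI
    rw [hs ⟨hsI.1, hsI.2.trans ht.2⟩]

/-- The case of a globally Lipschitz curve. -/
theorem geodesic_ode_aux (h : LocalMetric Ω G D) {x : ℝ → E} {a c : ℝ} (ha : 0 < a) (hc : 0 ≤ c)
    {K : NNReal} (hxL : LipschitzWith K x) {S : Set E} (hS : IsCompact S) (hSΩ : S ⊆ Ω)
    (hxS : ∀ t, x t ∈ S)
    (hgeo : ∀ s ∈ Set.Icc 0 a, ∀ t ∈ Set.Icc 0 a, D (x s) (x t) = c * |s - t|) :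
    ∃ v acc : ℝ → E, ContinuousOn acc (Set.Icc 0 a) ∧ ∀ t ∈ Set.Icc 0 a,
      HasDerivWithinAt x (v t) (Set.Icc 0 a) t ∧ HasDerivWithinAt v (acc t) (Set.Icc 0 a) t ∧
      G (x t) (v t) (v t) = c ^ 2 ∧
      ∀ w : E, G (x t) (acc t) w =
        (1 / 2) * (fderiv ℝ G (x t) w) (v t) (v t) - (fderiv ℝ G (x t) (v t)) (v t) w := by
  have hxΩ : ∀ t, x t ∈ Ω := fun t => hSΩ (hxS t)
  have hxΩ' : ∀ t ∈ Icc 0 a, x t ∈ Ω := fun t _ => hxΩ t
  have h0a : (0 : ℝ) ∈ Icc 0 a := left_mem_Icc.2 ha.le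
  have haa : a ∈ Icc 0 a := right_mem_Icc.2 ha.le
  have hD : D (x 0) (x a) = c * a := by
    rw [hgeo 0 h0a a haa, zero_sub, abs_neg, abs_of_pos ha]
  have hspeed : ∀ᵐ t, t ∈ Ioc 0 a → G (x t) (deriv x t) (deriv x t) = c ^ 2 := by
    filter_upwards [hxL.ae_differentiableAt_real] with t ht htI
    exact h.speed_eq ha hxΩ' hgeo (Ioc_subset_Icc_self htI) ht.hasDerivAt.hasDerivWithinAt
  obtain ⟨v, k, hvc, hxder, hvR⟩ := exists_velocity h ha hc hxL hS hSΩ hxS hD hspeed
  have hDGc : Continuous fun t => fderiv ℝ G (x t) :=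
    h.continuousOn_fderiv.comp_continuous hxL.continuous hxΩ
  have hIc : Continuous fun t => invG G (x t) :=
    h.continuousOn_invG.comp_continuous hxL.continuous hxΩ
  set Q' : ℝ → E →L[ℝ] ℝ := fun t => quadF (fderiv ℝ G (x t)) (v t) with hQ'
  have hQ'c : Continuous Q' := continuous_quadF_comp hDGc hvc
  set R : ℝ → E →L[ℝ] ℝ := fun t => (1 / 2 : ℝ) • (k + ∫ s in (0:ℝ)..t, Q' s) with hR
  have hRd : ∀ t, HasDerivAt R ((1 / 2 : ℝ) • Q' t) t := by
    intro t
    have h1 : HasDerivAt (fun t => ∫ s in (0:ℝ)..t, Q' s) (Q' t) t :=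
      intervalIntegral.integral_hasDerivAt_right (hQ'c.intervalIntegrable _ _)
        hQ'c.aestronglyMeasurable.stronglyMeasurableAtFilter hQ'c.continuousAt
    exact (h1.const_add k).const_smul (1 / 2 : ℝ)
  have hGR : ∀ t ∈ Icc 0 a, G (x t) (v t) = R t := by
    intro t ht
    simp only [hR]
    rw [← hvR t ht, smul_smul]
    norm_num
  have hvI : ∀ t ∈ Icc 0 a, v t = invG G (x t) (R t) := by
    intro t ht
    rw [← hGR t ht, h.invG_apply (hxΩ t)]
  have hvdiff : ∀ t ∈ Icc 0 a, DifferentiableWithinAt ℝ v (Icc 0 a) t := by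
    intro t ht
    have h1 : HasDerivWithinAt (fun t => invG G (x t)) (fderiv ℝ (invG G) (x t) (v t))
        (Icc 0 a) t :=
      (h.differentiableAt_invG (hxΩ t)).hasFDerivAt.comp_hasDerivWithinAt t (hxder t ht)
    exact ((h1.clm_apply (hRd t).hasDerivWithinAt).congr hvI (hvI t ht)).differentiableWithinAt
  set acc : ℝ → E := fun t => derivWithin v (Icc 0 a) t with hacc
  have haccd : ∀ t ∈ Icc 0 a, HasDerivWithinAt v (acc t) (Icc 0 a) t := fun t ht =>
    (hvdiff t ht).hasDerivWithinAt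
  have heq : ∀ t ∈ Icc 0 a, G (x t) (acc t) =
      (1 / 2 : ℝ) • Q' t - (fderiv ℝ G (x t) (v t)) (v t) := by
    intro t ht
    have h1 : HasDerivWithinAt (fun t => G (x t)) (fderiv ℝ G (x t) (v t)) (Icc 0 a) t :=
      (h.hasFDerivAt (hxΩ t)).comp_hasDerivWithinAt t (hxder t ht)
    have h2 := h1.clm_apply (haccd t ht)
    have h3 : HasDerivWithinAt (fun t => G (x t) (v t)) ((1 / 2 : ℝ) • Q' t) (Icc 0 a) t :=
      (hRd t).hasDerivWithinAt.congr hGR (hGR t ht)
    have h4 := (uniqueDiffOn_Icc ha t ht).eq_deriv _ h2 h3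
    rw [← h4]
    abel
  refine ⟨v, acc, ?_, fun t ht => ⟨hxder t ht, haccd t ht,
    h.speed_eq ha hxΩ' hgeo ht (hxder t ht), fun w => ?_⟩⟩
  · have h0 : Continuous fun t => (fderiv ℝ G (x t) (v t)) (v t) :=
      (hDGc.clm_apply hvc).clm_apply hvc
    have h0' : Continuous fun t => (1 / 2 : ℝ) • Q' t - (fderiv ℝ G (x t) (v t)) (v t) :=
      Continuous.sub (by fun_prop) h0
    have h1 : Continuous fun t => invG G (x t) ((1 / 2 : ℝ) • Q' t -
        (fderiv ℝ G (x t) (v t)) (v t)) := hIc.clm_apply h0'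
    refine h1.continuousOn.congr fun t ht => ?_
    beta_reduce
    rw [← heq t ht, h.invG_apply (hxΩ t)]
  · rw [heq t ht, sub_apply, smul_apply, hQ', quadF_apply, smul_eq_mul]

theorem geodesic_ode (h : LocalMetric Ω G D) {x : ℝ → E} {a c : ℝ} (ha : 0 < a) (hc : 0 ≤ c)
    (hxc : ContinuousOn x (Set.Icc 0 a)) (hx : ∀ t ∈ Set.Icc 0 a, x t ∈ Ω)
    (hgeo : ∀ s ∈ Set.Icc 0 a, ∀ t ∈ Set.Icc 0 a, D (x s) (x t) = c * |s - t|) :
    ∃ v acc : ℝ → E, ContinuousOn acc (Set.Icc 0 a) ∧ ∀ t ∈ Set.Icc 0 a,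
      HasDerivWithinAt x (v t) (Set.Icc 0 a) t ∧ HasDerivWithinAt v (acc t) (Set.Icc 0 a) t ∧
      G (x t) (v t) (v t) = c ^ 2 ∧
      ∀ w : E, G (x t) (acc t) w =
        (1 / 2) * (fderiv ℝ G (x t) w) (v t) (v t) - (fderiv ℝ G (x t) (v t)) (v t) w := by
  obtain ⟨K, hK⟩ := h.lipschitz_geodesic hc hxc hx hgeo
  set y : ℝ → E := fun t => x (projIcc 0 a ha.le t) with hy
  have hyL : LipschitzWith K y := by
    have h1 : LipschitzWith K ((Icc 0 a).domRestrict x) := hK.to_restrict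
    have h2 := h1.comp (LipschitzWith.projIcc ha.le)
    rw [mul_one] at h2
    exact h2
  have hyx : ∀ t ∈ Icc 0 a, y t = x t := by
    intro t ht
    simp only [hy]
    rw [projIcc_of_mem ha.le ht]
  have hyS : ∀ t, y t ∈ x '' Icc 0 a := fun t => ⟨_, (projIcc 0 a ha.le t).2, rfl⟩
  have hSΩ : x '' Icc 0 a ⊆ Ω := by
    rintro _ ⟨t, ht, rfl⟩
    exact hx t ht
  obtain ⟨v, acc, hacc, hv⟩ := geodesic_ode_aux h ha hc hyL (isCompact_Icc.image_of_continuousOn hxc)
    hSΩ hyS (fun s hs t ht => by rw [hyx s hs, hyx t ht]; exact hgeo s hs t ht)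
  refine ⟨v, acc, hacc, fun t ht => ?_⟩
  obtain ⟨h1, h2, h3, h4⟩ := hv t ht
  rw [hyx t ht] at h3
  refine ⟨h1.congr (fun s hs => (hyx s hs).symm) (hyx t ht).symm, h2, h3, fun w => ?_⟩
  have := h4 w
  rwa [hyx t ht] at this

end GeodOde

end Pool.Agent.W_MP_6d5819_gt
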