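import Pool.Agent.W_MP_6d5819_gt.Defs

set_option autoImplicit false

/-! The kernel of the operator `t`: pure algebra over a field of characteristic two. -/

namespace Pool.Agent.W_MP_6d5819_gt

namespace KerAux

variable {ι Y K : Type}

open Classical in
/-- product of the commuting involutions selected by `a` -/
noncomputable def act [Fintype ι] (E : ι → Equiv.Perm Y)
    (hE : ∀ i j, Commute (E i) (E j)) (a : ι → ZMod 2) : Equiv.Perm Y :=
  Finset.univ.noncommProd (fun i => if a i = 0 then 1 else E i) (by
    intro i _ j _ _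
    simp only [Function.onFun]
    split_ifs
    · exact Commute.one_left _
    · exact Commute.one_left _
    · exact Commute.one_right _
    · exact hE i j)

lemma act_add [Fintype ι] (E : ι → Equiv.Perm Y) (hE : ∀ i j, Commute (E i) (E j))
    (hE2 : ∀ i, E i * E i = 1) (a b : ι → ZMod 2) :
    act E hE (a + b) = act E hE a * act E hE b := by
  classical
  unfold act
  rw [← Finset.noncommProd_mul_distrib]
  · apply Finset.noncommProd_congr rfl
    intro i _
    simp only [Pi.mul_apply, Pi.add_apply]
    have h2 : ∀ x : ZMod 2, x = 0 ∨ x = 1 := by decide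
    rcases h2 (a i) with h | h <;> rcases h2 (b i) with h' | h'
    · simp [h, h']
    · simp [h, h']
    · simp [h, h']
    · have h11 : (1 : ZMod 2) + 1 = 0 := by decide
      simp [h, h', h11, hE2]
  · intro i _ j _ _
    split_ifs
    · exact Commute.one_left _
    · exact Commute.one_left _
    · exact Commute.one_right _
    · exact hE _ _

lemma act_single [Fintype ι] [DecidableEq ι] (E : ι → Equiv.Perm Y)
    (hE : ∀ i j, Commute (E i) (E j)) (i : ι) :
    act E hE (Pi.single i 1) = E i := by
  unfold act
  rw [← Finset.mul_noncommProd_erase _ (Finset.mem_univ i),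
    Finset.noncommProd_eq_pow_card _ _ _ 1]
  · simp
  · intro x hx
    rw [if_pos]
    rw [Pi.single_eq_of_ne (Finset.mem_erase.mp hx).1]

lemma exists_ell [Fintype ι] (g : ι → Y → Y) (hg : ∀ i y, g i (g i y) = y)
    (hc : ∀ i j y, g i (g j y) = g j (g i y)) (y : Y) (hy : ¬ ∀ i, g i y = y) :
    ∃ (O : Set Y) (lam : ι → ZMod 2) (l : Y → ZMod 2), y ∈ O ∧ (∀ i, ∀ z ∈ O, g i z ∈ O) ∧
      (∃ i, lam i ≠ 0) ∧ ∀ i, ∀ z ∈ O, l (g i z) = l z + lam i := by
  classical
  let E : ι → Equiv.Perm Y := fun i => Function.Involutive.toPerm (g i) (hg i)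
  have hEa : ∀ i z, E i z = g i z := fun i z => rfl
  have hE : ∀ i j, Commute (E i) (E j) := by
    intro i j
    apply Equiv.ext
    intro z
    simp only [Equiv.Perm.mul_apply, hEa]
    exact hc i j z
  have hE2 : ∀ i, E i * E i = 1 := by
    intro i
    apply Equiv.ext
    intro z
    simp only [Equiv.Perm.mul_apply, hEa, Equiv.Perm.one_apply]
    exact hg i z
  have hz : act E hE 0 = 1 := by
    have h1 := act_add E hE hE2 0 0
    rw [add_zero] at h1
    exact left_eq_mul.mp h1
  have hbb : ∀ b : ι → ZMod 2, b + b = 0 := by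
    intro b
    funext i
    have : ∀ x : ZMod 2, x + x = 0 := by decide
    exact this (b i)
  let W : Submodule (ZMod 2) (ι → ZMod 2) :=
    { carrier := {a | act E hE a y = y}
      add_mem' := by
        intro a b ha hb
        simp only [Set.mem_ofPred_eq] at ha hb ⊢
        rw [act_add E hE hE2, Equiv.Perm.mul_apply, hb, ha]
      zero_mem' := by
        simp only [Set.mem_ofPred_eq]
        rw [hz]
        rfl
      smul_mem' := by
        intro c a ha
        simp only [Set.mem_ofPred_eq] at ha ⊢
        have h2 : ∀ x : ZMod 2, x = 0 ∨ x = 1 := by decide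
        rcases h2 c with h | h
        · rw [h, zero_smul, hz]; rfl
        · rw [h, one_smul]; exact ha }
  have hW : W < ⊤ := by
    rw [lt_top_iff_ne_top]
    intro h
    apply hy
    intro i
    have h1 : (Pi.single i 1 : ι → ZMod 2) ∈ W := by rw [h]; trivial
    have h2 : act E hE (Pi.single i 1) y = y := h1
    rw [act_single] at h2
    exact h2
  obtain ⟨f, hf0, hf⟩ := Submodule.exists_le_ker_of_lt_top W hW
  have key : ∀ b c : ι → ZMod 2, act E hE b y = act E hE c y → f b = f c := by
    intro b c h
    have h1 : b + c ∈ W := by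
      change act E hE (b + c) y = y
      rw [act_add E hE hE2, Equiv.Perm.mul_apply, ← h, ← Equiv.Perm.mul_apply,
        ← act_add E hE hE2, hbb, hz]
      rfl
    have h2 : f (b + c) = 0 := hf h1
    rw [map_add] at h2
    have h3 : ∀ x z : ZMod 2, x + z = 0 → x = z := by decide
    exact h3 _ _ h2
  refine ⟨{z | ∃ a, act E hE a y = z}, fun i => f (Pi.single i 1),
    fun z => if h : ∃ a, act E hE a y = z then f h.choose else 0, ?_, ?_, ?_, ?_⟩
  · exact ⟨0, by rw [hz]; rfl⟩
  · rintro i z ⟨a, rfl⟩
    refine ⟨Pi.single i 1 + a, ?_⟩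
    rw [act_add E hE hE2, Equiv.Perm.mul_apply, act_single]
    rfl
  · by_contra h
    push Not at h
    apply hf0
    apply LinearMap.pi_ext
    intro i x
    have h2 : ∀ x : ZMod 2, x = 0 ∨ x = 1 := by decide
    rcases h2 x with h' | h'
    · rw [h', Pi.single_zero, map_zero, LinearMap.zero_apply]
    · rw [h', h i, LinearMap.zero_apply]
  · rintro i z ⟨a, ha⟩
    have h1 : ∃ b, act E hE b y = g i z := by
      refine ⟨Pi.single i 1 + a, ?_⟩
      rw [act_add E hE hE2, Equiv.Perm.mul_apply, act_single, ha]
      rfl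
    have h2 : ∃ b, act E hE b y = z := ⟨a, ha⟩
    simp only
    rw [dif_pos h1, dif_pos h2]
    rw [add_comm, ← map_add]
    apply key
    rw [h1.choose_spec, act_add E hE hE2, Equiv.Perm.mul_apply, act_single, h2.choose_spec]
    rfl

/-- the operator of a single involution -/
noncomputable def GG (K : Type) [Field K] (g : Y → Y) : (Y →₀ K) →ₗ[K] (Y →₀ K) :=
  Finsupp.lmapDomain K K g

lemma GG_single [Field K] (g : Y → Y) (z : Y) (r : K) :
    GG K g (Finsupp.single z r) = Finsupp.single (g z) r := by
  simp [GG]

lemma GG_comm [Field K] (g h : Y → Y) (hc : ∀ y, g (h y) = h (g y)) (v : Y →₀ K) :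
    GG K g (GG K h v) = GG K h (GG K g v) := by
  induction v using Finsupp.induction_linear with
  | zero => simp
  | add a b ha hb => simp only [map_add, ha, hb]
  | single z r => rw [GG_single, GG_single, GG_single, GG_single, hc]

lemma GG_inv [Field K] (g : Y → Y) (hg : ∀ y, g (g y) = y) (v : Y →₀ K) :
    GG K g (GG K g v) = v := by
  induction v using Finsupp.induction_linear with
  | zero => simp
  | add a b ha hb => simp only [map_add, ha, hb]
  | single z r => rw [GG_single, GG_single, hg]

lemma GG_mem [Field K] (g : Y → Y) (P : Set Y) (hP : ∀ y ∈ P, g y ∈ P) {v : Y →₀ K}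
    (hv : v ∈ Finsupp.supported K K P) : GG K g v ∈ Finsupp.supported K K P := by
  classical
  rw [Finsupp.mem_supported] at hv ⊢
  intro x hx
  have h1 := Finsupp.mapDomain_support (f := g) (s := v) (by simpa [GG] using hx)
  rw [Finset.mem_image] at h1
  obtain ⟨y, hy, rfl⟩ := h1
  exact hP y (hv hy)

/-- multiplication operator -/
noncomputable def MM [Field K] (l : Y → K) : (Y →₀ K) →ₗ[K] (Y →₀ K) :=
  Finsupp.linearCombination K (fun z => Finsupp.single z (l z))

lemma MM_single [Field K] (l : Y → K) (z : Y) (r : K) :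
    MM l (Finsupp.single z r) = Finsupp.single z (r * l z) := by
  simp [MM]

lemma MM_apply [Field K] (l : Y → K) (v : Y →₀ K) (z : Y) : MM l v z = v z * l z := by
  classical
  induction v using Finsupp.induction_linear with
  | zero => simp
  | add a b ha hb => simp only [map_add, Finsupp.add_apply, ha, hb, add_mul]
  | single y r =>
    rw [MM_single, Finsupp.single_apply, Finsupp.single_apply]
    split_ifs with h
    · rw [h]
    · simp

lemma MM_mem [Field K] (l : Y → K) (P : Set Y) {v : Y →₀ K}
    (hv : v ∈ Finsupp.supported K K P) : MM l v ∈ Finsupp.supported K K P := by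
  rw [Finsupp.mem_supported] at hv ⊢
  intro x hx
  apply hv
  rw [Finset.mem_coe, Finsupp.mem_support_iff] at hx ⊢
  intro h
  apply hx
  rw [MM_apply, h, zero_mul]

/-- the twisting operator -/
noncomputable def UU [Fintype ι] [Field K] (g : ι → Y → Y) (β : ι → K) :
    (Y →₀ K) →ₗ[K] (Y →₀ K) := ∑ i, β i • GG K (g i)

lemma tOp_apply [Fintype ι] [Field K] (g : ι → Y → Y) (α : ι → K) (v : Y →₀ K) :
    tOp g α v = ∑ i, α i • (GG K (g i) v + v) := by
  simp only [tOp, GG, LinearMap.sum_apply, LinearMap.smul_apply, LinearMap.add_apply,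
    LinearMap.id_apply]

lemma UU_apply [Fintype ι] [Field K] (g : ι → Y → Y) (β : ι → K) (v : Y →₀ K) :
    UU g β v = ∑ i, β i • GG K (g i) v := by
  simp only [UU, LinearMap.sum_apply, LinearMap.smul_apply]

lemma UU_tOp [Fintype ι] [Field K] (g : ι → Y → Y) (α β : ι → K)
    (hc : ∀ i j y, g i (g j y) = g j (g i y)) (v : Y →₀ K) :
    UU g β (tOp g α v) = tOp g α (UU g β v) := by
  rw [UU_apply, UU_apply, tOp_apply, tOp_apply]
  simp only [map_sum, map_smul, map_add, Finset.smul_sum, smul_add]
  rw [Finset.sum_comm]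
  apply Finset.sum_congr rfl
  intro i _
  rw [Finset.sum_add_distrib]
  congr 1
  · apply Finset.sum_congr rfl
    intro j _
    rw [GG_comm (g j) (g i) (hc j i), smul_comm]
  · apply Finset.sum_congr rfl
    intro j _
    rw [smul_comm]

lemma add_self_zero [Field K] [CharP K 2] (v : Y →₀ K) : v + v = 0 := by
  ext z
  rw [Finsupp.add_apply, Finsupp.zero_apply]
  exact CharTwo.add_self_eq_zero _

lemma UU_UU [Fintype ι] [Field K] [CharP K 2] (g : ι → Y → Y) (β : ι → K)
    (hg : ∀ i y, g i (g i y) = y) (hc : ∀ i j y, g i (g j y) = g j (g i y)) (v : Y →₀ K) :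
    UU g β (UU g β v) = (∑ i, β i) ^ 2 • v := by
  classical
  have h : ∀ s : Finset ι, ∑ i ∈ s, β i • GG K (g i) (∑ j ∈ s, β j • GG K (g j) v) =
      (∑ i ∈ s, β i) ^ 2 • v := by
    intro s
    induction s using Finset.induction_on with
    | empty => simp
    | insert a s ha ih =>
      have h1 : ∀ w : Y →₀ K, ∑ i ∈ insert a s, β i • GG K (g i) w =
          β a • GG K (g a) w + ∑ i ∈ s, β i • GG K (g i) w := by
        intro w
        rw [Finset.sum_insert ha]
      rw [h1 v, h1]
      simp only [map_add, map_smul, smul_add, Finset.sum_add_distrib]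
      rw [ih, GG_inv (g a) (hg a), Finset.sum_insert ha, CharTwo.add_sq, add_smul]
      have h2 : β a • GG K (g a) (∑ j ∈ s, β j • GG K (g j) v) =
          ∑ i ∈ s, β i • β a • GG K (g i) (GG K (g a) v) := by
        rw [map_sum, Finset.smul_sum]
        apply Finset.sum_congr rfl
        intro i _
        rw [map_smul, GG_comm (g a) (g i) (hc a i), smul_comm]
      rw [h2]
      have h3 := add_self_zero (∑ i ∈ s, β i • β a • GG K (g i) (GG K (g a) v))
      rw [smul_smul, ← sq]
      calc β a ^ 2 • v + ∑ i ∈ s, β i • β a • GG K (g i) (GG K (g a) v) +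
            (∑ i ∈ s, β i • β a • GG K (g i) (GG K (g a) v) + (∑ i ∈ s, β i) ^ 2 • v)
          = β a ^ 2 • v + (∑ i ∈ s, β i • β a • GG K (g i) (GG K (g a) v) +
            ∑ i ∈ s, β i • β a • GG K (g i) (GG K (g a) v)) + (∑ i ∈ s, β i) ^ 2 • v := by abel
        _ = _ := by rw [h3, add_zero]
  have := h Finset.univ
  rw [UU_apply, UU_apply]
  exact this

lemma MM_tOp [Fintype ι] [Field K] [CharP K 2] (g : ι → Y → Y) (α : ι → K) (O : Set Y)
    (l : Y → K) (lam : ι → K) (hl : ∀ i, ∀ z ∈ O, l (g i z) = l z + lam i) (v : Y →₀ K)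
    (hv : v ∈ Finsupp.supported K K O) :
    MM l (tOp g α v) + tOp g α (MM l v) = UU g (fun i => α i * lam i) v := by
  rw [Finsupp.supported_eq_span_single] at hv
  induction hv using Submodule.span_induction with
  | mem x hx =>
    obtain ⟨z, hz, rfl⟩ := hx
    rw [MM_single, tOp_apply, tOp_apply, UU_apply, map_sum, ← Finset.sum_add_distrib]
    apply Finset.sum_congr rfl
    intro i _
    simp only [GG_single, map_smul, map_add, MM_single, hl i z hz, one_mul]
    rw [← smul_add]
    have h1 : Finsupp.single (g i z) (l z + lam i) + Finsupp.single z (l z) +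
        (Finsupp.single (g i z) (l z) + Finsupp.single z (l z)) =
        Finsupp.single (g i z) (lam i) := by
      have h2 := add_self_zero (Finsupp.single z (l z))
      have h3 := add_self_zero (Finsupp.single (g i z) (l z))
      rw [Finsupp.single_add]
      calc Finsupp.single (g i z) (l z) + Finsupp.single (g i z) (lam i) +
            Finsupp.single z (l z) + (Finsupp.single (g i z) (l z) + Finsupp.single z (l z))
          = (Finsupp.single (g i z) (l z) + Finsupp.single (g i z) (l z)) +
            (Finsupp.single z (l z) + Finsupp.single z (l z)) +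
            Finsupp.single (g i z) (lam i) := by abel
        _ = _ := by rw [h2, h3]; simp
    rw [h1, mul_smul]
    simp
  | zero => simp
  | add x y _ _ hx hy =>
    simp only [map_add]
    rw [← hx, ← hy]
    abel
  | smul a x _ hx =>
    simp only [map_smul]
    rw [← hx, smul_add]

lemma orbit_part [Fintype ι] [Field K] [CharP K 2] (g : ι → Y → Y) (α : ι → K)
    (hα : ∀ s : Finset ι, s.Nonempty → ∑ i ∈ s, α i ≠ 0)
    (hg : ∀ i y, g i (g i y) = y) (hc : ∀ i j y, g i (g j y) = g j (g i y))
    (P : Set Y) (hP : ∀ i, ∀ y ∈ P, g i y ∈ P) (O : Set Y) (lam : ι → ZMod 2) (l : Y → ZMod 2)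
    (hlam : ∃ i, lam i ≠ 0) (hl : ∀ i, ∀ z ∈ O, l (g i z) = l z + lam i)
    (v : Y →₀ K) (hv : v ∈ Finsupp.supported K K O) (hvP : v ∈ Finsupp.supported K K P)
    (htv : tOp g α v = 0) : ∃ w ∈ Finsupp.supported K K P, v = tOp g α w := by
  classical
  let cK := ZMod.castHom (dvd_refl 2) K
  set c : K := ∑ i, α i * cK (lam i) with hcdef
  have hc0 : c ≠ 0 := by
    have h1 : c = ∑ i ∈ Finset.univ.filter (fun i => lam i ≠ 0), α i := by
      rw [hcdef, Finset.sum_filter]
      apply Finset.sum_congr rfl
      intro i _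
      have h2 : ∀ x : ZMod 2, x = 0 ∨ x = 1 := by decide
      rcases h2 (lam i) with h | h
      · rw [h]; simp
      · rw [h, map_one, mul_one, if_pos one_ne_zero]
    rw [h1]
    apply hα
    obtain ⟨i, hi⟩ := hlam
    exact ⟨i, Finset.mem_filter.mpr ⟨Finset.mem_univ i, hi⟩⟩
  have h1 := MM_tOp g α O (fun z => cK (l z)) (fun i => cK (lam i)) (by
    intro i z hz
    rw [hl i z hz, map_add]) v hv
  rw [htv, map_zero, zero_add] at h1
  have h2 := UU_UU g (fun i => α i * cK (lam i)) hg hc v
  rw [← h1, UU_tOp g α _ hc] at h2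
  refine ⟨(c ^ 2)⁻¹ • UU g (fun i => α i * cK (lam i)) (MM (fun z => cK (l z)) v), ?_, ?_⟩
  · apply Submodule.smul_mem
    rw [UU_apply]
    apply Submodule.sum_mem
    intro i _
    apply Submodule.smul_mem
    exact GG_mem (g i) P (hP i) (MM_mem _ P hvP)
  · rw [map_smul, h2, inv_smul_smul₀ (pow_ne_zero 2 hc0)]

lemma tOp_mem [Fintype ι] [Field K] (g : ι → Y → Y) (α : ι → K) (P : Set Y)
    (hP : ∀ i, ∀ y ∈ P, g i y ∈ P) {v : Y →₀ K} (hv : v ∈ Finsupp.supported K K P) :
    tOp g α v ∈ Finsupp.supported K K P := by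
  rw [tOp_apply]
  apply Submodule.sum_mem
  intro i _
  exact Submodule.smul_mem _ _ (Submodule.add_mem _ (GG_mem (g i) P (hP i) hv) hv)

end KerAux

open KerAux in
/-- The kernel of `t` consists of the image of `t` and of the chains supported on fixed
points. -/
theorem tOp_ker {ι Y K : Type} [Fintype ι] [Field K] [CharP K 2] (g : ι → Y → Y) (α : ι → K)
    (hα : ∀ s : Finset ι, s.Nonempty → ∑ i ∈ s, α i ≠ 0)
    (hg : ∀ i y, g i (g i y) = y) (hc : ∀ i j y, g i (g j y) = g j (g i y))
    (P : Set Y) (hP : ∀ i, ∀ y ∈ P, g i y ∈ P)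
    (u : Y →₀ K) (hu : u ∈ Finsupp.supported K K P) (htu : tOp g α u = 0) :
    ∃ w ∈ Finsupp.supported K K P, ∃ f ∈ Finsupp.supported K K (P ∩ {y | ∀ i, g i y = y}),
      u = tOp g α w + f := by
  classical
  have main : ∀ (n : ℕ) (u : Y →₀ K), u.support.card = n → u ∈ Finsupp.supported K K P →
      tOp g α u = 0 →
      ∃ w ∈ Finsupp.supported K K P, ∃ f ∈ Finsupp.supported K K (P ∩ {y | ∀ i, g i y = y}),
      u = tOp g α w + f := by
    intro n
    induction n using Nat.strong_induction_on with
    | _ n ih =>
      intro u hn hu htu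
      by_cases hfix : ∀ y ∈ u.support, ∀ i, g i y = y
      · refine ⟨0, Submodule.zero_mem _, u, ?_, by simp⟩
        rw [Finsupp.mem_supported] at hu ⊢
        intro y hy
        exact ⟨hu hy, hfix y hy⟩
      · push Not at hfix
        obtain ⟨y, hy, hy'⟩ := hfix
        obtain ⟨O, lam, l, hyO, hO, hlam, hl⟩ := exists_ell g hg hc y (by
          intro h
          obtain ⟨i, hi⟩ := hy'
          exact hi (h i))
        have hOc : ∀ i, ∀ z ∈ Oᶜ, g i z ∈ Oᶜ := by
          intro i z hz h
          apply hz
          have := hO i _ h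
          rwa [hg] at this
        set u1 := u.filter (fun z => z ∈ O) with hu1
        set u2 := u.filter (fun z => ¬ z ∈ O) with hu2
        have hsum : u1 + u2 = u := Finsupp.filter_add_filter_not u _
        have hu1O : u1 ∈ Finsupp.supported K K O := by
          rw [Finsupp.mem_supported, hu1, Finsupp.support_filter]
          intro z hz
          rw [Finset.coe_filter] at hz
          exact hz.2
        have hu2O : u2 ∈ Finsupp.supported K K Oᶜ := by
          rw [Finsupp.mem_supported, hu2, Finsupp.support_filter]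
          intro z hz
          rw [Finset.coe_filter] at hz
          exact hz.2
        have hu1P : u1 ∈ Finsupp.supported K K P := by
          rw [Finsupp.mem_supported] at hu ⊢
          rw [hu1, Finsupp.support_filter]
          intro z hz
          rw [Finset.coe_filter] at hz
          exact hu hz.1
        have hu2P : u2 ∈ Finsupp.supported K K P := by
          rw [Finsupp.mem_supported] at hu ⊢
          rw [hu2, Finsupp.support_filter]
          intro z hz
          rw [Finset.coe_filter] at hz
          exact hu hz.1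
        have ht : tOp g α u1 + tOp g α u2 = 0 := by rw [← map_add, hsum, htu]
        have ht1 : tOp g α u1 = 0 := by
          have h1 := tOp_mem g α O hO hu1O
          have h2 := tOp_mem g α Oᶜ hOc hu2O
          have h3 : tOp g α u1 ∈ Finsupp.supported K K Oᶜ := by
            rw [eq_neg_of_add_eq_zero_left ht]
            exact Submodule.neg_mem _ h2
          have h4 : Disjoint (Finsupp.supported K K O) (Finsupp.supported K K Oᶜ) :=
            Finsupp.disjoint_supported_supported disjoint_compl_right
          exact Submodule.disjoint_def.mp h4 _ h1 h3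
        have ht2 : tOp g α u2 = 0 := by rw [ht1, zero_add] at ht; exact ht
        have hcard : u2.support.card < n := by
          rw [← hn]
          apply Finset.card_lt_card
          rw [hu2, Finsupp.support_filter]
          refine ⟨Finset.filter_subset _ _, fun h => ?_⟩
          have := h hy
          rw [Finset.mem_filter] at this
          exact this.2 hyO
        obtain ⟨w1, hw1, hw1'⟩ := orbit_part g α hα hg hc P hP O lam l hlam hl u1 hu1O hu1P ht1
        obtain ⟨w2, hw2, f, hf, hw2'⟩ := ih _ hcard u2 rfl hu2P ht2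
        refine ⟨w1 + w2, Submodule.add_mem _ hw1 hw2, f, hf, ?_⟩
        rw [← hsum, map_add, ← hw1', add_assoc, ← hw2']
  exact main _ u rfl hu htu

end Pool.Agent.W_MP_6d5819_gt
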