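import Pool.Agent.W_MP_6d5819_gt.Subdiv
import Pool.Agent.W_MP_6d5819_gt.Cone

set_option autoImplicit false

/-! Local vanishing for the complex `t C` near a fixed point with diagonal involutions. -/

open scoped Topology

namespace Pool.Agent.W_MP_6d5819_gt

namespace Loc

variable {X : Type} [TopologicalSpace X] (K : Type) [Field K] {ι : Type} [Fintype ι]
  (g : ι → C(X, X)) (α : ι → K)

theorem tw_apply (c : Ch K X) : tw K g α c = ∑ i, α i • (push K (g i) c + c) := by
  simp [tw]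

theorem bd_tw (c : Ch K X) : bd K (tw K g α c) = tw K g α (bd K c) := by
  simp only [tw_apply, map_sum, map_smul, map_add, bd_push]

theorem S_tw (P : Sd K X) (c : Ch K X) : P.S (tw K g α c) = tw K g α (P.S c) := by
  simp only [tw_apply, map_sum, map_smul, map_add, P.S_push]

theorem T_tw (P : Sd K X) (c : Ch K X) : P.T (tw K g α c) = tw K g α (P.T c) := by
  simp only [tw_apply, map_sum, map_smul, map_add, P.T_push]

theorem op_tw {U : Set X} (D : ConeData U) (hg : ∀ i z, z ∈ U ↔ g i z ∈ U)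
    (hH : ∀ i, ∀ z ∈ U, ∀ τ ∈ Set.Icc (0 : ℝ) 1, D.H (g i z, τ) = g i (D.H (z, τ))) (c : Ch K X) :
    D.op K (tw K g α c) = tw K g α (D.op K c) := by
  simp only [tw_apply, map_sum, map_smul, map_add, D.op_push K _ (hg _) (hH _)]

theorem tw_mem {U : Set X} (hg : ∀ i z, z ∈ U ↔ g i z ∈ U) {n : ℕ} {c : Ch K X}
    (hc : c ∈ chIn K n U) : tw K g α c ∈ chIn K n U := by
  rw [tw_apply]
  refine Submodule.sum_mem _ fun i _ => Submodule.smul_mem _ _ (Submodule.add_mem _ ?_ hc)
  exact push_mem_chIn K (g i) (fun z hz => (hg i z).1 hz) hc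

open Classical in
/-- Restriction of chains to the simplices in `U`. -/
noncomputable def res (U : Set X) : Ch K X →ₗ[K] Ch K X :=
  Finsupp.linearCombination K (fun s : Sing X =>
    if Set.range s.2 ⊆ U then Finsupp.single s (1 : K) else 0)

theorem res_single {U : Set X} (s : Sing X) (hs : Set.range s.2 ⊆ U) (r : K) :
    res K U (Finsupp.single s r) = Finsupp.single s r := by
  simp [res, hs]

theorem res_single_not {U : Set X} (s : Sing X) (hs : ¬ Set.range s.2 ⊆ U) (r : K) :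
    res K U (Finsupp.single s r) = 0 := by
  simp [res, hs]

theorem res_push {U : Set X} (f : C(X, X)) (hf : ∀ z, z ∈ U ↔ f z ∈ U) (c : Ch K X) :
    res K U (push K f c) = push K f (res K U c) := by
  induction c using Finsupp.induction_linear with
  | zero => simp
  | add a b ha hb => simp only [map_add, ha, hb]
  | single s r =>
    rw [push_single]
    have h : Set.range (pushSimp f s).2 ⊆ U ↔ Set.range s.2 ⊆ U := by
      constructor
      · rintro h _ ⟨x, rfl⟩
        exact (hf _).2 (h ⟨x, rfl⟩)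
      · rintro h _ ⟨x, rfl⟩
        exact (hf _).1 (h ⟨x, rfl⟩)
    by_cases hs : Set.range s.2 ⊆ U
    · rw [res_single K _ hs, res_single K _ (h.2 hs), push_single]
    · rw [res_single_not K _ hs, res_single_not K _ (fun h' => hs (h.1 h')), map_zero]

theorem res_tw {U : Set X} (hg : ∀ i z, z ∈ U ↔ g i z ∈ U) (c : Ch K X) :
    res K U (tw K g α c) = tw K g α (res K U c) := by
  simp only [tw_apply, map_sum, map_smul, map_add, res_push K _ (hg _)]

theorem res_of_mem {U : Set X} {n : ℕ} {c : Ch K X} (hc : c ∈ chIn K n U) : res K U c = c := by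
  refine chIn_induction K (P := fun c => res K U c = c) (by simp)
    (fun a b _ _ ha hb => by rw [map_add, ha, hb]) ?_ c hc
  intro σ hσ r
  exact res_single K _ hσ r

theorem res_mem {U V : Set X} {n : ℕ} {c : Ch K X} (hc : c ∈ chIn K n V) :
    res K U c ∈ chIn K n (V ∩ U) := by
  refine chIn_induction K (P := fun c => res K U c ∈ chIn K n (V ∩ U)) (by simp)
    (fun a b _ _ ha hb => by rw [map_add]; exact Submodule.add_mem _ ha hb) ?_ c hc
  intro σ hσ r
  by_cases h : Set.range σ ⊆ U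
  · rw [res_single K _ h]
    exact single_mem_chIn K σ (Set.subset_inter hσ h) r
  · rw [res_single_not K _ h]
    exact Submodule.zero_mem _

theorem tw_inter {V W : Set X} (hW : ∀ i z, z ∈ W ↔ g i z ∈ W) {n : ℕ} {c : Ch K X}
    (hc : c ∈ chIn K n V) (hc' : tw K g α c ∈ chIn K n W) :
    ∃ c' ∈ chIn K n (V ∩ W), tw K g α c' = tw K g α c :=
  ⟨res K W c, res_mem K hc, by rw [← res_tw K g α hW, res_of_mem K hc']⟩

/-- Acyclicity of `t C(V)` in degree `n`. -/
def Acyc (n : ℕ) (V : Set X) : Prop :=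
  ∀ c ∈ chIn K n V, bd K (tw K g α c) = 0 → ∃ e ∈ chIn K (n + 1) V, tw K g α c = bd K (tw K g α e)

theorem acyc_of_cone {U : Set X} (D : ConeData U) (hg : ∀ i z, z ∈ U ↔ g i z ∈ U)
    (hH : ∀ i, ∀ z ∈ U, ∀ τ ∈ Set.Icc (0 : ℝ) 1, D.H (g i z, τ) = g i (D.H (z, τ))) (n : ℕ) :
    Acyc K g α (n + 1) U := by
  intro c hc hbd
  refine ⟨D.op K c, D.op_mem K hc, ?_⟩
  have h := D.bd_op K (tw_mem K g α hg hc)
  rw [hbd, map_zero, add_zero, op_tw K g α D hg hH] at h
  exact h.symm

/-- Mayer-Vietoris step. -/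
theorem acyc_union {V W : Set X} (hV : IsOpen V) (hW : IsOpen W)
    (hgW : ∀ i z, z ∈ W ↔ g i z ∈ W) {n : ℕ} (h1 : Acyc K g α n V) (h2 : Acyc K g α n W)
    (h3 : ∀ m, n = m + 1 → Acyc K g α m (V ∩ W)) : Acyc K g α n (V ∪ W) := by
  intro c hc hbd
  obtain ⟨P, hP⟩ := exists_sd K hV hW hc
  obtain ⟨c₁, hc₁, c₂, hc₂, h12⟩ := Submodule.mem_sup.1 hP
  have hT : P.T c ∈ chIn K (n + 1) (V ∪ W) := P.T_mem _ _ _ hc
  have hdec : tw K g α c = tw K g α c₁ + tw K g α c₂ + bd K (tw K g α (P.T c)) := by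
    have h := P.homotopy (tw K g α c)
    rw [hbd, map_zero, add_zero, T_tw, S_tw, ← h12, map_add] at h
    rw [h]
    abel
  have hsum : bd K (tw K g α c₁) + bd K (tw K g α c₂) = 0 := by
    rw [← map_add, ← map_add, h12, ← S_tw, P.bd_S, hbd, map_zero]
  have hg' : ∃ g' ∈ chIn K n (V ∩ W), bd K (tw K g α c₁) = bd K (tw K g α g') := by
    cases n with
    | zero =>
      refine ⟨0, Submodule.zero_mem _, ?_⟩
      rw [bd_tw, bd_chIn_zero K hc₁, map_zero, map_zero]
    | succ m =>
      have hx : tw K g α (bd K c₁) ∈ chIn K m W := by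
        rw [← bd_tw, eq_neg_of_add_eq_zero_left hsum]
        exact Submodule.neg_mem _ (bd_mem_chIn K (tw_mem K g α hgW hc₂))
      obtain ⟨c', hc', hc'2⟩ := tw_inter K g α hgW (bd_mem_chIn K hc₁) hx
      obtain ⟨g', hg', hg'2⟩ := h3 m rfl c' hc' (by rw [hc'2, ← bd_tw, bd_bd])
      exact ⟨g', hg', by rw [← hg'2, hc'2, bd_tw]⟩
  obtain ⟨g', hg', hg'2⟩ := hg'
  obtain ⟨e₁, he₁, he₁'⟩ := h1 (c₁ - g')
    (Submodule.sub_mem _ hc₁ (chIn_mono K Set.inter_subset_left hg'))
    (by rw [map_sub, map_sub, hg'2, sub_self])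
  obtain ⟨e₂, he₂, he₂'⟩ := h2 (c₂ + g')
    (Submodule.add_mem _ hc₂ (chIn_mono K Set.inter_subset_right hg'))
    (by rw [map_add, map_add, ← hg'2, add_comm, hsum])
  refine ⟨e₁ + e₂ + P.T c, ?_, ?_⟩
  · exact Submodule.add_mem _ (Submodule.add_mem _ (chIn_mono K Set.subset_union_left he₁)
      (chIn_mono K Set.subset_union_right he₂)) hT
  · rw [map_add, map_add, map_add, map_add, ← he₁', ← he₂', hdec, map_sub, map_add]
    abel

theorem acyc_empty (n : ℕ) : Acyc K g α n (∅ : Set X) := by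
  intro c hc _
  have h0 : c = 0 := by
    rw [← Finsupp.support_eq_empty, Finset.eq_empty_iff_forall_notMem]
    intro s hs
    exact ((mem_chIn K).1 hc s hs).2 ⟨vtx 0, rfl⟩
  refine ⟨0, Submodule.zero_mem _, ?_⟩
  rw [h0, map_zero, map_zero]

theorem acyc_iUnion {d : ℕ} (V : Fin d → Set X) (hV : ∀ j, IsOpen (V j))
    (hgV : ∀ j i z, z ∈ V j ↔ g i z ∈ V j)
    (hacyc : ∀ T : Finset (Fin d), T.Nonempty → ∀ n, Acyc K g α (n + 1) (⋂ j ∈ T, V j))
    (J : Finset (Fin d)) : ∀ (S : Finset (Fin d)) (n : ℕ), J.card ≤ n →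
      Acyc K g α n ((⋂ j ∈ S, V j) ∩ ⋃ j ∈ J, V j) := by
  classical
  induction J using Finset.induction_on with
  | empty =>
    intro S n _
    have : (⋂ j ∈ S, V j) ∩ ⋃ j ∈ (∅ : Finset (Fin d)), V j = ∅ := by simp
    rw [this]
    exact acyc_empty K g α n
  | insert a J ha ih =>
    intro S n hn
    rw [Finset.card_insert_of_notMem ha] at hn
    obtain ⟨m, rfl⟩ : ∃ m, n = m + 1 := ⟨n - 1, by omega⟩
    have hset : (⋂ j ∈ S, V j) ∩ ⋃ j ∈ insert a J, V j =
        ((⋂ j ∈ S, V j) ∩ ⋃ j ∈ J, V j) ∪ (⋂ j ∈ insert a S, V j) := by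
      ext z
      simp only [Set.mem_inter_iff, Set.mem_iInter, Set.mem_iUnion, Finset.mem_insert,
        Set.mem_union, exists_prop]
      constructor
      · rintro ⟨h1, j, rfl | hj, hz⟩
        · right
          rintro b (rfl | hb)
          · exact hz
          · exact h1 b hb
        · exact Or.inl ⟨h1, j, hj, hz⟩
      · rintro (⟨h1, j, hj, hz⟩ | h)
        · exact ⟨h1, j, Or.inr hj, hz⟩
        · exact ⟨fun b hb => h b (Or.inr hb), a, Or.inl rfl, h a (Or.inl rfl)⟩
    have hset2 : ((⋂ j ∈ S, V j) ∩ ⋃ j ∈ J, V j) ∩ (⋂ j ∈ insert a S, V j) =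
        (⋂ j ∈ insert a S, V j) ∩ ⋃ j ∈ J, V j := by
      ext z
      simp only [Set.mem_inter_iff, Set.mem_iInter, Set.mem_iUnion, Finset.mem_insert, exists_prop]
      constructor
      · rintro ⟨⟨-, h1⟩, h2⟩
        exact ⟨h2, h1⟩
      · rintro ⟨h1, h2⟩
        exact ⟨⟨fun b hb => h1 b (Or.inr hb), h2⟩, h1⟩
    have hopenI : ∀ T : Finset (Fin d), IsOpen (⋂ j ∈ T, V j) := fun T =>
      isOpen_biInter_finset fun j _ => hV j
    have hopenU : IsOpen ((⋂ j ∈ S, V j) ∩ ⋃ j ∈ J, V j) :=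
      (hopenI S).inter (isOpen_biUnion fun j _ => hV j)
    rw [hset]
    refine acyc_union K g α hopenU (hopenI _) ?_ ?_ ?_ ?_
    · intro i z
      simp only [Set.mem_iInter]
      exact forall₂_congr fun j _ => hgV j i z
    · exact ih S (m + 1) (by omega)
    · exact hacyc _ (Finset.insert_nonempty _ _) m
    · intro m' hm'
      have : m' = m := by omega
      subst this
      rw [hset2]
      exact ih _ m' (by omega)

section Chart

variable {d : ℕ} (e : OpenPartialHomeomorph X (Fin d → ℝ))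

/-- Points of the chart domain with nonzero coordinates in `T`. -/
def UT (T : Finset (Fin d)) : Set X := {z | z ∈ e.source ∧ ∀ j ∈ T, e z j ≠ 0}

/-- The centre of the orthant of `z`. -/
noncomputable def ctr (κ : ℝ) (T : Finset (Fin d)) (w : Fin d → ℝ) : Fin d → ℝ :=
  fun j => if j ∈ T then (if 0 < w j then κ else -κ) else 0

theorem ctr_norm {κ : ℝ} (hκ : 0 < κ) (T : Finset (Fin d)) (w : Fin d → ℝ) :
    ‖ctr κ T w‖ ≤ κ := by
  rw [pi_norm_le_iff_of_nonneg hκ.le]
  intro j
  rw [ctr]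
  split_ifs
  · rw [Real.norm_of_nonneg hκ.le]
  · rw [norm_neg, Real.norm_of_nonneg hκ.le]
  · simpa using hκ.le

theorem comb_ne {x κ τ : ℝ} (hκ : 0 < κ) (hτ : τ ∈ Set.Icc (0 : ℝ) 1) (hx : x ≠ 0) :
    (1 - τ) * x + τ * (if 0 < x then κ else -κ) ≠ 0 := by
  have h1 : 0 ≤ 1 - τ := sub_nonneg.2 hτ.2
  have h0 := hτ.1
  split_ifs with hpos
  · rcases eq_or_lt_of_le h0 with h | h
    · rw [← h]; simpa using hx
    · have := mul_pos h hκ
      have := mul_nonneg h1 hpos.le
      linarith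
  · have hneg : x < 0 := lt_of_le_of_ne (not_lt.1 hpos) hx
    rcases eq_or_lt_of_le h0 with h | h
    · rw [← h]; simpa using hx
    · have := mul_pos h hκ
      have := mul_nonneg h1 (neg_pos.2 hneg).le
      have h3 : (1 - τ) * x + τ * -κ < 0 := by nlinarith
      exact h3.ne

theorem isOpen_UT (T : Finset (Fin d)) : IsOpen (UT e T) := by
  have h : UT e T = e.source ∩ e ⁻¹' {w | ∀ j ∈ T, w j ≠ 0} := rfl
  rw [h]
  refine e.isOpen_inter_preimage ?_
  have h2 : {w : Fin d → ℝ | ∀ j ∈ T, w j ≠ 0} = ⋂ j ∈ T, {w : Fin d → ℝ | w j ≠ 0} := by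
    ext w; simp
  rw [h2]
  refine isOpen_biInter_finset fun j _ => ?_
  exact isOpen_ne_fun (continuous_apply j) continuous_const

theorem ctr_eventually {κ : ℝ} {T : Finset (Fin d)} {z : X} (hz : z ∈ UT e T) :
    ∀ᶠ w in 𝓝[UT e T] z, ctr κ T (e w) = ctr κ T (e z) := by
  have h1 : ∀ j ∈ T, ∀ᶠ w in 𝓝[UT e T] z, (0 < e w j ↔ 0 < e z j) := by
    intro j hj
    have hc : Filter.Tendsto (fun w => e w j) (𝓝[UT e T] z) (𝓝 (e z j)) := by
      have := (e.continuousAt hz.1).tendsto.mono_left (nhdsWithin_le_nhds (s := UT e T))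
      exact ((continuous_apply j).tendsto _).comp this
    rcases lt_or_gt_of_ne (hz.2 j hj) with h | h
    · filter_upwards [hc.eventually (gt_mem_nhds h)] with w hw
      constructor <;> intro h' <;> linarith
    · filter_upwards [hc.eventually (lt_mem_nhds h)] with w hw
      constructor <;> intro _
      · exact h
      · exact hw
  have h2 : ∀ᶠ w in 𝓝[UT e T] z, ∀ j ∈ T, (0 < e w j ↔ 0 < e z j) := by
    rw [Filter.eventually_all_finset]
    exact h1
  filter_upwards [h2] with w hw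
  funext j
  rw [ctr, ctr]
  by_cases hj : j ∈ T
  · rw [if_pos hj, if_pos hj]
    simp only [hw j hj]
  · rw [if_neg hj, if_neg hj]

/-- The contraction of the points with nonzero coordinates in `T` onto the centres. -/
noncomputable def coneUT (hconv : Convex ℝ e.target) {κ : ℝ} (hκ : 0 < κ)
    (hball : Metric.closedBall 0 κ ⊆ e.target) (T : Finset (Fin d)) : ConeData (UT e T) where
  H p := e.symm ((1 - p.2) • e p.1 + p.2 • ctr κ T (e p.1))
  cont := by
    have hmem : ∀ p ∈ UT e T ×ˢ Set.Icc (0 : ℝ) 1,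
        (1 - p.2) • e p.1 + p.2 • ctr κ T (e p.1) ∈ e.target := by
      rintro ⟨z, τ⟩ ⟨hz, hτ⟩
      refine hconv (e.map_source hz.1) (hball ?_) (sub_nonneg.2 hτ.2) hτ.1 (by ring)
      rw [mem_closedBall_zero_iff]
      exact ctr_norm hκ T _
    refine e.continuousOn_symm.comp ?_ hmem
    have he : ContinuousOn (fun p : X × ℝ => e p.1) (UT e T ×ˢ Set.Icc (0 : ℝ) 1) :=
      e.continuousOn.comp continuousOn_fst fun p hp => hp.1.1
    have hc : ContinuousOn (fun p : X × ℝ => ctr κ T (e p.1)) (UT e T ×ˢ Set.Icc (0 : ℝ) 1) := by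
      have h1 : ContinuousOn (fun z : X => ctr κ T (e z)) (UT e T) := by
        intro z hz
        exact continuousWithinAt_const.congr_of_eventuallyEq (ctr_eventually e hz) rfl
      exact h1.comp continuousOn_fst fun p hp => hp.1
    exact ((continuousOn_const.sub continuousOn_snd).smul he).add (continuousOn_snd.smul hc)
  maps := by
    intro z hz τ hτ
    have hmem : (1 - τ) • e z + τ • ctr κ T (e z) ∈ e.target := by
      refine hconv (e.map_source hz.1) (hball ?_) (sub_nonneg.2 hτ.2) hτ.1 (by ring)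
      rw [mem_closedBall_zero_iff]
      exact ctr_norm hκ T _
    refine ⟨e.map_target hmem, ?_⟩
    intro j hj
    change e (e.symm ((1 - τ) • e z + τ • ctr κ T (e z))) j ≠ 0
    rw [e.right_inv hmem]
    simp only [Pi.add_apply, Pi.smul_apply, smul_eq_mul, ctr, if_pos hj]
    exact comb_ne hκ hτ (hz.2 j hj)
  zero := by
    intro z hz
    simp only [sub_zero, one_smul, zero_smul, add_zero]
    exact e.left_inv hz.1
  one := by
    intro z hz
    filter_upwards [ctr_eventually e (κ := κ) hz] with w hw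
    simp only [sub_self, zero_smul, one_smul, zero_add, hw]

omit [Fintype ι] in
theorem UT_inv {ε : ι → Fin d → ℝ} (hε : ∀ i j, ε i j = 1 ∨ ε i j = -1)
    (hg : ∀ i x, g i (g i x) = x)
    (hge : ∀ i, ∀ z ∈ e.source, g i z ∈ e.source ∧ e (g i z) = fun j => ε i j * e z j)
    (T : Finset (Fin d)) (i : ι) (z : X) : z ∈ UT e T ↔ g i z ∈ UT e T := by
  have h : ∀ z, z ∈ UT e T → g i z ∈ UT e T := by
    intro z hz
    refine ⟨(hge i z hz.1).1, fun j hj => ?_⟩
    rw [(hge i z hz.1).2]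
    have h1 := hz.2 j hj
    rcases hε i j with h2 | h2 <;> simp only [h2] <;> simpa using h1
  refine ⟨h z, fun hz => ?_⟩
  have := h _ hz
  rwa [hg] at this

theorem ctr_eps {κ : ℝ} {T : Finset (Fin d)} {ε : Fin d → ℝ} (hε : ∀ j, ε j = 1 ∨ ε j = -1)
    {w : Fin d → ℝ} (hw : ∀ j ∈ T, w j ≠ 0) (j : Fin d) :
    ctr κ T (fun j => ε j * w j) j = ε j * ctr κ T w j := by
  rw [ctr, ctr]
  by_cases hj : j ∈ T
  · rw [if_pos hj, if_pos hj]
    rcases hε j with h | h
    · rw [h, one_mul, one_mul]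
    · rw [h]
      rcases lt_or_gt_of_ne (hw j hj) with h1 | h1
      · rw [if_pos (by linarith), if_neg (by linarith)]
        ring
      · rw [if_neg (by linarith), if_pos (by linarith)]
        ring
  · rw [if_neg hj, if_neg hj, mul_zero]

omit [Fintype ι] in
theorem cone_equiv (hconv : Convex ℝ e.target) {κ : ℝ} (hκ : 0 < κ)
    (hball : Metric.closedBall 0 κ ⊆ e.target)
    {ε : ι → Fin d → ℝ} (hε : ∀ i j, ε i j = 1 ∨ ε i j = -1)
    (hge : ∀ i, ∀ z ∈ e.source, g i z ∈ e.source ∧ e (g i z) = fun j => ε i j * e z j)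
    (T : Finset (Fin d)) (i : ι) (z : X) (hz : z ∈ UT e T) (τ : ℝ) (hτ : τ ∈ Set.Icc (0 : ℝ) 1) :
    (coneUT e hconv hκ hball T).H (g i z, τ) = g i ((coneUT e hconv hκ hball T).H (z, τ)) := by
  change e.symm ((1 - τ) • e (g i z) + τ • ctr κ T (e (g i z))) =
    g i (e.symm ((1 - τ) • e z + τ • ctr κ T (e z)))
  have hmem : (1 - τ) • e z + τ • ctr κ T (e z) ∈ e.target := by
    refine hconv (e.map_source hz.1) (hball ?_) (sub_nonneg.2 hτ.2) hτ.1 (by ring)
    rw [mem_closedBall_zero_iff]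
    exact ctr_norm hκ T _
  have h1 := hge i _ (e.map_target hmem)
  rw [e.right_inv hmem] at h1
  have h2 : (1 - τ) • e (g i z) + τ • ctr κ T (e (g i z)) =
      fun j => ε i j * ((1 - τ) • e z + τ • ctr κ T (e z)) j := by
    funext j
    rw [(hge i z hz.1).2]
    simp only [Pi.add_apply, Pi.smul_apply, smul_eq_mul]
    rw [ctr_eps (hε i) hz.2]
    ring
  rw [h2, ← h1.2, e.left_inv h1.1]

end Chart

end Loc

open Loc in
/-- Local vanishing near a fixed point with diagonal involutions. -/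
theorem local_vanishing {X : Type} [TopologicalSpace X] [T1Space X] (K : Type) [Field K]
    {ι : Type} [Fintype ι] (g : ι → C(X, X)) (α : ι → K)
    (hg : ∀ i x, g i (g i x) = x)
    {d : ℕ} (a : X) (e : OpenPartialHomeomorph X (Fin d → ℝ)) (ha : a ∈ e.source) (hea : e a = 0)
    (hconv : Convex ℝ e.target) (ε : ι → Fin d → ℝ) (hε : ∀ i j, ε i j = 1 ∨ ε i j = -1)
    (hge : ∀ i, ∀ z ∈ e.source, g i z ∈ e.source ∧ e (g i z) = fun j => ε i j * e z j)
    (c : Ch K X) (hcc : c ∈ chIn K (d + 1) (Set.univ : Set X)) (hbd : bd K (tw K g α c) = 0) :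
    ∃ e ∈ chIn K (d + 2) (Set.univ : Set X), ∃ f ∈ chIn K (d + 1) ({a}ᶜ : Set X),
        tw K g α c = bd K (tw K g α e) + tw K g α f := by
  classical
  have ht0 : (0 : Fin d → ℝ) ∈ e.target := by rw [← hea]; exact e.map_source ha
  obtain ⟨κ, hκ, hball⟩ := Metric.nhds_basis_closedBall.mem_iff.1 (e.open_target.mem_nhds ht0)
  have hfix : ∀ i, g i a = a := by
    intro i
    have h := hge i a ha
    refine e.injOn h.1 ha ?_
    rw [h.2, hea]
    funext j
    simp
  have hacyc : ∀ (T : Finset (Fin d)) (n : ℕ), Acyc K g α (n + 1) (UT e T) := fun T n =>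
    acyc_of_cone K g α (coneUT e hconv hκ hball T) (UT_inv g e hε hg hge T)
      (fun i z hz τ hτ => cone_equiv g e hconv hκ hball hε hge T i z hz τ hτ) n
  have hpunct : Acyc K g α d (e.source ∩ {a}ᶜ) := by
    have h := acyc_iUnion K g α (fun j : Fin d => UT e {j}) (fun j => isOpen_UT e _)
      (fun j => UT_inv g e hε hg hge _) ?_ Finset.univ ∅ d (by simp)
    · have hs : (⋂ j ∈ (∅ : Finset (Fin d)), UT e {j}) ∩
          ⋃ j ∈ (Finset.univ : Finset (Fin d)), UT e {j} = e.source ∩ {a}ᶜ := by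
        ext z
        simp only [Set.mem_inter_iff, Set.mem_iInter, Set.mem_iUnion, Finset.notMem_empty,
          Finset.mem_univ, Set.mem_compl_iff, Set.mem_singleton_iff, UT, Set.mem_ofPred_eq,
          Finset.mem_singleton]
        constructor
        · rintro ⟨-, j, -, hz, hj⟩
          refine ⟨hz, ?_⟩
          rintro rfl
          exact hj j rfl (by rw [hea]; rfl)
        · rintro ⟨hz, hza⟩
          refine ⟨fun i hi => hi.elim, ?_⟩
          by_contra hcon
          apply hza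
          refine e.injOn hz ha ?_
          rw [hea]
          funext j
          by_contra hj
          refine hcon ⟨j, trivial, hz, ?_⟩
          rintro _ rfl
          exact hj
      rwa [hs] at h
    · intro T hT n
      have hs : (⋂ j ∈ T, UT e {j}) = UT e T := by
        ext z
        simp only [Set.mem_iInter, UT, Set.mem_ofPred_eq, Finset.mem_singleton]
        constructor
        · intro h
          obtain ⟨j, hj⟩ := hT
          exact ⟨(h j hj).1, fun k hk => (h k hk).2 k rfl⟩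
        · rintro ⟨h1, h2⟩ j hj
          exact ⟨h1, by rintro _ rfl; exact h2 _ hj⟩
      rw [hs]
      exact hacyc T n
  have hginv : ∀ i z, z ∈ ({a}ᶜ : Set X) ↔ g i z ∈ ({a}ᶜ : Set X) := by
    intro i z
    simp only [Set.mem_compl_iff, Set.mem_singleton_iff]
    constructor
    · intro h h'
      apply h
      rw [← hg i z, h', hfix]
    · rintro h rfl
      exact h (hfix i)
  have hgsrc : ∀ i z, z ∈ e.source ↔ g i z ∈ e.source := by
    intro i z
    refine ⟨fun hz => (hge i z hz).1, fun hz => ?_⟩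
    have := (hge i _ hz).1
    rwa [hg] at this
  have hcov : e.source ∪ ({a}ᶜ : Set X) = Set.univ := by
    rw [Set.eq_univ_iff_forall]
    intro z
    by_cases hz : z = a
    · exact Or.inl (hz ▸ ha)
    · exact Or.inr hz
  rw [← hcov] at hcc
  obtain ⟨P, hP⟩ := exists_sd K e.open_source isOpen_compl_singleton hcc
  obtain ⟨c₁, hc₁, c₂, hc₂, h12⟩ := Submodule.mem_sup.1 hP
  have hdec : tw K g α c = tw K g α c₁ + tw K g α c₂ + bd K (tw K g α (P.T c)) := by
    have h := P.homotopy (tw K g α c)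
    rw [hbd, map_zero, add_zero, T_tw, S_tw, ← h12, map_add] at h
    rw [h]
    abel
  have hsum : bd K (tw K g α c₁) + bd K (tw K g α c₂) = 0 := by
    rw [← map_add, ← map_add, h12, ← S_tw, P.bd_S, hbd, map_zero]
  have hx : tw K g α (bd K c₁) ∈ chIn K d ({a}ᶜ : Set X) := by
    rw [← bd_tw, eq_neg_of_add_eq_zero_left hsum]
    exact Submodule.neg_mem _ (bd_mem_chIn K (tw_mem K g α hginv hc₂))
  obtain ⟨c', hc', hc'2⟩ := tw_inter K g α hginv (bd_mem_chIn K hc₁) hx
  obtain ⟨g', hg', hg'2⟩ := hpunct c' hc' (by rw [hc'2, ← bd_tw, bd_bd])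
  have hU0 : UT e ∅ = e.source := by
    ext z; simp [UT]
  have h0 := hacyc ∅ d
  rw [hU0] at h0
  obtain ⟨e₁, he₁, he₁'⟩ := h0 (c₁ - g')
    (Submodule.sub_mem _ hc₁ (chIn_mono K Set.inter_subset_left hg'))
    (by rw [map_sub, map_sub, ← hg'2, hc'2, bd_tw, sub_self])
  refine ⟨e₁ + P.T c, ?_, g' + c₂, ?_, ?_⟩
  · exact Submodule.add_mem _ (chIn_mono K (Set.subset_univ _) he₁)
      (chIn_mono K (Set.subset_univ _) (P.T_mem _ _ _ hcc))
  · exact Submodule.add_mem _ (chIn_mono K Set.inter_subset_right hg') hc₂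
  · rw [map_add, map_add, ← he₁', hdec, map_sub, map_add]
    abel

end Pool.Agent.W_MP_6d5819_gt
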