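import Pool.Agent.W_MP_6d5819_gt.Final
import Pool.Agent.W_MP_6d5819_gt.Antipodal

set_option autoImplicit false

/-! The two-number of a compact connected symmetric space and its mod 2 homology. -/

open scoped Manifold ContDiff Topology
open Bundle

namespace Pool.Agent.W_MP_6d5819_gt

/-- Extension of scalars from `𝔽₂` does not increase the rank of homology. -/
theorem rank_le_zmod2 {X : Type} [TopologicalSpace X] (K : Type) [Field K] [CharP K 2] (n : ℕ) :
    Module.rank K (Hom K X n) ≤ Module.rank (ZMod 2) (Hom (ZMod 2) X n) := by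
  classical
  let _ : Algebra (ZMod 2) K := ZMod.algebra K 2
  set φ : ZMod 2 →+ K := (algebraMap (ZMod 2) K).toAddMonoidHom with hφ
  have hspanc : cyc K n (Set.univ : Set X) ≤ Submodule.span K
      (cc φ '' (cyc (ZMod 2) n (Set.univ : Set X) : Set (Ch (ZMod 2) X))) := by
    intro c hc
    set B := Module.Basis.ofVectorSpace (ZMod 2) K with hB
    set T := c.support.biUnion fun s => (B.repr (c s)).support with hT
    set lam : _ → K →+ ZMod 2 := fun b => (B.coord b).toAddMonoidHom with hlam
    have hcast : ∀ z : Ch (ZMod 2) X, ∀ e : K, ∀ s : Sing X,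
        (e • cc φ z) s = (z s) • e := by
      intro z e s
      rw [Finsupp.smul_apply, cc_apply, smul_eq_mul, Algebra.smul_def, mul_comm]
      rfl
    have hsum : c = ∑ b ∈ T, B b • cc φ (cc (lam b) c) := by
      ext s
      rw [Finsupp.finsetSum_apply]
      simp only [hcast, cc_apply]
      by_cases hs : s ∈ c.support
      · have h1 := B.linearCombination_repr (c s)
        rw [Finsupp.linearCombination_apply, Finsupp.sum] at h1
        conv_lhs => rw [← h1]
        refine Finset.sum_subset ?_ ?_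
        · intro b hb
          rw [hT, Finset.mem_biUnion]
          exact ⟨s, hs, hb⟩
        · intro b _ hb
          rw [Finsupp.notMem_support_iff] at hb
          rw [hb, zero_smul]
      · rw [Finsupp.notMem_support_iff] at hs
        rw [hs]
        symm
        apply Finset.sum_eq_zero
        intro b _
        rw [map_zero, zero_smul]
    rw [hsum]
    refine Submodule.sum_mem _ fun b _ => Submodule.smul_mem _ _ (Submodule.subset_span ?_)
    exact ⟨cc (lam b) c, cc_mem_cyc (lam b) hc, rfl⟩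
  set V := Ch K X ⧸ bds K n (Set.univ : Set X) with hV
  set P : Set V := (fun z : Ch (ZMod 2) X => (bds K n (Set.univ : Set X)).mkQ
    (cc φ z)) '' (cyc (ZMod 2) n (Set.univ : Set X) : Set (Ch (ZMod 2) X)) with hP
  have hspan : Hom K X n ≤ Submodule.span K P := by
    rw [Hom]
    refine (Submodule.map_mono hspanc).trans ?_
    rw [Submodule.map_span, hP, Set.image_image]
  obtain ⟨b, hbP, hbs, hli⟩ := exists_linearIndependent K P
  have hb : ∀ v : b, ∃ z ∈ cyc (ZMod 2) n (Set.univ : Set X),
      (bds K n (Set.univ : Set X)).mkQ (cc φ z) = v := by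
    intro v
    obtain ⟨z, hz, hzv⟩ := hbP v.2
    exact ⟨z, hz, hzv⟩
  choose z hz hzv using hb
  have hccs : ∀ (r : ZMod 2) (c : Ch (ZMod 2) X), cc φ (r • c) = φ r • cc φ c := by
    intro r c
    ext s
    rw [cc_apply, Finsupp.smul_apply, Finsupp.smul_apply, cc_apply, smul_eq_mul, smul_eq_mul]
    exact map_mul (algebraMap (ZMod 2) K) r (c s)
  have hli2 : LinearIndependent (ZMod 2) fun v : b =>
      (bds (ZMod 2) n (Set.univ : Set X)).mkQ (z v) := by
    rw [linearIndependent_iff']
    intro s a hsum i hi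
    have h1 : ∑ v ∈ s, a v • z v ∈ bds (ZMod 2) n (Set.univ : Set X) := by
      rw [← Submodule.Quotient.mk_eq_zero]
      have h2 : (bds (ZMod 2) n (Set.univ : Set X)).mkQ (∑ v ∈ s, a v • z v) = 0 := by
        rw [map_sum, ← hsum]
        rfl
      exact h2
    have h3 := cc_mem_bds φ h1
    rw [map_sum] at h3
    have h4 : ∑ v ∈ s, φ (a v) • (v : V) = 0 := by
      have h5 := (Submodule.Quotient.mk_eq_zero _).2 h3
      rw [← h5]
      show _ = (bds K n (Set.univ : Set X)).mkQ (∑ v ∈ s, cc φ (a v • z v))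
      rw [map_sum]
      refine Finset.sum_congr rfl fun v _ => ?_
      rw [hccs, map_smul, hzv]
    have h6 := (linearIndependent_iff'.1 hli) s (fun v => φ (a v)) h4 i hi
    exact (map_eq_zero_iff (algebraMap (ZMod 2) K) (algebraMap (ZMod 2) K).injective).1 h6
  have hli3 : LinearIndependent (ZMod 2) fun v : b =>
      (⟨(bds (ZMod 2) n (Set.univ : Set X)).mkQ (z v),
        Submodule.mem_map_of_mem (hz v)⟩ : Hom (ZMod 2) X n) := by
    apply LinearIndependent.of_comp (Hom (ZMod 2) X n).subtype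
    exact hli2
  calc Module.rank K (Hom K X n) ≤ Module.rank K (Submodule.span K P) :=
        Submodule.rank_mono hspan
    _ = Module.rank K (Submodule.span K b) := by rw [hbs]
    _ = Cardinal.mk b := rank_span_set hli
    _ ≤ Module.rank (ZMod 2) (Hom (ZMod 2) X n) := hli3.cardinal_le_rank

/-- The number of points of an antipodal set is at most the total mod 2 Betti number, given the
structure of the symmetries at antipodal points. -/
theorem card_le_of_structure (d : ℕ) (M : Type) [MetricSpace M]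
    [ChartedSpace (EuclideanSpace ℝ (Fin d)) M] [CompactSpace M]
    (s : M → M → M) (hiso : ∀ x, Isometry (s x)) (A : Finset M)
    (hA : ∀ x ∈ A, ∀ y ∈ A, s x y = y)
    (hinv : ∀ x z, s x (s x z) = z)
    (hcomm : ∀ x ∈ A, ∀ y ∈ A, ∀ z, s x (s y z) = s y (s x z))
    (hchart : ∀ x ∈ A, ∃ (e : OpenPartialHomeomorph M (Fin d → ℝ)) (ε : M → Fin d → ℝ),
      x ∈ e.source ∧ e x = 0 ∧ Convex ℝ e.target ∧ (∀ y ∈ A, ∀ j, ε y j = 1 ∨ ε y j = -1) ∧
      (∀ y ∈ A, ∀ z ∈ e.source, s y z ∈ e.source ∧ e (s y z) = fun j => ε y j * e z j) ∧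
      ∀ j, ε x j = -1) :
    A.card ≤ ∑ i ∈ Finset.range (d + 1),
        Module.finrank (ZMod 2)
          ((((AlgebraicTopology.singularHomologyFunctor (ModuleCat.{0} (ZMod 2)) i).obj
            (ModuleCat.of (ZMod 2) (ZMod 2))).obj (TopCat.of M) : ModuleCat.{0} (ZMod 2)) :
              Type) := by
  let ι : Type := {x // x ∈ A}
  let g : ι → C(M, M) := fun x => ⟨s x.1, (hiso x.1).continuous⟩
  obtain ⟨K, instK, instC, α, hα⟩ := exists_indep ι
  have hg : ∀ i x, g i (g i x) = x := fun i x => hinv i.1 x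
  have hc : ∀ i j x, g i (g j x) = g j (g i x) := fun i j x => hcomm i.1 i.2 j.1 j.2 x
  have hA' : ∀ a ∈ A, ∀ i, g i a = a := fun a ha i => hA i.1 i.2 a ha
  have hisol : ∀ a ∈ A, ∃ O : Set M, IsOpen O ∧ a ∈ O ∧ ∀ z ∈ O, (∀ i, g i z = z) → z = a := by
    intro a ha
    obtain ⟨e, ε, hae, hea, -, -, hact, hneg⟩ := hchart a ha
    refine ⟨e.source, e.open_source, hae, ?_⟩
    intro z hz hfix
    refine e.injOn hz hae ?_
    rw [hea]
    have h1 := (hact a ha z hz).2
    have h2 : s a z = z := hfix ⟨a, ha⟩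
    rw [h2] at h1
    funext j
    have h3 := congrFun h1 j
    rw [hneg j] at h3
    simp only [Pi.zero_apply]
    linarith
  have hN : ∀ a ∈ A, ∀ c ∈ chIn K (d + 1) (Set.univ : Set M), bd K (tw K g α c) = 0 →
      ∃ e ∈ chIn K (d + 2) (Set.univ : Set M), ∃ f ∈ chIn K (d + 1) ({a}ᶜ : Set M),
        tw K g α c = bd K (tw K g α e) + tw K g α f := by
    intro a ha c hc hbd
    obtain ⟨e, ε, hae, hea, hconv, hε, hact, -⟩ := hchart a ha
    exact local_vanishing K g α hg a e hae hea hconv (fun i => ε i.1) (fun i j => hε i.1 i.2 j)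
      (fun i z hz => hact i.1 i.2 z hz) c hc hbd
  have h1 := card_le_sum_rank K g α hα hg hc A hA' hisol d hN
  have hfin : ∀ n, Module.Finite (ZMod 2) (Hom (ZMod 2) M n) := fun n =>
    hom_finite (ZMod 2)
      (fun U hU x hx => exists_good_nhd (E := EuclideanSpace ℝ (Fin d)) (ZMod 2) U hU x hx) n
  have h2 : ∀ n, Module.rank K (Hom K M n) ≤ ((Module.finrank (ZMod 2)
      ((((AlgebraicTopology.singularHomologyFunctor (ModuleCat.{0} (ZMod 2)) n).obj
            (ModuleCat.of (ZMod 2) (ZMod 2))).obj (TopCat.of M) : ModuleCat.{0} (ZMod 2)) :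
              Type) : ℕ) : Cardinal) := by
    intro n
    have := hfin n
    obtain ⟨φ⟩ := exists_homology_equiv (ZMod 2) M n
    rw [φ.finrank_eq, Module.finrank_eq_rank]
    exact rank_le_zmod2 K n
  have h3 : (A.card : Cardinal) ≤ ((∑ i ∈ Finset.range (d + 1),
        Module.finrank (ZMod 2)
          ((((AlgebraicTopology.singularHomologyFunctor (ModuleCat.{0} (ZMod 2)) i).obj
            (ModuleCat.of (ZMod 2) (ZMod 2))).obj (TopCat.of M) : ModuleCat.{0} (ZMod 2)) :
              Type) : ℕ) : Cardinal) := by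
    refine h1.trans ?_
    rw [Nat.cast_sum]
    exact Finset.sum_le_sum fun n _ => h2 n
  exact Nat.cast_le.1 h3

/-- `s` is a geodesic symmetry of `M` at `x`: an isometry of `M` fixing `x` whose differential at
`x` is minus the identity. -/
structure IsSymmetryAt (d : ℕ) (M : Type) [EMetricSpace M]
    [ChartedSpace (EuclideanSpace ℝ (Fin d)) M] (x : M) (s : M → M) : Prop where
  isometry : Isometry s
  fix : s x = x
  differential : mfderiv (𝓡 d) (𝓡 d) s x = -ContinuousLinearMap.id ℝ (EuclideanSpace ℝ (Fin d))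

/-- A finite set of points is antipodal if the symmetries at its points fix all its points. -/
def IsAntipodal (d : ℕ) {M : Type} [EMetricSpace M]
    [ChartedSpace (EuclideanSpace ℝ (Fin d)) M] (A : Finset M) : Prop :=
  ∀ x ∈ A, ∀ y ∈ A, ∀ s : M → M, IsSymmetryAt d M x s → s y = y

/-- The two-number: the supremum of the cardinalities of the antipodal sets. -/
noncomputable def twoNumber (d : ℕ) (M : Type) [EMetricSpace M]
    [ChartedSpace (EuclideanSpace ℝ (Fin d)) M] : ℕ∞ :=
  ⨆ A : {A : Finset M // IsAntipodal d A}, (A.1.card : ℕ∞)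

/-- The `i`-th Betti number of `M` with coefficients in the field `R`. -/
noncomputable def betti (R : Type) [Field R] (M : Type) [TopologicalSpace M] (i : ℕ) : ℕ :=
  Module.finrank R
    ((((AlgebraicTopology.singularHomologyFunctor (ModuleCat.{0} R) i).obj
      (ModuleCat.of R R)).obj (TopCat.of M) : ModuleCat.{0} R) : Type)

theorem own_metric (d : ℕ) (M : Type) [MetricSpace M]
    [ChartedSpace (EuclideanSpace ℝ (Fin d)) M]
    [IsManifold (𝓡 d) ∞ M]
    [RiemannianBundle (fun x : M ↦ TangentSpace (𝓡 d) x)]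
    [IsContMDiffRiemannianBundle (𝓡 d) ∞ (EuclideanSpace ℝ (Fin d))
      (fun x : M ↦ TangentSpace (𝓡 d) x)]
    [IsRiemannianManifold (𝓡 d) M]
    [CompactSpace M] [ConnectedSpace M]
    (hsym : ∀ x : M, ∃ s : M → M, IsSymmetryAt d M x s) (A : Finset M) (hA : IsAntipodal d A) :
    A.card ≤ ∑ i ∈ Finset.range (d + 1), betti (ZMod 2) M i ∧
    (∑ i ∈ Finset.range (d + 1), betti ℝ M i < A.card →
      ∃ i : ℕ, ∃ g : ((((AlgebraicTopology.singularHomologyFunctor (ModuleCat.{0} ℤ) i).obj
            (ModuleCat.of ℤ ℤ)).obj (TopCat.of M) : ModuleCat.{0} ℤ) : Type),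
        addOrderOf g = 2) := by
  choose s hs using hsym
  have hs' : ∀ x : M, Isometry (s x) ∧ s x x = x ∧
      mfderiv (𝓡 d) (𝓡 d) (s x) x = -ContinuousLinearMap.id ℝ (EuclideanSpace ℝ (Fin d)) :=
    fun x => ⟨(hs x).isometry, (hs x).fix, (hs x).differential⟩
  have hA' : ∀ x ∈ A, ∀ y ∈ A, s x y = y := fun x hx y hy => hA x hx y hy (s x) (hs x)
  obtain ⟨h1, h2, h3⟩ := antipodal_structure d M s hs' A hA'
  exact ⟨card_le_of_structure d M s (fun x => (hs' x).1) A hA' h1 h2 h3,
    main_of_structure d M s (fun x => (hs' x).1) A hA' h1 h2 h3⟩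

end Pool.Agent.W_MP_6d5819_gt
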