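import Pool.Agent.W_MP_6d5819_gt.Tuple

set_option autoImplicit false

/-! Mesh estimates for the barycentric subdivision of tuple chains. -/

namespace Pool.Agent.W_MP_6d5819_gt

variable (R : Type) [CommRing R] {m m' : ℕ}

/-- Tuple chains of tuples with `k` entries. -/
noncomputable def tin (k : ℕ) (P : Set (Fin k → Simp m)) : Submodule R (TC R m) :=
  Submodule.span R ((fun v : Fin k → Simp m => (Finsupp.single (⟨k, v⟩ : Tup m) (1 : R))) '' P)

theorem single_mem_tin {k : ℕ} {P : Set (Fin k → Simp m)} {v : Fin k → Simp m} (hv : v ∈ P) (r : R) :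
    Finsupp.single (⟨k, v⟩ : Tup m) r ∈ tin R k P := by
  rw [single_eq_smul]
  exact Submodule.smul_mem _ _ (Submodule.subset_span ⟨v, hv, rfl⟩)

theorem tin_mono {k : ℕ} {P Q : Set (Fin k → Simp m)} (h : P ⊆ Q) : tin R k P ≤ tin R k Q :=
  Submodule.span_mono (Set.image_mono h)

theorem map_tin_le {k : ℕ} {P : Set (Fin k → Simp m)} {M : Type} [AddCommMonoid M] [Module R M]
    (f : TC R m →ₗ[R] M) (N : Submodule R M)
    (h : ∀ v ∈ P, f (Finsupp.single (⟨k, v⟩ : Tup m) 1) ∈ N) {c : TC R m} (hc : c ∈ tin R k P) :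
    f c ∈ N := by
  have h1 : tin R k P ≤ N.comap f := by
    rw [tin, Submodule.span_le]
    rintro _ ⟨v, hv, rfl⟩
    exact h v hv
  exact h1 hc

/-- Points of the hull of a tuple. -/
def hull {k : ℕ} (v : Fin k → Simp m) : Set (Simp m) := Set.range (aff v)

theorem hull_face {k : ℕ} (v : Fin (k + 1) → Simp m) (i : Fin (k + 1)) :
    hull (fun j => v (i.succAbove j)) ⊆ hull v := by
  rintro _ ⟨s, rfl⟩
  refine ⟨aff (fun j => vtx (i.succAbove j)) s, ?_⟩
  rw [aff_aff]
  simp

/-- Tuples with points in the hull of `v` and mutual distances at most `δ`. -/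
def smallIn {l : ℕ} (v : Fin l → Simp m) (k : ℕ) (δ : ℝ) : Set (Fin k → Simp m) :=
  {w | (∀ i, w i ∈ hull v) ∧ ∀ i j, dist (w i) (w j) ≤ δ}

/-- Tuples with mutual distances at most `δ`. -/
def small (m k : ℕ) (δ : ℝ) : Set (Fin k → Simp m) := {w | ∀ i j, dist (w i) (w j) ≤ δ}

theorem dist_simp_eq (x y : Simp m) : dist x y = dist (x : Fin m → ℝ) (y : Fin m → ℝ) := rfl

theorem coe_aff {k : ℕ} (v : Fin k → Simp m) (s : Simp k) :
    ((aff v s : Simp m) : Fin m → ℝ) = ∑ i, s i • (v i : Fin m → ℝ) := by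
  funext j
  rw [aff_apply]
  simp

theorem dist_aff_le {k : ℕ} (v : Fin k → Simp m) (s : Simp k) (p : Simp m) (δ : ℝ)
    (h : ∀ i, dist p (v i) ≤ δ) : dist p (aff v s) ≤ δ := by
  have h1 : ((p : Simp m) : Fin m → ℝ) - ((aff v s : Simp m) : Fin m → ℝ) =
      ∑ i, s i • (((p : Simp m) : Fin m → ℝ) - (v i : Fin m → ℝ)) := by
    simp_rw [smul_sub]
    rw [Finset.sum_sub_distrib, coe_aff, ← Finset.sum_smul]
    have h2 : ∑ i, s i = 1 := s.2.2
    rw [h2, one_smul]
  have key : ‖((p : Simp m) : Fin m → ℝ) - ((aff v s : Simp m) : Fin m → ℝ)‖ ≤ δ := by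
    rw [h1]
    refine (norm_sum_le _ _).trans ?_
    have h3 : ∀ i ∈ (Finset.univ : Finset (Fin k)),
        ‖s i • (((p : Simp m) : Fin m → ℝ) - (v i : Fin m → ℝ))‖ ≤ s i * δ := by
      intro i _
      have hsi : 0 ≤ s i := s.2.1 i
      rw [norm_smul, Real.norm_of_nonneg hsi]
      refine mul_le_mul_of_nonneg_left ?_ hsi
      rw [← dist_eq_norm]
      exact h i
    refine (Finset.sum_le_sum h3).trans ?_
    rw [← Finset.sum_mul]
    have h2 : ∑ i, s i = 1 := s.2.2
    rw [h2, one_mul]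
  rwa [dist_simp_eq, dist_eq_norm]

theorem dist_bary_le {k : ℕ} (v : Fin (k + 1) → Simp m) (δ : ℝ)
    (h : ∀ i j, dist (v i) (v j) ≤ δ) (j : Fin (k + 1)) :
    dist (bary v) (v j) ≤ (k : ℝ) / (k + 1) * δ := by
  have hk : (0 : ℝ) < (k : ℝ) + 1 := by positivity
  have h1 : ((bary v : Simp m) : Fin m → ℝ) - (v j : Fin m → ℝ) =
      ∑ i, ((k : ℝ) + 1)⁻¹ • ((v i : Fin m → ℝ) - (v j : Fin m → ℝ)) := by
    rw [bary, coe_aff, ← Finset.smul_sum, Finset.sum_sub_distrib, smul_sub]
    congr 1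
    · rw [Finset.smul_sum]
      refine Finset.sum_congr rfl fun i _ => ?_
      congr 1
      change (Fintype.card (Fin (k + 1)) : ℝ)⁻¹ = _
      simp
    · simp only [Finset.sum_const, Finset.card_univ, Fintype.card_fin]
      rw [← Nat.cast_smul_eq_nsmul ℝ, smul_smul]
      push_cast
      rw [inv_mul_cancel₀ hk.ne', one_smul]
  have key : ‖((bary v : Simp m) : Fin m → ℝ) - (v j : Fin m → ℝ)‖ ≤ (k : ℝ) / (k + 1) * δ := by
    rw [h1]
    refine (norm_sum_le _ _).trans ?_
    have h3 : ∀ i ∈ (Finset.univ : Finset (Fin (k + 1))),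
        ‖((k : ℝ) + 1)⁻¹ • ((v i : Fin m → ℝ) - (v j : Fin m → ℝ))‖ ≤
          if i = j then 0 else ((k : ℝ) + 1)⁻¹ * δ := by
      intro i _
      split_ifs with hij
      · rw [hij]; simp
      · rw [norm_smul, Real.norm_of_nonneg (by positivity)]
        refine mul_le_mul_of_nonneg_left ?_ (by positivity)
        rw [← dist_eq_norm]
        exact h i j
    refine (Finset.sum_le_sum h3).trans ?_
    rw [Finset.sum_ite]
    simp only [Finset.sum_const_zero, zero_add, Finset.sum_const, nsmul_eq_mul]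
    rw [Finset.filter_ne' , Finset.card_erase_of_mem (Finset.mem_univ _)]
    simp only [Finset.card_univ, Fintype.card_fin, Nat.add_sub_cancel]
    rw [div_eq_mul_inv, mul_assoc]
  rwa [dist_simp_eq, dist_eq_norm]

theorem mem_hull_bary {k : ℕ} (v : Fin (k + 1) → Simp m) : bary v ∈ hull v := ⟨_, rfl⟩

theorem coneT_mem {k : ℕ} {P : Set (Fin k → Simp m)} {Q : Set (Fin (k + 1) → Simp m)} (p : Simp m)
    (h : ∀ v ∈ P, (Fin.cons p v : Fin (k + 1) → Simp m) ∈ Q) {c : TC R m} (hc : c ∈ tin R k P) :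
    coneT R p c ∈ tin R (k + 1) Q := by
  refine map_tin_le R _ _ ?_ hc
  intro v hv
  rw [coneT_single]
  exact single_mem_tin R (h v hv) 1

theorem sdS_mem (k : ℕ) (v : Fin (k + 1) → Simp m) (δ : ℝ) (hδ : 0 ≤ δ)
    (h : ∀ i j, dist (v i) (v j) ≤ δ) :
    sdS R (k + 1) v ∈ tin R (k + 1) (smallIn v (k + 1) ((k : ℝ) / (k + 1) * δ)) := by
  induction k with
  | zero =>
    rw [sdS]
    refine coneT_mem R (P := Set.univ) _ ?_ ?_
    · intro w _
      refine ⟨?_, ?_⟩
      · intro i
        fin_cases i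
        exact mem_hull_bary v
      · intro i j
        fin_cases i
        fin_cases j
        simp
    · refine Submodule.sum_mem _ fun i _ => Submodule.smul_mem _ _ ?_
      rw [sdS]
      exact single_mem_tin R (Set.mem_univ _) 1
  | succ k ih =>
    rw [sdS]
    refine coneT_mem R (P := smallIn v (k + 1) ((k : ℝ) / (k + 1) * δ)) _ ?_ ?_
    · intro w hw
      have hb : ∀ j, dist (bary v) (w j) ≤ ((k + 1 : ℕ) : ℝ) / ((k + 1 : ℕ) + 1) * δ := by
        intro j
        obtain ⟨s, hs⟩ := hw.1 j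
        rw [← hs]
        exact dist_aff_le v s (bary v) _ (dist_bary_le v δ h)
      have hb0 : 0 ≤ ((k + 1 : ℕ) : ℝ) / ((k + 1 : ℕ) + 1) * δ := by positivity
      have hle : (k : ℝ) / (k + 1) * δ ≤ ((k + 1 : ℕ) : ℝ) / ((k + 1 : ℕ) + 1) * δ := by
        refine mul_le_mul_of_nonneg_right ?_ hδ
        rw [div_le_div_iff₀ (by positivity) (by positivity)]
        push_cast
        nlinarith
      refine ⟨?_, ?_⟩
      · intro i
        refine Fin.cases ?_ (fun i => ?_) i
        · simpa using mem_hull_bary v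
        · simpa using hw.1 i
      · intro i j
        refine Fin.cases ?_ (fun i => ?_) i
        · refine Fin.cases ?_ (fun j => ?_) j
          · simpa using hb0
          · simpa using hb j
        · refine Fin.cases ?_ (fun j => ?_) j
          · rw [dist_comm]
            simpa using hb i
          · simpa using (hw.2 i j).trans hle
    · refine Submodule.sum_mem _ fun i _ => Submodule.smul_mem _ _ ?_
      have h1 := ih (fun j => v (i.succAbove j)) (fun a b => h _ _)
      refine tin_mono R ?_ h1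
      intro w hw
      exact ⟨fun a => hull_face v i (hw.1 a), hw.2⟩

theorem sd_small {k : ℕ} {δ : ℝ} (hδ : 0 ≤ δ) {c : TC R m} (hc : c ∈ tin R (k + 1) (small m (k + 1) δ)) :
    sd R c ∈ tin R (k + 1) (small m (k + 1) ((k : ℝ) / (k + 1) * δ)) := by
  refine map_tin_le R _ _ ?_ hc
  intro v hv
  rw [sd_single, one_smul]
  refine tin_mono R ?_ (sdS_mem R k v δ hδ hv)
  intro w hw
  exact hw.2

theorem sd_iter_small {k : ℕ} {δ : ℝ} (hδ : 0 ≤ δ) {c : TC R m}
    (hc : c ∈ tin R (k + 1) (small m (k + 1) δ)) (N : ℕ) :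
    ((sd R : TC R m →ₗ[R] TC R m)^[N]) c ∈
      tin R (k + 1) (small m (k + 1) (((k : ℝ) / (k + 1)) ^ N * δ)) := by
  induction N with
  | zero => simpa using hc
  | succ N ih =>
    rw [Function.iterate_succ_apply', pow_succ']
    have := sd_small R (k := k) (by positivity) ih
    rwa [← mul_assoc] at this

theorem tmS_mem (k : ℕ) (v : Fin k → Simp m) : tmS R k v ∈ tin R (k + 1) Set.univ := by
  induction k with
  | zero => rw [tmS]; exact Submodule.zero_mem _
  | succ k ih =>
    rw [tmS]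
    refine coneT_mem R (P := Set.univ) _ (fun _ _ => Set.mem_univ _) ?_
    refine Submodule.sub_mem _ (single_mem_tin R (Set.mem_univ _) 1)
      (Submodule.sum_mem _ fun i _ => Submodule.smul_mem _ _ ?_)
    exact ih _

end Pool.Agent.W_MP_6d5819_gt
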