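import Pool.Agent.W_MP_6d5819_gt.Defs

set_option autoImplicit false

/-! Chains of tuples of points of a simplex: boundary, cones, barycentric subdivision. -/

namespace Pool.Agent.W_MP_6d5819_gt

/-- Tuples of points of the simplex with `m` vertices. -/
abbrev Tup (m : ℕ) : Type := Σ k : ℕ, (Fin k → Simp m)

/-- Chains of tuples (augmented: the empty tuple is allowed). -/
abbrev TC (R : Type) [CommRing R] (m : ℕ) : Type := Tup m →₀ R

variable (R : Type) [CommRing R] {m m' : ℕ}

/-- Boundary of one tuple. -/
noncomputable def dTs : Tup m → TC R m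
  | ⟨0, _⟩ => 0
  | ⟨k + 1, v⟩ => ∑ i : Fin (k + 1), Finsupp.single ⟨k, fun j => v (i.succAbove j)⟩ ((-1 : R) ^ (i : ℕ))

/-- Boundary of tuple chains. -/
noncomputable def dT : TC R m →ₗ[R] TC R m := Finsupp.linearCombination R (dTs R)

/-- Adding a point in front. -/
noncomputable def coneT (p : Simp m) : TC R m →ₗ[R] TC R m :=
  Finsupp.lmapDomain R R (fun v : Tup m => (⟨v.1 + 1, Fin.cons p v.2⟩ : Tup m))

/-- Push forward of tuple chains. -/
noncomputable def pushT (f : Simp m → Simp m') : TC R m →ₗ[R] TC R m' :=
  Finsupp.lmapDomain R R (fun v : Tup m => (⟨v.1, fun i => f (v.2 i)⟩ : Tup m'))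

theorem dT_single_zero (v : Fin 0 → Simp m) (r : R) :
    dT R (Finsupp.single (⟨0, v⟩ : Tup m) r) = 0 := by
  simp [dT, dTs]

theorem dT_single_succ {k : ℕ} (v : Fin (k + 1) → Simp m) (r : R) :
    dT R (Finsupp.single (⟨k + 1, v⟩ : Tup m) r) =
      r • ∑ i : Fin (k + 1), Finsupp.single (⟨k, fun j => v (i.succAbove j)⟩ : Tup m)
        ((-1 : R) ^ (i : ℕ)) := by
  simp [dT, dTs]

theorem coneT_single (p : Simp m) {k : ℕ} (v : Fin k → Simp m) (r : R) :
    coneT R p (Finsupp.single (⟨k, v⟩ : Tup m) r) =
      Finsupp.single (⟨k + 1, Fin.cons p v⟩ : Tup m) r := by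
  simp [coneT]

theorem pushT_single (f : Simp m → Simp m') {k : ℕ} (v : Fin k → Simp m) (r : R) :
    pushT R f (Finsupp.single (⟨k, v⟩ : Tup m) r) =
      Finsupp.single (⟨k, fun i => f (v i)⟩ : Tup m') r := by
  simp [pushT]

theorem dT_coneT (p : Simp m) (c : TC R m) : dT R (coneT R p c) = c - coneT R p (dT R c) := by
  induction c using Finsupp.induction_linear with
  | zero => simp
  | add a b ha hb => simp only [map_add, ha, hb]; abel
  | single s r =>
    obtain ⟨k, v⟩ := s
    rw [coneT_single, dT_single_succ, Fin.sum_univ_succ]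
    have h0 : (fun j => (Fin.cons p v : Fin (k + 1) → Simp m) ((0 : Fin (k + 1)).succAbove j)) = v := by
      funext j
      simp
    cases k with
    | zero =>
      rw [dT_single_zero, h0]
      simp
    | succ k =>
      rw [dT_single_succ, map_smul, map_sum]
      simp_rw [coneT_single]
      rw [h0, smul_add, sub_eq_add_neg, ← smul_neg, ← Finset.sum_neg_distrib]
      congr 1
      · simp
      · congr 1
        refine Finset.sum_congr rfl fun i _ => ?_
        have h1 : (fun j => (Fin.cons p v : Fin (k + 2) → Simp m) ((i.succ).succAbove j)) =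
            Fin.cons p (fun j => v (i.succAbove j)) := by
          funext j
          refine Fin.cases ?_ (fun j => ?_) j
          · simp
          · simp
        rw [h1, ← Finsupp.single_neg]
        congr 1
        simp [pow_succ]

theorem dT_dT (c : TC R m) : dT R (dT R c) = 0 := by
  induction c using Finsupp.induction_linear with
  | zero => simp
  | add a b ha hb => simp only [map_add, ha, hb, add_zero]
  | single s r =>
    obtain ⟨k, v⟩ := s
    induction k with
    | zero => rw [dT_single_zero, map_zero]
    | succ k ih =>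
      have h : Finsupp.single (⟨k + 1, v⟩ : Tup m) r =
          coneT R (v 0) (Finsupp.single (⟨k, fun j => v j.succ⟩ : Tup m) r) := by
        rw [coneT_single]
        congr 1
        congr 1
        funext j
        refine Fin.cases ?_ (fun j => ?_) j <;> simp
      rw [h, dT_coneT, map_sub, dT_coneT, ih]
      simp

theorem coneT_pushT (f : Simp m → Simp m') (p : Simp m) (c : TC R m) :
    pushT R f (coneT R p c) = coneT R (f p) (pushT R f c) := by
  induction c using Finsupp.induction_linear with
  | zero => simp
  | add a b ha hb => simp only [map_add, ha, hb]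
  | single s r =>
    obtain ⟨k, v⟩ := s
    rw [coneT_single, pushT_single, pushT_single, coneT_single]
    congr 2
    funext j
    refine Fin.cases ?_ (fun j => ?_) j <;> simp

theorem dT_pushT (f : Simp m → Simp m') (c : TC R m) :
    dT R (pushT R f c) = pushT R f (dT R c) := by
  induction c using Finsupp.induction_linear with
  | zero => simp
  | add a b ha hb => simp only [map_add, ha, hb]
  | single s r =>
    obtain ⟨k, v⟩ := s
    rw [pushT_single]
    cases k with
    | zero => rw [dT_single_zero, dT_single_zero, map_zero]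
    | succ k =>
      rw [dT_single_succ, dT_single_succ, map_smul, map_sum]
      simp_rw [pushT_single]

/-- Barycenter of a nonempty tuple. -/
noncomputable def bary {k : ℕ} (v : Fin (k + 1) → Simp m) : Simp m :=
  aff v (stdSimplex.barycenter : Simp (k + 1))

theorem aff_bary {k : ℕ} (w : Fin m → Simp m') (v : Fin (k + 1) → Simp m) :
    aff w (bary v) = bary (fun i => aff w (v i)) := by
  rw [bary, aff_aff, bary]

/-- Barycentric subdivision of one tuple. -/
noncomputable def sdS : (k : ℕ) → (Fin k → Simp m) → TC R m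
  | 0, v => Finsupp.single ⟨0, v⟩ 1
  | k + 1, v => coneT R (bary v) (∑ i : Fin (k + 1), (-1 : R) ^ (i : ℕ) •
      sdS k (fun j => v (i.succAbove j)))

/-- Barycentric subdivision of tuple chains. -/
noncomputable def sd : TC R m →ₗ[R] TC R m :=
  Finsupp.linearCombination R (fun v : Tup m => sdS R v.1 v.2)

/-- The homotopy on one tuple. -/
noncomputable def tmS : (k : ℕ) → (Fin k → Simp m) → TC R m
  | 0, _ => 0
  | k + 1, v => coneT R (bary v) (Finsupp.single ⟨k + 1, v⟩ 1 -
      ∑ i : Fin (k + 1), (-1 : R) ^ (i : ℕ) • tmS k (fun j => v (i.succAbove j)))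

/-- The homotopy between subdivision and the identity on tuple chains. -/
noncomputable def tm : TC R m →ₗ[R] TC R m :=
  Finsupp.linearCombination R (fun v : Tup m => tmS R v.1 v.2)

theorem sd_single {k : ℕ} (v : Fin k → Simp m) (r : R) :
    sd R (Finsupp.single (⟨k, v⟩ : Tup m) r) = r • sdS R k v := by
  simp [sd]

theorem tm_single {k : ℕ} (v : Fin k → Simp m) (r : R) :
    tm R (Finsupp.single (⟨k, v⟩ : Tup m) r) = r • tmS R k v := by
  simp [tm]

theorem sdS_succ {k : ℕ} (v : Fin (k + 1) → Simp m) :
    sdS R (k + 1) v = coneT R (bary v) (sd R (dT R (Finsupp.single (⟨k + 1, v⟩ : Tup m) 1))) := by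
  rw [dT_single_succ, one_smul, map_sum]
  simp_rw [sd_single]
  rw [sdS]

theorem tmS_succ {k : ℕ} (v : Fin (k + 1) → Simp m) :
    tmS R (k + 1) v = coneT R (bary v) (Finsupp.single (⟨k + 1, v⟩ : Tup m) 1 -
      tm R (dT R (Finsupp.single (⟨k + 1, v⟩ : Tup m) 1))) := by
  rw [dT_single_succ, one_smul, map_sum]
  simp_rw [tm_single]
  rw [tmS]

theorem single_eq_smul (s : Tup m) (r : R) :
    (Finsupp.single s r : TC R m) = r • Finsupp.single s 1 := by
  rw [Finsupp.smul_single, smul_eq_mul, mul_one]

theorem dT_sdS (k : ℕ) (v : Fin k → Simp m) :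
    dT R (sdS R k v) = sd R (dT R (Finsupp.single (⟨k, v⟩ : Tup m) 1)) := by
  induction k with
  | zero => rw [dT_single_zero, map_zero, sdS, dT_single_zero]
  | succ k ih =>
    rw [sdS_succ, dT_coneT]
    have h : dT R (sd R (dT R (Finsupp.single (⟨k + 1, v⟩ : Tup m) 1))) =
        sd R (dT R (dT R (Finsupp.single (⟨k + 1, v⟩ : Tup m) 1))) := by
      rw [dT_single_succ, one_smul, map_sum, map_sum, map_sum, map_sum]
      refine Finset.sum_congr rfl fun i _ => ?_
      rw [sd_single, map_smul, ih, ← map_smul, ← map_smul, ← single_eq_smul]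
    rw [h, dT_dT, map_zero, map_zero, sub_zero]

theorem dT_sd (c : TC R m) : dT R (sd R c) = sd R (dT R c) := by
  induction c using Finsupp.induction_linear with
  | zero => simp
  | add a b ha hb => simp only [map_add, ha, hb]
  | single s r =>
    obtain ⟨k, v⟩ := s
    rw [sd_single, map_smul, dT_sdS, ← map_smul, ← map_smul, ← single_eq_smul]

theorem dT_tmS (k : ℕ) (v : Fin k → Simp m) :
    dT R (tmS R k v) + tm R (dT R (Finsupp.single (⟨k, v⟩ : Tup m) 1)) =
      Finsupp.single (⟨k, v⟩ : Tup m) 1 - sdS R k v := by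
  induction k with
  | zero => rw [dT_single_zero, map_zero, tmS, map_zero, sdS]; simp
  | succ k ih =>
    have h : dT R (tm R (dT R (Finsupp.single (⟨k + 1, v⟩ : Tup m) 1))) =
        dT R (Finsupp.single (⟨k + 1, v⟩ : Tup m) 1) -
          sd R (dT R (Finsupp.single (⟨k + 1, v⟩ : Tup m) 1)) -
          tm R (dT R (dT R (Finsupp.single (⟨k + 1, v⟩ : Tup m) 1))) := by
      rw [dT_single_succ, one_smul, map_sum, map_sum, map_sum, map_sum, map_sum,
        ← Finset.sum_sub_distrib, ← Finset.sum_sub_distrib]
      refine Finset.sum_congr rfl fun i _ => ?_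
      have h1 := ih (fun j => v (i.succAbove j))
      rw [single_eq_smul R _ ((-1 : R) ^ (i : ℕ)), map_smul, map_smul, map_smul, map_smul, map_smul,
        tm_single, sd_single, one_smul, one_smul, ← smul_sub, ← smul_sub, ← h1]
      congr 1
      abel
    rw [dT_dT, map_zero, sub_zero] at h
    rw [tmS_succ, dT_coneT, map_sub, h, sdS_succ]
    abel_nf

theorem dT_tm (c : TC R m) : dT R (tm R c) + tm R (dT R c) = c - sd R c := by
  induction c using Finsupp.induction_linear with
  | zero => simp
  | add a b ha hb =>
    simp only [map_add]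
    rw [show dT R (tm R a) + dT R (tm R b) + (tm R (dT R a) + tm R (dT R b)) =
      (dT R (tm R a) + tm R (dT R a)) + (dT R (tm R b) + tm R (dT R b)) by abel, ha, hb]
    abel
  | single s r =>
    obtain ⟨k, v⟩ := s
    rw [sd_single, tm_single, map_smul, single_eq_smul, map_smul, map_smul, ← smul_add, dT_tmS,
      smul_sub]

theorem pushT_sdS (w : Fin m → Simp m') (k : ℕ) (v : Fin k → Simp m) :
    pushT R (aff w) (sdS R k v) = sdS R k (fun i => aff w (v i)) := by
  induction k with
  | zero => rw [sdS, sdS, pushT_single]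
  | succ k ih =>
    rw [sdS, sdS, coneT_pushT, aff_bary, map_sum]
    simp_rw [map_smul, ih]

theorem pushT_sd (w : Fin m → Simp m') (c : TC R m) :
    pushT R (aff w) (sd R c) = sd R (pushT R (aff w) c) := by
  induction c using Finsupp.induction_linear with
  | zero => simp
  | add a b ha hb => simp only [map_add, ha, hb]
  | single s r =>
    obtain ⟨k, v⟩ := s
    rw [sd_single, map_smul, pushT_sdS, pushT_single, sd_single]

theorem pushT_tmS (w : Fin m → Simp m') (k : ℕ) (v : Fin k → Simp m) :
    pushT R (aff w) (tmS R k v) = tmS R k (fun i => aff w (v i)) := by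
  induction k with
  | zero => rw [tmS, tmS, map_zero]
  | succ k ih =>
    rw [tmS, tmS, coneT_pushT, aff_bary, map_sub, map_sum, pushT_single]
    simp_rw [map_smul, ih]

theorem pushT_tm (w : Fin m → Simp m') (c : TC R m) :
    pushT R (aff w) (tm R c) = tm R (pushT R (aff w) c) := by
  induction c using Finsupp.induction_linear with
  | zero => simp
  | add a b ha hb => simp only [map_add, ha, hb]
  | single s r =>
    obtain ⟨k, v⟩ := s
    rw [tm_single, map_smul, pushT_tmS, pushT_single, tm_single]

end Pool.Agent.W_MP_6d5819_gt
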